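import Pool.Agent.Lib.MP_be0380_co.S.Defs

/-!
# be0380 S.Lift: lifts to the real numbers

PROOF. Characters `l ∈ ZMod p` (p of them); for every `c` in the list of the `≤ |X| + |Y|` elements `c - x` (`c ∈ X`), `c - y`
(`c ∈ Y`) record the number `floor (9 * (c l).val / p) ∈ {0..8}`. As `9^(|X|+|Y|) < p` two different `l, l'` have the same
record; `mu = l - l' ≠ 0`; then `((c - x) mu)` has a representative in `(-p/9, p/9)`. Let `ψ c = ((c - x) * mu).valMinAbs`,
`ψ' c = ((c - y) * mu).valMinAbs` (as integers, cast to `ℝ`), `|ψ|, |ψ'| < p/8` on `X`, `Y`. Injective because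
`ZMod p` is a field. If `u, u - z ∈ X`, `w, w + z ∈ Y`: `ψ u + ψ' w - ψ (u-z) - ψ' (w+z)` is `0` mod `p` and of absolute value
`< p/2`.
-/

set_option autoImplicit false

open Finset

namespace Pool.MPbe0380

/-- same record: the difference has a small representative -/
private theorem lift_small {p : ℕ} [Fact p.Prime] (a b : ZMod p)
    (h : 9 * a.val / p = 9 * b.val / p) : 9 * |(a - b).valMinAbs| < p := by
  have hp : 0 < p := (Fact.out : p.Prime).pos
  have : NeZero p := ⟨hp.ne'⟩
  have ha := Nat.div_add_mod (9 * a.val) p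
  have hb := Nat.div_add_mod (9 * b.val) p
  have ha' := Nat.mod_lt (9 * a.val) hp
  have hb' := Nat.mod_lt (9 * b.val) hp
  rw [h] at ha
  have h1 : |(9 : ℤ) * ((a.val : ℤ) - b.val)| < p := by
    generalize 9 * a.val % p = r at ha ha'
    generalize 9 * b.val % p = r' at hb hb'
    generalize p * (9 * b.val / p) = k at ha hb
    rw [abs_lt]
    constructor <;> omega
  have h2 : ((a - b).valMinAbs).natAbs ≤ ((a.val : ℤ) - b.val).natAbs := by
    have hc : (((a.val : ℤ) - (b.val : ℤ) : ℤ) : ZMod p) = a - b := by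
      push_cast
      rw [ZMod.natCast_zmod_val, ZMod.natCast_zmod_val]
    have h3 : ((a - b).valMinAbs).natAbs = (a - b).valMinAbs.natAbs := rfl
    rw [← hc]
    by_contra hlt
    push Not at hlt
    have h4 := ZMod.natAbs_min_of_le_div_two p (((((a.val : ℤ) - (b.val : ℤ) : ℤ) : ZMod p)).valMinAbs)
      ((a.val : ℤ) - b.val) (by rw [ZMod.coe_valMinAbs]) (by
        exact ZMod.natAbs_valMinAbs_le _)
    omega
  have h5 : |(a - b).valMinAbs| ≤ |(a.val : ℤ) - b.val| := by
    rw [Int.abs_eq_natAbs, Int.abs_eq_natAbs]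
    exact_mod_cast h2
  rw [abs_mul] at h1
  have : |(9 : ℤ)| = 9 := by norm_num
  rw [this] at h1
  linarith

theorem lift_ex {p : ℕ} [Fact p.Prime] (X Y : Finset (ZMod p)) (x y : ZMod p)
    (h : 9 ^ (X.card + Y.card) < p) :
    ∃ ψ ψ' : ZMod p → ℝ, Set.InjOn ψ X ∧ Set.InjOn ψ' Y ∧
      ∀ u w z, u ∈ X → u - z ∈ X → w ∈ Y → w + z ∈ Y → ψ u + ψ' w = ψ (u - z) + ψ' (w + z) := by
  have hp : 0 < p := (Fact.out : p.Prime).pos
  have : NeZero p := ⟨hp.ne'⟩
  -- the record
  let fl : ZMod p → Fin 9 := fun c => ⟨9 * c.val / p, by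
    rw [Nat.div_lt_iff_lt_mul hp]
    have := ZMod.val_lt c
    omega⟩
  let R : ZMod p → ((X ⊕ Y) → Fin 9) := fun l i =>
    match i with
    | Sum.inl c => fl ((c.1 - x) * l)
    | Sum.inr c => fl ((c.1 - y) * l)
  have hcard : Fintype.card ((X ⊕ Y) → Fin 9) < Fintype.card (ZMod p) := by
    rw [Fintype.card_fun, Fintype.card_sum, ZMod.card, Fintype.card_fin, Fintype.card_coe,
      Fintype.card_coe]
    exact h
  obtain ⟨l, l', hne, hR⟩ := Fintype.exists_ne_map_eq_of_card_lt R hcard
  have hmu : l - l' ≠ 0 := sub_ne_zero.mpr hne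
  have hX : ∀ c ∈ X, 9 * |((c - x) * (l - l')).valMinAbs| < (p : ℤ) := by
    intro c hc
    have h1 := congrFun hR (Sum.inl ⟨c, hc⟩)
    have h2 : 9 * ((c - x) * l).val / p = 9 * ((c - x) * l').val / p := congrArg Fin.val h1
    rw [mul_sub]
    exact lift_small _ _ h2
  have hY : ∀ c ∈ Y, 9 * |((c - y) * (l - l')).valMinAbs| < (p : ℤ) := by
    intro c hc
    have h1 := congrFun hR (Sum.inr ⟨c, hc⟩)
    have h2 : 9 * ((c - y) * l).val / p = 9 * ((c - y) * l').val / p := congrArg Fin.val h1
    rw [mul_sub]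
    exact lift_small _ _ h2
  refine ⟨fun c => (((c - x) * (l - l')).valMinAbs : ℝ), fun c => (((c - y) * (l - l')).valMinAbs : ℝ),
    ?_, ?_, ?_⟩
  · intro c _ d _ hcd
    have h1 : ((c - x) * (l - l')).valMinAbs = ((d - x) * (l - l')).valMinAbs := by
      dsimp only at hcd
      exact_mod_cast hcd
    have h2 := ZMod.injective_valMinAbs h1
    have h3 := mul_right_cancel₀ hmu h2
    exact sub_left_injective h3
  · intro c _ d _ hcd
    have h1 : ((c - y) * (l - l')).valMinAbs = ((d - y) * (l - l')).valMinAbs := by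
      dsimp only at hcd
      exact_mod_cast hcd
    have h2 := ZMod.injective_valMinAbs h1
    have h3 := mul_right_cancel₀ hmu h2
    exact sub_left_injective h3
  · intro u w z hu huz hw hwz
    have b1 := hX u hu
    have b2 := hX _ huz
    have b3 := hY w hw
    have b4 := hY _ hwz
    have key : ((u - x) * (l - l')).valMinAbs + ((w - y) * (l - l')).valMinAbs
        - ((u - z - x) * (l - l')).valMinAbs - ((w + z - y) * (l - l')).valMinAbs = 0 := by
      apply Int.eq_zero_of_abs_lt_dvd (m := (p : ℤ))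
      · rw [← ZMod.intCast_zmod_eq_zero_iff_dvd]
        push_cast
        ring
      · have c1 := abs_le.mp (le_refl |((u - x) * (l - l')).valMinAbs|)
        have c2 := abs_le.mp (le_refl |((u - z - x) * (l - l')).valMinAbs|)
        have c3 := abs_le.mp (le_refl |((w - y) * (l - l')).valMinAbs|)
        have c4 := abs_le.mp (le_refl |((w + z - y) * (l - l')).valMinAbs|)
        rw [abs_lt]
        constructor <;> linarith [c1.1, c1.2, c2.1, c2.2, c3.1, c3.2, c4.1, c4.2]
    have key' : ((u - x) * (l - l')).valMinAbs + ((w - y) * (l - l')).valMinAbs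
        = ((u - z - x) * (l - l')).valMinAbs + ((w + z - y) * (l - l')).valMinAbs := by linarith
    dsimp only
    exact_mod_cast key'

end Pool.MPbe0380
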