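import Pool.Agent.Lib.MP_be0380_co.S.Twin
import Pool.Agent.Lib.MP_be0380_co.S.Lift
import Pool.Agent.Lib.MP_be0380_co.M.Machine

/-!
# be0380 S.BadLevel: there is no bad level (assembly of the system of (6.12))

The knowledges are the laws `q`, `cost q = ent q / 2`, `N q g = hel q (tau g q)`, `kap q x` the loss; `join` is
the convolution; `D = m l`, `h = m l / B^24010`, `Ck = 8 l`.
-/

set_option autoImplicit false

open Finset

namespace Pool.MPbe0380

namespace SD

variable {p : ℕ} [Fact p.Prime] (S : SD p)

private theorem m_pos : 0 < S.m := by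
  obtain ⟨a, ha⟩ := S.J_pos
  unfold SD.m
  exact sum_pos' (fun x _ => S.J_nonneg x) ⟨a, mem_univ a, ha⟩

private theorem N_tri {q : ZMod p → ℝ} (hq : IsLaw q) (c c' : ZMod p) :
    hel q (tau (c - c') q) ≤ hel q (tau c q) + hel q (tau c' q) := by
  rw [sub_eq_add_neg]
  calc hel q (tau (c + -c') q) ≤ hel q (tau c q) + hel q (tau (-c') q) := hel_shift_add hq c (-c')
    _ = _ := by rw [hel_shift_neg]

theorem bad_level (hA : NUS S.A) {B : ℕ} (hB1 : 1000 * (1 + S.l) ≤ B) (hB2 : 2 ≤ B * S.l)
    (hTh : (S.A.card : ℝ) * (B : ℝ) ^ 25000 ≤ phi S.l * S.m ^ 2) (hm : (B : ℝ) ^ 1000 ≤ S.m) :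
    False := by
  classical
  have hl := S.l_pos
  have hmp := S.m_pos
  have hBR : (1000 : ℝ) ≤ B := by nlinarith
  have hB1000 : 1000 ≤ B := by exact_mod_cast hBR
  have hB0 : (0 : ℝ) < B := by linarith
  have hBone : (1 : ℝ) ≤ B := by linarith
  have hp1 : (1 : ℝ) < p := by exact_mod_cast (Fact.out : p.Prime).one_lt
  have hlogp : 0 < Real.log p := Real.log_pos hp1
  have hG0w := S.G0_weight hB1 hB2 hTh
  have hG0J : ∀ x ∈ S.G0 B, 0 < S.J x ∧ ((S.X0 B x).card : ℝ) * (B : ℝ) ^ 24010 ≤ S.m * S.l := by
    intro x hx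
    unfold G0 at hx
    exact (mem_filter.mp hx).2
  have hX0card : ∀ x ∈ S.G0 B, ((S.X0 B x).card : ℝ) ≤ S.m * S.l / (B : ℝ) ^ 24010 := by
    intro x hx
    rw [le_div_iff₀ (pow_pos hB0 _)]
    exact (hG0J x hx).2
  have hX0self : ∀ x, 0 < S.J x → x ∈ S.X0 B x := by
    intro x hx
    unfold X0
    rw [mem_filter]
    refine ⟨S.mem_A hx, ?_⟩
    rw [sub_self, S.dist_zero, zero_mul]
    exact zero_le_one
  have hDB : ∀ n : ℕ, 1 ≤ n → (B : ℝ) ≤ (B : ℝ) ^ n := fun n hn =>
    by simpa using pow_le_pow_right₀ hBone hn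
  let Sy : PoolBe0380.M.Sys (ZMod p) :=
    { B := B
      D := S.m * S.l
      h := S.m * S.l / (B : ℝ) ^ 24010
      Ck := 8 * S.l
      A := S.A
      G0 := S.G0 B
      J := S.J
      dist := S.dist
      K := {q : ZMod p → ℝ // IsLaw q}
      cost := fun q => ent q.1 / 2
      N := fun q g => hel q.1 (tau g q.1)
      kap := fun q x => S.kap q.1 x
      join := fun q q' => ⟨cv q.1 q'.1, q.2.cv q'.2⟩
      lst := fun E => ⟨(lst_exists E).choose, (lst_exists E).choose_spec.1⟩
      X0 := S.X0 B
      Pr := univ.filter (fun e : ZMod p × ZMod p => S.Ty B e.1 e.2)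
      D_pos := mul_pos hmp hl
      h_pos := div_pos (mul_pos hmp hl) (pow_pos hB0 _)
      Ck_nonneg := by positivity
      G0_sub := fun x hx => S.mem_A (hG0J x hx).1
      J_nonneg := fun x _ => S.J_nonneg x
      m0_pos := lt_of_lt_of_le (by positivity) hG0w
      dist_zero := S.dist_zero
      dist_neg := S.dist_neg
      dist_add := S.dist_add
      N_zero := by
        intro F
        show hel F.1 (tau 0 F.1) = 0
        rw [tau_zero, hel_self F.2]
      N_neg := by
        intro F g
        exact hel_shift_neg g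
      N_add := by
        intro F g g'
        exact hel_shift_add F.2 g g'
      kap_nonneg := fun F x _ => S.kap_nonneg F.2 x
      cost_join := by
        intro F F'
        show ent (cv F.1 F'.1) / 2 ≤ ent F.1 / 2 + ent F'.1 / 2
        have := ent_cv_le F.2 F'.2
        linarith
      N_join_left := by
        intro F F' g
        show hel (cv F.1 F'.1) (tau g (cv F.1 F'.1)) ≤ hel F.1 (tau g F.1)
        rw [tau_cv']
        exact hel_cv F.2 (F.2.tau g) F'.2
      N_join_right := by
        intro F F' g
        show hel (cv F.1 F'.1) (tau g (cv F.1 F'.1)) ≤ hel F'.1 (tau g F'.1)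
        rw [cv_comm F.1 F'.1, tau_cv']
        exact hel_cv F'.2 (F'.2.tau g) F.2
      kap_join := fun F F' x _ => S.kap_join F.2 F'.2 x
      cost_lst := by
        intro E
        show ent (lst_exists E).choose / 2 ≤ _
        have := (lst_exists E).choose_spec.2.1
        linarith
      N_lst := by
        intro E e he
        exact (lst_exists E).choose_spec.2.2 e he
      budget := by
        intro F
        have h1 : ∑ x ∈ S.G0 B, S.J x * S.kap F.1 x ≤ ∑ x, S.J x * S.kap F.1 x :=
          sum_le_sum_of_subset_of_nonneg (subset_univ _) fun x _ _ =>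
            mul_nonneg (S.J_nonneg x) (S.kap_nonneg F.2 x)
        have h2 := S.budget F.2
        have h3 : 0 ≤ ent F.1 := ent_nonneg F.2
        have h4 : 8 * S.l * (ent F.1 / 2 / (S.m * S.l)) * ∑ x ∈ S.G0 B, S.J x =
            4 * ent F.1 * ((∑ x ∈ S.G0 B, S.J x) / S.m) := by
          field_simp
          ring
        rw [h4]
        have h5 : 1 / 2 ≤ (∑ x ∈ S.G0 B, S.J x) / S.m := by
          rw [le_div_iff₀ hmp]
          linarith
        nlinarith
      Ck_le := by
        have := hDB 2400 (by norm_num)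
        linarith
      h_le := by
        have h1 : (1 : ℝ) ≤ (B : ℝ) ^ 24010 := one_le_pow₀ hBone
        have h2 : (1 : ℝ) ≤ ((B : ℝ) ^ 2400) ^ 10 := one_le_pow₀ (one_le_pow₀ hBone)
        have h3 : 0 < S.m * S.l := mul_pos hmp hl
        calc S.m * S.l / (B : ℝ) ^ 24010 ≤ S.m * S.l := div_le_self h3.le h1
          _ = 1 * (S.m * S.l) := (one_mul _).symm
          _ ≤ _ := mul_le_mul_of_nonneg_right h2 h3.le
      conf := by
        intro F x hx s hs hsB hk g g' hA' hg hN
        refine S.conf F.2 (hG0J x hx).1 hs ?_ hk hA' hg hN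
        have h1 : (s * (B : ℝ) ^ 6) ^ 40 ≤ 1 := by
          rw [mul_pow, ← pow_mul]
          exact hsB
        have h2 : s * (B : ℝ) ^ 6 ≤ 1 := by
          by_contra hcon
          push Not at hcon
          exact absurd h1 (not_le.mpr (one_lt_pow₀ hcon (by norm_num)))
        have h3 : s * B ≤ 1 := by
          have : (B : ℝ) ≤ (B : ℝ) ^ 6 := hDB 6 (by norm_num)
          nlinarith
        have h4 : s ≤ 1 / B := by
          rw [le_div_iff₀ hB0]
          exact h3
        have h5 : s ^ 2 ≤ 1 / (B : ℝ) ^ 2 := by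
          calc s ^ 2 ≤ (1 / (B : ℝ)) ^ 2 := pow_le_pow_left₀ hs.le h4 2
            _ = _ := by rw [div_pow, one_pow]
        have h6 : 9 * (1 + S.l) ≤ (B : ℝ) ^ 2 := by nlinarith
        calc 9 * (1 + S.l) * s ^ 2 ≤ (B : ℝ) ^ 2 * (1 / (B : ℝ) ^ 2) :=
              mul_le_mul h6 h5 (by positivity) (by positivity)
          _ = 1 := by field_simp
      X0_sub := by
        intro x _
        exact filter_subset _ _
      X0_card := hX0card
      X0_mem := by
        intro x _ c hc hd
        unfold X0
        rw [mem_filter]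
        refine ⟨hc, ?_⟩
        refine le_trans ?_ hd
        apply mul_le_mul_of_nonneg_left _ (S.dist_nonneg _)
        exact pow_le_pow_right₀ hBone (by norm_num)
      base := by
        intro x hx
        obtain ⟨E, hE⟩ : ∃ E : Finset (ZMod p × ℕ),
            E = (S.X0 B x).image (fun c => ((c, B ^ 2400 + 1) : ZMod p × ℕ)) := ⟨_, rfl⟩
        refine ⟨⟨(lst_exists E).choose, (lst_exists E).choose_spec.1⟩, ?_, ?_⟩
        · show ent (lst_exists E).choose / 2 * ((B : ℝ) ^ 2400) ^ 9 ≤ S.m * S.l
          have h1 := (lst_exists E).choose_spec.2.1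
          have h2 : ∑ e ∈ E, ((e.2 : ℝ) + 2) = ((S.X0 B x).card : ℝ) * ((B : ℝ) ^ 2400 + 3) := by
            rw [hE, sum_image]
            · simp only [sum_const, nsmul_eq_mul]
              push_cast
              ring
            · intro a _ b _ hab
              exact (Prod.mk.inj hab).1
          have h2' : 2 * ∑ e ∈ E, ((e.2 : ℝ) + 2) =
              2 * (((S.X0 B x).card : ℝ) * ((B : ℝ) ^ 2400 + 3)) := by rw [h2]
          have h1' := le_trans h1 (le_of_eq h2')
          have h3 := (hG0J x hx).2
          have hpow : (1 : ℝ) ≤ (B : ℝ) ^ 2400 := one_le_pow₀ hBone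
          have h4 : ent (lst_exists E).choose / 2 ≤ ((S.X0 B x).card : ℝ) * (4 * (B : ℝ) ^ 2400) := by
            have hc0 : (0 : ℝ) ≤ ((S.X0 B x).card : ℝ) := Nat.cast_nonneg _
            nlinarith
          have h5 : (4 : ℝ) * ((B : ℝ) ^ 2400) ^ 10 ≤ (B : ℝ) ^ 24010 := by
            rw [← pow_mul]
            have h6 : (4 : ℝ) ≤ (B : ℝ) ^ 10 := by
              have := hDB 10 (by norm_num)
              linarith
            calc (4 : ℝ) * (B : ℝ) ^ (2400 * 10) ≤ (B : ℝ) ^ 10 * (B : ℝ) ^ (2400 * 10) :=
                  mul_le_mul_of_nonneg_right h6 (by positivity)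
              _ = (B : ℝ) ^ 24010 := by rw [← pow_add]
          calc ent (lst_exists E).choose / 2 * ((B : ℝ) ^ 2400) ^ 9
              ≤ ((S.X0 B x).card : ℝ) * (4 * (B : ℝ) ^ 2400) * ((B : ℝ) ^ 2400) ^ 9 :=
                mul_le_mul_of_nonneg_right h4 (by positivity)
            _ = ((S.X0 B x).card : ℝ) * (4 * ((B : ℝ) ^ 2400) ^ 10) := by ring
            _ ≤ ((S.X0 B x).card : ℝ) * (B : ℝ) ^ 24010 :=
                mul_le_mul_of_nonneg_left h5 (Nat.cast_nonneg _)
            _ ≤ _ := h3
        · intro c hc c' hc'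
          have hs := (lst_exists E).choose_spec
          have hcE : ((c, B ^ 2400 + 1) : ZMod p × ℕ) ∈ E := by
            rw [hE]
            exact mem_image_of_mem _ hc
          have hcE' : ((c', B ^ 2400 + 1) : ZMod p × ℕ) ∈ E := by
            rw [hE]
            exact mem_image_of_mem _ hc'
          have h1 := hs.2.2 _ hcE
          have h2 := hs.2.2 _ hcE'
          have h3 := N_tri hs.1 c c'
          have h4 : (1 / 2 : ℝ) ^ (B ^ 2400 + 1) = (1 / 2 : ℝ) ^ (B ^ 2400) / 2 := by
            rw [pow_succ]
            ring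
          show hel (lst_exists E).choose (tau (c - c') (lst_exists E).choose) ≤ _
          simp only at h1 h2
          rw [h4] at h1 h2
          linarith
      Pr_sub := by
        intro e he
        rw [mem_filter] at he
        rw [mem_product]
        exact ⟨he.2.1, he.2.2.1⟩
      Pr_symm := by
        intro x y h
        rw [mem_filter] at h ⊢
        exact ⟨mem_univ _, S.Ty_symm h.2⟩
      Pr_weight := by
        have := S.Ty_weight hB1 hB2 hTh hm
        exact this
      twin := by
        intro x y hxy u hu w hw hux hwy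
        rw [mem_filter] at hxy
        exact S.twin hA hB1 hxy.2 hu hw hux hwy
      lift := by
        intro x y hxy
        rw [mem_filter] at hxy
        have hx := hxy.2.1
        have hy := hxy.2.2.1
        have h1 := hX0card x hx
        have h2 := hX0card y hy
        have h3 := S.m_l_le
        have h4 : (1000 : ℝ) ≤ (B : ℝ) ^ 24010 := le_trans hBR (hDB 24010 (by norm_num))
        have h5 : S.m * S.l / (B : ℝ) ^ 24010 ≤ 2 * Real.log p / 1000 := by
          apply div_le_div₀ (by positivity) h3 (by norm_num) h4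
        have hnum : (((S.X0 B x).card + (S.X0 B y).card : ℕ) : ℝ) * Real.log 9 < Real.log p := by
          have h9 : Real.log 9 < 2.3 := by
            have : (9 : ℝ) = 3 ^ 2 := by norm_num
            rw [this, Real.log_pow]
            have h3' : Real.log 3 < 1.1 := by
              have : Real.log 3 < 1.0986122888 := Real.log_three_lt_d9
              linarith
            push_cast
            linarith
          have h90 : 0 < Real.log 9 := Real.log_pos (by norm_num)
          push_cast
          have h6 : ((S.X0 B x).card : ℝ) + (S.X0 B y).card ≤ 4 * Real.log p / 1000 := by linarith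
          nlinarith
        have h9p : 9 ^ ((S.X0 B x).card + (S.X0 B y).card) < p := by
          have : ((9 ^ ((S.X0 B x).card + (S.X0 B y).card) : ℕ) : ℝ) < p := by
            push_cast
            rw [← Real.log_lt_log_iff (by positivity) (by linarith), Real.log_pow]
            exact hnum
          exact_mod_cast this
        obtain ⟨ψ, ψ', i1, i2, i3⟩ := lift_ex (S.X0 B x) (S.X0 B y) x y h9p
        exact ⟨ψ, ψ', i1, i2, fun u w z h1 h2 h3 h4 => i3 u w z h1 h2 h3 h4⟩ }
  exact PoolBe0380.M.no_sys Sy (by show 2 ≤ B; omega)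

end SD

end Pool.MPbe0380
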