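import Pool.Agent.Lib.MP_be0380_co.S.Defs

/-!
# be0380 S.ChNum: numbers

PROOFS. `num_K`: for `l ≥ ε/2`, `min (l^2) 1 ≥ min ((ε/2)^2) 1 =: c > 0`; `(1+l)^25008 ≤ C e^((1+l)/2)` with
`C = 25008! 2^25008` (`x^n/n! ≤ e^x`, `Real.pow_div_factorial_le_exp`), `l^8 ≤ (1+l)^8`. So the left side is
`≤ 4 (2000 (1+4/ε))^25000 C e^(1/2) e^(l/2) ≤ K^2 c e^(l/2)` for `K` large.
`num_r`: as `r → ∞`, `L = log (1 + r^3)` satisfies `L^N / r → 0` for every `N` (`isLittleO_log_rpow_atTop` or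
`L ≤ 1 + 3 log (1+r)`). Both statements are `eventually`.
-/

set_option autoImplicit false

open Finset

namespace Pool.MPbe0380

private theorem ChNum_gen (N : ℕ) (ε Q : ℝ) (hε : 0 < ε) (hQ : 0 ≤ Q) : ∃ K : ℝ, 1 ≤ K ∧
    ∀ l : ℝ, ε / 2 ≤ l → Q * (1 + l) ^ N ≤ K ^ 2 * phi l := by
  have hc : 0 < min ((ε / 2) ^ 2) 1 := by positivity
  refine ⟨1 + Q * ((N.factorial : ℝ) * 2 ^ N) * Real.exp (1 / 2) / min ((ε / 2) ^ 2) 1, ?_, ?_⟩
  · have : 0 ≤ Q * ((N.factorial : ℝ) * 2 ^ N) * Real.exp (1 / 2) / min ((ε / 2) ^ 2) 1 := by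
      positivity
    linarith
  · intro l hl
    have hl0 : 0 < l := by linarith
    set W := Q * ((N.factorial : ℝ) * 2 ^ N) * Real.exp (1 / 2) / min ((ε / 2) ^ 2) 1 with hW
    have hW0 : 0 ≤ W := by positivity
    have h1 : (1 + l) ^ N ≤ (N.factorial : ℝ) * 2 ^ N * (Real.exp (1 / 2) * Real.exp (l / 2)) := by
      have h2 := Real.pow_div_factorial_le_exp ((1 + l) / 2) (by positivity) N
      have h3 : (1 + l) ^ N = ((1 + l) / 2) ^ N / (N.factorial : ℝ) *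
          ((N.factorial : ℝ) * 2 ^ N) := by
        rw [div_pow]
        field_simp
      rw [h3, ← Real.exp_add, mul_comm]
      refine mul_le_mul_of_nonneg_left (h2.trans (le_of_eq ?_)) (by positivity)
      congr 1
      ring
    have h4 : min ((ε / 2) ^ 2) 1 ≤ min (l ^ 2) 1 :=
      min_le_min (pow_le_pow_left₀ (by positivity) hl 2) le_rfl
    calc Q * (1 + l) ^ N
        ≤ Q * ((N.factorial : ℝ) * 2 ^ N * (Real.exp (1 / 2) * Real.exp (l / 2))) :=
          mul_le_mul_of_nonneg_left h1 hQ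
      _ = W * (min ((ε / 2) ^ 2) 1 * Real.exp (l / 2)) := by
          rw [hW]
          field_simp
      _ ≤ (1 + W) ^ 2 * phi l := by
          unfold phi
          refine mul_le_mul (by nlinarith) ?_ (by positivity) (by positivity)
          exact mul_le_mul_of_nonneg_right h4 (Real.exp_pos _).le

theorem num_K (ε : ℝ) (hε : 0 < ε) : ∃ K : ℝ, 1 ≤ K ∧ ∀ l : ℝ, ε / 2 ≤ l →
    4 * (2000 * (1 + l) * (1 + 4 / ε)) ^ 25000 * l ^ 8 ≤ K ^ 2 * phi l := by
  have key : ∀ n : ℕ, ∃ K : ℝ, 1 ≤ K ∧ ∀ l : ℝ, ε / 2 ≤ l →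
      4 * (2000 * (1 + l) * (1 + 4 / ε)) ^ n * l ^ 8 ≤ K ^ 2 * phi l := by
    intro n
    obtain ⟨K, hK, h⟩ := ChNum_gen (n + 8) ε (4 * (2000 * (1 + 4 / ε)) ^ n) hε (by positivity)
    refine ⟨K, hK, fun l hl => le_trans ?_ (h l hl)⟩
    have hl0 : 0 < l := by linarith
    have e1 : 4 * (2000 * (1 + 4 / ε)) ^ n * (1 + l) ^ (n + 8) =
        4 * (2000 * (1 + l) * (1 + 4 / ε)) ^ n * (1 + l) ^ 8 := by
      rw [pow_add, mul_pow, mul_pow, mul_pow]
      ring
    rw [e1]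
    refine mul_le_mul_of_nonneg_left ?_ (by positivity)
    exact pow_le_pow_left₀ hl0.le (by linarith) 8
  exact key 25000

private theorem ChNum_u (N : ℕ) {c : ℝ} (hc : 0 < c) :
    ∀ᶠ r : ℝ in Filter.atTop, (1 + Real.log (1 + r ^ 3)) ^ N ≤ c * r := by
  have h1 := (Real.isLittleO_pow_log_id_atTop (n := N)).bound (c := c / 5 ^ N) (by positivity)
  filter_upwards [h1, Filter.eventually_ge_atTop (Real.exp 1)] with r hr hr2
  have he : (1 : ℝ) ≤ Real.exp 1 := by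
    have := Real.add_one_le_exp 1
    linarith
  have hr1 : 1 ≤ r := he.trans hr2
  have hlog : 1 ≤ Real.log r := by
    rw [Real.le_log_iff_exp_le (by linarith)]
    exact hr2
  have h3 : Real.log (1 + r ^ 3) ≤ 1 + 3 * Real.log r := by
    have h4 : 1 + r ^ 3 ≤ Real.exp 1 * r ^ 3 := by
      have h5 : (2 : ℝ) ≤ Real.exp 1 := by
        have := Real.add_one_le_exp 1
        linarith
      have h6 : 1 ≤ r ^ 3 := one_le_pow₀ hr1
      nlinarith
    calc Real.log (1 + r ^ 3) ≤ Real.log (Real.exp 1 * r ^ 3) :=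
          Real.log_le_log (by positivity) h4
      _ = 1 + 3 * Real.log r := by
          rw [Real.log_mul (by positivity) (by positivity), Real.log_exp, Real.log_pow]
          push_cast
          ring
  have h0 : 0 ≤ Real.log (1 + r ^ 3) := Real.log_nonneg (by have : 0 < r ^ 3 := by positivity
                                                            linarith)
  have h7 : (1 + Real.log (1 + r ^ 3)) ^ N ≤ (5 * Real.log r) ^ N :=
    pow_le_pow_left₀ (by linarith) (by linarith) N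
  rw [mul_pow] at h7
  rw [Real.norm_of_nonneg (by positivity), id, Real.norm_of_nonneg (by linarith)] at hr
  calc (1 + Real.log (1 + r ^ 3)) ^ N ≤ 5 ^ N * Real.log r ^ N := h7
    _ ≤ 5 ^ N * (c / 5 ^ N * r) := mul_le_mul_of_nonneg_left hr (by positivity)
    _ = c * r := by field_simp

theorem num_r (ε K : ℝ) (hε : 0 < ε) (hK : 1 ≤ K) : ∃ r0 : ℝ, 1 ≤ r0 ∧ ∀ r : ℝ, r0 ≤ r →
    4 * Real.log (1 + r ^ 3) ^ 4 < K * r ∧
    (2000 * (1 + Real.log (1 + r ^ 3)) * (1 + 4 / ε)) ^ 1000 *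
      (2 * (1 + Real.log (1 + r ^ 3)) ^ 4) ≤ r ^ 2 ∧
    (Real.log (1 + r ^ 3) + 1) ^ 2 ≤ r ∧ K / ε ^ 4 < r := by
  have key : ∀ n : ℕ, ∀ᶠ r : ℝ in Filter.atTop,
      4 * Real.log (1 + r ^ 3) ^ 4 < K * r ∧
      (2000 * (1 + Real.log (1 + r ^ 3)) * (1 + 4 / ε)) ^ n *
        (2 * (1 + Real.log (1 + r ^ 3)) ^ 4) ≤ r ^ 2 ∧
      (Real.log (1 + r ^ 3) + 1) ^ 2 ≤ r ∧ K / ε ^ 4 < r := by
    intro n
    have hQ : 0 < 2 * (2000 * (1 + 4 / ε)) ^ n := by positivity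
    filter_upwards [ChNum_u 4 (c := 1 / 8) (by norm_num),
      ChNum_u (n + 4) (c := 1 / (2 * (2000 * (1 + 4 / ε)) ^ n)) (by positivity),
      ChNum_u 2 (c := 1) one_pos, Filter.eventually_gt_atTop (K / ε ^ 4),
      Filter.eventually_ge_atTop 1] with r h1 h2 h3 h4 h5
    have h0 : 0 ≤ Real.log (1 + r ^ 3) := Real.log_nonneg (by have : 0 < r ^ 3 := by positivity
                                                              linarith)
    generalize Real.log (1 + r ^ 3) = L at h0 h1 h2 h3 ⊢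
    refine ⟨?_, ?_, ?_, h4⟩
    · have : L ^ 4 ≤ (1 + L) ^ 4 := pow_le_pow_left₀ h0 (by linarith) 4
      nlinarith
    · have e1 : (2000 * (1 + L) * (1 + 4 / ε)) ^ n * (2 * (1 + L) ^ 4) =
          2 * (2000 * (1 + 4 / ε)) ^ n * (1 + L) ^ (n + 4) := by
        rw [pow_add, mul_pow, mul_pow, mul_pow]
        ring
      rw [e1]
      calc 2 * (2000 * (1 + 4 / ε)) ^ n * (1 + L) ^ (n + 4)
          ≤ 2 * (2000 * (1 + 4 / ε)) ^ n * (1 / (2 * (2000 * (1 + 4 / ε)) ^ n) * r) :=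
            mul_le_mul_of_nonneg_left h2 hQ.le
        _ = r := by field_simp
        _ ≤ r ^ 2 := by nlinarith
    · rw [add_comm]
      linarith
  obtain ⟨r0, hr0⟩ := Filter.eventually_atTop.mp (key 1000)
  refine ⟨max r0 1, le_max_right _ _, fun r hr => ?_⟩
  exact hr0 r ((le_max_left _ _).trans hr)

end Pool.MPbe0380
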