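import Pool.Agent.Lib.MP_be0380_co.S.ChFacts
import Pool.Agent.Lib.MP_be0380_co.S.ChNum
import Pool.Agent.Lib.MP_be0380_co.S.BadLevel

/-!
# be0380 S.ChBad: the claim (6.2)/(6.3)

PROOF. Strong induction on `k`. `k = 0`, `k = 1`: `l k ≤ l 0 = log (1+r^3)`, `4 log^4 < K r`. `k + 2`: suppose
`K r ≤ l^4 4^(k+2)`, `l = l (k+2)`, `κ = 4^(k+2)/r < 4 K/ε^4`. Then `l > 0`, `l^4 ≥ K/κ > ε^4/4`, `l ≥ ε/2`. Induction:
`l (k+1)^4 4^(k+1) < K r ≤ l^4 4^(k+2)`: `l (k+1) ≤ 2 l`; `l k ^4 4^k < K r`: `l k ≤ 2 l`. `SD` with `I2 = I k`, `J1 = J (k+1)`,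
`J = J (k+2)` (`I (k+1) = 2 I k + J (k+1)` as functions). `B = ⌈1000 (1+l) (1+4/ε)⌉₊ ≤ 2000 (1+l)(1+4/ε)`, `B l ≥ 2`.
`m = 4^(k+2) r/2`, `m^2 = κ^2 r^4/4 = κ^2 n/4`: `n B^25000 ≤ phi l m^2` iff `4 B^25000 ≤ phi l κ^2`, and `κ ≥ K/l^4`, `num_K`.
`B^1000 ≤ m`: `m = κ r^2/2 ≥ r^2/(2 l^4)` and `l ≤ l 0`, `num_r`. `bad_level`.
-/

set_option autoImplicit false

open Finset

namespace Pool.MPbe0380

private theorem ch_l_le_zero {p : ℕ} [Fact p.Prime] (S : Ch p) (k : ℕ) : S.l k ≤ S.l 0 := by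
  induction k with
  | zero => exact le_refl _
  | succ k ih => exact (S.l_succ k).trans ih

private theorem ch_le_two {a b : ℝ} (hb : 0 ≤ b) (h : a ^ 4 < 16 * b ^ 4) : a ≤ 2 * b := by
  by_contra hcon
  push Not at hcon
  have h1 : (2 * b) ^ 4 ≤ a ^ 4 := pow_le_pow_left₀ (by positivity) hcon.le 4
  have h2 : (2 * b) ^ 4 = 16 * b ^ 4 := by ring
  linarith

private theorem ch_num3 {Y F r l ph K : ℝ} (h7 : 4 * Y * l ^ 8 ≤ K ^ 2 * ph)
    (h8 : (K * r) ^ 2 ≤ (l ^ 4 * F) ^ 2) (hph : 0 ≤ ph) (hl : 0 < l) (hr : 0 < r) :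
    r ^ 4 * Y ≤ ph * (F * r / 2) ^ 2 := by
  have hl8 : 0 < l ^ 8 := by positivity
  have h9 : 4 * Y * l ^ 8 * r ^ 4 ≤ ph * (F * r) ^ 2 * l ^ 8 := by
    calc 4 * Y * l ^ 8 * r ^ 4 ≤ K ^ 2 * ph * r ^ 4 :=
          mul_le_mul_of_nonneg_right h7 (by positivity)
      _ = ph * r ^ 2 * (K * r) ^ 2 := by ring
      _ ≤ ph * r ^ 2 * (l ^ 4 * F) ^ 2 := mul_le_mul_of_nonneg_left h8 (by positivity)
      _ = ph * (F * r) ^ 2 * l ^ 8 := by ring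
  have h10 : 4 * Y * r ^ 4 ≤ ph * (F * r) ^ 2 := by
    by_contra hcon
    push Not at hcon
    have := mul_lt_mul_of_pos_right hcon hl8
    have e : 4 * Y * r ^ 4 * l ^ 8 = 4 * Y * l ^ 8 * r ^ 4 := by ring
    linarith
  have h11 : ph * (F * r / 2) ^ 2 = ph * (F * r) ^ 2 / 4 := by ring
  rw [h11]
  linarith

private theorem ch_num4 {Y F r l L K : ℝ} (h8 : Y * (2 * (1 + L) ^ 4) ≤ r ^ 2)
    (hbad : K * r ≤ l ^ 4 * F) (hK : 1 ≤ K) (hl0 : 0 ≤ l) (hlL : l ≤ L) (hF0 : 0 < F)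
    (hr : 0 < r) : Y ≤ F * r / 2 := by
  have hL4 : 0 < (1 + L) ^ 4 := by
    have : 0 < 1 + L := by linarith
    positivity
  have h6 : l ^ 4 ≤ (1 + L) ^ 4 := pow_le_pow_left₀ hl0 (by linarith) 4
  obtain ⟨M, hM⟩ : ∃ M, M = (1 + L) ^ 4 := ⟨_, rfl⟩
  rw [← hM] at h8 hL4 h6
  clear hM
  have h7 : r ≤ F * M := by
    calc r ≤ K * r := by nlinarith
      _ ≤ l ^ 4 * F := hbad
      _ ≤ M * F := mul_le_mul_of_nonneg_right h6 hF0.le
      _ = _ := by ring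
  have h9 : r ^ 2 ≤ F * r * M := by nlinarith
  by_contra hcon
  push Not at hcon
  have h10 := mul_lt_mul_of_pos_right hcon hL4
  nlinarith

private theorem ch_step {ε K : ℝ} (hε : 0 < ε) (hK : 1 ≤ K)
    (hKl : ∀ l X : ℝ, ε / 2 ≤ l → 0 ≤ X → X ≤ 2000 * (1 + l) * (1 + 4 / ε) →
      4 * X ^ 25000 * l ^ 8 ≤ K ^ 2 * phi l)
    {p : ℕ} [Fact p.Prime] (S : Ch p) (hA : NUS S.A)
    (hr : ∀ X : ℝ, 0 ≤ X → X ≤ 2000 * (1 + Real.log (1 + S.r ^ 3)) * (1 + 4 / ε) →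
      X ^ 1000 * (2 * (1 + Real.log (1 + S.r ^ 3)) ^ 4) ≤ S.r ^ 2) (k : ℕ)
    (hκ : (4 : ℝ) ^ (k + 2) < 4 * (K / ε ^ 4) * S.r)
    (h1 : S.l (k + 1) ^ 4 * 4 ^ (k + 1) < K * S.r) (h0 : S.l k ^ 4 * 4 ^ k < K * S.r)
    (hbad : K * S.r ≤ S.l (k + 2) ^ 4 * 4 ^ (k + 2)) : False := by
  have hrp := S.r_pos
  obtain ⟨l, hl⟩ : ∃ l, l = S.l (k + 2) := ⟨_, rfl⟩
  rw [← hl] at hbad
  have hKr : 0 < K * S.r := by positivity
  have hl0 : 0 ≤ l := by rw [hl]; exact S.l_nonneg _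
  have h4p : (0 : ℝ) < 4 ^ k := by positivity
  have h4s : (4 : ℝ) ^ (k + 1) = 4 * 4 ^ k := by ring
  have h4ss : (4 : ℝ) ^ (k + 2) = 16 * 4 ^ k := by ring
  have hlpos : 0 < l := by
    rcases hl0.lt_or_eq with h | h
    · exact h
    · exfalso
      rw [← h] at hbad
      norm_num at hbad
      linarith
  have hl4 : 0 < l ^ 4 := by positivity
  have hε4 : 0 < ε ^ 4 := by positivity
  have hεl : ε / 2 ≤ l := by
    have h2 : K * S.r < l ^ 4 * (4 * (K / ε ^ 4) * S.r) :=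
      lt_of_le_of_lt hbad (mul_lt_mul_of_pos_left hκ hl4)
    have h3 : l ^ 4 * (4 * (K / ε ^ 4) * S.r) = K * S.r * (4 * l ^ 4 / ε ^ 4) := by
      field_simp
    rw [h3] at h2
    have h4 : 1 < 4 * l ^ 4 / ε ^ 4 := by
      by_contra hcon
      push Not at hcon
      have := mul_le_mul_of_nonneg_left hcon hKr.le
      linarith
    rw [lt_div_iff₀ hε4, one_mul] at h4
    by_contra hcon
    push Not at hcon
    have h5 : l ^ 4 ≤ (ε / 2) ^ 4 := pow_le_pow_left₀ hl0 hcon.le 4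
    have h6 : (ε / 2) ^ 4 = ε ^ 4 / 16 := by ring
    rw [h6] at h5
    linarith
  have hl1 : S.l (k + 1) ≤ 2 * l := by
    apply ch_le_two hl0
    have h2 : S.l (k + 1) ^ 4 * (4 * 4 ^ k) < l ^ 4 * (16 * 4 ^ k) := by
      rw [← h4s, ← h4ss]
      exact lt_of_lt_of_le h1 hbad
    have h3 : S.l (k + 1) ^ 4 * 4 < l ^ 4 * 16 := by
      by_contra hcon
      push Not at hcon
      have := mul_le_mul_of_nonneg_right hcon h4p.le
      nlinarith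
    have h5 : 0 ≤ S.l (k + 1) ^ 4 := by positivity
    linarith
  have hl2 : S.l k ≤ 2 * l := by
    apply ch_le_two hl0
    have h2 : S.l k ^ 4 * 4 ^ k < l ^ 4 * (16 * 4 ^ k) := by
      rw [← h4ss]
      exact lt_of_lt_of_le h0 hbad
    by_contra hcon
    push Not at hcon
    have := mul_le_mul_of_nonneg_right hcon h4p.le
    linarith
  have hI1 : (fun b => 2 * S.I k b + S.J (k + 1) b) = S.I (k + 1) := by
    funext b
    rw [S.I_succ]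
  have hI0 : (fun b => 2 * (2 * S.I k b + S.J (k + 1) b)) = (fun b => 2 * S.I (k + 1) b) := by
    funext b
    rw [S.I_succ]
  have hJsum : ∑ a, S.J (k + 2) a = 4 ^ (k + 2) * S.r / 2 := S.J_sum (k + 1)
  have hmpos : 0 < ∑ a, S.J (k + 2) a := by
    rw [hJsum]
    positivity
  let T : SD p :=
    { A := S.A
      I2 := S.I k
      J1 := S.J (k + 1)
      J := S.J (k + 2)
      l := l
      I2_nonneg := S.I_nonneg k
      J1_nonneg := S.J_nonneg k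
      J_nonneg := S.J_nonneg (k + 1)
      I2_pos := by
        obtain ⟨a, ha, ha0⟩ := S.hA
        exact ⟨a, ha0, S.I_pos k ha⟩
      J_supp := S.J_supp (k + 1)
      J_pos := by
        by_contra hcon
        push Not at hcon
        have : ∑ a, S.J (k + 2) a ≤ 0 := sum_nonpos fun a _ => hcon a
        linarith
      l_pos := hlpos
      kkt_le := by
        rw [hI0, hl]
        exact S.kkt_le (k + 1)
      kkt_eq := by
        rw [hI0, hl]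
        exact S.kkt_eq (k + 1)
      d1 := by
        intro a ha
        rw [hI1]
        exact (S.D_le (k + 1) ha).trans hl1
      d2 := by
        intro a ha
        exact (S.D_le k ha).trans hl2 }
  have hTm : T.m = 4 ^ (k + 2) * S.r / 2 := hJsum
  have hTl : T.l = l := rfl
  have hTA : T.A = S.A := rfl
  -- the base
  obtain ⟨X, hX⟩ : ∃ X, X = 1000 * (1 + l) * (1 + 4 / ε) := ⟨_, rfl⟩
  have h4ε : 0 < 4 / ε := by positivity
  have hX1 : 1000 * (1 + l) ≤ X := by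
    rw [hX]
    have : 0 ≤ 1000 * (1 + l) * (4 / ε) := by positivity
    nlinarith
  have hX2 : 4 / ε ≤ X := by
    rw [hX]
    have : 0 ≤ l * (4 / ε) := by positivity
    nlinarith
  have hX3 : 1 ≤ X := by linarith
  have hB1 : X ≤ (⌈X⌉₊ : ℝ) := Nat.le_ceil X
  have hB2 : (⌈X⌉₊ : ℝ) ≤ 2 * X := by
    have := (Nat.ceil_lt_add_one (by linarith : 0 ≤ X)).le
    linarith
  have hB0 : (0 : ℝ) ≤ (⌈X⌉₊ : ℝ) := Nat.cast_nonneg _
  have h2X : 2 * X = 2000 * (1 + l) * (1 + 4 / ε) := by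
    rw [hX]
    ring
  have hb := T.bad_level (B := ⌈X⌉₊) hA
  rw [hTl, hTm, hTA, S.hn] at hb
  have hphi : 0 ≤ phi l := by
    unfold phi
    positivity
  have h7 := hKl l (⌈X⌉₊ : ℝ) hεl hB0 (by rw [← h2X]; exact hB2)
  have h8 : (K * S.r) ^ 2 ≤ (l ^ 4 * 4 ^ (k + 2)) ^ 2 := pow_le_pow_left₀ hKr.le hbad 2
  have g1 : 1000 * (1 + l) ≤ (⌈X⌉₊ : ℝ) := le_trans hX1 hB1
  have g2 : 2 ≤ (⌈X⌉₊ : ℝ) * l := by
    have h5 : 4 / ε * (ε / 2) ≤ (⌈X⌉₊ : ℝ) * l :=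
      mul_le_mul (le_trans hX2 hB1) hεl (by positivity) hB0
    have h6 : 4 / ε * (ε / 2) = 2 := by
      field_simp
      norm_num
    rw [h6] at h5
    exact h5
  have hlL : l ≤ Real.log (1 + S.r ^ 3) := by
    rw [hl, ← S.l_zero]
    exact ch_l_le_zero S _
  have h9 := hr (⌈X⌉₊ : ℝ) hB0 (by
    refine le_trans hB2 ?_
    rw [h2X]
    apply mul_le_mul_of_nonneg_right _ (by positivity)
    linarith)
  exact hb g1 g2 (ch_num3 h7 h8 hphi hlpos hrp) (ch_num4 h9 hbad hK hl0 hlL (by positivity) hrp)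

theorem ch_claim (ε : ℝ) (hε : 0 < ε) : ∃ K r0 : ℝ, 1 ≤ K ∧ 1 ≤ r0 ∧
    (∀ r : ℝ, r0 ≤ r → (Real.log (1 + r ^ 3) + 1) ^ 2 ≤ r ∧ K / ε ^ 4 < r) ∧
    ∀ (p : ℕ) [Fact p.Prime] (S : Ch p), NUS S.A → r0 ≤ S.r →
      ∀ k : ℕ, (4 : ℝ) ^ k < 4 * (K / ε ^ 4) * S.r → S.l k ^ 4 * 4 ^ k < K * S.r := by
  obtain ⟨K, hK, hKl⟩ := num_K ε hε
  obtain ⟨r0, hr0, hr⟩ := num_r ε K hε hK
  refine ⟨K, r0, hK, hr0, fun r h => (hr r h).2.2, ?_⟩
  intro p _ S hA hSr k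
  have n1 := (hr S.r hSr).1
  have n2 : ∀ X : ℝ, 0 ≤ X → X ≤ 2000 * (1 + Real.log (1 + S.r ^ 3)) * (1 + 4 / ε) →
      X ^ 1000 * (2 * (1 + Real.log (1 + S.r ^ 3)) ^ 4) ≤ S.r ^ 2 := by
    intro X hX0 hX
    refine le_trans ?_ (hr S.r hSr).2.1
    apply mul_le_mul_of_nonneg_right (pow_le_pow_left₀ hX0 hX 1000)
    positivity
  have n3 : ∀ l X : ℝ, ε / 2 ≤ l → 0 ≤ X → X ≤ 2000 * (1 + l) * (1 + 4 / ε) →
      4 * X ^ 25000 * l ^ 8 ≤ K ^ 2 * phi l := by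
    intro l X hl hX0 hX
    refine le_trans ?_ (hKl l hl)
    apply mul_le_mul_of_nonneg_right _ (by positivity)
    apply mul_le_mul_of_nonneg_left (pow_le_pow_left₀ hX0 hX 25000) (by norm_num)
  clear hKl hr
  have hrp := S.r_pos
  have hL0 : 0 ≤ S.l 0 := S.l_nonneg 0
  have hlow : ∀ j, S.l j ^ 4 * 4 < K * S.r := by
    intro j
    have h1 : S.l j ^ 4 ≤ S.l 0 ^ 4 := pow_le_pow_left₀ (S.l_nonneg j) (ch_l_le_zero S j) 4
    rw [S.l_zero] at h1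
    linarith
  induction k using Nat.strong_induction_on with
  | _ k ih =>
    intro hk
    match k, ih, hk with
    | 0, _, _ =>
      have h1 := hlow 0
      have h2 : 0 ≤ S.l 0 ^ 4 := by positivity
      rw [pow_zero, mul_one]
      linarith
    | 1, _, _ =>
      rw [pow_one]
      exact hlow 1
    | (k + 2), ih, hk =>
      have e1 : (4 : ℝ) ^ (k + 1) ≤ 4 ^ (k + 2) := pow_le_pow_right₀ (by norm_num) (by omega)
      have e0 : (4 : ℝ) ^ k ≤ 4 ^ (k + 2) := pow_le_pow_right₀ (by norm_num) (by omega)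
      have h1 := ih (k + 1) (by omega) (lt_of_le_of_lt e1 hk)
      have h0 := ih k (by omega) (lt_of_le_of_lt e0 hk)
      by_contra hcon
      push Not at hcon
      exact ch_step hε hK n3 S hA n2 k hk h1 h0 hcon

end Pool.MPbe0380
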