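import Pool.Agent.Lib.MP_be0380_co.S.ChEx
import Pool.Agent.Lib.MP_be0380_co.S.ChBad

/-!
# be0380 S.Shannon: Proposition 6

PROOF. `K0 = K/ε^4`. Let `k` be least with `4^k ≥ K0 r`; then `4^k < 4 K0 r`. `P = po (I k)`. `l k ^4 4^k < K r` and
`4^k ≥ K0 r` give `l k < ε`; `D_le`. ENTROPY. `s = √2`, `ρ^4 = K r`. For `j ≤ k`: `l j ≤ ρ/s^j`. By induction on
`j ≤ k`: `ent (po (I j)) ≤ 2^j (H0 + 3 r ρ s^j)`, `H0 = r (log (1+r^3) + 1)`.
-/

set_option autoImplicit false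

open Finset

namespace Pool.MPbe0380

theorem shannon_aux (ε : ℝ) (hε : 0 < ε) : ∃ C : ℝ, 0 < C ∧ ∃ n0 : ℕ, ∀ (p : ℕ) [Fact p.Prime]
    (A : Finset (ZMod p)), NUS A → 2 ≤ A.card → n0 ≤ A.card →
    ∃ P : ZMod p → ℝ, IsLaw P ∧ (∀ x, 0 < P x) ∧ ent P ≤ C * √(A.card : ℝ) ∧
      ∀ a ∈ A, KL (tau a P) P ≤ ε := by
  obtain ⟨K, r0, hK, hr0, hnum, hclaim⟩ := ch_claim ε hε
  set K0 : ℝ := K / ε ^ 4 with hK0
  have hK0pos : 0 < K0 := by positivity
  set C1 : ℝ := √√(64 * K0 ^ 3 * K) with hC1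
  have hC1' : C1 ^ 4 = 64 * K0 ^ 3 * K := by
    have h1 : C1 ^ 2 = √(64 * K0 ^ 3 * K) := Real.sq_sqrt (Real.sqrt_nonneg _)
    calc C1 ^ 4 = (C1 ^ 2) ^ 2 := by ring
      _ = 64 * K0 ^ 3 * K := by rw [h1, Real.sq_sqrt (by positivity)]
  have hC1nn : 0 ≤ C1 := Real.sqrt_nonneg _
  refine ⟨2 * √K0 + 3 * C1, by positivity, ⌈(max r0 (ε ^ 4)) ^ 4⌉₊, ?_⟩
  intro p _ A hA h2 hn
  have hA0 : ∃ a ∈ A, a ≠ 0 := by
    obtain ⟨a, ha, b, hb, hab⟩ := one_lt_card.mp (by omega : 1 < A.card)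
    by_cases h : a = 0
    · exact ⟨b, hb, fun h' => hab (by rw [h, h'])⟩
    · exact ⟨a, ha, h⟩
  obtain ⟨S, hS⟩ := ch_exists A hA0
  set r : ℝ := S.r with hr
  have hrpos : 0 < r := S.r_pos
  have hcard : (A.card : ℝ) = r ^ 4 := by rw [← hS]; exact S.hn
  have hrmax : max r0 (ε ^ 4) ≤ r := by
    have h1 : (max r0 (ε ^ 4)) ^ 4 ≤ r ^ 4 := by
      rw [← hcard]
      exact (Nat.le_ceil _).trans (by exact_mod_cast hn)
    exact le_of_pow_le_pow_left₀ (by norm_num) hrpos.le h1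
  have hr0' : r0 ≤ r := (le_max_left _ _).trans hrmax
  have hre : ε ^ 4 ≤ r := (le_max_right _ _).trans hrmax
  have hr1 : 1 ≤ r := hr0.trans hr0'
  obtain ⟨hlog, _⟩ := hnum r hr0'
  have hcl := hclaim p S (by rw [hS]; exact hA) hr0'
  -- `K0 r ≥ 1`
  have hK0r : 1 ≤ K0 * r := by
    rw [hK0, div_mul_eq_mul_div, le_div_iff₀ (by positivity), one_mul]
    nlinarith
  -- the level
  have hex : ∃ k : ℕ, K0 * r ≤ 4 ^ k := by
    obtain ⟨k, hk⟩ := pow_unbounded_of_one_lt (K0 * r) (by norm_num : (1 : ℝ) < 4)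
    exact ⟨k, hk.le⟩
  classical
  obtain ⟨k, hk1, hk2⟩ : ∃ k : ℕ, K0 * r ≤ 4 ^ k ∧ (4 : ℝ) ^ k < 4 * K0 * r := by
    refine ⟨Nat.find hex, Nat.find_spec hex, ?_⟩
    rcases Nat.eq_zero_or_pos (Nat.find hex) with h | h
    · rw [h, pow_zero]
      linarith
    · have h3 := Nat.find_min hex (m := Nat.find hex - 1) (by omega)
      push Not at h3
      have h4 : (4 : ℝ) ^ (Nat.find hex) = 4 * 4 ^ (Nat.find hex - 1) := by
        rw [← pow_succ']
        congr 1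
        omega
      rw [h4]
      linarith
  have hmono : ∀ j, j ≤ k → (4 : ℝ) ^ j < 4 * K0 * r := fun j hj =>
    (pow_le_pow_right₀ (by norm_num : (1 : ℝ) ≤ 4) hj).trans_lt hk2
  have hl : ∀ j, j ≤ k → S.l j ^ 4 * 4 ^ j < K * r := fun j hj => hcl j (hmono j hj)
  -- `s = √2`, `ρ^4 = K r`
  set s : ℝ := √2 with hs
  have hs2 : s ^ 2 = 2 := Real.sq_sqrt (by norm_num)
  have hspos : 0 < s := Real.sqrt_pos.mpr (by norm_num)
  have hs43 : 4 ≤ 3 * s := by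
    by_contra h
    push Not at h
    nlinarith
  set ρ : ℝ := √√(K * r) with hρ
  have hρnn : 0 ≤ ρ := Real.sqrt_nonneg _
  have hρ4 : ρ ^ 4 = K * r := by
    have h1 : ρ ^ 2 = √(K * r) := Real.sq_sqrt (Real.sqrt_nonneg _)
    calc ρ ^ 4 = (ρ ^ 2) ^ 2 := by ring
      _ = K * r := by rw [h1, Real.sq_sqrt (by positivity)]
  have hsj2 : ∀ j : ℕ, (s ^ j) ^ 2 = 2 ^ j := by
    intro j
    rw [← pow_mul, mul_comm, pow_mul, hs2]
  have hls : ∀ j, j ≤ k → S.l j * s ^ j ≤ ρ := by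
    intro j hj
    have h1 : (S.l j * s ^ j) ^ 4 ≤ ρ ^ 4 := by
      rw [hρ4]
      refine le_trans (le_of_eq ?_) (hl j hj).le
      have h3 : (s ^ j) ^ 4 = 4 ^ j := by
        calc (s ^ j) ^ 4 = ((s ^ j) ^ 2) ^ 2 := by ring
          _ = (4 : ℝ) ^ j := by
            rw [hsj2, ← pow_mul, mul_comm, pow_mul]
            norm_num
      rw [mul_pow, h3]
    exact le_of_pow_le_pow_left₀ (by norm_num) hρnn h1
  set H0 : ℝ := r * (Real.log (1 + r ^ 3) + 1) with hH0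
  have hlogpos : 0 < Real.log (1 + r ^ 3) + 1 := by
    have : 0 ≤ Real.log (1 + r ^ 3) := Real.log_nonneg (by have := pow_pos hrpos 3; linarith)
    linarith
  have hH0pos : 0 < H0 := mul_pos hrpos hlogpos
  have hent : ∀ j, j ≤ k → ent (po (S.I j)) ≤ 2 ^ j * (H0 + 3 * r * ρ * s ^ j) := by
    intro j
    induction j with
    | zero =>
      intro _
      have h1 := S.ent_zero
      have h2 : 0 ≤ 3 * r * ρ := by positivity
      rw [pow_zero, pow_zero, one_mul, mul_one]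
      have h3 : ent (po (S.I 0)) ≤ H0 := h1
      linarith
    | succ j ih =>
      intro hj
      have h1 := ih (by omega)
      have h2 := S.ent_succ j
      have h3 := hls j (by omega)
      have hsj : 0 < s ^ j := pow_pos hspos j
      have h4 : (4 : ℝ) ^ (j + 1) * r / 2 * S.l j ≤ 2 ^ (j + 1) * (r * ρ * s ^ j) := by
        have e1 : (4 : ℝ) ^ (j + 1) = 2 ^ (j + 1) * (2 * (s ^ j) ^ 2) := by
          rw [hsj2]
          have : (4 : ℝ) ^ (j + 1) = 2 ^ (j + 1) * 2 ^ (j + 1) := by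
            rw [← mul_pow]; norm_num
          rw [this, pow_succ (2 : ℝ) j]
          ring
        calc (4 : ℝ) ^ (j + 1) * r / 2 * S.l j = 2 ^ (j + 1) * (r * s ^ j) * (S.l j * s ^ j) := by
              rw [e1]; ring
          _ ≤ 2 ^ (j + 1) * (r * s ^ j) * ρ := mul_le_mul_of_nonneg_left h3 (by positivity)
          _ = 2 ^ (j + 1) * (r * ρ * s ^ j) := by ring
      have h5 : r * ρ * s ^ j * 4 ≤ r * ρ * s ^ j * (3 * s) :=
        mul_le_mul_of_nonneg_left hs43 (by positivity)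
      calc ent (po (S.I (j + 1))) ≤ 2 * ent (po (S.I j)) + 4 ^ (j + 1) * S.r / 2 * S.l j := h2
        _ ≤ 2 * (2 ^ j * (H0 + 3 * r * ρ * s ^ j)) + 2 ^ (j + 1) * (r * ρ * s ^ j) := by
          have h6 : (4 : ℝ) ^ (j + 1) * S.r / 2 * S.l j ≤ 2 ^ (j + 1) * (r * ρ * s ^ j) := h4
          linarith
        _ = 2 ^ (j + 1) * (H0 + r * ρ * s ^ j * 4) := by rw [pow_succ]; ring
        _ ≤ 2 ^ (j + 1) * (H0 + r * ρ * s ^ j * (3 * s)) :=
          mul_le_mul_of_nonneg_left (by linarith) (by positivity)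
        _ = 2 ^ (j + 1) * (H0 + 3 * r * ρ * s ^ (j + 1)) := by rw [pow_succ s j]; ring
  have hsqrt : √(A.card : ℝ) = r ^ 2 := by
    rw [hcard]
    have : r ^ 4 = (r ^ 2) ^ 2 := by ring
    rw [this, Real.sqrt_sq (by positivity)]
  refine ⟨po (S.I k), S.po_I_law k, S.po_I_pos k, ?_, ?_⟩
  · rw [hsqrt]
    refine (hent k le_rfl).trans ?_
    -- first term
    have h1 : (2 : ℝ) ^ k * H0 ≤ 2 * √K0 * r ^ 2 := by
      have hsq : ((2 : ℝ) ^ k) ^ 2 ≤ (2 * √K0 * √r) ^ 2 := by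
        have e1 : ((2 : ℝ) ^ k) ^ 2 = 4 ^ k := by
          rw [← pow_mul, mul_comm, pow_mul]; norm_num
        have e2 : (2 * √K0 * √r) ^ 2 = 4 * K0 * r := by
          rw [mul_pow, mul_pow, Real.sq_sqrt hK0pos.le, Real.sq_sqrt hrpos.le]; ring
        rw [e1, e2]
        exact hk2.le
      have h2k : (2 : ℝ) ^ k ≤ 2 * √K0 * √r :=
        le_of_sq_le_sq hsq (by positivity)
      have hlg : Real.log (1 + r ^ 3) + 1 ≤ √r := Real.le_sqrt_of_sq_le hlog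
      calc (2 : ℝ) ^ k * H0 ≤ (2 * √K0 * √r) * (r * √r) :=
            mul_le_mul h2k (mul_le_mul_of_nonneg_left hlg hrpos.le) hH0pos.le (by positivity)
        _ = 2 * √K0 * r * (√r * √r) := by ring
        _ = 2 * √K0 * r ^ 2 := by rw [Real.mul_self_sqrt hrpos.le]; ring
    have h2 : (2 : ℝ) ^ k * s ^ k * ρ ≤ C1 * r := by
      have h3 : ((2 : ℝ) ^ k * s ^ k * ρ) ^ 4 ≤ (C1 * r) ^ 4 := by
        have e1 : ((2 : ℝ) ^ k * s ^ k * ρ) ^ 4 = (4 ^ k) ^ 3 * (K * r) := by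
          have e3 : (s ^ k) ^ 4 = 4 ^ k := by
            calc (s ^ k) ^ 4 = ((s ^ k) ^ 2) ^ 2 := by ring
              _ = (4 : ℝ) ^ k := by
                rw [hsj2, ← pow_mul, mul_comm, pow_mul]
                norm_num
          have e4 : ((2 : ℝ) ^ k) ^ 4 = (4 ^ k) ^ 2 := by
            rw [← pow_mul, ← pow_mul, mul_comm k 4, mul_comm k 2, pow_mul, pow_mul]
            norm_num
          rw [mul_pow, mul_pow, e3, e4, hρ4]
          ring
        have e2 : (C1 * r) ^ 4 = (4 * K0 * r) ^ 3 * (K * r) := by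
          rw [mul_pow, hC1']; ring
        rw [e1, e2]
        exact mul_le_mul_of_nonneg_right (pow_le_pow_left₀ (by positivity) hk2.le 3) (by positivity)
      exact le_of_pow_le_pow_left₀ (by norm_num) (by positivity) h3
    calc (2 : ℝ) ^ k * (H0 + 3 * r * ρ * s ^ k) = 2 ^ k * H0 + 3 * r * (2 ^ k * s ^ k * ρ) := by ring
      _ ≤ 2 * √K0 * r ^ 2 + 3 * r * (C1 * r) :=
        add_le_add h1 (mul_le_mul_of_nonneg_left h2 (by positivity))
      _ = (2 * √K0 + 3 * C1) * r ^ 2 := by ring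
  · intro a ha
    refine (S.D_le k (by rw [hS]; exact ha)).trans ?_
    by_contra hcon
    push Not at hcon
    have h1 := hl k le_rfl
    have h3 : ε ^ 4 ≤ S.l k ^ 4 := pow_le_pow_left₀ hε.le hcon.le 4
    have h4 : ε ^ 4 * (K0 * r) ≤ S.l k ^ 4 * 4 ^ k := mul_le_mul h3 hk1 (by positivity) (by positivity)
    have h5 : ε ^ 4 * (K0 * r) = K * r := by
      rw [hK0]; field_simp
    linarith

end Pool.MPbe0380
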