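import Pool.Agent.Lib.MP_be0380_co.S.Defs

/-!
# be0380 S.Av: the average `av f = ∫_0^1 2 t f(t) dt`

PROOFS. Interval integrals of continuous functions; `∫_0^1 2 t dt = 1`. `av_sq`: Cauchy-Schwarz: from
`0 ≤ av ((f - c)^2) = av f^2 - 2 c av f + c^2` with `c = av f`. `av_mink`: from Cauchy-Schwarz
`av (f g) ≤ √(av f^2) √(av g^2)` (discriminant). `av_le_inv`: for `ε > 0` compare on `[ε, 1]`, or use
`intervalIntegral.integral_mono_on_of_le_Ioo` (`2 t f t ≤ 2 c` on `(0,1)`). `av_le_log`: `2 t f t ≤ 2 t c - 2 b t log t` on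
`(0,1)`, and `∫_0^1 t log t dt = -1/4` (`t log t` is continuous; primitive `t^2/2 log t - t^2/4`).
-/

set_option autoImplicit false

open Finset

namespace Pool.MPbe0380

private theorem av_ii {f : ℝ → ℝ} (hf : ContinuousOn f (Set.Icc 0 1)) :
    IntervalIntegrable (fun t => 2 * t * f t) MeasureTheory.volume 0 1 := by
  apply ContinuousOn.intervalIntegrable
  rw [Set.uIcc_of_le zero_le_one]
  exact (Continuous.continuousOn (by fun_prop)).mul hf

private theorem av_two_t : ∫ t in (0 : ℝ)..1, 2 * t = 1 := by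
  rw [intervalIntegral.integral_const_mul, integral_id]
  norm_num

theorem av_const (c : ℝ) : av (fun _ => c) = c := by
  unfold av
  rw [intervalIntegral.integral_mul_const, av_two_t, one_mul]

theorem av_mono {f g : ℝ → ℝ} (hf : ContinuousOn f (Set.Icc 0 1)) (hg : ContinuousOn g (Set.Icc 0 1))
    (h : ∀ t ∈ Set.Icc (0 : ℝ) 1, f t ≤ g t) : av f ≤ av g := by
  unfold av
  apply intervalIntegral.integral_mono_on zero_le_one (av_ii hf) (av_ii hg)
  intro t ht
  exact mul_le_mul_of_nonneg_left (h t ht) (by linarith [ht.1])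

theorem av_congr {f g : ℝ → ℝ} (h : ∀ t ∈ Set.Icc (0 : ℝ) 1, f t = g t) : av f = av g := by
  unfold av
  apply intervalIntegral.integral_congr
  intro t ht
  rw [Set.uIcc_of_le zero_le_one] at ht
  show 2 * t * f t = 2 * t * g t
  rw [h t ht]

theorem av_nonneg {f : ℝ → ℝ} (h : ∀ t ∈ Set.Icc (0 : ℝ) 1, 0 ≤ f t) : 0 ≤ av f := by
  unfold av
  apply intervalIntegral.integral_nonneg zero_le_one
  intro t ht
  exact mul_nonneg (by linarith [ht.1]) (h t ht)

theorem av_add {f g : ℝ → ℝ} (hf : ContinuousOn f (Set.Icc 0 1)) (hg : ContinuousOn g (Set.Icc 0 1)) :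
    av (fun t => f t + g t) = av f + av g := by
  unfold av
  rw [← intervalIntegral.integral_add (av_ii hf) (av_ii hg)]
  apply intervalIntegral.integral_congr
  intro t _
  show 2 * t * (f t + g t) = 2 * t * f t + 2 * t * g t
  ring

theorem av_sub {f g : ℝ → ℝ} (hf : ContinuousOn f (Set.Icc 0 1)) (hg : ContinuousOn g (Set.Icc 0 1)) :
    av (fun t => f t - g t) = av f - av g := by
  unfold av
  rw [← intervalIntegral.integral_sub (av_ii hf) (av_ii hg)]
  apply intervalIntegral.integral_congr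
  intro t _
  show 2 * t * (f t - g t) = 2 * t * f t - 2 * t * g t
  ring

theorem av_const_mul (c : ℝ) (f : ℝ → ℝ) : av (fun t => c * f t) = c * av f := by
  unfold av
  rw [← intervalIntegral.integral_const_mul]
  apply intervalIntegral.integral_congr
  intro t _
  show 2 * t * (c * f t) = c * (2 * t * f t)
  ring

theorem av_sum {ι : Type*} (s : Finset ι) (f : ι → ℝ → ℝ)
    (hf : ∀ i ∈ s, ContinuousOn (f i) (Set.Icc 0 1)) :
    av (fun t => ∑ i ∈ s, f i t) = ∑ i ∈ s, av (f i) := by
  classical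
  induction s using Finset.induction_on with
  | empty =>
    simp only [Finset.sum_empty]
    exact av_const 0
  | insert a s ha ih =>
    rw [Finset.sum_insert ha, ← ih (fun i hi => hf i (Finset.mem_insert_of_mem hi)),
      ← av_add (hf a (Finset.mem_insert_self _ _))
        (continuousOn_finsetSum s fun i hi => hf i (Finset.mem_insert_of_mem hi))]
    apply av_congr
    intro t _
    exact Finset.sum_insert ha

theorem av_sq {f : ℝ → ℝ} (hf : ContinuousOn f (Set.Icc 0 1)) : av f ^ 2 ≤ av (fun t => f t ^ 2) := by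
  have h0 : 0 ≤ av (fun t => (f t - av f) ^ 2) := av_nonneg fun t _ => sq_nonneg _
  have h1 : av (fun t => (f t - av f) ^ 2)
      = av (fun t => f t ^ 2) - 2 * av f * av f + av f ^ 2 := by
    have e1 : av (fun t => (f t - av f) ^ 2)
        = av (fun t => (f t ^ 2 - (2 * av f) * f t) + av f ^ 2) :=
      av_congr fun t _ => by ring
    have c1 : ContinuousOn (fun t => f t ^ 2) (Set.Icc 0 1) := hf.pow 2
    have c2 : ContinuousOn (fun t => (2 * av f) * f t) (Set.Icc 0 1) := continuousOn_const.mul hf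
    have c3 : ContinuousOn (fun t => f t ^ 2 - (2 * av f) * f t) (Set.Icc 0 1) := c1.sub c2
    rw [e1, av_add c3 continuousOn_const, av_sub c1 c2, av_const_mul, av_const]
  nlinarith [h0, h1]

theorem av_le_sqrt {f : ℝ → ℝ} (hf : ContinuousOn f (Set.Icc 0 1)) :
    av f ≤ √(av (fun t => f t ^ 2)) :=
  Real.le_sqrt_of_sq_le (av_sq hf)

/-- Minkowski -/
theorem av_mink {f g : ℝ → ℝ} (hf : ContinuousOn f (Set.Icc 0 1)) (hg : ContinuousOn g (Set.Icc 0 1)) :
    √(av (fun t => (f t + g t) ^ 2)) ≤ √(av (fun t => f t ^ 2)) + √(av (fun t => g t ^ 2)) := by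
  have hA : 0 ≤ av (fun t => f t ^ 2) := av_nonneg fun t _ => sq_nonneg _
  have hB : 0 ≤ av (fun t => g t ^ 2) := av_nonneg fun t _ => sq_nonneg _
  have hfg : ContinuousOn (fun t => f t * g t) (Set.Icc 0 1) := hf.mul hg
  have hquad : ∀ x : ℝ, 0 ≤ av (fun t => f t ^ 2) * (x * x) + (2 * av (fun t => f t * g t)) * x
      + av (fun t => g t ^ 2) := by
    intro x
    have h0 : 0 ≤ av (fun t => (x * f t + g t) ^ 2) := av_nonneg fun t _ => sq_nonneg _
    have e1 : av (fun t => (x * f t + g t) ^ 2)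
        = av (fun t => ((x * x) * f t ^ 2 + (2 * x) * (f t * g t)) + g t ^ 2) :=
      av_congr fun t _ => by ring
    have c1 : ContinuousOn (fun t => (x * x) * f t ^ 2) (Set.Icc 0 1) :=
      continuousOn_const.mul (hf.pow 2)
    have c2 : ContinuousOn (fun t => (2 * x) * (f t * g t)) (Set.Icc 0 1) :=
      continuousOn_const.mul hfg
    have c3 : ContinuousOn (fun t => (x * x) * f t ^ 2 + (2 * x) * (f t * g t)) (Set.Icc 0 1) :=
      c1.add c2
    have c4 : ContinuousOn (fun t => g t ^ 2) (Set.Icc 0 1) := hg.pow 2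
    rw [e1, av_add c3 c4, av_add c1 c2, av_const_mul, av_const_mul] at h0
    linarith
  have hd := discrim_le_zero hquad
  unfold discrim at hd
  have hC2 : av (fun t => f t * g t) ^ 2 ≤ av (fun t => f t ^ 2) * av (fun t => g t ^ 2) := by
    nlinarith
  have hC : av (fun t => f t * g t) ≤ √(av (fun t => f t ^ 2)) * √(av (fun t => g t ^ 2)) := by
    rw [← Real.sqrt_mul hA]
    exact Real.le_sqrt_of_sq_le hC2
  have e2 : av (fun t => (f t + g t) ^ 2)
      = av (fun t => f t ^ 2) + 2 * av (fun t => f t * g t) + av (fun t => g t ^ 2) := by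
    have e1 : av (fun t => (f t + g t) ^ 2)
        = av (fun t => (f t ^ 2 + 2 * (f t * g t)) + g t ^ 2) :=
      av_congr fun t _ => by ring
    have c1 : ContinuousOn (fun t => f t ^ 2) (Set.Icc 0 1) := hf.pow 2
    have c2 : ContinuousOn (fun t => 2 * (f t * g t)) (Set.Icc 0 1) := continuousOn_const.mul hfg
    have c3 : ContinuousOn (fun t => f t ^ 2 + 2 * (f t * g t)) (Set.Icc 0 1) := c1.add c2
    have c4 : ContinuousOn (fun t => g t ^ 2) (Set.Icc 0 1) := hg.pow 2
    rw [e1, av_add c3 c4, av_add c1 c2, av_const_mul]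
  rw [e2]
  apply Real.sqrt_le_iff.mpr
  refine ⟨add_nonneg (Real.sqrt_nonneg _) (Real.sqrt_nonneg _), ?_⟩
  have s1 := Real.sq_sqrt hA
  have s2 := Real.sq_sqrt hB
  nlinarith

private theorem av_le_of_Ioc {f g : ℝ → ℝ} (hf : ContinuousOn f (Set.Icc 0 1))
    (hg : IntervalIntegrable g MeasureTheory.volume 0 1)
    (h : ∀ t ∈ Set.Ioc (0 : ℝ) 1, 2 * t * f t ≤ g t) : av f ≤ ∫ t in (0 : ℝ)..1, g t := by
  unfold av
  apply intervalIntegral.integral_mono_ae_restrict zero_le_one (av_ii hf) hg
  rw [Filter.EventuallyLE, MeasureTheory.ae_restrict_iff' measurableSet_Icc]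
  have h0 : ∀ᵐ t : ℝ ∂MeasureTheory.volume, t ≠ 0 := by
    rw [MeasureTheory.ae_iff]
    simp
  filter_upwards [h0] with t ht0 ht
  exact h t ⟨lt_of_le_of_ne ht.1 (Ne.symm ht0), ht.2⟩

theorem av_le_inv {f : ℝ → ℝ} (hf : ContinuousOn f (Set.Icc 0 1)) {c : ℝ}
    (h : ∀ t ∈ Set.Ioc (0 : ℝ) 1, f t ≤ c / t) : av f ≤ 2 * c := by
  have h1 := av_le_of_Ioc (g := fun _ => 2 * c) hf (by simp) (fun t ht => by
    have h2 := mul_le_mul_of_nonneg_left (h t ht) (by linarith [ht.1] : (0 : ℝ) ≤ 2 * t)
    have h3 : 2 * t * (c / t) = 2 * c := by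
      have : t ≠ 0 := ne_of_gt ht.1
      field_simp
    show 2 * t * f t ≤ 2 * c
    linarith)
  simpa using h1

theorem av_le_log {f : ℝ → ℝ} (hf : ContinuousOn f (Set.Icc 0 1)) {c b : ℝ} (hb : 0 ≤ b)
    (h : ∀ t ∈ Set.Ioc (0 : ℝ) 1, f t ≤ c - b * Real.log t) : av f ≤ c + b / 2 := by
  have hcont : Continuous fun t : ℝ => t * Real.log t := Real.continuous_mul_log
  have hint : ∫ t in (0 : ℝ)..1, t * Real.log t = -1 / 4 := by
    have hF : ∀ t ∈ Set.Ioo (0 : ℝ) 1, HasDerivAt (fun t : ℝ => (t / 2) * (t * Real.log t) - t ^ 2 / 4)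
        (t * Real.log t) t := by
      intro t ht
      have ht0 : t ≠ 0 := ne_of_gt ht.1
      have h1 : HasDerivAt (fun t : ℝ => t * Real.log t) (Real.log t + 1) t :=
        Real.hasDerivAt_mul_log ht0
      have h2 : HasDerivAt (fun t : ℝ => t / 2) (1 / 2) t := (hasDerivAt_id t).div_const 2
      have h3 : HasDerivAt (fun t : ℝ => t ^ 2 / 4) (2 * t / 4) t := by
        simpa using (hasDerivAt_pow 2 t).div_const 4
      refine ((h2.mul h1).sub h3).congr_deriv ?_
      ring
    have hc : ContinuousOn (fun t : ℝ => (t / 2) * (t * Real.log t) - t ^ 2 / 4) (Set.Icc 0 1) := by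
      apply Continuous.continuousOn
      exact ((continuous_id.div_const 2).mul hcont).sub ((continuous_pow 2).div_const 4)
    rw [intervalIntegral.integral_eq_sub_of_hasDerivAt_of_le zero_le_one hc hF
      (hcont.intervalIntegrable 0 1)]
    norm_num
  have hg : IntervalIntegrable (fun t : ℝ => 2 * t * c - (2 * b) * (t * Real.log t))
      MeasureTheory.volume 0 1 := by
    apply Continuous.intervalIntegrable
    exact ((continuous_const.mul continuous_id).mul continuous_const).sub
      (continuous_const.mul hcont)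
  have h1 := av_le_of_Ioc hf hg (fun t ht => by
    have h2 := mul_le_mul_of_nonneg_left (h t ht) (by linarith [ht.1] : (0 : ℝ) ≤ 2 * t)
    show 2 * t * f t ≤ 2 * t * c - (2 * b) * (t * Real.log t)
    nlinarith)
  rw [intervalIntegral.integral_sub (by
      apply Continuous.intervalIntegrable
      exact (continuous_const.mul continuous_id).mul continuous_const) (by
      apply Continuous.intervalIntegrable
      exact continuous_const.mul hcont), intervalIntegral.integral_mul_const, av_two_t,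
    intervalIntegral.integral_const_mul, hint] at h1
  linarith

end Pool.MPbe0380
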