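import Pool.Agent.Lib.MP_be0380_co.S.Kl

/-!
# be0380 S.Dp: data processing for KL, shifts

PROOFS. `kl_cv_le`: `cv P R z = ∑_y P (z - y) R y` (`cv_comm`); for every `z` apply `log_sum` over `y` with
`a y = P (z - y) R y`, `b y = Q (z - y) R y`; `a y log (a y / b y) = R y P (z - y) log (P (z - y)/Q (z - y))` (also if
`R y = 0`); sum over `z`. `kl_shift`: `log (tau (c+d) P / P) = log (tau (c+d) P / tau c P) + log (tau c P / P)` and
`KL (tau (c + d) P) (tau c P) = KL (tau d P) P` (`KL_tau`, `tau_tau`).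
-/

set_option autoImplicit false

open Finset

namespace Pool.MPbe0380

variable {G : Type} [AddCommGroup G] [Fintype G]

theorem kl_cv_le {P Q R : G → ℝ} (hP : IsLaw P) (hQ : ∀ x, 0 < Q x) (hR : IsLaw R) :
    KL (cv P R) (cv Q R) ≤ KL P Q := by
  have hc : ∀ (P : G → ℝ) (z : G), cv P R z = ∑ y, R y * P (z - y) := fun P z => by
    rw [cv_comm]; rfl
  unfold KL
  have h1 : ∀ z, cv P R z * Real.log (cv P R z / cv Q R z) ≤
      ∑ y, R y * (P (z - y) * Real.log (P (z - y) / Q (z - y))) := by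
    intro z
    rw [hc, hc]
    refine (log_sum univ _ _ (fun y _ => mul_nonneg (hR.1 y) (hP.1 _))
      (fun y _ => mul_nonneg (hR.1 y) (hQ _).le) fun y _ h => ?_).trans (le_of_eq ?_)
    · rcases mul_eq_zero.mp h with h | h
      · rw [h, zero_mul]
      · exact absurd h (hQ _).ne'
    · refine sum_congr rfl fun y _ => ?_
      rcases (hR.1 y).eq_or_lt with h | h
      · rw [← h]; simp
      · rw [mul_div_mul_left _ _ h.ne', mul_assoc]
  refine (sum_le_sum fun z _ => h1 z).trans (le_of_eq ?_)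
  rw [sum_comm]
  have h2 : ∀ y, ∑ z, R y * (P (z - y) * Real.log (P (z - y) / Q (z - y))) =
      R y * ∑ z, P z * Real.log (P z / Q z) := by
    intro y
    rw [← mul_sum]
    congr 1
    exact Fintype.sum_equiv (Equiv.subRight y) _ _ fun _ => rfl
  rw [sum_congr rfl fun y _ => h2 y, ← sum_mul, hR.2, one_mul]

/-- `D_(p * q)(a) ≤ D_p(a)` -/
theorem kl_tau_cv_le {P R : G → ℝ} (hP : IsLaw P) (hP0 : ∀ x, 0 < P x) (hR : IsLaw R) (a : G) :
    KL (tau a (cv P R)) (cv P R) ≤ KL (tau a P) P := by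
  rw [tau_cv']
  exact kl_cv_le (hP.tau a) hP0 hR

theorem kl_shift {P : G → ℝ} (hP0 : ∀ x, 0 < P x) (c d : G) :
    KL (tau (c + d) P) P =
      KL (tau d P) P + ∑ z, tau (c + d) P z * Real.log (tau c P z / P z) := by
  have h1 : KL (tau d P) P = KL (tau (c + d) P) (tau c P) := by
    rw [← tau_tau, KL_tau]
  rw [h1]
  unfold KL
  rw [← sum_add_distrib]
  refine sum_congr rfl fun z _ => ?_
  have p1 : 0 < tau (c + d) P z := hP0 _
  have p2 : 0 < tau c P z := hP0 _
  have p3 : 0 < P z := hP0 z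
  rw [Real.log_div p1.ne' p3.ne', Real.log_div p1.ne' p2.ne', Real.log_div p2.ne' p3.ne']
  ring

end Pool.MPbe0380
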