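import Pool.Agent.Lib.MP_be0380_co.S.Defs

/-!
# be0380 S.Hel: the Hellinger distance

PROOFS. `2 hel^2 = ∑ (√P - √Q)^2` for laws. `BC_le_one`: `√(P Q) ≤ (P + Q)/2`. Triangle: `√2 hel` is the
euclidean distance of `√P`, `√Q` (Minkowski in `EuclideanSpace ℝ Ω`, or by Cauchy-Schwarz).
`hel_tv`: `∑ |P - Q| = ∑ |√P - √Q| (√P + √Q) ≤ (2 hel^2)^(1/2) (∑ (√P+√Q)^2)^(1/2) ≤ √2 hel * 2 ≤ 3 hel`.
`hel_map`: by Cauchy-Schwarz `∑_{g x = y} √(P x Q x) ≤ √((∑_{g x = y} P x)(∑_{g x = y} Q x))`, so `BC` increases.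
`hel_cv`: `cv P R z = ∑_y P (z - y) R y`; for fixed `z`, Cauchy-Schwarz over `y` gives
`√(cv P R z * cv Q R z) ≥ ∑_y R y √(P (z-y) Q (z-y))`, sum over `z`: `BC (cv P R) (cv Q R) ≥ BC P Q`.
`hel_shift_add`: `hel P (tau (a+b) P) ≤ hel P (tau a P) + hel (tau a P) (tau a (tau b P))` and `hel_tau`.
-/

set_option autoImplicit false

open Finset

namespace Pool.MPbe0380

section

variable {Ω : Type*} [Fintype Ω]

theorem BC_nonneg (P Q : Ω → ℝ) : 0 ≤ BC P Q :=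
  sum_nonneg fun _ _ => Real.sqrt_nonneg _

theorem BC_le_one {P Q : Ω → ℝ} (hP : IsLaw P) (hQ : IsLaw Q) : BC P Q ≤ 1 := by
  have h : BC P Q ≤ ∑ x, (P x + Q x) / 2 := by
    unfold BC
    refine sum_le_sum fun x _ => ?_
    rw [Real.sqrt_le_left (by have := hP.1 x; have := hQ.1 x; linarith)]
    nlinarith [sq_nonneg (P x - Q x)]
  rw [← sum_div, sum_add_distrib, hP.2, hQ.2] at h
  linarith

private theorem Hel_sq_sum {P Q : Ω → ℝ} (hP : IsLaw P) (hQ : IsLaw Q) :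
    ∑ x, (√(P x) - √(Q x)) ^ 2 = 2 * (1 - BC P Q) := by
  have h : ∀ x, (√(P x) - √(Q x)) ^ 2 = P x + Q x - 2 * √(P x * Q x) := by
    intro x
    rw [sub_sq, Real.sq_sqrt (hP.1 x), Real.sq_sqrt (hQ.1 x), Real.sqrt_mul (hP.1 x)]
    ring
  simp only [h]
  rw [sum_sub_distrib, sum_add_distrib, hP.2, hQ.2, ← mul_sum]
  unfold BC
  ring

private theorem Hel_dist {P Q : Ω → ℝ} (hP : IsLaw P) (hQ : IsLaw Q) :
    dist (WithLp.toLp 2 (fun x => √(P x)) : EuclideanSpace ℝ Ω) (WithLp.toLp 2 (fun x => √(Q x))) =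
      √2 * hel P Q := by
  rw [EuclideanSpace.dist_eq]
  have h : ∀ x, dist (√(P x)) (√(Q x)) ^ 2 = (√(P x) - √(Q x)) ^ 2 := by
    intro x
    rw [Real.dist_eq, sq_abs]
  simp only [h]
  rw [Hel_sq_sum hP hQ, Real.sqrt_mul (by norm_num)]
  rfl

theorem hel_sq {P Q : Ω → ℝ} (hP : IsLaw P) (hQ : IsLaw Q) : hel P Q ^ 2 = 1 - BC P Q := by
  unfold hel
  exact Real.sq_sqrt (sub_nonneg.mpr (BC_le_one hP hQ))

theorem hel_le_one {P Q : Ω → ℝ} : hel P Q ≤ 1 := by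
  unfold hel
  have := BC_nonneg P Q
  rw [Real.sqrt_le_left zero_le_one]
  linarith

theorem hel_triangle {P Q R : Ω → ℝ} (hP : IsLaw P) (hQ : IsLaw Q) (hR : IsLaw R) :
    hel P R ≤ hel P Q + hel Q R := by
  have h := dist_triangle (WithLp.toLp 2 (fun x => √(P x)) : EuclideanSpace ℝ Ω)
    (WithLp.toLp 2 (fun x => √(Q x))) (WithLp.toLp 2 (fun x => √(R x)))
  rw [Hel_dist hP hR, Hel_dist hP hQ, Hel_dist hQ hR, ← mul_add] at h
  exact le_of_mul_le_mul_left h (by positivity)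

theorem hel_tv {P Q : Ω → ℝ} (hP : IsLaw P) (hQ : IsLaw Q) {f : Ω → ℝ} {T : ℝ}
    (hf : ∀ x, |f x| ≤ T) : |∑ x, P x * f x - ∑ x, Q x * f x| ≤ 3 * T * hel P Q := by
  have hne : Nonempty Ω := by
    by_contra hc
    rw [not_nonempty_iff] at hc
    have := hP.2
    rw [Finset.univ_eq_empty, sum_empty] at this
    exact zero_ne_one this
  have hT : 0 ≤ T := (abs_nonneg _).trans (hf hne.some)
  have hn := hel_nonneg P Q
  have h1 : |∑ x, P x * f x - ∑ x, Q x * f x| ≤ T * ∑ x, |P x - Q x| := by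
    rw [← sum_sub_distrib, mul_sum]
    refine (abs_sum_le_sum_abs _ _).trans (sum_le_sum fun x _ => ?_)
    rw [← sub_mul, abs_mul, mul_comm]
    exact mul_le_mul_of_nonneg_right (hf x) (abs_nonneg _)
  have h2 : ∑ x, |P x - Q x| ≤ 3 * hel P Q := by
    have h3 : ∀ x, |P x - Q x| = |√(P x) - √(Q x)| * (√(P x) + √(Q x)) := by
      intro x
      have ha : 0 ≤ √(P x) + √(Q x) := by positivity
      have e1 := Real.mul_self_sqrt (hP.1 x)
      have e2 := Real.mul_self_sqrt (hQ.1 x)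
      have e3 : P x - Q x = (√(P x) - √(Q x)) * (√(P x) + √(Q x)) := by
        linear_combination e2 - e1
      rw [e3, abs_mul, abs_of_nonneg ha]
    have h4 : (∑ x, |P x - Q x|) ^ 2 ≤ (3 * hel P Q) ^ 2 := by
      simp only [h3]
      refine (sum_mul_sq_le_sq_mul_sq univ _ _).trans ?_
      simp only [sq_abs]
      rw [Hel_sq_sum hP hQ, mul_pow, hel_sq hP hQ]
      have h5 : ∑ x, (√(P x) + √(Q x)) ^ 2 = 2 * (1 + BC P Q) := by
        have h : ∀ x, (√(P x) + √(Q x)) ^ 2 = P x + Q x + 2 * √(P x * Q x) := by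
          intro x
          rw [add_sq, Real.sq_sqrt (hP.1 x), Real.sq_sqrt (hQ.1 x), Real.sqrt_mul (hP.1 x)]
          ring
        simp only [h]
        rw [sum_add_distrib, sum_add_distrib, hP.2, hQ.2, ← mul_sum]
        unfold BC
        ring
      rw [h5]
      have h6 := BC_le_one hP hQ
      have h7 := BC_nonneg P Q
      nlinarith
    exact le_of_sq_le_sq h4 (by positivity)
  calc |∑ x, P x * f x - ∑ x, Q x * f x| ≤ T * ∑ x, |P x - Q x| := h1
    _ ≤ T * (3 * hel P Q) := mul_le_mul_of_nonneg_left h2 hT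
    _ = 3 * T * hel P Q := by ring

theorem hel_map {Ω' : Type*} [Fintype Ω'] [DecidableEq Ω'] {P Q : Ω → ℝ} (hP : IsLaw P)
    (hQ : IsLaw Q) (g : Ω → Ω') :
    hel (fun y => ∑ x ∈ univ.filter (fun x => g x = y), P x)
      (fun y => ∑ x ∈ univ.filter (fun x => g x = y), Q x) ≤ hel P Q := by
  unfold hel
  refine Real.sqrt_le_sqrt (sub_le_sub_left ?_ 1)
  unfold BC
  rw [← sum_fiberwise univ g (fun x => √(P x * Q x))]
  refine sum_le_sum fun y _ => ?_
  rw [Real.sqrt_mul (sum_nonneg fun x _ => hP.1 x)]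
  refine le_trans (le_of_eq ?_) (Real.sum_sqrt_mul_sqrt_le _ hP.1 hQ.1)
  exact sum_congr rfl fun x _ => Real.sqrt_mul (hP.1 x) _

end

section

variable {G : Type} [AddCommGroup G] [Fintype G]

theorem hel_cv {P Q R : G → ℝ} (hP : IsLaw P) (hQ : IsLaw Q) (hR : IsLaw R) :
    hel (cv P R) (cv Q R) ≤ hel P Q := by
  unfold hel
  refine Real.sqrt_le_sqrt (sub_le_sub_left ?_ 1)
  unfold BC
  have h1 : ∑ x, √(P x * Q x) = ∑ z, ∑ y, R (z - y) * √(P y * Q y) := by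
    rw [sum_comm]
    refine sum_congr rfl fun y _ => ?_
    rw [← sum_mul]
    have h2 : ∑ z, R (z - y) = 1 := by
      have := sum_tau y R
      rw [hR.2] at this
      exact this
    rw [h2, one_mul]
  rw [h1]
  refine sum_le_sum fun z _ => ?_
  have hP' : ∀ y, 0 ≤ P y * R (z - y) := fun y => mul_nonneg (hP.1 y) (hR.1 _)
  have hQ' : ∀ y, 0 ≤ Q y * R (z - y) := fun y => mul_nonneg (hQ.1 y) (hR.1 _)
  unfold cv
  rw [Real.sqrt_mul (sum_nonneg fun y _ => hP' y)]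
  refine le_trans (le_of_eq ?_) (Real.sum_sqrt_mul_sqrt_le _ hP' hQ')
  refine sum_congr rfl fun y _ => ?_
  rw [← Real.sqrt_mul (hP' y)]
  have h3 : P y * R (z - y) * (Q y * R (z - y)) = (P y * Q y) * (R (z - y)) ^ 2 := by ring
  rw [h3, Real.sqrt_mul (mul_nonneg (hP.1 y) (hQ.1 y)), Real.sqrt_sq (hR.1 _), mul_comm]

theorem hel_shift_add {P : G → ℝ} (hP : IsLaw P) (a b : G) :
    hel P (tau (a + b) P) ≤ hel P (tau a P) + hel P (tau b P) := by
  have h := hel_triangle hP (hP.tau a) (hP.tau (a + b))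
  rw [← tau_tau a b P, hel_tau, tau_tau] at h
  exact h

theorem hel_shift_neg {P : G → ℝ} (a : G) : hel P (tau (-a) P) = hel P (tau a P) := by
  rw [← hel_tau a P (tau (-a) P), tau_tau, add_neg_cancel, tau_zero, hel_comm]

theorem hel_tau_tau {P : G → ℝ} (a b : G) : hel (tau a P) (tau b P) = hel P (tau (b - a) P) := by
  rw [← hel_tau a P (tau (b - a) P), tau_tau, add_sub_cancel]

end

end Pool.MPbe0380
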