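import Pool.Agent.Lib.MP_be0380_co.S.Kl

/-!
# be0380 S.Tail: tails of the log likelihood ratio by splitting, (6.4)

PROOFS. All laws of the copies are positive. `tl_markov`: `T * tl ≤ ∑ tau a Q * max (log r) 0 = KL + ∑ tau a Q *
max (-log r) 0 ≤ KL + 1` (`tau a Q * max (log (Q / tau a Q)) 0 ≤ Q`, as `log x ≤ x`).
`tl_split2`: `Q = cv (cv p1 p1) p'`, `B` = the event of `tl a Q T`. `tl a Q T = ∑_(s1,s2,s') p1 s1 p1 s2 p' s' 1_B(a+s1+s2+s')`.
Let `B1 = {w : e^(T-u) p1 w ≤ tau a p1 w}`. The part with `a + s1 ∉ B1` is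
`≤ e^(T-u) ∑ p1 w p1 s2 p' s' 1_B(w+s2+s') = e^(T-u) ∑_B Q ≤ e^(-u) tl a Q T`; the same for `a + s2 ∉ B1`
(`a + s1 + s2 + s' = s1 + (a + s2) + s'`). The rest is `≤ (tl a p1 (T-u))^2`.
`tl_split3`: `Q = cv (cv (cv p1 p1) p1) p'`, shift `a + b`. For each of the 6 ordered pairs `i ≠ j` the part with
`tau a p1 (a + s_i) tau b p1 (b + s_j) < e^(T-u) p1 (a + s_i) p1 (b + s_j)` is `≤ e^(-u) tl (a+b) Q T`. On the rest, with
`U_i = log r_a (a + s_i)`, `V_j = log r_b (b + s_j)`: `U_i + V_j ≥ T - u` for `i ≠ j`, so at least two of the `U_i` are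
`≥ (T-u)/2` or all `V_j` are. `exc_of_tl`: `max (x - T) 0 ≤ ∑_(j<J) 2^j T 1[x ≥ 2^j T]` for `x < 2^J T`, so
`exc ≤ ∑ 2^j T K / (2^j T)^2 ≤ 2 K / T`. `exc_one`: `u = 2`, `(1 - 2 e^(-2))⁻¹ ≤ 7/5`, `s - 2 ≥ s/2`.
`exc_two`: `u = 3`, `(1 - 6 e^(-3))⁻¹ ≤ 3/2`, `s - 3 ≥ s/2`; `tl ≤ 1` so `tl^3 ≤ tl^2`.
-/

set_option autoImplicit false

open Finset

namespace Pool.MPbe0380

variable {G : Type} [AddCommGroup G] [Fintype G]

theorem tl_nonneg {Q : G → ℝ} (hQ : IsLaw Q) (a : G) (T : ℝ) : 0 ≤ tl a Q T :=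
  sum_nonneg fun _ _ => hQ.1 _

theorem tl_le_one {Q : G → ℝ} (hQ : IsLaw Q) (a : G) (T : ℝ) : tl a Q T ≤ 1 := by
  rw [← (hQ.tau a).2]
  exact sum_le_sum_of_subset_of_nonneg (filter_subset _ _) fun z _ _ => hQ.1 _

theorem tl_markov {Q : G → ℝ} (hQ : IsLaw Q) (hQ0 : ∀ x, 0 < Q x) (a : G) {T : ℝ} (hT : 0 < T) :
    tl a Q T ≤ (KL (tau a Q) Q + 1) / T := by
  have hb : ∀ z, 0 ≤ tau a Q z * Real.log (tau a Q z / Q z) + Q z := by
    intro z
    have h0 : 0 < tau a Q z := hQ0 _
    have h1 := Real.one_sub_inv_le_log_of_pos (div_pos h0 (hQ0 z))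
    have h2 : tau a Q z * (1 - (tau a Q z / Q z)⁻¹) = tau a Q z - Q z := by
      have := (hQ0 z).ne'
      field_simp
    have h3 := mul_le_mul_of_nonneg_left h1 h0.le
    rw [h2] at h3
    linarith
  rw [le_div_iff₀ hT]
  calc tl a Q T * T = ∑ z ∈ univ.filter (fun z => Real.exp T * Q z ≤ tau a Q z), tau a Q z * T := by
        rw [tl, sum_mul]
    _ ≤ ∑ z ∈ univ.filter (fun z => Real.exp T * Q z ≤ tau a Q z),
          (tau a Q z * Real.log (tau a Q z / Q z) + Q z) := by
        refine sum_le_sum fun z hz => ?_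
        have hz2 := (mem_filter.1 hz).2
        have h0 : 0 < tau a Q z := hQ0 _
        have h1 : T ≤ Real.log (tau a Q z / Q z) := by
          rw [Real.le_log_iff_exp_le (div_pos h0 (hQ0 z)), le_div_iff₀ (hQ0 z)]
          exact hz2
        have h2 := mul_le_mul_of_nonneg_left h1 h0.le
        linarith [(hQ0 z).le]
    _ ≤ ∑ z, (tau a Q z * Real.log (tau a Q z / Q z) + Q z) :=
        sum_le_sum_of_subset_of_nonneg (filter_subset _ _) fun z _ _ => hb z
    _ = KL (tau a Q) Q + 1 := by rw [sum_add_distrib, hQ.2, KL]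

/-! ### sums against convolutions -/

private theorem tail_cv (P R f : G → ℝ) :
    ∑ z, cv P R z * f z = ∑ x, P x * ∑ y, R y * f (x + y) := by
  unfold cv
  simp only [sum_mul]
  rw [sum_comm]
  refine sum_congr rfl fun x _ => ?_
  rw [mul_sum]
  refine Fintype.sum_equiv (Equiv.subRight x) _ _ fun z => ?_
  rw [Equiv.subRight_apply, add_sub_cancel, mul_assoc]

open Classical in
/-- the part of the event seen from `v` -/
private noncomputable def tf (a : G) (Q p' : G → ℝ) (T : ℝ) (v : G) : ℝ :=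
  ∑ w, p' w * (if Real.exp T * Q (v + w) ≤ tau a Q (v + w) then (1 : ℝ) else 0)

private theorem tf_nonneg {a : G} {Q p' : G → ℝ} (h' : IsLaw p') (T : ℝ) (v : G) :
    0 ≤ tf a Q p' T v :=
  sum_nonneg fun w _ => mul_nonneg (h'.1 w) (by split_ifs <;> norm_num)

private theorem tf_le_one {a : G} {Q p' : G → ℝ} (h' : IsLaw p') (T : ℝ) (v : G) :
    tf a Q p' T v ≤ 1 := by
  rw [← h'.2]
  refine sum_le_sum fun w _ => ?_
  have := h'.1 w
  split_ifs <;> linarith

private theorem tl_eq {a : G} {R p' : G → ℝ} (T : ℝ) :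
    tl a (cv R p') T = ∑ x, R x * tf a (cv R p') p' T (a + x) := by
  classical
  have h1 : tl a (cv R p') T = ∑ z, cv R p' z *
      (if Real.exp T * cv R p' (a + z) ≤ tau a (cv R p') (a + z) then (1 : ℝ) else 0) := by
    rw [tl, sum_filter]
    refine Fintype.sum_equiv (Equiv.subRight a) _ _ fun z => ?_
    rw [Equiv.subRight_apply, add_sub_cancel, tau_apply, mul_ite, mul_one, mul_zero]
  rw [h1, tail_cv]
  refine sum_congr rfl fun x _ => ?_
  congr 1
  refine sum_congr rfl fun y _ => ?_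
  rw [add_assoc]

private theorem mass_le {a : G} {R p' : G → ℝ} (T : ℝ) :
    Real.exp T * ∑ x, R x * tf a (cv R p') p' T x ≤ tl a (cv R p') T := by
  classical
  have h1 : ∑ x, R x * tf a (cv R p') p' T x = ∑ z, cv R p' z *
      (if Real.exp T * cv R p' z ≤ tau a (cv R p') z then (1 : ℝ) else 0) := by
    rw [tail_cv]
    rfl
  rw [h1, tl, sum_filter, mul_sum]
  refine sum_le_sum fun z _ => ?_
  split_ifs with h
  · rw [mul_one]; exact h
  · rw [mul_zero, mul_zero]

open Classical in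
/-- the tail of one copy -/
private theorem tl_copy (a : G) (p1 : G → ℝ) (s : ℝ) :
    tl a p1 s = ∑ x, p1 x * (if Real.exp s * p1 (a + x) ≤ p1 x then (1 : ℝ) else 0) := by
  rw [tl, sum_filter]
  refine Fintype.sum_equiv (Equiv.subRight a) _ _ fun z => ?_
  rw [Equiv.subRight_apply, add_sub_cancel, tau_apply, mul_ite, mul_one, mul_zero]

theorem tl_split2 {p1 p' : G → ℝ} (h1 : IsLaw p1) (h0 : ∀ x, 0 < p1 x) (h' : IsLaw p') (a : G)
    (T u : ℝ) :
    (1 - 2 * Real.exp (-u)) * tl a (cv (cv p1 p1) p') T ≤ tl a p1 (T - u) ^ 2 := by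
  classical
  set Q := cv (cv p1 p1) p' with hQ
  set F := tf a Q p' T with hF
  have hF0 : ∀ v, 0 ≤ F v := fun v => tf_nonneg h' T v
  have hF1 : ∀ v, F v ≤ 1 := fun v => tf_le_one h' T v
  have e1 : tl a Q T = ∑ x, p1 x * ∑ y, p1 y * F (a + (x + y)) := by
    rw [hQ, tl_eq, tail_cv]
  have e2 : Real.exp T * ∑ x, p1 x * ∑ y, p1 y * F (x + y) ≤ tl a Q T := by
    have := mass_le (a := a) (R := cv p1 p1) (p' := p') T
    rw [tail_cv] at this
    exact this
  set M := ∑ x, p1 x * ∑ y, p1 y * F (x + y) with hM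
  set g : G → ℝ := fun x => if Real.exp (T - u) * p1 (a + x) ≤ p1 x then (1 : ℝ) else 0 with hg
  -- bad part
  have hbad : ∀ x, p1 x * (1 - g x) ≤ Real.exp (T - u) * p1 (a + x) := by
    intro x
    have := (h0 (a + x)).le
    have h2 := (Real.exp_pos (T - u)).le
    show p1 x * (1 - if Real.exp (T - u) * p1 (a + x) ≤ p1 x then (1 : ℝ) else 0) ≤ _
    split_ifs with h
    · rw [sub_self, mul_zero]; positivity
    · rw [sub_zero, mul_one]; exact (not_le.1 h).le
  have hb1 : ∑ x, (p1 x * (1 - g x)) * ∑ y, p1 y * F (a + (x + y)) ≤ Real.exp (T - u) * M := by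
    calc ∑ x, (p1 x * (1 - g x)) * ∑ y, p1 y * F (a + (x + y))
        ≤ ∑ x, (Real.exp (T - u) * p1 (a + x)) * ∑ y, p1 y * F (a + (x + y)) :=
          sum_le_sum fun x _ => mul_le_mul_of_nonneg_right (hbad x)
            (sum_nonneg fun y _ => mul_nonneg (h1.1 y) (hF0 _))
      _ = ∑ x, Real.exp (T - u) * (p1 x * ∑ y, p1 y * F (x + y)) := by
          refine Fintype.sum_equiv (Equiv.addLeft a) _ _ fun x => ?_
          rw [Equiv.coe_addLeft, mul_assoc]
          simp only [add_assoc]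
      _ = Real.exp (T - u) * M := by rw [hM, mul_sum]
  have hb2 : ∑ x, p1 x * ∑ y, (p1 y * (1 - g y)) * F (a + (x + y)) ≤ Real.exp (T - u) * M := by
    have : ∑ x, p1 x * ∑ y, (p1 y * (1 - g y)) * F (a + (x + y)) =
        ∑ x, (p1 x * (1 - g x)) * ∑ y, p1 y * F (a + (x + y)) := by
      simp only [mul_sum]
      rw [sum_comm]
      refine sum_congr rfl fun x _ => sum_congr rfl fun y _ => ?_
      rw [add_comm y x]
      ring
    rw [this]
    exact hb1
  have hgood : ∑ x, (p1 x * g x) * ∑ y, (p1 y * g y) * F (a + (x + y)) ≤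
      tl a p1 (T - u) ^ 2 := by
    have hg0 : ∀ x, 0 ≤ p1 x * g x := fun x => mul_nonneg (h1.1 x) (by
      show 0 ≤ (if Real.exp (T - u) * p1 (a + x) ≤ p1 x then (1 : ℝ) else 0)
      split_ifs <;> norm_num)
    have e3 : tl a p1 (T - u) = ∑ x, p1 x * g x := tl_copy a p1 (T - u)
    rw [e3, sq, sum_mul]
    refine sum_le_sum fun x _ => mul_le_mul_of_nonneg_left ?_ (hg0 x)
    refine sum_le_sum fun y _ => ?_
    exact mul_le_of_le_one_right (hg0 y) (hF1 _)
  have hg01 : ∀ x, 0 ≤ g x ∧ g x ≤ 1 := by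
    intro x
    show 0 ≤ (if Real.exp (T - u) * p1 (a + x) ≤ p1 x then (1 : ℝ) else 0) ∧
      (if Real.exp (T - u) * p1 (a + x) ≤ p1 x then (1 : ℝ) else 0) ≤ 1
    split_ifs <;> norm_num
  have hsum : tl a Q T ≤ ∑ x, (p1 x * g x) * ∑ y, (p1 y * g y) * F (a + (x + y)) +
      (∑ x, (p1 x * (1 - g x)) * ∑ y, p1 y * F (a + (x + y)) +
        ∑ x, p1 x * ∑ y, (p1 y * (1 - g y)) * F (a + (x + y))) := by
    rw [e1, ← sum_add_distrib, ← sum_add_distrib]
    refine sum_le_sum fun x _ => ?_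
    simp only [mul_sum]
    rw [← sum_add_distrib, ← sum_add_distrib]
    refine sum_le_sum fun y _ => ?_
    have k1 : 0 ≤ p1 x * p1 y * F (a + (x + y)) :=
      mul_nonneg (mul_nonneg (h1.1 x) (h1.1 y)) (hF0 _)
    have k2 : 0 ≤ (1 - g x) * (1 - g y) :=
      mul_nonneg (by linarith [(hg01 x).2]) (by linarith [(hg01 y).2])
    have k3 := mul_nonneg k1 k2
    nlinarith [k3]
  have hexp : Real.exp (T - u) * M ≤ Real.exp (-u) * tl a Q T := by
    have : Real.exp (T - u) * M = Real.exp (-u) * (Real.exp T * M) := by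
      rw [← mul_assoc, ← Real.exp_add]
      congr 2
      ring
    rw [this]
    exact mul_le_mul_of_nonneg_left e2 (Real.exp_pos _).le
  nlinarith [hsum, hb1, hb2, hgood, hexp]

/-! ### triple sums -/

private theorem s3_12 (T : G → G → G → ℝ) :
    ∑ x, ∑ y, ∑ z, T x y z = ∑ x, ∑ y, ∑ z, T y x z := sum_comm

private theorem s3_23 (T : G → G → G → ℝ) :
    ∑ x, ∑ y, ∑ z, T x y z = ∑ x, ∑ y, ∑ z, T x z y :=
  sum_congr rfl fun _ _ => sum_comm

private theorem s3_231 (T : G → G → G → ℝ) :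
    ∑ x, ∑ y, ∑ z, T x y z = ∑ x, ∑ y, ∑ z, T y z x := by
  rw [s3_23, s3_12]

private theorem s3_312 (T : G → G → G → ℝ) :
    ∑ x, ∑ y, ∑ z, T x y z = ∑ x, ∑ y, ∑ z, T z x y := by
  rw [s3_12, s3_23]

private theorem s3_13 (T : G → G → G → ℝ) :
    ∑ x, ∑ y, ∑ z, T x y z = ∑ x, ∑ y, ∑ z, T z y x := by
  rw [s3_12, s3_23, s3_12]

theorem tl_split3 {p1 p' : G → ℝ} (h1 : IsLaw p1) (h0 : ∀ x, 0 < p1 x) (h' : IsLaw p') (a b : G)
    (T u : ℝ) :
    (1 - 6 * Real.exp (-u)) * tl (a + b) (cv (cv (cv p1 p1) p1) p') T ≤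
      3 * tl a p1 ((T - u) / 2) ^ 2 + tl b p1 ((T - u) / 2) ^ 3 := by
  classical
  set Q := cv (cv (cv p1 p1) p1) p' with hQ
  set F := tf (a + b) Q p' T with hF
  have hF0 : ∀ v, 0 ≤ F v := fun v => tf_nonneg h' T v
  have hF1 : ∀ v, F v ≤ 1 := fun v => tf_le_one h' T v
  have e0 : ∀ f : G → ℝ, ∑ x, cv (cv p1 p1) p1 x * f x =
      ∑ x, ∑ y, ∑ z, p1 x * p1 y * p1 z * f (x + y + z) := by
    intro f
    rw [tail_cv, tail_cv]
    simp only [mul_sum]
    exact sum_congr rfl fun x _ => sum_congr rfl fun y _ => sum_congr rfl fun z _ => by ring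
  have e1 : tl (a + b) Q T =
      ∑ x, ∑ y, ∑ z, p1 x * p1 y * p1 z * F (a + b + (x + y + z)) := by
    rw [hQ, tl_eq, e0]
  have e2 : Real.exp T * ∑ x, ∑ y, ∑ z, p1 x * p1 y * p1 z * F (x + y + z) ≤ tl (a + b) Q T := by
    have := mass_le (a := a + b) (R := cv (cv p1 p1) p1) (p' := p') T
    rw [e0] at this
    exact this
  set M := ∑ x, ∑ y, ∑ z, p1 x * p1 y * p1 z * F (x + y + z) with hM
  set E := Real.exp ((T - u) / 2) with hE
  have hE0 : 0 < E := Real.exp_pos _
  have hEE : E * E = Real.exp (T - u) := by rw [hE, ← Real.exp_add]; congr 1; ring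
  set g : G → ℝ := fun x => if E * p1 (a + x) ≤ p1 x then (1 : ℝ) else 0 with hg
  set k : G → ℝ := fun x => if E * p1 (b + x) ≤ p1 x then (1 : ℝ) else 0 with hk
  set bd : G → G → ℝ := fun x y =>
    if p1 x * p1 y < Real.exp (T - u) * (p1 (a + x) * p1 (b + y)) then (1 : ℝ) else 0 with hbd
  have hg01 : ∀ x, g x = 0 ∨ g x = 1 := by
    intro x
    show (if E * p1 (a + x) ≤ p1 x then (1 : ℝ) else 0) = 0 ∨
      (if E * p1 (a + x) ≤ p1 x then (1 : ℝ) else 0) = 1
    split_ifs
    · right; rfl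
    · left; rfl
  have hk01 : ∀ x, k x = 0 ∨ k x = 1 := by
    intro x
    show (if E * p1 (b + x) ≤ p1 x then (1 : ℝ) else 0) = 0 ∨
      (if E * p1 (b + x) ≤ p1 x then (1 : ℝ) else 0) = 1
    split_ifs
    · right; rfl
    · left; rfl
  have hbd0 : ∀ x y, 0 ≤ bd x y := by
    intro x y
    show 0 ≤ (if p1 x * p1 y < Real.exp (T - u) * (p1 (a + x) * p1 (b + y)) then (1 : ℝ) else 0)
    split_ifs <;> norm_num
  -- if neither `g x` nor `k y` then the pair is bad
  have hpair : ∀ x y, g x = 0 → k y = 0 → 1 ≤ bd x y := by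
    intro x y hx hy
    have hx1 : p1 x < E * p1 (a + x) := by
      by_contra h
      have : g x = 1 := if_pos (not_lt.1 h)
      rw [hx] at this
      exact zero_ne_one this
    have hy1 : p1 y < E * p1 (b + y) := by
      by_contra h
      have : k y = 1 := if_pos (not_lt.1 h)
      rw [hy] at this
      exact zero_ne_one this
    have h3 : p1 x * p1 y < Real.exp (T - u) * (p1 (a + x) * p1 (b + y)) := by
      rw [← hEE]
      calc p1 x * p1 y < (E * p1 (a + x)) * (E * p1 (b + y)) :=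
            mul_lt_mul'' hx1 hy1 (h1.1 x) (h1.1 y)
        _ = E * E * (p1 (a + x) * p1 (b + y)) := by ring
    have : bd x y = 1 := if_pos h3
    rw [this]
  -- the basic bad sum
  have hb : ∑ x, ∑ y, ∑ z, p1 x * p1 y * p1 z * bd x y * F (a + b + (x + y + z)) ≤
      Real.exp (-u) * tl (a + b) Q T := by
    calc ∑ x, ∑ y, ∑ z, p1 x * p1 y * p1 z * bd x y * F (a + b + (x + y + z))
        ≤ ∑ x, ∑ y, ∑ z, Real.exp (T - u) * (p1 (a + x) * p1 (b + y)) * p1 z *
            F (a + x + (b + y) + z) := by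
          refine sum_le_sum fun x _ => sum_le_sum fun y _ => sum_le_sum fun z _ => ?_
          have e : a + b + (x + y + z) = a + x + (b + y) + z := by abel
          rw [e]
          have h2 : p1 x * p1 y * bd x y ≤ Real.exp (T - u) * (p1 (a + x) * p1 (b + y)) := by
            show p1 x * p1 y * (if p1 x * p1 y < Real.exp (T - u) * (p1 (a + x) * p1 (b + y))
              then (1 : ℝ) else 0) ≤ _
            have := (Real.exp_pos (T - u)).le
            have := h1.1 (a + x)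
            have := h1.1 (b + y)
            split_ifs with h
            · rw [mul_one]; exact h.le
            · rw [mul_zero]; positivity
          have h3 := mul_le_mul_of_nonneg_right h2 (mul_nonneg (h1.1 z) (hF0 (a + x + (b + y) + z)))
          calc p1 x * p1 y * p1 z * bd x y * F (a + x + (b + y) + z)
              = p1 x * p1 y * bd x y * (p1 z * F (a + x + (b + y) + z)) := by ring
            _ ≤ _ := h3
            _ = _ := by ring
      _ = ∑ x, ∑ y, ∑ z, Real.exp (T - u) * (p1 x * p1 y) * p1 z * F (x + y + z) := by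
          refine Fintype.sum_equiv (Equiv.addLeft a) _ _ fun x => ?_
          exact Fintype.sum_equiv (Equiv.addLeft b) _ _ fun y => rfl
      _ = Real.exp (T - u) * M := by
          rw [hM]
          simp only [mul_sum]
          exact sum_congr rfl fun x _ => sum_congr rfl fun y _ => sum_congr rfl fun z _ => by ring
      _ = Real.exp (-u) * (Real.exp T * M) := by
          rw [← mul_assoc, ← Real.exp_add]
          congr 2
          ring
      _ ≤ _ := mul_le_mul_of_nonneg_left e2 (Real.exp_pos _).le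
  -- its permutations
  have hb21 : ∑ x, ∑ y, ∑ z, p1 x * p1 y * p1 z * bd y x * F (a + b + (x + y + z)) ≤
      Real.exp (-u) * tl (a + b) Q T := by
    rw [s3_12]
    refine le_trans (le_of_eq ?_) hb
    refine sum_congr rfl fun x _ => sum_congr rfl fun y _ => sum_congr rfl fun z _ => ?_
    rw [show y + x + z = x + y + z by abel]; ring
  have hb13 : ∑ x, ∑ y, ∑ z, p1 x * p1 y * p1 z * bd x z * F (a + b + (x + y + z)) ≤
      Real.exp (-u) * tl (a + b) Q T := by
    rw [s3_23]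
    refine le_trans (le_of_eq ?_) hb
    refine sum_congr rfl fun x _ => sum_congr rfl fun y _ => sum_congr rfl fun z _ => ?_
    rw [show x + z + y = x + y + z by abel]; ring
  have hb31 : ∑ x, ∑ y, ∑ z, p1 x * p1 y * p1 z * bd z x * F (a + b + (x + y + z)) ≤
      Real.exp (-u) * tl (a + b) Q T := by
    rw [s3_231]
    refine le_trans (le_of_eq ?_) hb
    refine sum_congr rfl fun x _ => sum_congr rfl fun y _ => sum_congr rfl fun z _ => ?_
    rw [show y + z + x = x + y + z by abel]; ring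
  have hb23 : ∑ x, ∑ y, ∑ z, p1 x * p1 y * p1 z * bd y z * F (a + b + (x + y + z)) ≤
      Real.exp (-u) * tl (a + b) Q T := by
    rw [s3_312]
    refine le_trans (le_of_eq ?_) hb
    refine sum_congr rfl fun x _ => sum_congr rfl fun y _ => sum_congr rfl fun z _ => ?_
    rw [show z + x + y = x + y + z by abel]; ring
  have hb32 : ∑ x, ∑ y, ∑ z, p1 x * p1 y * p1 z * bd z y * F (a + b + (x + y + z)) ≤
      Real.exp (-u) * tl (a + b) Q T := by
    rw [s3_13]
    refine le_trans (le_of_eq ?_) hb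
    refine sum_congr rfl fun x _ => sum_congr rfl fun y _ => sum_congr rfl fun z _ => ?_
    rw [show z + y + x = x + y + z by abel]; ring
  -- the good sums
  have eg : tl a p1 ((T - u) / 2) = ∑ x, p1 x * g x := tl_copy a p1 _
  have ek : tl b p1 ((T - u) / 2) = ∑ x, p1 x * k x := tl_copy b p1 _
  have hgg : ∑ x, ∑ y, ∑ z, (p1 x * g x) * (p1 y * g y) * p1 z = tl a p1 ((T - u) / 2) ^ 2 := by
    simp only [← mul_sum, h1.2, mul_one]
    rw [← sum_mul, ← eg, sq]
  have hkk : ∑ x, ∑ y, ∑ z, (p1 x * k x) * (p1 y * k y) * (p1 z * k z) =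
      tl b p1 ((T - u) / 2) ^ 3 := by
    simp only [← mul_sum, ← sum_mul, ← ek]
    ring
  have hgg13 : ∑ x, ∑ y, ∑ z, (p1 x * g x) * p1 y * (p1 z * g z) = tl a p1 ((T - u) / 2) ^ 2 := by
    rw [← hgg, s3_23]
    exact sum_congr rfl fun x _ => sum_congr rfl fun y _ => sum_congr rfl fun z _ => by ring
  have hgg23 : ∑ x, ∑ y, ∑ z, p1 x * (p1 y * g y) * (p1 z * g z) = tl a p1 ((T - u) / 2) ^ 2 := by
    rw [← hgg, s3_312]
    exact sum_congr rfl fun x _ => sum_congr rfl fun y _ => sum_congr rfl fun z _ => by ring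
  have hpoint : ∀ x y z, (1 : ℝ) ≤ g x * g y + g x * g z + g y * g z + k x * k y * k z +
      (bd x y + bd y x + bd x z + bd z x + bd y z + bd z y) := by
    intro x y z
    have c1 := hbd0 x y
    have c2 := hbd0 y x
    have c3 := hbd0 x z
    have c4 := hbd0 z x
    have c5 := hbd0 y z
    have c6 := hbd0 z y
    have d1 := hpair x y
    have d2 := hpair y x
    have d3 := hpair x z
    have d4 := hpair z x
    have d5 := hpair y z
    have d6 := hpair z y
    rcases hg01 x with gx | gx <;> rcases hg01 y with gy | gy <;> rcases hg01 z with gz | gz <;>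
    rcases hk01 x with kx | kx <;> rcases hk01 y with ky | ky <;> rcases hk01 z with kz | kz <;>
    simp only [gx, gy, gz, kx, ky, kz, forall_const, true_imp_iff, IsEmpty.forall_iff] at d1 d2 d3 d4 d5 d6 ⊢ <;>
    first
      | linarith
      | (simp at d1 d2 d3 d4 d5 d6; linarith)
  have hsum : tl (a + b) Q T ≤ 3 * tl a p1 ((T - u) / 2) ^ 2 + tl b p1 ((T - u) / 2) ^ 3 +
      6 * (Real.exp (-u) * tl (a + b) Q T) := by
    have hle : tl (a + b) Q T ≤
        ∑ x, ∑ y, ∑ z, ((p1 x * g x) * (p1 y * g y) * p1 z + (p1 x * g x) * p1 y * (p1 z * g z) +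
          p1 x * (p1 y * g y) * (p1 z * g z) + (p1 x * k x) * (p1 y * k y) * (p1 z * k z) +
          (p1 x * p1 y * p1 z * bd x y * F (a + b + (x + y + z)) +
          p1 x * p1 y * p1 z * bd y x * F (a + b + (x + y + z)) +
          p1 x * p1 y * p1 z * bd x z * F (a + b + (x + y + z)) +
          p1 x * p1 y * p1 z * bd z x * F (a + b + (x + y + z)) +
          p1 x * p1 y * p1 z * bd y z * F (a + b + (x + y + z)) +
          p1 x * p1 y * p1 z * bd z y * F (a + b + (x + y + z)))) := by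
      rw [e1]
      refine sum_le_sum fun x _ => sum_le_sum fun y _ => sum_le_sum fun z _ => ?_
      set f := F (a + b + (x + y + z)) with hf
      have f0 : 0 ≤ f := hF0 _
      have f1 : f ≤ 1 := hF1 _
      have w0 : 0 ≤ p1 x * p1 y * p1 z := mul_nonneg (mul_nonneg (h1.1 x) (h1.1 y)) (h1.1 z)
      have hgx : 0 ≤ g x := by rcases hg01 x with h | h <;> rw [h] <;> norm_num
      have hgy : 0 ≤ g y := by rcases hg01 y with h | h <;> rw [h] <;> norm_num
      have hgz : 0 ≤ g z := by rcases hg01 z with h | h <;> rw [h] <;> norm_num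
      have hkx : 0 ≤ k x := by rcases hk01 x with h | h <;> rw [h] <;> norm_num
      have hky : 0 ≤ k y := by rcases hk01 y with h | h <;> rw [h] <;> norm_num
      have hkz : 0 ≤ k z := by rcases hk01 z with h | h <;> rw [h] <;> norm_num
      have h4 := mul_le_mul_of_nonneg_left (hpoint x y z) (mul_nonneg w0 f0)
      have h5 : p1 x * p1 y * p1 z * f * (g x * g y + g x * g z + g y * g z + k x * k y * k z) ≤
          p1 x * p1 y * p1 z * (g x * g y + g x * g z + g y * g z + k x * k y * k z) := by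
        have : 0 ≤ g x * g y + g x * g z + g y * g z + k x * k y * k z := by positivity
        have h6 := mul_nonneg w0 this
        nlinarith [mul_nonneg h6 (sub_nonneg.2 f1)]
      nlinarith [h4, h5]
    refine hle.trans ?_
    simp only [sum_add_distrib]
    rw [hgg, hgg13, hgg23, hkk]
    linarith [hb, hb21, hb13, hb31, hb23, hb32]
  linarith [hsum]

/-- dyadic bound -/
private theorem dyad {T : ℝ} (hT : 0 < T) (J : ℕ) (x : ℝ) (hx : x < 2 ^ J * T) :
    max (x - T) 0 ≤ ∑ j ∈ range J, 2 ^ j * T * (if 2 ^ j * T ≤ x then (1 : ℝ) else 0) := by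
  induction J with
  | zero =>
    rw [pow_zero, one_mul] at hx
    rw [range_zero, sum_empty]
    exact max_le (by linarith) le_rfl
  | succ J ih =>
    rw [sum_range_succ]
    by_cases h : x < 2 ^ J * T
    · refine (ih h).trans ?_
      have : (0 : ℝ) ≤ 2 ^ J * T * (if 2 ^ J * T ≤ x then (1 : ℝ) else 0) := by
        split_ifs <;> positivity
      linarith
    · rw [not_lt] at h
      rw [if_pos h]
      have h2 : ∑ j ∈ range J, 2 ^ j * T * (if 2 ^ j * T ≤ x then (1 : ℝ) else 0) =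
          ∑ j ∈ range J, 2 ^ j * T := by
        refine sum_congr rfl fun j hj => ?_
        have : (2 : ℝ) ^ j * T ≤ 2 ^ J * T :=
          mul_le_mul_of_nonneg_right (pow_le_pow_right₀ one_le_two (mem_range.1 hj).le) hT.le
        rw [if_pos (this.trans h), mul_one]
      have h3 : ∑ j ∈ range J, (2 : ℝ) ^ j * T = (2 ^ J - 1) * T := by
        rw [← sum_mul, geom_sum_eq (by norm_num)]
        ring
      rw [h2, h3, mul_one]
      rw [pow_succ] at hx
      refine max_le (by nlinarith) ?_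
      have : (1 : ℝ) ≤ 2 ^ J := one_le_pow₀ one_le_two
      nlinarith

theorem exc_of_tl {Q : G → ℝ} (hQ : IsLaw Q) (hQ0 : ∀ x, 0 < Q x) (a : G) {T K : ℝ} (hT : 0 < T)
    (hK : 0 ≤ K) (h : ∀ s, T ≤ s → tl a Q s ≤ K / s ^ 2) : exc a Q T ≤ 2 * K / T := by
  classical
  obtain ⟨J, hJ⟩ : ∃ J : ℕ, ∀ z, Real.log (tau a Q z / Q z) < 2 ^ J * T := by
    have hz : ∀ z, ∃ J : ℕ, Real.log (tau a Q z / Q z) < 2 ^ J * T := by
      intro z
      obtain ⟨J, hJ⟩ := pow_unbounded_of_one_lt (Real.log (tau a Q z / Q z) / T) one_lt_two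
      exact ⟨J, by rwa [div_lt_iff₀ hT] at hJ⟩
    choose f hf using hz
    refine ⟨univ.sup f, fun z => (hf z).trans_le ?_⟩
    exact mul_le_mul_of_nonneg_right (pow_le_pow_right₀ one_le_two (le_sup (mem_univ z))) hT.le
  calc exc a Q T ≤ ∑ z, tau a Q z * ∑ j ∈ range J, 2 ^ j * T *
        (if 2 ^ j * T ≤ Real.log (tau a Q z / Q z) then (1 : ℝ) else 0) :=
        sum_le_sum fun z _ => mul_le_mul_of_nonneg_left (dyad hT J _ (hJ z)) (hQ.1 _)
    _ = ∑ j ∈ range J, 2 ^ j * T * tl a Q (2 ^ j * T) := by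
        simp only [mul_sum]
        rw [sum_comm]
        refine sum_congr rfl fun j _ => ?_
        rw [tl, sum_filter, mul_sum]
        refine sum_congr rfl fun z _ => ?_
        have h0 : 0 < tau a Q z := hQ0 _
        have e : (2 ^ j * T ≤ Real.log (tau a Q z / Q z)) ↔
            Real.exp (2 ^ j * T) * Q z ≤ tau a Q z := by
          rw [Real.le_log_iff_exp_le (div_pos h0 (hQ0 z)), le_div_iff₀ (hQ0 z)]
        simp only [e]
        split_ifs
        · ring
        · ring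
    _ ≤ ∑ j ∈ range J, (1 / 2) ^ j * (K / T) := by
        refine sum_le_sum fun j _ => ?_
        have h1 : (1 : ℝ) ≤ 2 ^ j := one_le_pow₀ one_le_two
        have h2 := h (2 ^ j * T) (by nlinarith)
        have h3 : 0 < (2 : ℝ) ^ j * T := by positivity
        calc 2 ^ j * T * tl a Q (2 ^ j * T) ≤ 2 ^ j * T * (K / (2 ^ j * T) ^ 2) :=
              mul_le_mul_of_nonneg_left h2 h3.le
          _ = (1 / 2) ^ j * (K / T) := by
              rw [one_div, inv_pow]
              field_simp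
    _ ≤ 2 * (K / T) := by
        rw [← sum_mul]
        refine mul_le_mul_of_nonneg_right ?_ (div_nonneg hK hT.le)
        rw [geom_sum_eq (by norm_num)]
        have : (0 : ℝ) ≤ (1 / 2) ^ J := by positivity
        rw [div_le_iff_of_neg (by norm_num)]
        linarith
    _ = 2 * K / T := by ring

theorem exc_one {p1 p' : G → ℝ} (h1 : IsLaw p1) (h0 : ∀ x, 0 < p1 x) (h' : IsLaw p') (a : G)
    {d T : ℝ} (hd0 : 0 ≤ d) (hd : KL (tau a p1) p1 ≤ d) (hT : 4 ≤ T) :
    exc a (cv (cv p1 p1) p') T ≤ 16 * (1 + d) ^ 2 / T := by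
  have hL : IsLaw (cv (cv p1 p1) p') := (h1.cv h1).cv h'
  have hpos : ∀ x, 0 < cv (cv p1 p1) p' x := by
    intro x
    rw [cv_comm]
    exact cv_pos h' (fun y => cv_pos h1 h0 y) x
  have key : ∀ s, T ≤ s → tl a (cv (cv p1 p1) p') s ≤ (8 * (1 + d) ^ 2) / s ^ 2 := by
    intro s hs
    have hs4 : 4 ≤ s := hT.trans hs
    have h2 := tl_split2 h1 h0 h' a s 2
    have h3 := tl_markov h1 h0 a (T := s - 2) (by linarith)
    have h4 : tl a p1 (s - 2) ≤ 2 * (1 + d) / s := by
      refine h3.trans ?_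
      rw [div_le_div_iff₀ (by linarith) (by linarith)]
      nlinarith
    have h5 : tl a p1 (s - 2) ^ 2 ≤ (2 * (1 + d) / s) ^ 2 :=
      pow_le_pow_left₀ (tl_nonneg h1 a _) h4 2
    have h6 : Real.exp (-2) ≤ 1 / 7 := by
      rw [Real.exp_neg, inv_eq_one_div]
      refine one_div_le_one_div_of_le (by norm_num) ?_
      have : Real.exp 2 = Real.exp 1 * Real.exp 1 := by rw [← Real.exp_add]; norm_num
      rw [this]
      have := Real.exp_one_gt_d9
      nlinarith
    have h7 := tl_nonneg hL a s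
    have h8 : (5 / 7 : ℝ) * tl a (cv (cv p1 p1) p') s ≤ (2 * (1 + d) / s) ^ 2 := by
      refine le_trans ?_ (h2.trans h5)
      nlinarith
    have h9 : (2 * (1 + d) / s) ^ 2 = 4 * ((1 + d) ^ 2 / s ^ 2) := by
      have : s ≠ 0 := by linarith
      field_simp
      ring
    rw [h9] at h8
    have h10 : 0 ≤ (1 + d) ^ 2 / s ^ 2 := by positivity
    rw [mul_div_assoc]
    linarith
  have := exc_of_tl hL hpos a (by linarith : 0 < T) (by positivity) key
  calc exc a (cv (cv p1 p1) p') T ≤ 2 * (8 * (1 + d) ^ 2) / T := this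
    _ = 16 * (1 + d) ^ 2 / T := by ring

theorem exc_two {p1 p' : G → ℝ} (h1 : IsLaw p1) (h0 : ∀ x, 0 < p1 x) (h' : IsLaw p') (a b : G)
    {d T : ℝ} (hd0 : 0 ≤ d) (hda : KL (tau a p1) p1 ≤ d) (hdb : KL (tau b p1) p1 ≤ d) (hT : 6 ≤ T) :
    exc (a + b) (cv (cv (cv p1 p1) p1) p') T ≤ 400 * (1 + d) ^ 2 / T := by
  have hL : IsLaw (cv (cv (cv p1 p1) p1) p') := ((h1.cv h1).cv h1).cv h'
  have hpos : ∀ x, 0 < cv (cv (cv p1 p1) p1) p' x := by
    intro x
    rw [cv_comm]
    exact cv_pos h' (fun y => cv_pos (h1.cv h1) h0 y) x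
  have key : ∀ s, T ≤ s → tl (a + b) (cv (cv (cv p1 p1) p1) p') s ≤
      (96 * (1 + d) ^ 2) / s ^ 2 := by
    intro s hs
    have hs6 : 6 ≤ s := hT.trans hs
    have h2 := tl_split3 h1 h0 h' a b s 3
    have hm : ∀ c, KL (tau c p1) p1 ≤ d → tl c p1 ((s - 3) / 2) ≤ 4 * (1 + d) / s := by
      intro c hc
      have h3 := tl_markov h1 h0 c (T := (s - 3) / 2) (by linarith)
      refine h3.trans ?_
      rw [div_le_div_iff₀ (by linarith) (by linarith)]
      nlinarith
    have ha2 : tl a p1 ((s - 3) / 2) ^ 2 ≤ (4 * (1 + d) / s) ^ 2 :=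
      pow_le_pow_left₀ (tl_nonneg h1 a _) (hm a hda) 2
    have hb2 : tl b p1 ((s - 3) / 2) ^ 2 ≤ (4 * (1 + d) / s) ^ 2 :=
      pow_le_pow_left₀ (tl_nonneg h1 b _) (hm b hdb) 2
    have hb3 : tl b p1 ((s - 3) / 2) ^ 3 ≤ (4 * (1 + d) / s) ^ 2 := by
      refine le_trans ?_ hb2
      have h01 := tl_nonneg h1 b ((s - 3) / 2)
      have h02 := tl_le_one h1 b ((s - 3) / 2)
      rw [pow_succ]
      exact mul_le_of_le_one_right (by positivity) h02
    have h6 : Real.exp (-3) ≤ 1 / 18 := by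
      rw [Real.exp_neg, inv_eq_one_div]
      refine one_div_le_one_div_of_le (by norm_num) ?_
      have : Real.exp 3 = Real.exp 1 * Real.exp 1 * Real.exp 1 := by
        rw [← Real.exp_add, ← Real.exp_add]; norm_num
      rw [this]
      have h := Real.exp_one_gt_d9
      have h2 : 2.7 * 2.7 ≤ Real.exp 1 * Real.exp 1 := by nlinarith
      nlinarith
    have h7 := tl_nonneg hL (a + b) s
    have h8 : (2 / 3 : ℝ) * tl (a + b) (cv (cv (cv p1 p1) p1) p') s ≤
        4 * (4 * (1 + d) / s) ^ 2 := by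
      nlinarith
    have h9 : (4 * (1 + d) / s) ^ 2 = 16 * ((1 + d) ^ 2 / s ^ 2) := by
      have : s ≠ 0 := by linarith
      field_simp
      ring
    rw [h9] at h8
    have h10 : 0 ≤ (1 + d) ^ 2 / s ^ 2 := by positivity
    rw [mul_div_assoc]
    linarith
  have := exc_of_tl hL hpos (a + b) (by linarith : 0 < T) (by positivity) key
  refine this.trans ?_
  have hT0 : 0 < T := by linarith
  rw [div_le_div_iff_of_pos_right hT0]
  nlinarith [sq_nonneg (1 + d)]

end Pool.MPbe0380
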