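import Pool.Agent.Lib.MP_be0380_co.S.Kkt
import Pool.Agent.Lib.MP_be0380_co.S.Tail
import Pool.Agent.Lib.MP_be0380_co.S.Hel
import Pool.Agent.Lib.MP_be0380_co.S.Dp

/-!
# be0380 S.Basic: first consequences for a level `S : SD p`

PROOFS. `I0 = 2 I1`, `I1 = 2 I2 + J1`. `P_law`: `po_law` for `t ≥ 0`. `P_pos`: `po_pos` (`I2_pos`; for `t ≥ 0`).
`P_split1`: `po_add` twice: `P t = cv (cv (po I1) (po I1)) (po (t J))`. `P_split2`: `I0 + t J = I2 + I2 + I2 + R`,
`R = I2 + 2 J1 + t J`. `P_half`: `p_t = cv p p`, `p = cv (po ((t/2) J)) (po (I0/2))`.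
`Dd_eq` etc. by definition. Continuity on `[0,1]`: `continuous_pt`, `continuousOn_kl_tau`, `continuous_hel_tau`,
`continuous_cv`. `dist_zero`: `hel_self`. `dist_neg`: `hel_shift_neg`. `dist_add`: `hel_shift_add` and `av_mink`.
`av_hh_le`: `av_le_sqrt`. `Dq_le`: `kl_tau_cv_le`. `kap_join`: `D^(q q') ≤ D^q`, `cv_assoc`. `exc_P1`: `exc_one` with
`p1 = po I1`, `p' = cv (po (t J)) q`, `d = 2 l` (`d1`); `16 (1 + 2 l)^2 ≤ 64 (1 + l)^2`. `exc_P2`: `exc_two` with `p1 = po I2`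
(`d2`), `400 (1+2l)^2 ≤ 1600 (1+l)^2`.
-/

set_option autoImplicit false

open Finset

namespace Pool.MPbe0380

namespace SD

variable {p : ℕ} [Fact p.Prime] (S : SD p)

private theorem I1_nonneg (a : ZMod p) : 0 ≤ S.I1 a := by
  have h1 := S.I2_nonneg a
  have h2 := S.J1_nonneg a
  show 0 ≤ 2 * S.I2 a + S.J1 a
  linarith

private theorem I0_nonneg (a : ZMod p) : 0 ≤ S.I0 a := by
  have h1 := S.I1_nonneg a
  show 0 ≤ 2 * S.I1 a
  linarith

private theorem tJ_nonneg {t : ℝ} (ht : 0 ≤ t) (a : ZMod p) : 0 ≤ t * S.J a :=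
  mul_nonneg ht (S.J_nonneg a)

private theorem P_def (t : ℝ) : S.P t = po (fun a => S.I0 a + t * S.J a) := rfl

theorem P_law {t : ℝ} (ht : 0 ≤ t) : IsLaw (S.P t) := by
  rw [P_def]
  exact po_law fun a => add_nonneg (S.I0_nonneg a) (S.tJ_nonneg ht a)

theorem P_pos {t : ℝ} (ht : 0 ≤ t) (z : ZMod p) : 0 < S.P t z := by
  rw [P_def]
  refine po_pos (fun a => add_nonneg (S.I0_nonneg a) (S.tJ_nonneg ht a)) ?_ z
  obtain ⟨a, ha, h⟩ := S.I2_pos
  refine ⟨a, ha, ?_⟩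
  have h1 := S.tJ_nonneg ht a
  have h2 := S.J1_nonneg a
  show 0 < 2 * (2 * S.I2 a + S.J1 a) + t * S.J a
  linarith

theorem po_I1_law : IsLaw (po S.I1) := by
  exact po_law S.I1_nonneg

theorem po_I1_pos (z : ZMod p) : 0 < po S.I1 z := by
  refine po_pos S.I1_nonneg ?_ z
  obtain ⟨a, ha, h⟩ := S.I2_pos
  refine ⟨a, ha, ?_⟩
  have h2 := S.J1_nonneg a
  show 0 < 2 * S.I2 a + S.J1 a
  linarith

/-- `P t` is of the form `cv (po (t J)) q` -/
theorem P_eq (t : ℝ) : S.P t = cv (po (fun a => t * S.J a)) (po S.I0) := by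
  rw [P_def, ← po_add]
  congr 1
  funext a
  ring

/-- `P t = cv p p` with `p = cv (po (t/2 J)) (po I1)` -/
theorem P_half (t : ℝ) : S.P t =
    cv (cv (po (fun a => t / 2 * S.J a)) (po S.I1)) (cv (po (fun a => t / 2 * S.J a)) (po S.I1)) := by
  rw [P_def, ← po_add, ← po_add]
  congr 1
  funext a
  show 2 * S.I1 a + t * S.J a = _
  ring

theorem half_law {t : ℝ} (ht : 0 ≤ t) : IsLaw (cv (po (fun a => t / 2 * S.J a)) (po S.I1)) := by
  exact IsLaw.cv (po_law fun a => S.tJ_nonneg (by linarith) a) S.po_I1_law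

theorem half_pos {t : ℝ} (ht : 0 ≤ t) (z : ZMod p) :
    0 < cv (po (fun a => t / 2 * S.J a)) (po S.I1) z := by
  exact cv_pos (po_law fun a => S.tJ_nonneg (by linarith) a) S.po_I1_pos z

private theorem cont_P0 : Continuous (fun t => S.P t) := by
  have h := (continuous_pt S.I0).comp
    (show Continuous (fun t : ℝ => (S.J, t)) from continuous_const.prodMk continuous_id)
  exact h

private theorem cvq_pos {q : ZMod p → ℝ} (hq : IsLaw q) {t : ℝ} (ht : 0 ≤ t) (z : ZMod p) :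
    0 < cv (S.P t) q z := by
  rw [cv_comm]
  exact cv_pos hq (S.P_pos ht) z

theorem cont_Dd (a : ZMod p) : ContinuousOn (fun t => S.Dd t a) (Set.Icc 0 1) := by
  exact (continuousOn_kl_tau a).comp S.cont_P0.continuousOn fun t ht => S.P_pos ht.1

theorem cont_Dq {q : ZMod p → ℝ} (hq : IsLaw q) (a : ZMod p) :
    ContinuousOn (fun t => S.Dq q t a) (Set.Icc 0 1) := by
  exact (continuousOn_kl_tau a).comp ((continuous_cv q).comp S.cont_P0).continuousOn
    fun t ht => S.cvq_pos hq ht.1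

theorem cont_hh (g : ZMod p) : ContinuousOn (fun t => S.hh t g) (Set.Icc 0 1) := by
  exact ((continuous_hel_tau g).comp S.cont_P0).continuousOn

theorem cont_P (z : ZMod p) : Continuous (fun t => S.P t z) := by
  exact (continuous_apply z).comp S.cont_P0

theorem Dd_nonneg {t : ℝ} (ht : 0 ≤ t) (a : ZMod p) : 0 ≤ S.Dd t a := by
  exact kl_nonneg ((S.P_law ht).tau a) (S.P_law ht) fun x hx => absurd hx (S.P_pos ht x).ne'

theorem av_Dd_le {a : ZMod p} (ha : a ∈ S.A) : av (fun t => S.Dd t a) ≤ S.l := by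
  exact S.kkt_le a ha

theorem av_Dd_eq {a : ZMod p} (ha : 0 < S.J a) : av (fun t => S.Dd t a) = S.l := by
  exact S.kkt_eq a ha

theorem mem_A {a : ZMod p} (ha : 0 < S.J a) : a ∈ S.A := by
  by_contra h
  exact ha.ne' (S.J_supp a h)

theorem Dq_le {q : ZMod p → ℝ} (hq : IsLaw q) {t : ℝ} (ht : 0 ≤ t) (a : ZMod p) :
    S.Dq q t a ≤ S.Dd t a := by
  exact kl_tau_cv_le (S.P_law ht) (S.P_pos ht) hq a

theorem kap_nonneg {q : ZMod p → ℝ} (hq : IsLaw q) (a : ZMod p) : 0 ≤ S.kap q a := by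
  exact av_nonneg fun t ht => sub_nonneg.mpr (S.Dq_le hq ht.1 a)

theorem kap_join {q q' : ZMod p → ℝ} (hq : IsLaw q) (hq' : IsLaw q') (a : ZMod p) :
    S.kap q a ≤ S.kap (cv q q') a := by
  refine av_mono ((S.cont_Dd a).sub (S.cont_Dq hq a))
    ((S.cont_Dd a).sub (S.cont_Dq (hq.cv hq') a)) fun t ht => ?_
  apply sub_le_sub_left
  have h := kl_tau_cv_le ((S.P_law ht.1).cv hq) (S.cvq_pos hq ht.1) hq' a
  show KL (tau a (cv (S.P t) (cv q q'))) (cv (S.P t) (cv q q')) ≤ _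
  rw [← cv_assoc]
  exact h

theorem dist_nonneg (g : ZMod p) : 0 ≤ S.dist g := by
  exact Real.sqrt_nonneg _

theorem dist_sq (g : ZMod p) : S.dist g ^ 2 = av (fun t => S.hh t g ^ 2) := by
  exact Real.sq_sqrt (av_nonneg fun t _ => sq_nonneg _)

theorem dist_zero : S.dist 0 = 0 := by
  have h : av (fun t => S.hh t 0 ^ 2) = av (fun _ => 0) := by
    apply av_congr
    intro t ht
    have h1 : S.hh t 0 = 0 := by
      show hel (S.P t) (tau 0 (S.P t)) = 0
      rw [tau_zero, hel_self (S.P_law ht.1)]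
    rw [h1]
    norm_num
  unfold SD.dist
  rw [h, av_const, Real.sqrt_zero]

theorem dist_neg (g : ZMod p) : S.dist (-g) = S.dist g := by
  have h : (fun t => S.hh t (-g) ^ 2) = fun t => S.hh t g ^ 2 := by
    funext t
    show hel (S.P t) (tau (-g) (S.P t)) ^ 2 = _
    rw [hel_shift_neg]
    rfl
  unfold SD.dist
  rw [h]

theorem dist_add (g g' : ZMod p) : S.dist (g + g') ≤ S.dist g + S.dist g' := by
  refine (Real.sqrt_le_sqrt ?_).trans (av_mink (S.cont_hh g) (S.cont_hh g'))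
  refine av_mono ((S.cont_hh _).pow 2) (((S.cont_hh g).add (S.cont_hh g')).pow 2) fun t ht => ?_
  exact pow_le_pow_left₀ (hel_nonneg _ _) (hel_shift_add (S.P_law ht.1) g g') 2

theorem av_hh_le (g : ZMod p) : av (fun t => S.hh t g) ≤ S.dist g := by
  exact av_le_sqrt (S.cont_hh g)

theorem exc_P1 {q : ZMod p → ℝ} (hq : IsLaw q) {t : ℝ} (ht : 0 ≤ t) {a : ZMod p} (ha : a ∈ S.A)
    {T : ℝ} (hT : 4 ≤ T) : exc a (cv (S.P t) q) T ≤ 64 * (1 + S.l) ^ 2 / T := by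
  have h1 : cv (S.P t) q = cv (cv (po S.I1) (po S.I1)) (cv (po (fun a => t * S.J a)) q) := by
    rw [← cv_assoc]
    congr 1
    rw [P_def, ← po_add, ← po_add]
    congr 1
    funext b
    show 2 * S.I1 b + t * S.J b = _
    ring
  rw [h1]
  have hl := S.l_pos
  have h2 := exc_one S.po_I1_law S.po_I1_pos ((po_law (S.tJ_nonneg ht)).cv hq) a
    (by linarith : (0 : ℝ) ≤ 2 * S.l) (S.d1 a ha) hT
  refine h2.trans ?_
  apply div_le_div_of_nonneg_right _ (by linarith)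
  nlinarith

theorem exc_P1' {t : ℝ} (ht : 0 ≤ t) {a : ZMod p} (ha : a ∈ S.A) {T : ℝ} (hT : 4 ≤ T) :
    exc a (S.P t) T ≤ 64 * (1 + S.l) ^ 2 / T := by
  have h := S.exc_P1 isLaw_dl ht ha hT
  rwa [cv_dl] at h

theorem exc_P2 {t : ℝ} (ht : 0 ≤ t) {a b : ZMod p} (ha : a ∈ S.A) (hb : b ∈ S.A) {T : ℝ}
    (hT : 6 ≤ T) : exc (a + b) (S.P t) T ≤ 1600 * (1 + S.l) ^ 2 / T := by
  have h1 : S.P t = cv (cv (cv (po S.I2) (po S.I2)) (po S.I2))
      (po (fun b => S.I2 b + 2 * S.J1 b + t * S.J b)) := by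
    rw [P_def, ← po_add, ← po_add, ← po_add]
    congr 1
    funext b
    show 2 * (2 * S.I2 b + S.J1 b) + t * S.J b = _
    ring
  rw [h1]
  have hl := S.l_pos
  have h3 : IsLaw (po (fun b => S.I2 b + 2 * S.J1 b + t * S.J b)) := by
    apply po_law
    intro c
    have e1 := S.I2_nonneg c
    have e2 := S.J1_nonneg c
    have e3 := S.tJ_nonneg ht c
    linarith
  have h2 := exc_two (po_law S.I2_nonneg) (po_pos S.I2_nonneg S.I2_pos) h3 a b
    (by linarith : (0 : ℝ) ≤ 2 * S.l) (S.d2 a ha) (S.d2 b hb) hT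
  refine h2.trans ?_
  apply div_le_div_of_nonneg_right _ (by linarith)
  nlinarith

end SD

end Pool.MPbe0380
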