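import Pool.Agent.Lib.MP_be0380_co.S.Kl

/-!
# be0380 S.Ent: entropy

PROOFS. `ent_support`: `kl_nonneg` against the uniform law of `S` (`S` is not empty), or Jensen.
`ent_cv_le`: `cv P Q` is the image of `P ⊗ Q`: `ent (cv P Q) ≤ ent (P ⊗ Q) = ent P + ent Q`; directly: for each `z`,
`negMulLog (∑ a_y) ≤ ∑ negMulLog (a_y)` for `a_y ≥ 0` with `∑ a_y ≤ 1` or in general for `a_y ≥ 0`
(`-a log a ≤ -∑ a_y log a_y` as `log a ≥ log a_y`), and
`∑_(z,y) negMulLog (P y Q (z - y)) = ent P + ent Q`. `ent_le_ent_cv`: `cv P Q = ∑_y Q y tau y P`, concavity of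
`negMulLog` (`Real.concaveOn_negMulLog`, Jensen) and `ent_tau`.
-/

set_option autoImplicit false

open Finset

namespace Pool.MPbe0380

section

variable {Ω : Type*} [Fintype Ω]

theorem ent_exists_pos {P : Ω → ℝ} (hP : IsLaw P) : ∃ x, 0 < P x := by
  by_contra h
  push Not at h
  have : ∑ x, P x ≤ 0 := sum_nonpos fun x _ => h x
  rw [hP.2] at this
  linarith

theorem ent_support {P : Ω → ℝ} (hP : IsLaw P) (S : Finset Ω) (h : ∀ x, x ∉ S → P x = 0) :
    ent P ≤ Real.log S.card := by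
  classical
  obtain ⟨x₀, hx₀⟩ := ent_exists_pos hP
  have hx₀S : x₀ ∈ S := by
    by_contra h0
    rw [h x₀ h0] at hx₀
    exact lt_irrefl 0 hx₀
  have hcard : 0 < (S.card : ℝ) := by exact_mod_cast card_pos.mpr ⟨x₀, hx₀S⟩
  have hQ : IsLaw (fun x : Ω => if x ∈ S then 1 / (S.card : ℝ) else 0) := by
    refine ⟨fun x => ?_, ?_⟩
    · dsimp only
      split_ifs
      · positivity
      · exact le_rfl
    · rw [sum_ite_mem, univ_inter, sum_const, nsmul_eq_mul]
      field_simp
  have h1 := kl_nonneg hP hQ (fun x hx => by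
    by_contra hne
    have hxS : x ∈ S := by
      by_contra h0
      exact hne (h x h0)
    rw [if_pos hxS] at hx
    have : (1 : ℝ) / S.card ≠ 0 := by positivity
    exact this hx)
  have h2 : KL P (fun x : Ω => if x ∈ S then 1 / (S.card : ℝ) else 0) =
      - ent P + Real.log S.card := by
    unfold KL ent
    have h3 : ∀ x, P x * Real.log (P x / (if x ∈ S then 1 / (S.card : ℝ) else 0)) =
        - Real.negMulLog (P x) + P x * Real.log S.card := by
      intro x
      by_cases hx : x ∈ S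
      · rw [if_pos hx]
        rcases (hP.1 x).eq_or_lt with h0 | h0
        · rw [← h0]; simp
        · rw [div_div_eq_mul_div, div_one, Real.log_mul h0.ne' hcard.ne', Real.negMulLog]
          ring
      · rw [h x hx]; simp
    rw [sum_congr rfl fun x _ => h3 x, sum_add_distrib, sum_neg_distrib, ← sum_mul, hP.2, one_mul]
  rw [h2] at h1
  linarith

theorem ent_le_log_card {P : Ω → ℝ} (hP : IsLaw P) : ent P ≤ Real.log (Fintype.card Ω) := by
  have h := ent_support hP univ (fun x hx => absurd (mem_univ x) hx)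
  rwa [card_univ] at h

end

variable {G : Type} [AddCommGroup G] [Fintype G]

theorem negMulLog_sum_le {ι : Type*} (s : Finset ι) (a : ι → ℝ) (ha : ∀ i ∈ s, 0 ≤ a i) :
    Real.negMulLog (∑ i ∈ s, a i) ≤ ∑ i ∈ s, Real.negMulLog (a i) := by
  rw [Real.negMulLog, neg_mul, sum_mul, ← sum_neg_distrib]
  refine sum_le_sum fun i hi => ?_
  rcases (ha i hi).eq_or_lt with h | h
  · rw [← h]; simp
  · have h1 : a i ≤ ∑ i ∈ s, a i := single_le_sum ha hi
    have h2 : Real.log (a i) ≤ Real.log (∑ i ∈ s, a i) := Real.log_le_log h h1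
    rw [Real.negMulLog]
    nlinarith

theorem ent_cv_le {P Q : G → ℝ} (hP : IsLaw P) (hQ : IsLaw Q) : ent (cv P Q) ≤ ent P + ent Q := by
  have h1 : ent (cv P Q) ≤ ∑ z, ∑ y, Real.negMulLog (P y * Q (z - y)) := by
    unfold ent cv
    exact sum_le_sum fun z _ => negMulLog_sum_le univ _ fun y _ => mul_nonneg (hP.1 y) (hQ.1 _)
  refine h1.trans (le_of_eq ?_)
  rw [sum_comm]
  have h2 : ∀ y, ∑ z, Real.negMulLog (P y * Q (z - y)) =
      Real.negMulLog (P y) + P y * ent Q := by
    intro y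
    have h3 : ∑ z, Real.negMulLog (P y * Q (z - y)) = ∑ w, Real.negMulLog (P y * Q w) :=
      Fintype.sum_equiv (Equiv.subRight y) _ _ fun _ => rfl
    rw [h3]
    simp only [Real.negMulLog_mul]
    rw [sum_add_distrib, ← sum_mul, hQ.2, one_mul, ← mul_sum]
    rfl
  rw [sum_congr rfl fun y _ => h2 y, sum_add_distrib, ← sum_mul, hP.2, one_mul]
  rfl

theorem ent_le_ent_cv {P Q : G → ℝ} (hP : IsLaw P) (hQ : IsLaw Q) : ent P ≤ ent (cv P Q) := by
  have h1 : ∀ z, ∑ y, Q y * Real.negMulLog (P (z - y)) ≤ Real.negMulLog (cv P Q z) := by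
    intro z
    have h2 := Real.concaveOn_negMulLog.le_map_sum (t := univ) (w := Q) (p := fun y => P (z - y))
      (fun y _ => hQ.1 y) hQ.2 (fun y _ => hP.1 _)
    simp only [smul_eq_mul] at h2
    have h3 : cv P Q z = ∑ y, Q y * P (z - y) := by rw [cv_comm]; rfl
    rw [h3]
    exact h2
  unfold ent
  refine le_trans (le_of_eq ?_) (sum_le_sum fun z _ => h1 z)
  rw [sum_comm]
  have h2 : ∀ y, ∑ z, Q y * Real.negMulLog (P (z - y)) = Q y * ∑ z, Real.negMulLog (P z) := by
    intro y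
    rw [← mul_sum]
    congr 1
    exact Fintype.sum_equiv (Equiv.subRight y) _ _ fun _ => rfl
  rw [sum_congr rfl fun y _ => h2 y, ← sum_mul, hQ.2, one_mul]

end Pool.MPbe0380
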