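import Pool.Agent.Lib.MP_be0380_co.S.Basic
import Pool.Agent.Lib.MP_be0380_co.S.Ent

/-!
# be0380 S.Budget: (S4)

PROOFS. `∑_x J x kap q x = ∫_0^1 2 t ∑ J x (D_t(x) - D_t^q(x)) dt ≤ 2 ∫_0^1 ∑ J x (D_t(x) - D_t^q(x)) dt` (`Dq_le`), and
`∑ J x D_t(x)`, `∑ J x D_t^q(x)` are the derivatives of `ent (P t)`, `ent (cv (P t) q)` (`hasDerivAt_ent` with `q = dl`,
`cv_dl`, and with `q`; `intervalIntegral.integral_eq_sub_of_hasDerivAt`). So the sum is
`≤ 2 ([ent P_1 - ent P_0] - [ent (P_1 * q) - ent (P_0 * q)]) ≤ 2 (ent (P_0 * q) - ent P_0) ≤ 2 ent q`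
(`ent_le_ent_cv`, `ent_cv_le`). `m_l_le`: `m l = ∑ J x av (D(x)) ≤ 2 (ent P_1 - ent P_0) ≤ 2 log p` (`ent_le_log_card`,
`ent_nonneg`).
-/

set_option autoImplicit false

open Finset

namespace Pool.MPbe0380

namespace SD

variable {p : ℕ} [Fact p.Prime] (S : SD p)

private theorem bud_cont {q : ZMod p → ℝ} (hq : IsLaw q) :
    ContinuousOn (fun t => ∑ x, S.J x * S.Dq q t x) (Set.Icc 0 1) :=
  continuousOn_finsetSum _ fun x _ => continuousOn_const.mul (S.cont_Dq hq x)

private theorem bud_cont' : ContinuousOn (fun t => ∑ x, S.J x * S.Dd t x) (Set.Icc 0 1) :=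
  continuousOn_finsetSum _ fun x _ => continuousOn_const.mul (S.cont_Dd x)

private theorem bud_int {q : ZMod p → ℝ} (hq : IsLaw q) :
    ∫ t in (0 : ℝ)..1, ∑ x, S.J x * S.Dq q t x
      = ent (cv (S.P 1) q) - ent (cv (S.P 0) q) := by
  refine intervalIntegral.integral_eq_sub_of_hasDerivAt
    (f := fun s => ent (cv (S.P s) q)) ?_ ?_
  · intro t ht
    rw [Set.uIcc_of_le zero_le_one] at ht
    refine hasDerivAt_ent S.I0 S.J q t ?_
    intro z
    rw [cv_comm]
    exact cv_pos hq (fun z => S.P_pos ht.1 z) z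
  · apply ContinuousOn.intervalIntegrable
    rw [Set.uIcc_of_le zero_le_one]
    exact S.bud_cont hq

private theorem bud_dl (t : ℝ) (x : ZMod p) : S.Dq dl t x = S.Dd t x := by
  unfold Dq Dd
  rw [cv_dl]

private theorem bud_int' :
    ∫ t in (0 : ℝ)..1, ∑ x, S.J x * S.Dd t x = ent (S.P 1) - ent (S.P 0) := by
  have h := S.bud_int isLaw_dl
  simp only [bud_dl, cv_dl] at h
  exact h

private theorem bud_av {f : ℝ → ℝ} (hf : ContinuousOn f (Set.Icc 0 1))
    (h0 : ∀ t ∈ Set.Icc (0 : ℝ) 1, 0 ≤ f t) : av f ≤ 2 * ∫ t in (0 : ℝ)..1, f t := by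
  unfold av
  rw [← intervalIntegral.integral_const_mul]
  apply intervalIntegral.integral_mono_on zero_le_one
  · apply ContinuousOn.intervalIntegrable
    rw [Set.uIcc_of_le zero_le_one]
    exact (Continuous.continuousOn (by fun_prop)).mul hf
  · apply ContinuousOn.intervalIntegrable
    rw [Set.uIcc_of_le zero_le_one]
    exact continuousOn_const.mul hf
  · intro t ht
    have := h0 t ht
    have h1 := ht.2
    have h2 := ht.1
    nlinarith

theorem budget {q : ZMod p → ℝ} (hq : IsLaw q) : ∑ x, S.J x * S.kap q x ≤ 2 * ent q := by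
  have hsub : ∀ x, ContinuousOn (fun t => S.Dd t x - S.Dq q t x) (Set.Icc 0 1) :=
    fun x => (S.cont_Dd x).sub (S.cont_Dq hq x)
  have e1 : ∑ x, S.J x * S.kap q x
      = av (fun t => ∑ x, S.J x * S.Dd t x - ∑ x, S.J x * S.Dq q t x) := by
    have e2 : av (fun t => ∑ x, S.J x * S.Dd t x - ∑ x, S.J x * S.Dq q t x)
        = av (fun t => ∑ x, S.J x * (S.Dd t x - S.Dq q t x)) := by
      apply av_congr
      intro t _
      rw [← sum_sub_distrib]
      exact sum_congr rfl fun x _ => by ring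
    rw [e2, av_sum univ (fun x t => S.J x * (S.Dd t x - S.Dq q t x))
      (fun x _ => continuousOn_const.mul (hsub x))]
    refine sum_congr rfl fun x _ => ?_
    rw [av_const_mul]
    rfl
  rw [e1]
  have h1 := bud_av (S.bud_cont'.sub (S.bud_cont hq)) (fun t ht => by
    show 0 ≤ ∑ x, S.J x * S.Dd t x - ∑ x, S.J x * S.Dq q t x
    rw [← sum_sub_distrib]
    refine sum_nonneg fun x _ => ?_
    have := mul_le_mul_of_nonneg_left (S.Dq_le hq ht.1 x) (S.J_nonneg x)
    linarith)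
  refine h1.trans ?_
  have e3 : ∫ t in (0 : ℝ)..1, (∑ x, S.J x * S.Dd t x - ∑ x, S.J x * S.Dq q t x)
      = (ent (S.P 1) - ent (S.P 0)) - (ent (cv (S.P 1) q) - ent (cv (S.P 0) q)) := by
    rw [intervalIntegral.integral_sub, S.bud_int', S.bud_int hq]
    · apply ContinuousOn.intervalIntegrable
      rw [Set.uIcc_of_le zero_le_one]
      exact S.bud_cont'
    · apply ContinuousOn.intervalIntegrable
      rw [Set.uIcc_of_le zero_le_one]
      exact S.bud_cont hq
  have h2 : 2 * ∫ t in (0 : ℝ)..1, (∑ x, S.J x * S.Dd t x - ∑ x, S.J x * S.Dq q t x)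
      ≤ 2 * ent q := by
    rw [e3]
    have a1 := ent_le_ent_cv (S.P_law zero_le_one) hq
    have a2 := ent_cv_le (S.P_law le_rfl) hq
    linarith
  exact h2

theorem m_l_le : S.m * S.l ≤ 2 * Real.log p := by
  have e1 : S.m * S.l = av (fun t => ∑ x, S.J x * S.Dd t x) := by
    rw [av_sum univ (fun x t => S.J x * S.Dd t x) (fun x _ => continuousOn_const.mul (S.cont_Dd x))]
    unfold m
    rw [sum_mul]
    refine sum_congr rfl fun x _ => ?_
    rw [av_const_mul]
    rcases (S.J_nonneg x).eq_or_lt with h0 | h0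
    · rw [← h0, zero_mul, zero_mul]
    · rw [S.av_Dd_eq h0]
  rw [e1]
  refine (bud_av S.bud_cont' (fun t ht => sum_nonneg fun x _ =>
    mul_nonneg (S.J_nonneg x) (S.Dd_nonneg ht.1 x))).trans ?_
  rw [S.bud_int']
  have a1 := ent_le_log_card (S.P_law zero_le_one)
  have a2 := ent_nonneg (S.P_law le_rfl)
  rw [ZMod.card] at a1
  linarith

end SD

end Pool.MPbe0380
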