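import Pool.Agent.Lib.MP_be0380_co.S.Defs

/-!
# be0380 S.ChDefs: the chain (6.2)

`r = n^(1/4)`; `I 0 = r^(-3)` on `A`; `I (k+1) = 2 I k + J (k+1)`, `|J (k+1)| = 4^(k+1) r / 2`, `J (k+1)` satisfies the first
order condition with the multiplier `l (k+1)`; `l 0 = log (1 + r^3)`.
-/

set_option autoImplicit false

open Finset

namespace Pool.MPbe0380

/-- the chain of (6.2) -/
structure Ch (p : ℕ) [Fact p.Prime] where
  A : Finset (ZMod p)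
  r : ℝ
  I : ℕ → ZMod p → ℝ
  J : ℕ → ZMod p → ℝ
  l : ℕ → ℝ
  hA : ∃ a ∈ A, a ≠ 0
  r_pos : 0 < r
  hn : (A.card : ℝ) = r ^ 4
  I_zero : ∀ a, I 0 a = if a ∈ A then (r ^ 3)⁻¹ else 0
  I_succ : ∀ k a, I (k + 1) a = 2 * I k a + J (k + 1) a
  J_nonneg : ∀ k a, 0 ≤ J (k + 1) a
  J_supp : ∀ k a, a ∉ A → J (k + 1) a = 0
  J_sum : ∀ k, ∑ a, J (k + 1) a = 4 ^ (k + 1) * r / 2
  l_zero : l 0 = Real.log (1 + r ^ 3)
  kkt_le : ∀ k, ∀ a ∈ A, av (fun t => KL (tau a (pt (fun b => 2 * I k b) (J (k + 1)) t))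
    (pt (fun b => 2 * I k b) (J (k + 1)) t)) ≤ l (k + 1)
  kkt_eq : ∀ k, ∀ a, 0 < J (k + 1) a → av (fun t => KL (tau a (pt (fun b => 2 * I k b) (J (k + 1)) t))
    (pt (fun b => 2 * I k b) (J (k + 1)) t)) = l (k + 1)

end Pool.MPbe0380
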