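import Pool.Agent.Lib.MP_be0380_co.S.PoAlg

/-!
# be0380 S.PoPos: positivity and the chi square inequality

PROOFS. `po I z = e^(-∑ I) ∑_j (1/j!) ((opT I)^j dl) z` (`NormedSpace.exp_eq_tsum`, evaluation at `dl` and `z` is
continuous linear). For `I ≥ 0` all terms are `≥ 0`: `po_law` (with `po_sum`). `po_pos`: `z = j • a` for some
`j < p` (`a ≠ 0` in `ZMod p`) and `((opT I)^j dl) (j • a) ≥ (I a)^j > 0`.
`chi_po`: let `P_j = (opT I)^j q`, `P'_j = (opT I')^j q` and `C_j = (opT K)^j q`, `K a = I' a ^2 / I a`. By induction on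
`j` and Cauchy-Schwarz (`(∑_w I' w P'(z-w))^2 ≤ (∑ I w P(z-w)) (∑ K w C(z-w))` if `P'^2 ≤ P C`):
`P'_j^2 ≤ P_j C_j` pointwise. Sum over `j` with weights `1/j!` (Cauchy-Schwarz for series, or first for
partial sums, then the limit): `(exp (opT I') q z)^2 ≤ (exp (opT I) q z) (exp (opT K) q z)`. Divide, sum over
`z`, `∑_z exp (opT K) q z = e^(∑ K)` (`po_sum`): `∑ (cv (po I') q)^2 / cv (po I) q ≤ e^(-2∑I' + ∑I + ∑K) =
e^(∑ (I' - I)^2 / I)` (terms with `I a = 0` are `0` on both sides).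
-/

set_option autoImplicit false

open Finset

namespace Pool.MPbe0380

variable {G : Type} [AddCommGroup G] [Fintype G] [DecidableEq G]

omit [DecidableEq G] in
theorem poPos_hasSum (I f : G → ℝ) (z : G) :
    HasSum (fun n : ℕ => ((n.factorial : ℝ)⁻¹) * ((opT I) ^ n) f z)
      (NormedSpace.exp (opT I) f z) := by
  let E : ((G → ℝ) →L[ℝ] (G → ℝ)) →L[ℝ] ℝ :=
    LinearMap.toContinuousLinearMap
      { toFun := fun T => T f z
        map_add' := by
          intro S T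
          rfl
        map_smul' := by
          intro r T
          rfl }
  have h1 : HasSum (fun n : ℕ => ((n.factorial : ℝ)⁻¹) • (opT I) ^ n) (NormedSpace.exp (opT I)) :=
    NormedSpace.exp_series_hasSum_exp' (𝕂 := ℝ) (opT I)
  exact E.hasSum h1

omit [DecidableEq G] in
theorem poPos_pow_succ (I f : G → ℝ) (n : ℕ) (z : G) :
    ((opT I) ^ (n + 1)) f z = ∑ w, I w * ((opT I) ^ n) f (z - w) := by
  rw [pow_succ']
  rfl

omit [DecidableEq G] in
theorem poPos_pow_nonneg {I f : G → ℝ} (hI : ∀ a, 0 ≤ I a) (hf : ∀ a, 0 ≤ f a) (n : ℕ) :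
    ∀ z, 0 ≤ ((opT I) ^ n) f z := by
  induction n with
  | zero =>
    intro z
    rw [pow_zero]
    exact hf z
  | succ n ih =>
    intro z
    rw [poPos_pow_succ]
    exact sum_nonneg fun w _ => mul_nonneg (hI w) (ih _)

omit [DecidableEq G] in
theorem poPos_exp_nonneg {I f : G → ℝ} (hI : ∀ a, 0 ≤ I a) (hf : ∀ a, 0 ≤ f a) (z : G) :
    0 ≤ NormedSpace.exp (opT I) f z := by
  refine (poPos_hasSum I f z).nonneg fun n => ?_
  exact mul_nonneg (by positivity) (poPos_pow_nonneg hI hf n z)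

theorem po_law {I : G → ℝ} (hI : ∀ a, 0 ≤ I a) : IsLaw (po I) := by
  refine ⟨fun z => ?_, po_sum I⟩
  unfold po
  exact mul_nonneg (Real.exp_pos _).le (poPos_exp_nonneg hI isLaw_dl.1 z)

theorem poPos_pow_dl {I : G → ℝ} (hI : ∀ a, 0 ≤ I a) (a : G) (n : ℕ) :
    (I a) ^ n ≤ ((opT I) ^ n) dl (n • a) := by
  induction n with
  | zero =>
    rw [pow_zero, pow_zero, zero_smul]
    show (1 : ℝ) ≤ dl (0 : G)
    unfold dl
    rw [if_pos rfl]
  | succ n ih =>
    rw [poPos_pow_succ]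
    have h1 : I a * ((opT I) ^ n) dl ((n + 1) • a - a) ≤
        ∑ w, I w * ((opT I) ^ n) dl ((n + 1) • a - w) :=
      single_le_sum (f := fun w => I w * ((opT I) ^ n) dl ((n + 1) • a - w))
        (fun w _ => mul_nonneg (hI w) (poPos_pow_nonneg hI isLaw_dl.1 n _)) (mem_univ a)
    refine le_trans ?_ h1
    have h2 : (n + 1) • a - a = n • a := by
      rw [add_smul, one_smul, add_sub_cancel_right]
    rw [h2, pow_succ']
    exact mul_le_mul_of_nonneg_left ih (hI a)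

theorem po_pos {p : ℕ} [Fact p.Prime] {I : ZMod p → ℝ} (hI : ∀ a, 0 ≤ I a)
    (h : ∃ a, a ≠ 0 ∧ 0 < I a) (z : ZMod p) : 0 < po I z := by
  obtain ⟨a, ha, hIa⟩ := h
  have hz : z = (z / a).val • a := by
    rw [nsmul_eq_mul, ZMod.natCast_zmod_val, div_mul_cancel₀ z ha]
  unfold po
  refine mul_pos (Real.exp_pos _) ?_
  have h1 := le_hasSum (poPos_hasSum I dl z) (z / a).val
    (fun n _ => mul_nonneg (by positivity) (poPos_pow_nonneg hI isLaw_dl.1 n z))
  refine lt_of_lt_of_le ?_ h1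
  refine mul_pos (by positivity) ?_
  have h2 := poPos_pow_dl hI a (z / a).val
  rw [← hz] at h2
  exact lt_of_lt_of_le (pow_pos hIa _) h2

theorem poPos_cs {ι : Type*} (s : Finset ι) (r f g : ι → ℝ) (hr : ∀ i ∈ s, 0 ≤ r i)
    (hf : ∀ i ∈ s, 0 ≤ f i) (hg : ∀ i ∈ s, 0 ≤ g i) (h : ∀ i ∈ s, r i ^ 2 ≤ f i * g i) :
    (∑ i ∈ s, r i) ^ 2 ≤ (∑ i ∈ s, f i) * ∑ i ∈ s, g i := by
  have h1 : (∑ i ∈ s, √(f i * g i)) ^ 2 ≤ (∑ i ∈ s, f i) * ∑ i ∈ s, g i :=
    Finset.sum_sq_le_sum_mul_sum_of_sq_eq_mul s hf hg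
      fun i hi => Real.sq_sqrt (mul_nonneg (hf i hi) (hg i hi))
  refine le_trans ?_ h1
  have h2 : ∑ i ∈ s, r i ≤ ∑ i ∈ s, √(f i * g i) :=
    sum_le_sum fun i hi => Real.le_sqrt_of_sq_le (h i hi)
  have h3 : 0 ≤ ∑ i ∈ s, r i := sum_nonneg hr
  exact pow_le_pow_left₀ h3 h2 2

omit [DecidableEq G] in
theorem poPos_pow_sq {I I' : G → ℝ} (hI : ∀ a, 0 ≤ I a) (hI' : ∀ a, 0 ≤ I' a)
    (hs : ∀ a, I a = 0 → I' a = 0) {q : G → ℝ} (hq : ∀ a, 0 ≤ q a) (n : ℕ) :
    ∀ z, (((opT I') ^ n) q z) ^ 2 ≤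
      ((opT I) ^ n) q z * ((opT (fun a => I' a ^ 2 / I a)) ^ n) q z := by
  have hK : ∀ a, 0 ≤ I' a ^ 2 / I a := fun a => div_nonneg (sq_nonneg _) (hI a)
  induction n with
  | zero =>
    intro z
    simp only [pow_zero]
    show (q z) ^ 2 ≤ q z * q z
    rw [sq]
  | succ n ih =>
    intro z
    rw [poPos_pow_succ, poPos_pow_succ, poPos_pow_succ]
    refine poPos_cs _ _ _ _ ?_ ?_ ?_ ?_
    · exact fun w _ => mul_nonneg (hI' w) (poPos_pow_nonneg hI' hq n _)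
    · exact fun w _ => mul_nonneg (hI w) (poPos_pow_nonneg hI hq n _)
    · exact fun w _ => mul_nonneg (hK w) (poPos_pow_nonneg hK hq n _)
    · intro w _
      have h1 : I' w ^ 2 = I w * (I' w ^ 2 / I w) := by
        by_cases h0 : I w = 0
        · rw [hs w h0, h0]
          simp
        · field_simp
      calc (I' w * ((opT I') ^ n) q (z - w)) ^ 2
          = I' w ^ 2 * (((opT I') ^ n) q (z - w)) ^ 2 := by ring
        _ ≤ I' w ^ 2 * (((opT I) ^ n) q (z - w) *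
            ((opT (fun a => I' a ^ 2 / I a)) ^ n) q (z - w)) :=
            mul_le_mul_of_nonneg_left (ih _) (sq_nonneg _)
        _ = I w * (I' w ^ 2 / I w) * (((opT I) ^ n) q (z - w) *
            ((opT (fun a => I' a ^ 2 / I a)) ^ n) q (z - w)) := by rw [← h1]
        _ = I w * ((opT I) ^ n) q (z - w) *
            (I' w ^ 2 / I w * ((opT (fun a => I' a ^ 2 / I a)) ^ n) q (z - w)) := by ring

omit [DecidableEq G] in
theorem poPos_exp_sq {I I' : G → ℝ} (hI : ∀ a, 0 ≤ I a) (hI' : ∀ a, 0 ≤ I' a)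
    (hs : ∀ a, I a = 0 → I' a = 0) {q : G → ℝ} (hq : ∀ a, 0 ≤ q a) (z : G) :
    (NormedSpace.exp (opT I') q z) ^ 2 ≤
      NormedSpace.exp (opT I) q z * NormedSpace.exp (opT (fun a => I' a ^ 2 / I a)) q z := by
  have hK : ∀ a, 0 ≤ I' a ^ 2 / I a := fun a => div_nonneg (sq_nonneg _) (hI a)
  have t1 := (poPos_hasSum I' q z).tendsto_sum_nat
  have t2 := (poPos_hasSum I q z).tendsto_sum_nat
  have t3 := (poPos_hasSum (fun a => I' a ^ 2 / I a) q z).tendsto_sum_nat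
  refine le_of_tendsto_of_tendsto' (t1.pow 2) (t2.mul t3) fun N => ?_
  refine poPos_cs _ _ _ _ ?_ ?_ ?_ ?_
  · exact fun n _ => mul_nonneg (by positivity) (poPos_pow_nonneg hI' hq n _)
  · exact fun n _ => mul_nonneg (by positivity) (poPos_pow_nonneg hI hq n _)
  · exact fun n _ => mul_nonneg (by positivity) (poPos_pow_nonneg hK hq n _)
  · intro n _
    have h1 := poPos_pow_sq hI hI' hs hq n z
    have h2 : (0 : ℝ) ≤ ((n.factorial : ℝ)⁻¹) ^ 2 := by positivity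
    calc ((n.factorial : ℝ)⁻¹ * ((opT I') ^ n) q z) ^ 2
        = ((n.factorial : ℝ)⁻¹) ^ 2 * (((opT I') ^ n) q z) ^ 2 := by ring
      _ ≤ ((n.factorial : ℝ)⁻¹) ^ 2 * (((opT I) ^ n) q z *
          ((opT (fun a => I' a ^ 2 / I a)) ^ n) q z) := mul_le_mul_of_nonneg_left h1 h2
      _ = _ := by ring

theorem poPos_cv (I q : G → ℝ) (z : G) :
    cv (po I) q z = Real.exp (-∑ a, I a) * NormedSpace.exp (opT I) q z := by
  rw [poAlg_exp_apply I q]
  unfold cv po
  rw [mul_sum]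
  exact sum_congr rfl fun y _ => by ring

theorem chi_po {I I' : G → ℝ} (hI : ∀ a, 0 ≤ I a) (hI' : ∀ a, 0 ≤ I' a)
    (hs : ∀ a, I a = 0 → I' a = 0) {q : G → ℝ} (hq : IsLaw q) (hpos : ∀ z, 0 < cv (po I) q z) :
    ∑ z, cv (po I') q z ^ 2 / cv (po I) q z ≤ Real.exp (∑ a, (I' a - I a) ^ 2 / I a) := by
  have hterm : ∀ z, cv (po I') q z ^ 2 / cv (po I) q z ≤
      Real.exp (-2 * (∑ a, I' a) + ∑ a, I a) *
        NormedSpace.exp (opT (fun a => I' a ^ 2 / I a)) q z := by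
    intro z
    rw [div_le_iff₀ (hpos z), poPos_cv I', poPos_cv I]
    have h1 := poPos_exp_sq hI hI' hs hq.1 z
    have h2 : Real.exp (-2 * (∑ a, I' a) + ∑ a, I a) * Real.exp (-∑ a, I a) =
        Real.exp (-∑ a, I' a) ^ 2 := by
      rw [← Real.exp_add, ← Real.exp_nat_mul]
      congr 1
      push_cast
      ring
    calc (Real.exp (-∑ a, I' a) * NormedSpace.exp (opT I') q z) ^ 2
        = Real.exp (-∑ a, I' a) ^ 2 * (NormedSpace.exp (opT I') q z) ^ 2 := by ring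
      _ ≤ Real.exp (-∑ a, I' a) ^ 2 * (NormedSpace.exp (opT I) q z *
          NormedSpace.exp (opT (fun a => I' a ^ 2 / I a)) q z) :=
          mul_le_mul_of_nonneg_left h1 (sq_nonneg _)
      _ = _ := by
          rw [← h2]
          ring
  refine (sum_le_sum fun z _ => hterm z).trans ?_
  rw [← mul_sum, poAlg_sum_exp, hq.2, mul_one, ← Real.exp_add]
  refine le_of_eq ?_
  congr 1
  have h3 : ∀ a, (I' a - I a) ^ 2 / I a = -2 * I' a + I a + I' a ^ 2 / I a := by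
    intro a
    by_cases h0 : I a = 0
    · rw [hs a h0, h0]
      simp
    · field_simp
      ring
  rw [sum_congr rfl fun a _ => h3 a, sum_add_distrib, sum_add_distrib, ← mul_sum]

end Pool.MPbe0380
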