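import Pool.Agent.Lib.MP_be0380_co.S.EntDer
import Pool.Agent.Lib.MP_be0380_co.S.Av
import Pool.Agent.Lib.MP_be0380_co.S.PoPos

/-!
# be0380 S.Kkt: maximiser of `PHI(J) = ∫_0^1 2 ent (pt I0 J t) dt` and its first order condition

PROOF. The simplex `Δ = {J ≥ 0, J = 0 outside A, ∑ J = m}` is compact and not empty; `PHI` is continuous
(`intervalIntegral.continuous_parametric_intervalIntegral_of_continuous`, `continuous_pt`, `continuous_ent`).
Let `J` be a maximiser, `x` with `J x > 0`, `a ∈ A`, `a ≠ x`, `J_s = J + s (δ_a - δ_x)`, `0 ≤ s ≤ J x`. For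
`t ∈ [0,1]`, `pt I0 J_s t` is positive (`cv_pos` from `po_add`, `po I0 > 0`), and
`ent (pt I0 J_s t) - ent (pt I0 J t) = ∫_0^s t (D_(t,r)(a) - D_(t,r)(x)) dr` (`hasDerivAt_ent` with base
`I0 + t J`, direction `t (δ_a - δ_x)`, `q = dl`). `D_(t,r)(a) = KL (tau a P) P`, `P = pt I0 J_r t`, is continuous in
`(t, r)` on `[0,1] × [0, J x]`. If `av (D_(t,0)(a)) > av (D_(t,0)(x))`, then `g(r) = ∫_0^1 2 t (D_(t,r)(a) - D_(t,r)(x)) dt` is
continuous, `g(0) > 0`, so `PHI(J_s) - PHI(J) = ∫_0^s g > 0` for small `s` (Fubini, or the mean value theorem for each `t`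
and uniform continuity): contradiction. So `av D(a) ≤ av D(x)` for all `a ∈ A`, `J x > 0`; `l` = the common value.
-/

set_option autoImplicit false

open Finset

namespace Pool.MPbe0380

variable {G : Type} [AddCommGroup G] [Fintype G] [DecidableEq G]

private noncomputable def kD (I0 J : G → ℝ) (a : G) (t : ℝ) : ℝ := KL (tau a (pt I0 J t)) (pt I0 J t)

private def kdl (a : G) : G → ℝ := fun b => if b = a then 1 else 0

private def kJ (J : G → ℝ) (a x : G) (s : ℝ) : G → ℝ := fun b => J b + s * (kdl a b - kdl x b)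

private theorem kdl_ne {a b : G} (h : b ≠ a) : kdl a b = 0 := by
  unfold kdl
  rw [if_neg h]

private theorem kdl_nonneg (a b : G) : 0 ≤ kdl a b := by
  unfold kdl
  split_ifs <;> norm_num

private theorem kdl_sum (a : G) : ∑ b, kdl a b = 1 := by
  unfold kdl
  simp

private theorem kdl_mul_sum (a : G) (f : G → ℝ) : ∑ b, kdl a b * f b = f a := by
  unfold kdl
  simp

private theorem kJ_zero (J : G → ℝ) (a x : G) : kJ J a x 0 = J := by
  funext b
  unfold kJ
  ring

private theorem kJ_nonneg {J : G → ℝ} (hJ : ∀ b, 0 ≤ J b) {a x : G} {s : ℝ} (h0 : 0 ≤ s)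
    (h1 : s ≤ J x) (b : G) : 0 ≤ kJ J a x s b := by
  unfold kJ kdl
  have hb := hJ b
  split_ifs with h2 h3 h3
  · subst h2
    linarith
  · linarith
  · subst h3
    linarith
  · linarith

private theorem kJ_sum (J : G → ℝ) (a x : G) (s : ℝ) : ∑ b, kJ J a x s b = ∑ b, J b := by
  unfold kJ
  rw [sum_add_distrib, ← mul_sum, sum_sub_distrib, kdl_sum, kdl_sum]
  ring

private theorem kpt_pos {I0 : G → ℝ} (hpos : ∀ z, 0 < po I0 z) {J : G → ℝ}
    (hJ : ∀ b, 0 ≤ J b) {t : ℝ} (ht : 0 ≤ t) (z : G) : 0 < pt I0 J t z := by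
  have e : pt I0 J t = cv (po (fun b => t * J b)) (po I0) := by
    rw [← po_add]
    unfold pt
    congr 1
    funext b
    ring
  rw [e]
  exact cv_pos (po_law fun b => mul_nonneg ht (hJ b)) hpos z

/-- derivative in the direction of the exchange -/
private theorem khasDeriv (I0 J : G → ℝ) (a x : G) (t r : ℝ)
    (hp : ∀ z, 0 < pt I0 (kJ J a x r) t z) :
    HasDerivAt (fun s => ent (pt I0 (kJ J a x s) t))
      (t * (kD I0 (kJ J a x r) a t - kD I0 (kJ J a x r) x t)) r := by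
  have e : ∀ s, pt I0 (kJ J a x s) t =
      cv (pt (fun b => I0 b + t * J b) (fun b => t * (kdl a b - kdl x b)) s) dl := by
    intro s
    rw [cv_dl]
    unfold pt
    congr 1
    funext b
    unfold kJ
    ring
  have h := hasDerivAt_ent (fun b => I0 b + t * J b) (fun b => t * (kdl a b - kdl x b)) dl r
    (by rw [← e]; exact hp)
  simp only [← e] at h
  have e2 : ∑ b, t * (kdl a b - kdl x b) * KL (tau b (pt I0 (kJ J a x r) t)) (pt I0 (kJ J a x r) t) =
      t * (kD I0 (kJ J a x r) a t - kD I0 (kJ J a x r) x t) := by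
    have e3 : ∀ b, t * (kdl a b - kdl x b) *
        KL (tau b (pt I0 (kJ J a x r) t)) (pt I0 (kJ J a x r) t) =
        t * (kdl a b * kD I0 (kJ J a x r) b t - kdl x b * kD I0 (kJ J a x r) b t) := by
      intro b
      unfold kD
      ring
    rw [sum_congr rfl fun b _ => e3 b, ← mul_sum, sum_sub_distrib, kdl_mul_sum, kdl_mul_sum]
  rw [e2] at h
  exact h

private theorem kcont_pt2 (I0 J : G → ℝ) (a x : G) :
    Continuous (fun w : ℝ × ℝ => pt I0 (kJ J a x w.2) w.1) := by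
  have h : Continuous (fun w : ℝ × ℝ => ((kJ J a x w.2, w.1) : (G → ℝ) × ℝ)) := by
    refine Continuous.prodMk ?_ continuous_fst
    refine continuous_pi fun b => ?_
    unfold kJ
    fun_prop
  exact (continuous_pt I0).comp h

private theorem kcont_D {I0 : G → ℝ} (hpos : ∀ z, 0 < po I0 z) {J : G → ℝ}
    (hJ : ∀ b, 0 ≤ J b) (a x c : G) :
    ContinuousOn (fun w : ℝ × ℝ => kD I0 (kJ J a x w.2) c w.1)
      (Set.Icc 0 1 ×ˢ Set.Icc 0 (J x)) := by
  have h := (continuousOn_kl_tau c).comp (kcont_pt2 I0 J a x).continuousOn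
    (s := Set.Icc 0 1 ×ˢ Set.Icc 0 (J x)) (by
      rintro ⟨t, r⟩ hw
      have h1 : t ∈ Set.Icc (0 : ℝ) 1 := hw.1
      have h2 : r ∈ Set.Icc (0 : ℝ) (J x) := hw.2
      exact fun z => kpt_pos hpos (fun b => kJ_nonneg hJ h2.1 h2.2 b) h1.1 z)
  exact h

private theorem kcont_D0 {I0 : G → ℝ} (hpos : ∀ z, 0 < po I0 z) {J : G → ℝ}
    (hJ : ∀ b, 0 ≤ J b) (c : G) : ContinuousOn (fun t => kD I0 J c t) (Set.Icc 0 1) := by
  have h1 : Continuous (fun t : ℝ => pt I0 J t) :=
    (continuous_pt I0).comp (Continuous.prodMk continuous_const continuous_id)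
  exact (continuousOn_kl_tau c).comp h1.continuousOn
    (fun t ht => fun z => kpt_pos hpos hJ ht.1 z)

/-- the functional -/
private noncomputable def kPHI (I0 J : G → ℝ) : ℝ := ∫ t in (0 : ℝ)..1, 2 * ent (pt I0 J t)

private theorem kcont_PHI (I0 : G → ℝ) : Continuous (fun J => kPHI I0 J) := by
  unfold kPHI
  apply intervalIntegral.continuous_parametric_intervalIntegral_of_continuous'
  have h : Continuous (fun w : (G → ℝ) × ℝ => 2 * ent (pt I0 w.1 w.2)) :=
    continuous_const.mul (continuous_ent.comp (continuous_pt I0))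
  exact h

private theorem kcont_ent (I0 J : G → ℝ) : Continuous (fun t => 2 * ent (pt I0 J t)) := by
  have h1 : Continuous (fun t : ℝ => pt I0 J t) :=
    (continuous_pt I0).comp (Continuous.prodMk continuous_const continuous_id)
  exact continuous_const.mul (continuous_ent.comp h1)

/-- the first order inequality at a maximiser -/
private theorem kfirst {I0 : G → ℝ} (hpos : ∀ z, 0 < po I0 z) {J : G → ℝ}
    (hJ : ∀ b, 0 ≤ J b) {a x : G} (hx : 0 < J x)
    (hmax : ∀ s, 0 ≤ s → s ≤ J x → kPHI I0 (kJ J a x s) ≤ kPHI I0 J) :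
    av (kD I0 J a) ≤ av (kD I0 J x) := by
  by_contra hlt
  push Not at hlt
  set H : ℝ × ℝ → ℝ := fun w => kD I0 (kJ J a x w.2) a w.1 - kD I0 (kJ J a x w.2) x w.1 with hH
  have hHc : ContinuousOn H (Set.Icc 0 1 ×ˢ Set.Icc 0 (J x)) :=
    (kcont_D hpos hJ a x a).sub (kcont_D hpos hJ a x x)
  have hK : IsCompact ((Set.Icc (0 : ℝ) 1) ×ˢ (Set.Icc (0 : ℝ) (J x))) :=
    isCompact_Icc.prod isCompact_Icc
  have huc := hK.uniformContinuousOn_of_continuous hHc
  rw [Metric.uniformContinuousOn_iff] at huc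
  set e : ℝ := (av (kD I0 J a) - av (kD I0 J x)) / 2 with he
  have he0 : 0 < e := by
    rw [he]
    linarith
  obtain ⟨d, hd, hu⟩ := huc e he0
  set s : ℝ := min (J x) (d / 2) with hs
  have hs0 : 0 < s := lt_min hx (by linarith)
  have hsx : s ≤ J x := min_le_left _ _
  have hsd : s ≤ d / 2 := min_le_right _ _
  -- pointwise
  have hpt : ∀ t ∈ Set.Icc (0 : ℝ) 1,
      s * (2 * t * (H (t, 0) - e)) ≤ 2 * ent (pt I0 (kJ J a x s) t) - 2 * ent (pt I0 J t) := by
    intro t ht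
    have hpp : ∀ r ∈ Set.Icc (0 : ℝ) s, ∀ z, 0 < pt I0 (kJ J a x r) t z := fun r hr z =>
      kpt_pos hpos (fun b => kJ_nonneg hJ hr.1 (hr.2.trans hsx) b) ht.1 z
    obtain ⟨c, hc, hce⟩ := exists_hasDerivAt_eq_slope
      (fun r => ent (pt I0 (kJ J a x r) t))
      (fun r => t * (kD I0 (kJ J a x r) a t - kD I0 (kJ J a x r) x t)) hs0
      (fun r hr => (khasDeriv I0 J a x t r (hpp r hr)).continuousAt.continuousWithinAt)
      (fun r hr => khasDeriv I0 J a x t r (hpp r ⟨hr.1.le, hr.2.le⟩))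
    rw [sub_zero, eq_div_iff hs0.ne', kJ_zero] at hce
    have hc1 : ((t, c) : ℝ × ℝ) ∈ (Set.Icc (0 : ℝ) 1) ×ˢ (Set.Icc (0 : ℝ) (J x)) :=
      ⟨ht, hc.1.le, (hc.2.le.trans hsx)⟩
    have hc0 : ((t, 0) : ℝ × ℝ) ∈ (Set.Icc (0 : ℝ) 1) ×ˢ (Set.Icc (0 : ℝ) (J x)) :=
      ⟨ht, le_refl _, hx.le⟩
    have hdist : dist ((t, c) : ℝ × ℝ) (t, 0) < d := by
      rw [Prod.dist_eq, dist_self, Real.dist_eq, sub_zero, abs_of_pos hc.1]
      have := hc.2
      rw [max_lt_iff]
      constructor <;> linarith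
    have h1 := hu _ hc1 _ hc0 hdist
    rw [Real.dist_eq, abs_lt] at h1
    have h2 : H (t, 0) - e ≤ H (t, c) := by linarith [h1.1]
    have h3 : t * (H (t, 0) - e) ≤ t * H (t, c) := mul_le_mul_of_nonneg_left h2 ht.1
    have h4 : t * (H (t, 0) - e) * s ≤ t * H (t, c) * s := mul_le_mul_of_nonneg_right h3 hs0.le
    have h5 : t * H (t, c) * s = ent (pt I0 (kJ J a x s) t) - ent (pt I0 J t) := hce
    linarith
  -- integrate
  have hH0 : ContinuousOn (fun t => H (t, 0)) (Set.Icc 0 1) := by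
    have := (kcont_D0 hpos hJ a).sub (kcont_D0 hpos hJ x)
    refine this.congr fun t _ => ?_
    show kD I0 (kJ J a x 0) a t - kD I0 (kJ J a x 0) x t = _
    rw [kJ_zero]
    rfl
  have hint : ∫ t in (0 : ℝ)..1, s * (2 * t * (H (t, 0) - e)) ≤
      ∫ t in (0 : ℝ)..1, (2 * ent (pt I0 (kJ J a x s) t) - 2 * ent (pt I0 J t)) := by
    apply intervalIntegral.integral_mono_on zero_le_one
    · apply ContinuousOn.intervalIntegrable_of_Icc zero_le_one
      exact continuousOn_const.mul ((Continuous.continuousOn (by fun_prop)).mul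
        (hH0.sub continuousOn_const))
    · exact ((kcont_ent I0 _).sub (kcont_ent I0 _)).intervalIntegrable _ _
    · exact hpt
  rw [intervalIntegral.integral_sub ((kcont_ent I0 _).intervalIntegrable _ _)
    ((kcont_ent I0 _).intervalIntegrable _ _), intervalIntegral.integral_const_mul] at hint
  have h6 : ∫ t in (0 : ℝ)..1, 2 * ent (pt I0 (kJ J a x s) t) = kPHI I0 (kJ J a x s) := rfl
  have h7 : ∫ t in (0 : ℝ)..1, 2 * ent (pt I0 J t) = kPHI I0 J := rfl
  have h8 : ∫ t in (0 : ℝ)..1, 2 * t * (H (t, 0) - e) = av (kD I0 J a) - av (kD I0 J x) - e := by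
    have h9 : ∫ t in (0 : ℝ)..1, 2 * t * (H (t, 0) - e) = av (fun t => H (t, 0) - e) := rfl
    rw [h9, av_sub hH0 continuousOn_const, av_const]
    congr 1
    rw [← av_sub (kcont_D0 hpos hJ a) (kcont_D0 hpos hJ x)]
    apply av_congr
    intro t _
    show kD I0 (kJ J a x 0) a t - kD I0 (kJ J a x 0) x t = _
    rw [kJ_zero]
  rw [h6, h7, h8] at hint
  have h10 := hmax s hs0.le hsx
  have h11 : 0 < s * (av (kD I0 J a) - av (kD I0 J x) - e) := by
    apply mul_pos hs0
    rw [he]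
    linarith
  linarith

private theorem kcompact (A : Finset G) (m : ℝ) :
    IsCompact {J : G → ℝ | (∀ a, 0 ≤ J a) ∧ (∀ a, a ∉ A → J a = 0) ∧ ∑ a, J a = m} := by
  have hB : IsCompact (Set.univ.pi fun _ : G => Set.Icc (0 : ℝ) m) :=
    isCompact_univ_pi fun _ => isCompact_Icc
  refine hB.of_isClosed_subset ?_ ?_
  · have h1 : IsClosed {J : G → ℝ | ∀ a, 0 ≤ J a} := by
      have : {J : G → ℝ | ∀ a, 0 ≤ J a} = ⋂ a, {J : G → ℝ | 0 ≤ J a} := by
        ext J
        simp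
      rw [this]
      exact isClosed_iInter fun a => isClosed_le continuous_const (continuous_apply a)
    have h2 : IsClosed {J : G → ℝ | ∀ a, a ∉ A → J a = 0} := by
      have : {J : G → ℝ | ∀ a, a ∉ A → J a = 0} = ⋂ a, ⋂ (_ : a ∉ A), {J : G → ℝ | J a = 0} := by
        ext J
        simp
      rw [this]
      exact isClosed_iInter fun a => isClosed_iInter fun _ =>
        isClosed_eq (continuous_apply a) continuous_const
    have h3 : IsClosed {J : G → ℝ | ∑ a, J a = m} :=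
      isClosed_eq (continuous_finsetSum _ fun a _ => continuous_apply a) continuous_const
    exact h1.inter (h2.inter h3)
  · rintro J ⟨h1, -, h3⟩ a -
    exact ⟨h1 a, by rw [← h3]; exact single_le_sum (fun i _ => h1 i) (mem_univ a)⟩

theorem kkt (A : Finset G) (hA : A.Nonempty) (I0 : G → ℝ) (hI0 : ∀ a, 0 ≤ I0 a)
    (hpos : ∀ z, 0 < po I0 z) (m : ℝ) (hm : 0 < m) :
    ∃ J : G → ℝ, (∀ a, 0 ≤ J a) ∧ (∀ a, a ∉ A → J a = 0) ∧ ∑ a, J a = m ∧
      ∃ l : ℝ, (∀ a ∈ A, av (fun t => KL (tau a (pt I0 J t)) (pt I0 J t)) ≤ l) ∧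
        ∀ a, 0 < J a → av (fun t => KL (tau a (pt I0 J t)) (pt I0 J t)) = l := by
  obtain ⟨a0, ha0⟩ := hA
  obtain ⟨J, ⟨hJ0, hJA, hJm⟩, hJmax⟩ := (kcompact A m).exists_isMaxOn
    ⟨fun b => m * kdl a0 b, by
      refine ⟨fun b => ?_, fun b hb => ?_, ?_⟩
      · exact mul_nonneg hm.le (kdl_nonneg a0 b)
      · show m * kdl a0 b = 0
        rw [kdl_ne (fun h : b = a0 => hb (h ▸ ha0)), mul_zero]
      · rw [← mul_sum, kdl_sum, mul_one]⟩ (kcont_PHI I0).continuousOn
  refine ⟨J, hJ0, hJA, hJm, ?_⟩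
  have hx : ∃ x, 0 < J x := by
    by_contra h
    push Not at h
    have : ∑ a, J a ≤ 0 := sum_nonpos fun a _ => h a
    linarith
  obtain ⟨x0, hx0⟩ := hx
  have hsuppA : ∀ x, 0 < J x → x ∈ A := by
    intro x hx
    by_contra h
    rw [hJA x h] at hx
    exact lt_irrefl _ hx
  have key : ∀ a ∈ A, ∀ x, 0 < J x → av (kD I0 J a) ≤ av (kD I0 J x) := by
    intro a ha x hx
    apply kfirst hpos hJ0 hx
    intro s hs0 hs1
    apply hJmax
    refine ⟨fun b => kJ_nonneg hJ0 hs0 hs1 b, fun b hb => ?_, ?_⟩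
    · unfold kJ
      rw [kdl_ne (fun h : b = a => hb (h ▸ ha)), kdl_ne (fun h : b = x => hb (h ▸ hsuppA x hx)),
        hJA b hb]
      ring
    · rw [kJ_sum, hJm]
  exact ⟨av (kD I0 J x0), fun a ha => key a ha x0 hx0, fun a ha =>
    le_antisymm (key a (hsuppA a ha) x0 hx0) (key x0 (hsuppA x0 hx0) a ha)⟩

end Pool.MPbe0380
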