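import Pool.Agent.Lib.MP_be0380_co.S.ChDefs
import Pool.Agent.Lib.MP_be0380_co.S.Kkt

/-!
# be0380 S.ChEx: existence of the chain

PROOF. `r = √√n`, `r^4 = n`. Recursion: the state at `k` is a function `I k ≥ 0` with `0 < I k a` for `a ∈ A`
(subtype); `po (2 I k) > 0` by `po_pos` (`a ≠ 0` in `A`); `kkt` with `I0 = 2 I k`, `m = 4^(k+1) r/2` gives `J (k+1)`, `l (k+1)`
(choice).
-/

set_option autoImplicit false

open Finset

namespace Pool.MPbe0380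

private theorem chEx_step {p : ℕ} [Fact p.Prime] (A : Finset (ZMod p)) (hA : ∃ a ∈ A, a ≠ 0) (r : ℝ)
    (hr : 0 < r) (k : ℕ) (I : {I : ZMod p → ℝ // (∀ a, 0 ≤ I a) ∧ ∀ a ∈ A, 0 < I a}) :
    ∃ w : (ZMod p → ℝ) × ℝ, (∀ a, 0 ≤ w.1 a) ∧ (∀ a, a ∉ A → w.1 a = 0) ∧
      ∑ a, w.1 a = 4 ^ (k + 1) * r / 2 ∧
      (∀ a ∈ A, av (fun t => KL (tau a (pt (fun b => 2 * I.1 b) w.1 t))
        (pt (fun b => 2 * I.1 b) w.1 t)) ≤ w.2) ∧
      ∀ a, 0 < w.1 a → av (fun t => KL (tau a (pt (fun b => 2 * I.1 b) w.1 t))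
        (pt (fun b => 2 * I.1 b) w.1 t)) = w.2 := by
  obtain ⟨a, ha, ha0⟩ := hA
  have h2 : ∀ b, 0 ≤ 2 * I.1 b := fun b => mul_nonneg (by norm_num) (I.2.1 b)
  have hpos : ∀ z, 0 < po (fun b => 2 * I.1 b) z :=
    po_pos h2 ⟨a, ha0, mul_pos (by norm_num) (I.2.2 a ha)⟩
  obtain ⟨J, h1, h3, h4, l, h5, h6⟩ := kkt A ⟨a, ha⟩ (fun b => 2 * I.1 b) h2 hpos
    (4 ^ (k + 1) * r / 2) (by positivity)
  exact ⟨(J, l), h1, h3, h4, h5, h6⟩

theorem ch_exists {p : ℕ} [Fact p.Prime] (A : Finset (ZMod p)) (hA : ∃ a ∈ A, a ≠ 0) :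
    ∃ S : Ch p, S.A = A := by
  have hcard : (0 : ℝ) < (A.card : ℝ) := by
    obtain ⟨a, ha, _⟩ := hA
    exact_mod_cast card_pos.mpr ⟨a, ha⟩
  obtain ⟨r, hr0, hr4⟩ : ∃ r : ℝ, 0 < r ∧ (A.card : ℝ) = r ^ 4 := by
    refine ⟨√√(A.card : ℝ), Real.sqrt_pos.mpr (Real.sqrt_pos.mpr hcard), ?_⟩
    have h1 : √√(A.card : ℝ) ^ 2 = √(A.card : ℝ) := Real.sq_sqrt (Real.sqrt_nonneg _)
    have h2 : √√(A.card : ℝ) ^ 4 = (√√(A.card : ℝ) ^ 2) ^ 2 := by ring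
    rw [h2, h1, Real.sq_sqrt hcard.le]
  let St := {I : ZMod p → ℝ // (∀ a, 0 ≤ I a) ∧ ∀ a ∈ A, 0 < I a}
  choose w w1 w2 w3 w4 w5 using fun (k : ℕ) (I : St) => chEx_step A hA r hr0 k I
  let step : ℕ → St → St := fun k I => ⟨fun a => 2 * I.1 a + (w k I).1 a,
    fun a => add_nonneg (mul_nonneg (by norm_num) (I.2.1 a)) (w1 k I a),
    fun a ha => add_pos_of_pos_of_nonneg (mul_pos (by norm_num) (I.2.2 a ha)) (w1 k I a)⟩
  classical
  let I0 : St := ⟨fun a => if a ∈ A then (r ^ 3)⁻¹ else 0,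
    fun a => by
      show 0 ≤ if a ∈ A then (r ^ 3)⁻¹ else 0
      split_ifs
      · exact inv_nonneg.mpr (pow_pos hr0 3).le
      · exact le_refl _,
    fun a ha => by
      show 0 < if a ∈ A then (r ^ 3)⁻¹ else 0
      rw [if_pos ha]
      exact inv_pos.mpr (pow_pos hr0 3)⟩
  let I : ℕ → St := fun k => Nat.rec I0 (fun k I => step k I) k
  have hIs : ∀ k, I (k + 1) = step k (I k) := fun k => rfl
  let J : ℕ → ZMod p → ℝ := fun k => match k with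
    | 0 => fun _ => 0
    | k + 1 => (w k (I k)).1
  let l : ℕ → ℝ := fun k => match k with
    | 0 => Real.log (1 + r ^ 3)
    | k + 1 => (w k (I k)).2
  refine ⟨{
    A := A
    r := r
    I := fun k => (I k).1
    J := J
    l := l
    hA := hA
    r_pos := hr0
    hn := hr4
    I_zero := fun a => ?_
    I_succ := fun k a => ?_
    J_nonneg := fun k a => w1 k (I k) a
    J_supp := fun k a ha => w2 k (I k) a ha
    J_sum := fun k => w3 k (I k)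
    l_zero := rfl
    kkt_le := fun k a ha => w4 k (I k) a ha
    kkt_eq := fun k a ha => w5 k (I k) a ha }, rfl⟩
  · show (if a ∈ A then (r ^ 3)⁻¹ else 0) = if a ∈ A then (r ^ 3)⁻¹ else 0
    rfl
  · rfl

end Pool.MPbe0380
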