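import Pool.Agent.Lib.MP_be0380_co.S.Defs

/-!
# be0380 S.Kl: relative entropy on a finite set

`ac` is absolute continuity.
-/

set_option autoImplicit false

open Finset

namespace Pool.MPbe0380

private theorem kl_term {a b r : ℝ} (ha : 0 ≤ a) (hb : 0 ≤ b) (hab : b = 0 → a = 0) (hr : 0 < r) :
    a * Real.log r + a - r * b ≤ a * Real.log (a / b) := by
  rcases ha.eq_or_lt with h | h
  · rw [← h]; nlinarith
  · have hb' : 0 < b := lt_of_le_of_ne hb fun h0 => by rw [hab h0.symm] at h; exact lt_irrefl 0 h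
    have h1 : Real.log (r * b / a) ≤ r * b / a - 1 := Real.log_le_sub_one_of_pos (by positivity)
    rw [Real.log_div (by positivity) h.ne', Real.log_mul hr.ne' hb'.ne'] at h1
    rw [Real.log_div h.ne' hb'.ne']
    have h2 := mul_le_mul_of_nonneg_left h1 h.le
    have h3 : a * (r * b / a - 1) = r * b - a := by field_simp
    rw [h3] at h2
    linarith

/-- log sum inequality -/
theorem log_sum {ι : Type*} (s : Finset ι) (a b : ι → ℝ) (ha : ∀ i ∈ s, 0 ≤ a i)
    (hb : ∀ i ∈ s, 0 ≤ b i) (ac : ∀ i ∈ s, b i = 0 → a i = 0) :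
    (∑ i ∈ s, a i) * Real.log ((∑ i ∈ s, a i) / ∑ i ∈ s, b i) ≤
      ∑ i ∈ s, a i * Real.log (a i / b i) := by
  rcases (sum_nonneg ha).eq_or_lt with h | h
  · rw [← h, zero_mul]
    have h0 := (sum_eq_zero_iff_of_nonneg ha).mp h.symm
    refine le_of_eq (sum_eq_zero fun i hi => ?_).symm
    rw [h0 i hi, zero_mul]
  · have hB : 0 < ∑ i ∈ s, b i := by
      rcases (sum_nonneg hb).eq_or_lt with h' | h'
      · have h0 := (sum_eq_zero_iff_of_nonneg hb).mp h'.symm
        have : ∑ i ∈ s, a i = 0 := sum_eq_zero fun i hi => ac i hi (h0 i hi)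
        linarith
      · exact h'
    set r : ℝ := (∑ i ∈ s, a i) / ∑ i ∈ s, b i with hr
    have hr0 : 0 < r := div_pos h hB
    have h1 : ∑ i ∈ s, (a i * Real.log r + a i - r * b i) ≤ ∑ i ∈ s, a i * Real.log (a i / b i) :=
      sum_le_sum fun i hi => kl_term (ha i hi) (hb i hi) (ac i hi) hr0
    rw [sum_sub_distrib, sum_add_distrib, ← sum_mul, ← mul_sum] at h1
    have h2 : r * ∑ i ∈ s, b i = ∑ i ∈ s, a i := by rw [hr]; field_simp
    linarith

section

variable {Ω : Type*} [Fintype Ω]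

theorem dv {P Q : Ω → ℝ} (hP : IsLaw P) (hQ : IsLaw Q) (ac : ∀ x, Q x = 0 → P x = 0) (f : Ω → ℝ) :
    ∑ x, P x * f x ≤ KL P Q + Real.log (∑ x, Q x * Real.exp (f x)) := by
  have h1 := log_sum univ P (fun x => Q x * Real.exp (f x)) (fun x _ => hP.1 x)
    (fun x _ => mul_nonneg (hQ.1 x) (Real.exp_pos _).le)
    (fun x _ h => ac x ((mul_eq_zero.mp h).resolve_right (Real.exp_pos _).ne'))
  rw [hP.2, one_mul, one_div, Real.log_inv] at h1
  have h2 : ∑ x, P x * Real.log (P x / (Q x * Real.exp (f x))) = KL P Q - ∑ x, P x * f x := by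
    unfold KL
    rw [← sum_sub_distrib]
    refine sum_congr rfl fun x _ => ?_
    rcases (hP.1 x).eq_or_lt with h | h
    · rw [← h]; ring
    · have hq : 0 < Q x := lt_of_le_of_ne (hQ.1 x) fun h0 => by
        rw [ac x h0.symm] at h; exact lt_irrefl 0 h
      rw [← div_div, Real.log_div (div_pos h hq).ne' (Real.exp_pos _).ne', Real.log_exp]
      ring
  rw [h2] at h1
  linarith

theorem kl_nonneg {P Q : Ω → ℝ} (hP : IsLaw P) (hQ : IsLaw Q) (ac : ∀ x, Q x = 0 → P x = 0) :
    0 ≤ KL P Q := by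
  have h := dv hP hQ ac (fun _ => 0)
  simp only [mul_zero, sum_const_zero, Real.exp_zero, mul_one] at h
  rw [hQ.2, Real.log_one, add_zero] at h
  exact h

theorem kl_ge_bc {P Q : Ω → ℝ} (hP : IsLaw P) (hQ : IsLaw Q) (ac : ∀ x, Q x = 0 → P x = 0) :
    2 * (1 - BC P Q) ≤ KL P Q := by
  have key : ∀ x, 2 * (P x - √(P x * Q x)) ≤ P x * Real.log (P x / Q x) := by
    intro x
    rcases (hP.1 x).eq_or_lt with h | h
    · rw [← h]; simp
    · have hq : 0 < Q x := lt_of_le_of_ne (hQ.1 x) fun h0 => by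
        rw [ac x h0.symm] at h; exact lt_irrefl 0 h
      have hr : 0 < Q x / P x := div_pos hq h
      have h1 : Real.log (√(Q x / P x)) ≤ √(Q x / P x) - 1 :=
        Real.log_le_sub_one_of_pos (Real.sqrt_pos.mpr hr)
      rw [Real.log_sqrt hr.le, ← inv_div (P x) (Q x), Real.log_inv] at h1
      have h2 : √(P x * Q x) = P x * √((P x / Q x)⁻¹) := by
        rw [inv_div]
        have h3 : P x * Q x = P x ^ 2 * (Q x / P x) := by field_simp
        rw [h3, Real.sqrt_mul (sq_nonneg _), Real.sqrt_sq h.le]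
      rw [h2]
      nlinarith
  have h1 : ∑ x, 2 * (P x - √(P x * Q x)) ≤ ∑ x, P x * Real.log (P x / Q x) :=
    sum_le_sum fun x _ => key x
  rw [← mul_sum, sum_sub_distrib, hP.2] at h1
  exact h1

theorem kl_le_chi {P Q : Ω → ℝ} (hP : IsLaw P) (hQ : IsLaw Q) (ac : ∀ x, Q x = 0 → P x = 0) :
    KL P Q ≤ Real.log (∑ x, P x ^ 2 / Q x) := by
  have h1 := log_sum univ P (fun x => P x ^ 2 / Q x) (fun x _ => hP.1 x)
    (fun x _ => div_nonneg (sq_nonneg _) (hQ.1 x))
    (fun x _ h => by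
      rcases div_eq_zero_iff.mp h with h | h
      · exact pow_eq_zero_iff (by norm_num) |>.mp h
      · exact ac x h)
  rw [hP.2, one_mul, one_div, Real.log_inv] at h1
  have h2 : ∑ x, P x * Real.log (P x / (P x ^ 2 / Q x)) = - KL P Q := by
    unfold KL
    rw [← sum_neg_distrib]
    refine sum_congr rfl fun x _ => ?_
    rcases (hP.1 x).eq_or_lt with h | h
    · rw [← h]; ring
    · have hq : 0 < Q x := lt_of_le_of_ne (hQ.1 x) fun h0 => by
        rw [ac x h0.symm] at h; exact lt_irrefl 0 h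
      have h3 : P x / (P x ^ 2 / Q x) = (P x / Q x)⁻¹ := by field_simp
      rw [h3, Real.log_inv]
      ring
  rw [h2] at h1
  linarith

end

end Pool.MPbe0380
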