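import Pool.Agent.Lib.MP_be0380_co.S.Gram
import Pool.Agent.Lib.MP_be0380_co.S.Kl

/-!
# be0380 S.Chaos: first chaos, (6.7a) and (6.7b)

PROOFS. `P = cv (po I) q`. `chaos_a`: `Δ x = ∑_z P z F (z + x) - ∑ P F = ∑_z F z (P (z - x) - P z)`. With `c = Δ`:
`∑ I Δ^2 = ∑_z F z g z`, `g z = ∑_x I x Δ x (P (z - x) - P z)`, `∑ g^2/P = ∑ h^2 / P - s^2 ≤ ∑ I Δ^2` (`gram`; `h = g + s P`), so
by Cauchy-Schwarz `(∑ I Δ^2)^2 ≤ (∑ P F^2)(∑ g^2/P) ≤ (∑ P F^2)(∑ I Δ^2)`.
`chaos_b`: `c = 1_K / v` in `gram`: `∑ mu^2 / P ≤ 1 + 1/v`, then `kl_le_chi` (`mu` is a law).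
-/

set_option autoImplicit false

open Finset

namespace Pool.MPbe0380

variable {G : Type} [AddCommGroup G] [Fintype G] [DecidableEq G]

omit [DecidableEq G] in
private theorem chaos_sum_shift (P : G → ℝ) (x : G) : ∑ z, P (z - x) = ∑ z, P z :=
  sum_tau x P

theorem chaos_a {I : G → ℝ} (hI : ∀ a, 0 ≤ I a) {q : G → ℝ} (hq : IsLaw q)
    (hpos : ∀ z, 0 < cv (po I) q z) (F : G → ℝ) :
    ∑ x, I x * (∑ z, cv (po I) q z * F (z + x) - ∑ z, cv (po I) q z * F z) ^ 2 ≤
      ∑ z, cv (po I) q z * F z ^ 2 := by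
  have hP : IsLaw (cv (po I) q) := IsLaw.cv (po_law hI) hq
  have hg := gram hI hq hpos
    (fun x => ∑ z, cv (po I) q z * F (z + x) - ∑ z, cv (po I) q z * F z)
  generalize cv (po I) q = P at *
  set Δ : G → ℝ := fun x => ∑ z, P z * F (z + x) - ∑ z, P z * F z with hΔ
  set μ : ℝ := ∑ z, P z * F z with hμ
  set S : ℝ := ∑ x, I x * Δ x ^ 2 with hS
  set s : ℝ := ∑ x, I x * Δ x with hs
  set h : G → ℝ := fun z => ∑ x, I x * Δ x * P (z - x) with hh
  have hS0 : 0 ≤ S := sum_nonneg fun x _ => mul_nonneg (hI x) (sq_nonneg _)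
  have hg' : ∑ z, h z ^ 2 / P z ≤ s ^ 2 + S := hg
  have hsumh : ∑ z, h z = s := by
    simp only [hh]
    rw [sum_comm, hs]
    refine sum_congr rfl fun x _ => ?_
    rw [← mul_sum, chaos_sum_shift, hP.2, mul_one]
  have hFh : ∑ z, F z * h z = S + s * μ := by
    simp only [hh, mul_sum]
    rw [sum_comm, hS, hs, sum_mul, ← sum_add_distrib]
    refine sum_congr rfl fun x _ => ?_
    have e1 : ∑ z, F z * (I x * Δ x * P (z - x)) = I x * Δ x * ∑ z, F z * P (z - x) := by
      rw [mul_sum]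
      exact sum_congr rfl fun z _ => by ring
    have e2 : ∑ z, F z * P (z - x) = Δ x + μ := by
      have e3 : ∑ z, F z * P (z - x) = ∑ z, P z * F (z + x) :=
        Fintype.sum_equiv (Equiv.subRight x) _ _ fun z => by
          rw [Equiv.subRight_apply, sub_add_cancel, mul_comm]
      rw [e3, hΔ]
      ring
    rw [e1, e2]
    ring
  have hSg : S = ∑ z, F z * (h z - s * P z) := by
    have e1 : ∑ z, F z * (h z - s * P z) = ∑ z, F z * h z - s * ∑ z, P z * F z := by
      rw [mul_sum, ← sum_sub_distrib]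
      exact sum_congr rfl fun z _ => by ring
    rw [e1, hFh]
    ring
  have hg2 : ∑ z, (h z - s * P z) ^ 2 / P z ≤ S := by
    have e1 : ∑ z, (h z - s * P z) ^ 2 / P z
        = ∑ z, h z ^ 2 / P z - 2 * s * ∑ z, h z + s ^ 2 * ∑ z, P z := by
      have m1 : 2 * s * ∑ z, h z = ∑ z, 2 * s * h z := Finset.mul_sum _ _ _
      have m2 : s ^ 2 * ∑ z, P z = ∑ z, s ^ 2 * P z := Finset.mul_sum _ _ _
      rw [m1, m2, ← sum_sub_distrib, ← sum_add_distrib]
      refine sum_congr rfl fun z _ => ?_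
      have := (hpos z).ne'
      field_simp
      ring
    rw [e1, hsumh, hP.2]
    nlinarith
  have hCS : S ^ 2 ≤ (∑ z, P z * F z ^ 2) * ∑ z, (h z - s * P z) ^ 2 / P z := by
    have h1 := sum_mul_sq_le_sq_mul_sq univ (fun z => √(P z) * F z)
      (fun z => (h z - s * P z) / √(P z))
    have e1 : ∑ z, √(P z) * F z * ((h z - s * P z) / √(P z)) = S := by
      rw [hSg]
      refine sum_congr rfl fun z _ => ?_
      have : √(P z) ≠ 0 := (Real.sqrt_pos.mpr (hpos z)).ne'
      field_simp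
    have e2 : ∑ z, (√(P z) * F z) ^ 2 = ∑ z, P z * F z ^ 2 := by
      refine sum_congr rfl fun z _ => ?_
      rw [mul_pow, Real.sq_sqrt (hpos z).le]
    have e3 : ∑ z, ((h z - s * P z) / √(P z)) ^ 2 = ∑ z, (h z - s * P z) ^ 2 / P z := by
      refine sum_congr rfl fun z _ => ?_
      rw [div_pow, Real.sq_sqrt (hpos z).le]
    rw [e1, e2, e3] at h1
    exact h1
  have hV0 : 0 ≤ ∑ z, P z * F z ^ 2 := sum_nonneg fun z _ => mul_nonneg (hpos z).le (sq_nonneg _)
  have hfin : S ^ 2 ≤ (∑ z, P z * F z ^ 2) * S :=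
    hCS.trans (mul_le_mul_of_nonneg_left hg2 hV0)
  rcases hS0.eq_or_lt with h0 | h0
  · rw [← h0]
    exact hV0
  · nlinarith

theorem chaos_b {I : G → ℝ} (hI : ∀ a, 0 ≤ I a) {q : G → ℝ} (hq : IsLaw q)
    (hpos : ∀ z, 0 < cv (po I) q z) (K : Finset G) (hv : 0 < ∑ x ∈ K, I x) :
    KL (fun z => ∑ x ∈ K, I x / (∑ x ∈ K, I x) * cv (po I) q (z - x)) (cv (po I) q) ≤
      Real.log (1 + 1 / ∑ x ∈ K, I x) := by
  have hP : IsLaw (cv (po I) q) := IsLaw.cv (po_law hI) hq
  have hg := gram hI hq hpos (fun x => if x ∈ K then 1 / (∑ x ∈ K, I x) else 0)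
  generalize cv (po I) q = P at *
  set v : ℝ := ∑ x ∈ K, I x with hvdef
  have hmu : IsLaw (fun z => ∑ x ∈ K, I x / v * P (z - x)) := by
    refine ⟨fun z => sum_nonneg fun x _ =>
      mul_nonneg (div_nonneg (hI x) hv.le) (hP.1 _), ?_⟩
    rw [sum_comm]
    have : ∀ x ∈ K, ∑ z, I x / v * P (z - x) = I x / v := by
      intro x _
      rw [← mul_sum, chaos_sum_shift, hP.2, mul_one]
    rw [sum_congr rfl this, ← sum_div, ← hvdef, div_self hv.ne']
  have h1 := kl_le_chi hmu hP (fun x hx => absurd hx (hpos x).ne')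
  refine h1.trans (Real.log_le_log ?_ ?_)
  · obtain ⟨z, hz⟩ : ∃ z, 0 < ∑ x ∈ K, I x / v * P (z - x) := by
      by_contra hcon
      push Not at hcon
      have h0 : ∑ z, ∑ x ∈ K, I x / v * P (z - x) ≤ 0 := sum_nonpos fun z _ => hcon z
      rw [hmu.2] at h0
      linarith
    refine sum_pos' (fun z _ => div_nonneg (sq_nonneg _) (hpos z).le) ⟨z, mem_univ z, ?_⟩
    exact div_pos (pow_pos hz 2) (hpos z)
  · have e1 : ∀ z, ∑ x, I x * (if x ∈ K then 1 / v else 0) * P (z - x)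
        = ∑ x ∈ K, I x / v * P (z - x) := by
      intro z
      rw [← sum_filter_add_sum_filter_not univ (· ∈ K)]
      have e2 : ∑ x ∈ univ.filter (fun x => ¬ x ∈ K), I x * (if x ∈ K then 1 / v else 0) * P (z - x)
          = 0 := by
        apply sum_eq_zero
        intro x hx
        rw [if_neg (mem_filter.mp hx).2]
        ring
      rw [e2, add_zero, filter_mem_eq_inter, univ_inter]
      refine sum_congr rfl fun x hx => ?_
      rw [if_pos hx]
      ring
    have e3 : ∑ x, I x * (if x ∈ K then 1 / v else 0) = 1 := by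
      have : ∀ x, I x * (if x ∈ K then 1 / v else 0) = if x ∈ K then I x / v else 0 := by
        intro x
        split_ifs <;> ring
      simp only [this]
      rw [← sum_filter, filter_mem_eq_inter, univ_inter, ← sum_div, ← hvdef, div_self hv.ne']
    have e4 : ∑ x, I x * (if x ∈ K then 1 / v else 0) ^ 2 = 1 / v := by
      have : ∀ x, I x * (if x ∈ K then 1 / v else 0) ^ 2 = if x ∈ K then I x / v ^ 2 else 0 := by
        intro x
        split_ifs <;> ring
      simp only [this]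
      rw [← sum_filter, filter_mem_eq_inter, univ_inter, ← sum_div, ← hvdef]
      field_simp
    simp only [e1, e3, e4] at hg
    linarith

end Pool.MPbe0380
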