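import Pool.Agent.Lib.MP_be0380_co.S.PoAlg
import Pool.Agent.Lib.MP_be0380_co.S.Dp

/-!
# be0380 S.EntDer: derivative of the entropy, continuity

PROOFS. `hasDerivAt_ent`: `P_s = cv (pt I0 J s) q`, derivative of `P_s z` at `t` is
`∑_x J x (P_t (z - x) - P_t z)` (`hasDerivAt_pt`, convolution is a finite sum); `Real.hasDerivAt_negMulLog`
(`-log y - 1`, `y ≠ 0`). So the derivative is `-∑_z (∑_x J x (tau x P - P) z)(log (P z) + 1) =
∑_x J x (-∑ tau x P log P + ∑ P log P)` and `∑ P log P = ∑ tau x P log (tau x P)`: this is `∑_x J x KL (tau x P) P`.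
Continuity: finite sums of continuous functions on `{P | ∀ z, 0 < P z}`.
-/

set_option autoImplicit false

open Finset

namespace Pool.MPbe0380

variable {G : Type} [AddCommGroup G] [Fintype G] [DecidableEq G]

omit [DecidableEq G] in
private theorem entder_dot (J Q f : G → ℝ) :
    ∑ z, (∑ x, J x * (Q (z - x) - Q z)) * f z =
      ∑ x, J x * (∑ z, tau x Q z * f z - ∑ z, Q z * f z) := by
  have h1 : ∀ z, (∑ x, J x * (Q (z - x) - Q z)) * f z =
      ∑ x, J x * (tau x Q z * f z - Q z * f z) := by
    intro z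
    rw [sum_mul]
    refine sum_congr rfl fun x _ => ?_
    rw [tau_apply]
    ring
  rw [sum_congr rfl (fun z _ => h1 z), sum_comm]
  refine sum_congr rfl fun x _ => ?_
  rw [← mul_sum, sum_sub_distrib]

theorem hasDerivAt_ent (I0 J q : G → ℝ) (t : ℝ) (hpos : ∀ z, 0 < cv (pt I0 J t) q z) :
    HasDerivAt (fun s => ent (cv (pt I0 J s) q))
      (∑ x, J x * KL (tau x (cv (pt I0 J t) q)) (cv (pt I0 J t) q)) t := by
  set Q := cv (pt I0 J t) q with hQ
  -- derivative of the convolution
  have hcv : ∀ z, HasDerivAt (fun s => cv (pt I0 J s) q z)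
      (∑ x, J x * (Q (z - x) - Q z)) t := by
    intro z
    have h1 : ∀ y, HasDerivAt (fun s => pt I0 J s y * q (z - y))
        ((∑ x, J x * (pt I0 J t (y - x) - pt I0 J t y)) * q (z - y)) t := by
      intro y
      exact ((hasDerivAt_pi.mp (hasDerivAt_pt I0 J t)) y).mul_const _
    have h2 : HasDerivAt (fun s => ∑ y, pt I0 J s y * q (z - y))
        (∑ y, (∑ x, J x * (pt I0 J t (y - x) - pt I0 J t y)) * q (z - y)) t :=
      HasDerivAt.fun_sum (fun y _ => h1 y)
    have h3 : ∑ y, (∑ x, J x * (pt I0 J t (y - x) - pt I0 J t y)) * q (z - y) =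
        ∑ x, J x * (Q (z - x) - Q z) := by
      rw [entder_dot J (pt I0 J t) (fun y => q (z - y))]
      refine sum_congr rfl fun x _ => ?_
      have h4 : ∑ y, tau x (pt I0 J t) y * q (z - y) = Q (z - x) := by
        have h5 : Q (z - x) = tau x Q z := rfl
        rw [h5, hQ, tau_cv']
        rfl
      rw [h4]
      rfl
    rw [h3] at h2
    exact h2
  have hent : ∀ z, HasDerivAt (fun s => Real.negMulLog (cv (pt I0 J s) q z))
      ((-Real.log (Q z) - 1) * ∑ x, J x * (Q (z - x) - Q z)) t := by
    intro z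
    exact (Real.hasDerivAt_negMulLog (hpos z).ne').comp t (hcv z)
  have h4 : HasDerivAt (fun s => ∑ z, Real.negMulLog (cv (pt I0 J s) q z))
      (∑ z, (-Real.log (Q z) - 1) * ∑ x, J x * (Q (z - x) - Q z)) t :=
    HasDerivAt.fun_sum (fun z _ => hent z)
  have h5 : ∑ z, (-Real.log (Q z) - 1) * ∑ x, J x * (Q (z - x) - Q z) =
      ∑ x, J x * KL (tau x Q) Q := by
    have h6 : ∑ z, (-Real.log (Q z) - 1) * ∑ x, J x * (Q (z - x) - Q z) =
        ∑ z, (∑ x, J x * (Q (z - x) - Q z)) * (-Real.log (Q z) - 1) :=
      sum_congr rfl fun z _ => mul_comm _ _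
    rw [h6, entder_dot J Q]
    refine sum_congr rfl fun x _ => ?_
    congr 1
    have h7 : ∑ z, tau x Q z * (-Real.log (Q z) - 1) =
        -∑ z, tau x Q z * Real.log (Q z) - ∑ z, tau x Q z := by
      rw [← sum_neg_distrib, ← sum_sub_distrib]
      exact sum_congr rfl fun z _ => by ring
    have h8 : ∑ z, Q z * (-Real.log (Q z) - 1) =
        -∑ z, Q z * Real.log (Q z) - ∑ z, Q z := by
      rw [← sum_neg_distrib, ← sum_sub_distrib]
      exact sum_congr rfl fun z _ => by ring
    have h9 : ∑ z, Q z * Real.log (Q z) = ∑ z, tau x Q z * Real.log (tau x Q z) :=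
      (sum_tau x (fun z => Q z * Real.log (Q z))).symm
    rw [h7, h8, sum_tau, h9]
    unfold KL
    have h10 : ∀ z, tau x Q z * Real.log (tau x Q z / Q z) =
        tau x Q z * Real.log (tau x Q z) - tau x Q z * Real.log (Q z) := by
      intro z
      have b1 : tau x Q z ≠ 0 := (hpos _).ne'
      rw [Real.log_div b1 (hpos z).ne']
      ring
    rw [sum_congr rfl (fun z _ => h10 z), sum_sub_distrib]
    ring
  rw [h5] at h4
  exact h4

omit [DecidableEq G] in
theorem continuousOn_kl_tau (a : G) :
    ContinuousOn (fun P : G → ℝ => KL (tau a P) P) {P | ∀ z, 0 < P z} := by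
  unfold KL
  refine continuousOn_finset_sum _ fun z _ => ?_
  have h1 : ContinuousOn (fun P : G → ℝ => tau a P z) {P | ∀ z, 0 < P z} :=
    (continuous_apply (z - a)).continuousOn
  have h2 : ContinuousOn (fun P : G → ℝ => P z) {P | ∀ z, 0 < P z} :=
    (continuous_apply z).continuousOn
  refine h1.mul (ContinuousOn.log (h1.div h2 ?_) ?_)
  · intro P hP
    exact (hP z).ne'
  · intro P hP
    exact (div_pos (hP (z - a)) (hP z)).ne'

omit [DecidableEq G] in
theorem continuous_hel_tau (a : G) : Continuous (fun P : G → ℝ => hel P (tau a P)) := by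
  unfold hel BC
  refine Real.continuous_sqrt.comp (continuous_const.sub ?_)
  refine continuous_finset_sum _ fun z _ => ?_
  refine Real.continuous_sqrt.comp ?_
  exact (continuous_apply z).mul (continuous_apply (z - a))

omit [AddCommGroup G] [DecidableEq G] in
theorem continuous_ent : Continuous (fun P : G → ℝ => ent P) := by
  unfold ent
  exact continuous_finset_sum _ fun z _ => Real.continuous_negMulLog.comp (continuous_apply z)

/-- joint continuity of `(J, t) ↦ pt I0 J t` -/
theorem continuous_pt (I0 : G → ℝ) : Continuous (fun w : (G → ℝ) × ℝ => pt I0 w.1 w.2) := by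
  unfold pt
  have h : Continuous (fun w : (G → ℝ) × ℝ => (fun a => I0 a + w.2 * w.1 a : G → ℝ)) := by
    refine continuous_pi fun a => ?_
    exact continuous_const.add (continuous_snd.mul ((continuous_apply a).comp continuous_fst))
  exact continuous_po.comp h

omit [DecidableEq G] in
theorem continuous_cv (q : G → ℝ) : Continuous (fun P : G → ℝ => cv P q) := by
  refine continuous_pi fun z => ?_
  unfold cv
  exact continuous_finset_sum _ fun y _ => (continuous_apply y).mul continuous_const

end Pool.MPbe0380
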