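import Pool.Agent.Lib.MP_be0380_co.S.ChDefs
import Pool.Agent.Lib.MP_be0380_co.S.Chaos
import Pool.Agent.Lib.MP_be0380_co.S.EntDer
import Pool.Agent.Lib.MP_be0380_co.S.Ent
import Pool.Agent.Lib.MP_be0380_co.S.Av
import Pool.Agent.Lib.MP_be0380_co.S.PoPos

/-!
# be0380 S.ChFacts: facts on the chain

PROOFS. `I_nonneg`, `I_pos`: induction. `po_I_pos`: `po_pos`. `D_le`: `k = 0`: `chaos_b` with `K = {a}`, `q = dl`:
`KL ≤ log (1 + 1/I a) = log (1 + r^3)`. `k + 1`: `po (I (k+1)) = pt (2 I k) (J (k+1)) 1 = cv (pt .. t) (po ((1-t) J))`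
(`po_add`), so by `kl_tau_cv_le` `KL (tau a (po (I (k+1)))) .. ≤ KL at t` for all `t ∈ [0,1]`; `av_mono` with the constant,
`av_const`. `D_seg`: for `t ∈ [0,1]`: `pt (2 I k) J t = cv (po (I k)) (..)`, so `KL at t ≤ KL (tau a (po (I k))) ≤ l k`. `l_succ`:
some `J (k+1) x > 0` (positive sum), `l (k+1) = av .. ≤ l k`. `ent_succ`: `ent (po (2 I k)) ≤ 2 ent (po (I k))` (`po_add`,
`ent_cv_le`); `f(t) = ent (pt (2 I k) (J (k+1)) t)` has derivative `∑ J x D_t(x) ≤ m l k` on `[0,1]` (`hasDerivAt_ent`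
with `q = dl`), mean value inequality. `ent_zero`: `f(s) = ent (po (s I))`, `I = I 0`, is continuous on `[0,1]`, `f 0 = ent dl = 0`,
`f'(s) = ∑ I a D_(s I)(a) ≤ M (log (1 + r^3) - log s)` for `0 < s ≤ 1`, `M = ∑ I = r` (`chaos_b`: `D_(sI)(a) ≤ log (1 + r^3/s) ≤
log (1 + r^3) - log s`). The function `f(s) - M (s log (1+r^3) - s log s + s)` is antitone on `[0,1]` and `0` at `0`.
-/

set_option autoImplicit false

open Finset

namespace Pool.MPbe0380

namespace Ch

variable {p : ℕ} [Fact p.Prime] (S : Ch p)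

theorem I_nonneg (k : ℕ) (a : ZMod p) : 0 ≤ S.I k a := by
  induction k with
  | zero =>
    rw [S.I_zero]
    have := S.r_pos
    split_ifs
    · positivity
    · exact le_refl _
  | succ k ih =>
    rw [S.I_succ]
    have := S.J_nonneg k a
    linarith

theorem I_pos (k : ℕ) {a : ZMod p} (ha : a ∈ S.A) : 0 < S.I k a := by
  induction k with
  | zero =>
    rw [S.I_zero, if_pos ha]
    have := S.r_pos
    positivity
  | succ k ih =>
    rw [S.I_succ]
    have := S.J_nonneg k a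
    linarith

theorem po_I_law (k : ℕ) : IsLaw (po (S.I k)) := po_law (S.I_nonneg k)

theorem po_I_pos (k : ℕ) (z : ZMod p) : 0 < po (S.I k) z := by
  obtain ⟨a, ha, ha0⟩ := S.hA
  exact po_pos (S.I_nonneg k) ⟨a, ha0, S.I_pos k ha⟩ z

private theorem chF_one (I : ZMod p → ℝ) (hI : ∀ a, 0 ≤ I a) (hpos : ∀ z, 0 < po I z)
    (a : ZMod p) (ha : 0 < I a) : KL (tau a (po I)) (po I) ≤ Real.log (1 + 1 / I a) := by
  have h := chaos_b hI isLaw_dl (q := dl) (by rw [cv_dl]; exact hpos) {a}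
    (by rw [sum_singleton]; exact ha)
  simp only [sum_singleton, cv_dl, div_self ha.ne', one_mul] at h
  exact h

private theorem chF_cont (I0 J : ZMod p → ℝ) : Continuous (fun t : ℝ => pt I0 J t) := by
  have h := (continuous_pt I0).comp
    (Continuous.prodMk (continuous_const (y := J)) (continuous_id (X := ℝ)))
  exact h

private theorem chF_int_nonneg (k : ℕ) {t : ℝ} (ht : 0 ≤ t) (a : ZMod p) :
    0 ≤ 2 * S.I k a + t * S.J (k + 1) a :=
  add_nonneg (mul_nonneg (by norm_num) (S.I_nonneg k a)) (mul_nonneg ht (S.J_nonneg k a))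

private theorem chF_pt_pos (k : ℕ) {t : ℝ} (ht : 0 ≤ t) (z : ZMod p) :
    0 < pt (fun b => 2 * S.I k b) (S.J (k + 1)) t z := by
  obtain ⟨a, ha, ha0⟩ := S.hA
  refine po_pos (S.chF_int_nonneg k ht) ⟨a, ha0, ?_⟩ z
  have h1 := S.I_pos k ha
  have h2 := mul_nonneg ht (S.J_nonneg k a)
  show 0 < 2 * S.I k a + t * S.J (k + 1) a
  linarith

private theorem chF_pt_law (k : ℕ) {t : ℝ} (ht : 0 ≤ t) :
    IsLaw (pt (fun b => 2 * S.I k b) (S.J (k + 1)) t) :=
  po_law (S.chF_int_nonneg k ht)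

private theorem chF_cont_kl (k : ℕ) (a : ZMod p) :
    ContinuousOn (fun t => KL (tau a (pt (fun b => 2 * S.I k b) (S.J (k + 1)) t))
      (pt (fun b => 2 * S.I k b) (S.J (k + 1)) t)) (Set.Icc 0 1) := by
  refine (continuousOn_kl_tau a).comp (chF_cont _ _).continuousOn fun t ht => ?_
  exact S.chF_pt_pos k ht.1

theorem D_le (k : ℕ) {a : ZMod p} (ha : a ∈ S.A) : KL (tau a (po (S.I k))) (po (S.I k)) ≤ S.l k := by
  cases k with
  | zero =>
    refine (chF_one (S.I 0) (S.I_nonneg 0) (S.po_I_pos 0) a (S.I_pos 0 ha)).trans ?_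
    rw [S.I_zero, if_pos ha, S.l_zero, one_div, inv_inv]
  | succ k =>
    set c := KL (tau a (po (S.I (k + 1)))) (po (S.I (k + 1))) with hc
    rw [← av_const c]
    refine le_trans (av_mono continuousOn_const (S.chF_cont_kl k a) fun t ht => ?_)
      (S.kkt_le k a ha)
    have h1 : po (S.I (k + 1)) = cv (pt (fun b => 2 * S.I k b) (S.J (k + 1)) t)
        (po (fun b => (1 - t) * S.J (k + 1) b)) := by
      unfold pt
      rw [← po_add]
      congr 1
      funext b
      rw [S.I_succ]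
      ring
    rw [hc, h1]
    exact kl_tau_cv_le (S.chF_pt_law k ht.1) (S.chF_pt_pos k ht.1)
      (po_law fun b => mul_nonneg (by linarith [ht.2]) (S.J_nonneg k b)) a

private theorem chF_seg (k : ℕ) {t : ℝ} (ht : 0 ≤ t) {a : ZMod p} (ha : a ∈ S.A) :
    KL (tau a (pt (fun b => 2 * S.I k b) (S.J (k + 1)) t))
      (pt (fun b => 2 * S.I k b) (S.J (k + 1)) t) ≤ S.l k := by
  have h1 : pt (fun b => 2 * S.I k b) (S.J (k + 1)) t =
      cv (po (S.I k)) (po (fun b => S.I k b + t * S.J (k + 1) b)) := by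
    unfold pt
    rw [← po_add]
    congr 1
    funext b
    ring
  rw [h1]
  refine (kl_tau_cv_le (S.po_I_law k) (S.po_I_pos k) (po_law fun b => ?_) a).trans (S.D_le k ha)
  exact add_nonneg (S.I_nonneg k b) (mul_nonneg ht (S.J_nonneg k b))

private theorem chF_mem {k : ℕ} {a : ZMod p} (ha : 0 < S.J (k + 1) a) : a ∈ S.A := by
  by_contra h
  exact ha.ne' (S.J_supp k a h)

theorem l_succ (k : ℕ) : S.l (k + 1) ≤ S.l k := by
  obtain ⟨x, hx⟩ : ∃ x, 0 < S.J (k + 1) x := by
    by_contra h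
    push Not at h
    have h1 : ∑ a, S.J (k + 1) a ≤ 0 := sum_nonpos fun a _ => h a
    rw [S.J_sum] at h1
    have := S.r_pos
    have : (0 : ℝ) < 4 ^ (k + 1) * S.r / 2 := by positivity
    linarith
  have hxA := S.chF_mem hx
  rw [← S.kkt_eq k x hx]
  have h2 := av_mono (S.chF_cont_kl k x) (continuousOn_const (c := S.l k))
    fun t ht => S.chF_seg k ht.1 hxA
  rw [av_const] at h2
  exact h2

theorem l_nonneg (k : ℕ) : 0 ≤ S.l k := by
  obtain ⟨a, ha, _⟩ := S.hA
  refine le_trans ?_ (S.D_le k ha)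
  exact kl_nonneg ((S.po_I_law k).tau a) (S.po_I_law k) fun x hx => absurd hx (S.po_I_pos k x).ne'

theorem ent_succ (k : ℕ) :
    ent (po (S.I (k + 1))) ≤ 2 * ent (po (S.I k)) + 4 ^ (k + 1) * S.r / 2 * S.l k := by
  set f : ℝ → ℝ := fun t => ent (pt (fun b => 2 * S.I k b) (S.J (k + 1)) t) with hf
  set f' : ℝ → ℝ := fun t => ∑ x, S.J (k + 1) x *
    KL (tau x (pt (fun b => 2 * S.I k b) (S.J (k + 1)) t))
      (pt (fun b => 2 * S.I k b) (S.J (k + 1)) t) with hf'
  have hcont : Continuous f := continuous_ent.comp (chF_cont _ _)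
  have hder : ∀ t ∈ Set.Ioo (0 : ℝ) 1, HasDerivAt f (f' t) t := by
    intro t ht
    have h := hasDerivAt_ent (fun b => 2 * S.I k b) (S.J (k + 1)) dl t
      (by rw [cv_dl]; exact S.chF_pt_pos k ht.1.le)
    simp only [cv_dl] at h
    exact h
  obtain ⟨c, hc, hc2⟩ := exists_hasDerivAt_eq_slope f f' zero_lt_one hcont.continuousOn hder
  have h1 : f' c ≤ 4 ^ (k + 1) * S.r / 2 * S.l k := by
    rw [← S.J_sum k, sum_mul]
    refine sum_le_sum fun x _ => ?_
    rcases (S.J_nonneg k x).eq_or_lt with h | h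
    · rw [← h, zero_mul, zero_mul]
    · exact mul_le_mul_of_nonneg_left (S.chF_seg k hc.1.le (S.chF_mem h)) h.le
  have h0 : f 0 ≤ 2 * ent (po (S.I k)) := by
    have h2 : pt (fun b => 2 * S.I k b) (S.J (k + 1)) 0 = cv (po (S.I k)) (po (S.I k)) := by
      unfold pt
      rw [← po_add]
      congr 1
      funext b
      ring
    rw [hf]
    simp only []
    rw [h2]
    have := ent_cv_le (S.po_I_law k) (S.po_I_law k)
    linarith
  have h3 : f 1 = ent (po (S.I (k + 1))) := by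
    rw [hf]
    simp only []
    congr 1
    unfold pt
    congr 1
    funext b
    rw [S.I_succ]
    ring
  rw [sub_zero, div_one] at hc2
  linarith

private theorem chF_ent_dl : ent (dl : ZMod p → ℝ) = 0 := by
  unfold ent dl
  refine sum_eq_zero fun x _ => ?_
  split_ifs
  · exact Real.negMulLog_one
  · exact Real.negMulLog_zero

private theorem chF_sum : ∑ a, S.I 0 a = S.r := by
  have hr := S.r_pos
  simp only [S.I_zero]
  rw [sum_ite_mem, univ_inter, sum_const, nsmul_eq_mul, S.hn]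
  field_simp

theorem ent_zero : ent (po (S.I 0)) ≤ S.r * (Real.log (1 + S.r ^ 3) + 1) := by
  have hr := S.r_pos
  obtain ⟨a, ha, ha0⟩ := S.hA
  have hr3 : 0 < 1 + S.r ^ 3 := by positivity
  set f : ℝ → ℝ := fun t => ent (pt (fun _ => 0) (S.I 0) t) with hf
  set f' : ℝ → ℝ := fun t => ∑ x, S.I 0 x * KL (tau x (pt (fun _ => 0) (S.I 0) t))
      (pt (fun _ => 0) (S.I 0) t) with hf'
  have hn : ∀ t : ℝ, 0 < t → ∀ b, 0 ≤ 0 + t * S.I 0 b := fun t ht b => by
    rw [zero_add]; exact mul_nonneg ht.le (S.I_nonneg 0 b)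
  have hpos : ∀ t : ℝ, 0 < t → ∀ z, 0 < pt (fun _ => 0) (S.I 0) t z := by
    intro t ht z
    refine po_pos (hn t ht) ⟨a, ha0, ?_⟩ z
    show 0 < 0 + t * S.I 0 a
    rw [zero_add]
    exact mul_pos ht (S.I_pos 0 ha)
  have hcont : Continuous f := continuous_ent.comp (chF_cont _ _)
  have hder : ∀ t ∈ Set.Ioo (0 : ℝ) 1, HasDerivAt f (f' t) t := by
    intro t ht
    have h := hasDerivAt_ent (fun _ => 0) (S.I 0) dl t (by rw [cv_dl]; exact hpos t ht.1)
    simp only [cv_dl] at h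
    exact h
  have hder_le : ∀ t ∈ Set.Ioo (0 : ℝ) 1, f' t ≤ S.r * (Real.log (1 + S.r ^ 3) - Real.log t) := by
    intro t ht
    rw [← S.chF_sum, sum_mul, S.chF_sum]
    refine sum_le_sum fun x _ => ?_
    by_cases hx : x ∈ S.A
    · refine mul_le_mul_of_nonneg_left ?_ (S.I_nonneg 0 x)
      have hI : 0 < 0 + t * S.I 0 x := by
        rw [zero_add]; exact mul_pos ht.1 (S.I_pos 0 hx)
      refine (chF_one (fun b => 0 + t * S.I 0 b) (hn t ht.1) (hpos t ht.1) x hI).trans ?_
      rw [← Real.log_div hr3.ne' ht.1.ne']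
      refine Real.log_le_log (by positivity) ?_
      rw [zero_add, S.I_zero, if_pos hx]
      have h1 : 1 / (t * (S.r ^ 3)⁻¹) = S.r ^ 3 / t := by
        have := ht.1.ne'
        field_simp
      rw [h1, add_div]
      have h2 : 1 ≤ 1 / t := by
        rw [le_div_iff₀ ht.1]; linarith [ht.2]
      linarith
    · have h0 : S.I 0 x = 0 := by rw [S.I_zero, if_neg hx]
      rw [h0, zero_mul, zero_mul]
  set g : ℝ → ℝ := fun t => f t - S.r * (t * Real.log (1 + S.r ^ 3) - t * Real.log t + t) with hg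
  have hgc : Continuous g := by
    refine hcont.sub (continuous_const.mul ?_)
    exact ((continuous_id.mul continuous_const).sub Real.continuous_mul_log).add continuous_id
  have hgd : ∀ t ∈ Set.Ioo (0 : ℝ) 1, HasDerivAt g
      (f' t - S.r * (1 * Real.log (1 + S.r ^ 3) - (Real.log t + 1) + 1)) t := by
    intro t ht
    refine (hder t ht).sub (HasDerivAt.const_mul S.r ?_)
    exact (((hasDerivAt_id t).mul_const _).sub (Real.hasDerivAt_mul_log ht.1.ne')).add
      (hasDerivAt_id t)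
  obtain ⟨c, hc, hc2⟩ := exists_hasDerivAt_eq_slope g _ zero_lt_one hgc.continuousOn hgd
  rw [sub_zero, div_one] at hc2
  have h1 := hder_le c hc
  have h2 : g 0 = 0 := by
    have h3 : f 0 = 0 := by
      have h4 : pt (fun _ => 0) (S.I 0) 0 = (dl : ZMod p → ℝ) := by
        unfold pt
        rw [← po_zero]
        congr 1
        funext b
        ring
      rw [hf]
      simp only []
      rw [h4]
      exact chF_ent_dl
    rw [hg]
    simp only []
    rw [h3]
    ring
  have h5 : g 1 = ent (po (S.I 0)) - S.r * (Real.log (1 + S.r ^ 3) + 1) := by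
    have h6 : pt (fun _ => 0) (S.I 0) 1 = po (S.I 0) := by
      unfold pt
      congr 1
      funext b
      ring
    rw [hg, hf]
    simp only []
    rw [h6, Real.log_one]
    ring
  rw [h2, h5] at hc2
  linarith

end Ch

end Pool.MPbe0380
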