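import Pool.Agent.Lib.MP_be0380_co.S.Gram
import Pool.Agent.Lib.MP_be0380_co.S.Kl

/-!
# be0380 S.Chaos2: pairs, (6.7c)

PROOF. `p = cv (po I) q > 0`, `P = cv p p`, `u e = 1` for `e ∈ Q`, `M (w, w') = ∑_(e ∈ Q) (I e.1 I e.2 / W) p (w - e.1) p (w' - e.2)`.
`mu z = ∑_(w + w' = z) M (w, w')`, `P z = ∑_(w + w' = z) p w p w'`, Cauchy-Schwarz: `∑_z mu^2/P ≤ ∑_(w,w') M^2/(p w p w')`.
For fixed `w'` let `c_x = ∑_((x,y) ∈ Q) I y p (w' - y)`; `gram` in `w`: `∑_w (∑_x I x c_x p (w - x))^2 / p w ≤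
(∑_x I x c_x)^2 + ∑_x I x c_x^2`. Divide by `p w'` and sum over `w'`: `∑_x I x c_x = ∑_y I y deg'(y) p (w' - y)`, `deg'(y) =
∑_((x,y) ∈ Q) I x ≤ M1`: by `gram` the first sum is `≤ W^2 + ∑ I y deg'(y)^2 ≤ W^2 + M1 W`. Second sum, for every `x`:
`∑_(w') c_x^2/p w' ≤ deg(x)^2 + deg(x)`, total `≤ ∑_x I x (deg^2 + deg) ≤ M1 W + W`. So `∑ mu^2/P ≤ (W^2 + 2 M1 W + W)/W^2`.
`kl_le_chi`.
-/

set_option autoImplicit false

open Finset

namespace Pool.MPbe0380

variable {G : Type} [AddCommGroup G] [Fintype G] [DecidableEq G]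

/-- sum over a fibre as a sum with an indicator -/
private theorem c2_fst (Q : Finset (G × G)) (f : G × G → ℝ) (x : G) :
    ∑ e ∈ Q.filter (fun e => e.1 = x), f e = ∑ y, if (x, y) ∈ Q then f (x, y) else 0 := by
  have h3 : ∑ e ∈ Q.filter (fun e => e.1 = x), f e =
      ∑ e : G × G, if e ∈ Q then (if e.1 = x then f e else 0) else 0 := by
    rw [sum_filter, ← sum_filter (s := univ) (p := fun e => e ∈ Q)]
    simp
  rw [h3, Fintype.sum_prod_type, sum_eq_single x]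
  · refine sum_congr rfl fun y _ => ?_
    simp
  · intro b _ hb
    refine sum_eq_zero fun y _ => ?_
    simp [hb]
  · intro h
    exact absurd (mem_univ x) h

private theorem c2_snd (Q : Finset (G × G)) (f : G × G → ℝ) (y : G) :
    ∑ e ∈ Q.filter (fun e => e.2 = y), f e = ∑ x, if (x, y) ∈ Q then f (x, y) else 0 := by
  have h3 : ∑ e ∈ Q.filter (fun e => e.2 = y), f e =
      ∑ e : G × G, if e ∈ Q then (if e.2 = y then f e else 0) else 0 := by
    rw [sum_filter, ← sum_filter (s := univ) (p := fun e => e ∈ Q)]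
    simp
  rw [h3, Fintype.sum_prod_type_right, sum_eq_single y]
  · refine sum_congr rfl fun x _ => ?_
    simp
  · intro b _ hb
    refine sum_eq_zero fun x _ => ?_
    simp [hb]
  · intro h
    exact absurd (mem_univ y) h

private theorem c2_all (Q : Finset (G × G)) (f : G × G → ℝ) :
    ∑ e ∈ Q, f e = ∑ x, ∑ y, if (x, y) ∈ Q then f (x, y) else 0 := by
  have h3 : ∑ e ∈ Q, f e = ∑ e : G × G, if e ∈ Q then f e else 0 := by
    rw [← sum_filter]
    simp
  rw [h3, Fintype.sum_prod_type]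

private theorem c2_main {I : G → ℝ} (hI : ∀ a, 0 ≤ I a) {q : G → ℝ} (hq : IsLaw q)
    (hpos : ∀ z, 0 < cv (po I) q z) (Q : Finset (G × G)) (M1 W : ℝ)
    (hd1 : ∀ x, ∑ y, (if (x, y) ∈ Q then I y else 0) ≤ M1)
    (hd2 : ∀ y, ∑ x, (if (x, y) ∈ Q then I x else 0) ≤ M1)
    (hW : W = ∑ x, ∑ y, if (x, y) ∈ Q then I x * I y else 0) :
    ∑ w', ∑ w, (∑ e ∈ Q, I e.1 * I e.2 * (cv (po I) q (w - e.1) * cv (po I) q (w' - e.2))) ^ 2 /
      (cv (po I) q w * cv (po I) q w') ≤ W ^ 2 + (2 * M1 + 1) * W := by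
  set P : G → ℝ := cv (po I) q with hP
  -- the coefficients
  set c : G → G → ℝ := fun w' x => ∑ y, if (x, y) ∈ Q then I y * P (w' - y) else 0 with hc
  set dg : G → ℝ := fun y => ∑ x, (if (x, y) ∈ Q then I x else 0) with hdg
  set dx : G → ℝ := fun x => ∑ y, (if (x, y) ∈ Q then I y else 0) with hdx
  have hdg0 : ∀ y, 0 ≤ dg y := fun y => sum_nonneg fun x _ => by
    by_cases h : (x, y) ∈ Q
    · rw [if_pos h]; exact hI x
    · rw [if_neg h]
  have hdx0 : ∀ x, 0 ≤ dx x := fun x => sum_nonneg fun y _ => by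
    by_cases h : (x, y) ∈ Q
    · rw [if_pos h]; exact hI y
    · rw [if_neg h]
  have hN : ∀ w w', ∑ e ∈ Q, I e.1 * I e.2 * (P (w - e.1) * P (w' - e.2)) =
      ∑ x, I x * c w' x * P (w - x) := by
    intro w w'
    rw [c2_all]
    refine sum_congr rfl fun x _ => ?_
    simp only [hc]
    rw [mul_sum, sum_mul]
    refine sum_congr rfl fun y _ => ?_
    by_cases h : (x, y) ∈ Q
    · rw [if_pos h, if_pos h]; ring
    · rw [if_neg h, if_neg h]; ring
  have hs1 : ∀ w', ∑ x, I x * c w' x = ∑ y, I y * dg y * P (w' - y) := by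
    intro w'
    have e1 : ∀ x, I x * c w' x = ∑ y, if (x, y) ∈ Q then I x * I y * P (w' - y) else 0 := by
      intro x
      simp only [hc]
      rw [mul_sum]
      refine sum_congr rfl fun y _ => ?_
      by_cases h : (x, y) ∈ Q
      · rw [if_pos h, if_pos h]; ring
      · rw [if_neg h, if_neg h]; ring
    rw [sum_congr rfl fun x _ => e1 x, sum_comm]
    refine sum_congr rfl fun y _ => ?_
    simp only [hdg]
    rw [mul_sum, sum_mul]
    refine sum_congr rfl fun x _ => ?_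
    by_cases h : (x, y) ∈ Q
    · rw [if_pos h, if_pos h]; ring
    · rw [if_neg h, if_neg h]; ring
  have hWg : ∑ y, I y * dg y = W := by
    rw [hW, sum_comm]
    refine sum_congr rfl fun y _ => ?_
    simp only [hdg]
    rw [mul_sum]
    refine sum_congr rfl fun x _ => ?_
    by_cases h : (x, y) ∈ Q
    · rw [if_pos h, if_pos h]; ring
    · rw [if_neg h, if_neg h]; ring
  have hWx : ∑ x, I x * dx x = W := by
    rw [hW]
    refine sum_congr rfl fun x _ => ?_
    simp only [hdx]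
    rw [mul_sum]
    refine sum_congr rfl fun y _ => ?_
    by_cases h : (x, y) ∈ Q
    · rw [if_pos h, if_pos h]
    · rw [if_neg h, if_neg h]; ring
  -- first sum
  have hA : ∑ w', (∑ x, I x * c w' x) ^ 2 / P w' ≤ W ^ 2 + M1 * W := by
    have h1 := gram hI hq hpos dg
    rw [hWg] at h1
    have h2 : ∑ y, I y * dg y ^ 2 ≤ M1 * W := by
      rw [← hWg, mul_sum]
      refine sum_le_sum fun y _ => ?_
      have h3 := hd2 y
      have h4 := mul_nonneg (hI y) (hdg0 y)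
      have h5 : I y * dg y * dg y ≤ I y * dg y * M1 := mul_le_mul_of_nonneg_left h3 h4
      nlinarith
    calc ∑ w', (∑ x, I x * c w' x) ^ 2 / P w' = ∑ w', (∑ y, I y * dg y * P (w' - y)) ^ 2 / P w' :=
          sum_congr rfl fun w' _ => by rw [hs1 w']
      _ ≤ W ^ 2 + ∑ y, I y * dg y ^ 2 := h1
      _ ≤ W ^ 2 + M1 * W := by linarith
  -- second sum
  have hB : ∀ x, ∑ w', c w' x ^ 2 / P w' ≤ dx x ^ 2 + dx x := by
    intro x
    have h1 := gram hI hq hpos (fun y => if (x, y) ∈ Q then (1 : ℝ) else 0)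
    have h2 : ∀ w', (∑ y, I y * (if (x, y) ∈ Q then (1 : ℝ) else 0) * P (w' - y)) = c w' x := by
      intro w'
      simp only [hc]
      refine sum_congr rfl fun y _ => ?_
      by_cases h : (x, y) ∈ Q
      · rw [if_pos h, if_pos h]; ring
      · rw [if_neg h, if_neg h]; ring
    have h3 : (∑ y, I y * (if (x, y) ∈ Q then (1 : ℝ) else 0)) = dx x := by
      simp only [hdx]
      refine sum_congr rfl fun y _ => ?_
      by_cases h : (x, y) ∈ Q
      · rw [if_pos h, if_pos h]; ring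
      · rw [if_neg h, if_neg h]; ring
    have h4 : (∑ y, I y * (if (x, y) ∈ Q then (1 : ℝ) else 0) ^ 2) = dx x := by
      simp only [hdx]
      refine sum_congr rfl fun y _ => ?_
      by_cases h : (x, y) ∈ Q
      · rw [if_pos h, if_pos h]; ring
      · rw [if_neg h, if_neg h]; ring
    rw [h3, h4] at h1
    calc ∑ w', c w' x ^ 2 / P w' =
          ∑ w', (∑ y, I y * (if (x, y) ∈ Q then (1 : ℝ) else 0) * P (w' - y)) ^ 2 / P w' :=
          sum_congr rfl fun w' _ => by rw [h2 w']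
      _ ≤ dx x ^ 2 + dx x := h1
  have hB2 : ∑ w', (∑ x, I x * c w' x ^ 2) / P w' ≤ (M1 + 1) * W := by
    have h1 : ∑ w', (∑ x, I x * c w' x ^ 2) / P w' = ∑ x, I x * ∑ w', c w' x ^ 2 / P w' := by
      simp only [sum_div, mul_sum]
      rw [sum_comm]
      refine sum_congr rfl fun x _ => sum_congr rfl fun w' _ => ?_
      rw [mul_div_assoc]
    rw [h1, ← hWx, mul_sum]
    refine sum_le_sum fun x _ => ?_
    have h3 := hB x
    have h4 := mul_le_mul_of_nonneg_left h3 (hI x)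
    have h5 := hd1 x
    have h6 : I x * dx x * dx x ≤ I x * dx x * M1 :=
      mul_le_mul_of_nonneg_left h5 (mul_nonneg (hI x) (hdx0 x))
    nlinarith
  -- inner gram
  have hC : ∀ w', ∑ w, (∑ e ∈ Q, I e.1 * I e.2 * (P (w - e.1) * P (w' - e.2))) ^ 2 / (P w * P w') ≤
      (∑ x, I x * c w' x) ^ 2 / P w' + (∑ x, I x * c w' x ^ 2) / P w' := by
    intro w'
    have h1 := gram hI hq hpos (c w')
    rw [← add_div]
    calc ∑ w, (∑ e ∈ Q, I e.1 * I e.2 * (P (w - e.1) * P (w' - e.2))) ^ 2 / (P w * P w')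
        = (∑ w, (∑ x, I x * c w' x * P (w - x)) ^ 2 / P w) / P w' := by
          rw [sum_div]
          refine sum_congr rfl fun w _ => ?_
          rw [hN w w', div_div]
      _ ≤ ((∑ x, I x * c w' x) ^ 2 + ∑ x, I x * c w' x ^ 2) / P w' :=
          div_le_div_of_nonneg_right h1 (hpos w').le
  calc ∑ w', ∑ w, (∑ e ∈ Q, I e.1 * I e.2 * (P (w - e.1) * P (w' - e.2))) ^ 2 / (P w * P w')
      ≤ ∑ w', ((∑ x, I x * c w' x) ^ 2 / P w' + (∑ x, I x * c w' x ^ 2) / P w') :=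
        sum_le_sum fun w' _ => hC w'
    _ = ∑ w', (∑ x, I x * c w' x) ^ 2 / P w' + ∑ w', (∑ x, I x * c w' x ^ 2) / P w' :=
        sum_add_distrib
    _ ≤ (W ^ 2 + M1 * W) + (M1 + 1) * W := add_le_add hA hB2
    _ = W ^ 2 + (2 * M1 + 1) * W := by ring

theorem chaos_c {I : G → ℝ} (hI : ∀ a, 0 ≤ I a) {q : G → ℝ} (hq : IsLaw q)
    (hpos : ∀ z, 0 < cv (po I) q z) (Q : Finset (G × G)) (M1 W : ℝ)
    (hd1 : ∀ x, ∑ e ∈ Q.filter (fun e => e.1 = x), I e.2 ≤ M1)
    (hd2 : ∀ y, ∑ e ∈ Q.filter (fun e => e.2 = y), I e.1 ≤ M1)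
    (hW : W = ∑ e ∈ Q, I e.1 * I e.2) (hW0 : 0 < W) :
    KL (fun z => ∑ e ∈ Q, I e.1 * I e.2 / W * cv (cv (po I) q) (cv (po I) q) (z - (e.1 + e.2)))
      (cv (cv (po I) q) (cv (po I) q)) ≤ Real.log (1 + (2 * M1 + 1) / W) := by
  have hlaw : IsLaw (cv (po I) q) := (po_law hI).cv hq
  have hmain := c2_main hI hq hpos Q M1 W
    (fun x => by rw [← c2_fst Q (fun e => I e.2) x]; exact hd1 x)
    (fun y => by rw [← c2_snd Q (fun e => I e.1) y]; exact hd2 y)
    (by rw [hW, c2_all])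
  set P : G → ℝ := cv (po I) q with hP
  have hPP : IsLaw (cv P P) := hlaw.cv hlaw
  have hPPpos : ∀ z, 0 < cv P P z := fun z => cv_pos hlaw hpos z
  -- the law `mu`
  have hmu : IsLaw (fun z => ∑ e ∈ Q, I e.1 * I e.2 / W * cv P P (z - (e.1 + e.2))) := by
    constructor
    · intro z
      exact sum_nonneg fun e _ => mul_nonneg (div_nonneg (mul_nonneg (hI _) (hI _)) hW0.le)
        (hPP.1 _)
    · rw [sum_comm]
      have h1 : ∀ e ∈ Q, ∑ z, I e.1 * I e.2 / W * cv P P (z - (e.1 + e.2)) = I e.1 * I e.2 / W := by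
        intro e _
        rw [← mul_sum]
        have h2 := sum_tau (e.1 + e.2) (cv P P)
        simp only [tau_apply] at h2
        rw [h2, hPP.2, mul_one]
      rw [sum_congr rfl h1, ← sum_div, ← hW, div_self hW0.ne']
  refine (kl_le_chi hmu hPP fun x hx => absurd hx (hPPpos x).ne').trans ?_
  -- the Cauchy Schwarz step
  have hz : ∀ z, (∑ e ∈ Q, I e.1 * I e.2 / W * cv P P (z - (e.1 + e.2))) ^ 2 / cv P P z ≤
      (∑ w, (∑ e ∈ Q, I e.1 * I e.2 * (P (w - e.1) * P (z - w - e.2))) ^ 2 / (P w * P (z - w))) /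
        W ^ 2 := by
    intro z
    have h1 : (∑ e ∈ Q, I e.1 * I e.2 / W * cv P P (z - (e.1 + e.2))) =
        (∑ w, ∑ e ∈ Q, I e.1 * I e.2 * (P (w - e.1) * P (z - w - e.2))) / W := by
      rw [sum_comm, sum_div]
      refine sum_congr rfl fun e _ => ?_
      rw [← mul_sum]
      have h2 : cv P P (z - (e.1 + e.2)) = ∑ w, P (w - e.1) * P (z - w - e.2) := by
        unfold cv
        refine Fintype.sum_equiv (Equiv.addRight e.1) _ _ fun y => ?_
        simp only [Equiv.coe_addRight]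
        congr 2
        · abel
        · abel
      rw [h2]
      ring
    rw [h1, div_pow, div_div, mul_comm (W ^ 2), ← div_div]
    refine div_le_div_of_nonneg_right ?_ (sq_nonneg W)
    have h3 := sq_sum_div_le_sum_sq_div univ
      (fun w => ∑ e ∈ Q, I e.1 * I e.2 * (P (w - e.1) * P (z - w - e.2)))
      (g := fun w => P w * P (z - w)) (fun w _ => mul_pos (hpos w) (hpos _))
    exact h3
  have hsum : ∑ z, (∑ e ∈ Q, I e.1 * I e.2 / W * cv P P (z - (e.1 + e.2))) ^ 2 / cv P P z ≤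
      1 + (2 * M1 + 1) / W := by
    have h1 : ∑ z, ∑ w, (∑ e ∈ Q, I e.1 * I e.2 * (P (w - e.1) * P (z - w - e.2))) ^ 2 /
        (P w * P (z - w)) = ∑ w', ∑ w, (∑ e ∈ Q, I e.1 * I e.2 * (P (w - e.1) * P (w' - e.2))) ^ 2 /
        (P w * P w') := by
      rw [sum_comm]
      conv_rhs => rw [sum_comm]
      refine sum_congr rfl fun w _ => ?_
      exact Fintype.sum_equiv (Equiv.subRight w) _ _ fun z => rfl
    calc ∑ z, (∑ e ∈ Q, I e.1 * I e.2 / W * cv P P (z - (e.1 + e.2))) ^ 2 / cv P P z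
        ≤ ∑ z, (∑ w, (∑ e ∈ Q, I e.1 * I e.2 * (P (w - e.1) * P (z - w - e.2))) ^ 2 /
            (P w * P (z - w))) / W ^ 2 := sum_le_sum fun z _ => hz z
      _ = (∑ w', ∑ w, (∑ e ∈ Q, I e.1 * I e.2 * (P (w - e.1) * P (w' - e.2))) ^ 2 /
        (P w * P w')) / W ^ 2 := by rw [← sum_div, h1]
      _ ≤ (W ^ 2 + (2 * M1 + 1) * W) / W ^ 2 := div_le_div_of_nonneg_right hmain (sq_nonneg W)
      _ = 1 + (2 * M1 + 1) / W := by field_simp
  refine Real.log_le_log ?_ hsum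
  obtain ⟨x₀, _, hx₀⟩ := exists_lt_of_sum_lt (s := (univ : Finset G)) (f := fun _ => (0 : ℝ))
    (g := fun z => ∑ e ∈ Q, I e.1 * I e.2 / W * cv P P (z - (e.1 + e.2)))
    (by rw [sum_const_zero, hmu.2]; exact one_pos)
  refine sum_pos' (fun z _ => div_nonneg (sq_nonneg _) (hPPpos z).le) ⟨x₀, mem_univ _, ?_⟩
  exact div_pos (pow_pos hx₀ 2) (hPPpos x₀)

end Pool.MPbe0380
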