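import Pool.Agent.Lib.MP_be0380_co.S.Kl

/-!
# be0380 S.Cut: cut log likelihood ratios as test functions

PROOFS. `cut_dv`: `dv` for `mu'` and `Q` with `f = cut T (log (mu / Q))`: `e^(f) ≤ mu/Q + e^(-T)` (if
`log (mu/Q) ≥ -T` then `f ≤ log (mu/Q)`, else `f = -T`; if `mu z = 0` then `log 0 = 0` in Lean, so assume
`mu > 0`), so `log ∑ Q e^f ≤ log (1 + e^(-T)) ≤ e^(-T)`. `cut_exc`: `f ≥ log (mu/Q) - max (log (mu/Q) - T) 0` for
`T ≥ 0`. `low_exc`: `max (-x - s) 0 ≤ e^(-x-s)`, so `tau d Q * (..) ≤ Q e^(-s)`.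
-/

set_option autoImplicit false

open Finset

namespace Pool.MPbe0380

theorem cut_abs {T : ℝ} (hT : 0 ≤ T) (x : ℝ) : |cut T x| ≤ T := by
  unfold cut
  rw [abs_le]
  exact ⟨le_max_left _ _, max_le (by linarith) (min_le_right _ _)⟩

theorem le_cut_add {T : ℝ} (x : ℝ) : x ≤ cut T x + max (x - T) 0 := by
  unfold cut
  rcases le_total x T with h | h
  · have h1 : x ≤ max (-T) (min x T) := by
      rw [min_eq_left h]
      exact le_max_right _ _
    have h2 : (0 : ℝ) ≤ max (x - T) 0 := le_max_right _ _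
    linarith
  · have h1 : T ≤ max (-T) (min x T) := by
      rw [min_eq_right h]
      exact le_max_right _ _
    have h2 : x - T ≤ max (x - T) 0 := le_max_left _ _
    linarith

section

variable {Ω : Type*} [Fintype Ω]

theorem cut_dv {mu' mu Q : Ω → ℝ} (hmu' : IsLaw mu') (hmu : IsLaw mu) (hQ : IsLaw Q)
    (hm0 : ∀ x, 0 < mu x) (hQ0 : ∀ x, 0 < Q x) (T : ℝ) (hT : 0 ≤ T) :
    ∑ x, mu' x * cut T (Real.log (mu x / Q x)) ≤ KL mu' Q + Real.exp (-T) := by
  have h1 := dv hmu' hQ (fun x hx => absurd hx (hQ0 x).ne')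
    (fun x => cut T (Real.log (mu x / Q x)))
  have h2 : ∑ x, Q x * Real.exp (cut T (Real.log (mu x / Q x))) ≤ 1 + Real.exp (-T) := by
    have h3 : ∀ x ∈ univ, Q x * Real.exp (cut T (Real.log (mu x / Q x))) ≤
        mu x + Q x * Real.exp (-T) := by
      intro x _
      have hq := hQ0 x
      have hm := hm0 x
      have hr : 0 < mu x / Q x := div_pos hm hq
      rcases le_total (-T) (Real.log (mu x / Q x)) with h | h
      · have h4 : cut T (Real.log (mu x / Q x)) ≤ Real.log (mu x / Q x) := by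
          unfold cut
          exact max_le h (min_le_left _ _)
        have h5 : Real.exp (cut T (Real.log (mu x / Q x))) ≤ mu x / Q x := by
          calc Real.exp (cut T (Real.log (mu x / Q x)))
              ≤ Real.exp (Real.log (mu x / Q x)) := Real.exp_le_exp.2 h4
            _ = mu x / Q x := Real.exp_log hr
        have h6 : Q x * Real.exp (cut T (Real.log (mu x / Q x))) ≤ Q x * (mu x / Q x) :=
          mul_le_mul_of_nonneg_left h5 hq.le
        have h7 : Q x * (mu x / Q x) = mu x := by field_simp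
        have h8 : 0 ≤ Q x * Real.exp (-T) := by positivity
        linarith
      · have h4 : cut T (Real.log (mu x / Q x)) ≤ -T := by
          unfold cut
          exact max_le le_rfl ((min_le_left _ _).trans h)
        have h5 : Q x * Real.exp (cut T (Real.log (mu x / Q x))) ≤ Q x * Real.exp (-T) :=
          mul_le_mul_of_nonneg_left (Real.exp_le_exp.2 h4) hq.le
        linarith
    refine (sum_le_sum h3).trans ?_
    rw [sum_add_distrib, ← sum_mul, hmu.2, hQ.2, one_mul]
  have hpos : 0 < ∑ x, Q x * Real.exp (cut T (Real.log (mu x / Q x))) := by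
    obtain ⟨x₀, hx₀⟩ : ∃ x : Ω, True := by
      by_contra hcon
      push Not at hcon
      have : ∑ x, Q x = 0 := sum_eq_zero fun x _ => (hcon x).elim
      rw [hQ.2] at this
      exact one_ne_zero this
    exact sum_pos (fun x _ => mul_pos (hQ0 x) (Real.exp_pos _)) ⟨x₀, mem_univ _⟩
  have h9 : Real.log (∑ x, Q x * Real.exp (cut T (Real.log (mu x / Q x)))) ≤ Real.exp (-T) := by
    have := Real.log_le_sub_one_of_pos hpos
    linarith
  linarith

theorem cut_exc {mu Q : Ω → ℝ} (hmu : IsLaw mu) (T : ℝ) :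
    KL mu Q - ∑ x, mu x * max (Real.log (mu x / Q x) - T) 0 ≤
      ∑ x, mu x * cut T (Real.log (mu x / Q x)) := by
  unfold KL
  rw [← sum_sub_distrib]
  refine sum_le_sum fun x _ => ?_
  have h := mul_le_mul_of_nonneg_left (le_cut_add (T := T) (Real.log (mu x / Q x))) (hmu.1 x)
  linarith

end

variable {G : Type} [AddCommGroup G] [Fintype G]

theorem low_exc {Q : G → ℝ} (hQ : IsLaw Q) (hQ0 : ∀ x, 0 < Q x) (d : G) (s : ℝ) :
    ∑ z, tau d Q z * max (-Real.log (tau d Q z / Q z) - s) 0 ≤ Real.exp (-s) := by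
  have h1 : ∀ z ∈ univ, tau d Q z * max (-Real.log (tau d Q z / Q z) - s) 0 ≤
      Q z * Real.exp (-s) := by
    intro z _
    have ht : 0 < tau d Q z := hQ0 _
    have hq := hQ0 z
    have h2 : max (-Real.log (tau d Q z / Q z) - s) 0 ≤
        Real.exp (-Real.log (tau d Q z / Q z) - s) := by
      refine max_le ?_ (Real.exp_pos _).le
      have := Real.add_one_le_exp (-Real.log (tau d Q z / Q z) - s)
      linarith
    have h3 : Real.exp (-Real.log (tau d Q z / Q z) - s) =
        (tau d Q z / Q z)⁻¹ * Real.exp (-s) := by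
      rw [sub_eq_add_neg, Real.exp_add, Real.exp_neg, Real.exp_log (div_pos ht hq)]
    rw [h3] at h2
    have h4 := mul_le_mul_of_nonneg_left h2 ht.le
    have h5 : tau d Q z * ((tau d Q z / Q z)⁻¹ * Real.exp (-s)) = Q z * Real.exp (-s) := by
      rw [inv_div]
      field_simp
    rw [h5] at h4
    exact h4
  refine (sum_le_sum h1).trans ?_
  rw [← sum_mul, hQ.2, one_mul]

end Pool.MPbe0380
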