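import Pool.Agent.Lib.MP_be0380_co.S.Kl
import Pool.Agent.Lib.MP_be0380_co.S.Hel

/-!
# be0380 S.HConf: pointwise confinement, (6.6)

PROOF. `Q = cv p q > 0`. On `Ω = G × G` (points `(z, w)`): `Py (z,w) = p (z - w - y) q w`,
`Ry (z,w) = p (z - w) q w * tau y Q z / Q z`, and `Pa`, `Ra` with `a` for `y`. All four are laws
(`∑_w p (z - w) q w = Q z`), `Ry = 0` implies `q w = 0` (p > 0, Q > 0) hence `Py = 0`.
`KL Py Ry = ∑ p (z-w-y) q w (log (p (z-w-y)/p (z-w)) - log (tau y Q z / Q z)) = KL (tau y p) p - KL (tau y Q) Q`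
(the first part: substitute `z - w`; the second: sum over `w` gives `tau y Q z`). By `kl_ge_bc`:
`hel Py Ry ≤ √((..)/2)`. `BC Ry Ra = ∑ p (z-w) q w √(tau y Q z tau a Q z) / Q z = BC (tau y Q) (tau a Q)`, so
`hel Ry Ra = hel (tau y Q) (tau a Q)`. The map `(z, w) ↦ z - w` sends `Py`, `Pa` to `tau y p`, `tau a p`
(`hel_map`). Triangle inequality.
-/

set_option autoImplicit false

open Finset

namespace Pool.MPbe0380

variable {G : Type} [AddCommGroup G] [Fintype G]

private theorem hconf_cv (p q : G → ℝ) (z : G) : ∑ w, p (z - w) * q w = cv p q z := by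
  rw [cv_comm]
  unfold cv
  exact sum_congr rfl fun w _ => mul_comm _ _

private theorem hconf_cv_tau (p q : G → ℝ) (y z : G) :
    ∑ w, p (z - w - y) * q w = tau y (cv p q) z := by
  rw [tau_apply, ← hconf_cv p q (z - y)]
  refine sum_congr rfl fun w _ => ?_
  rw [sub_right_comm]

/-- the joint law -/
private def hconfP (p q : G → ℝ) (y : G) (x : G × G) : ℝ := p (x.1 - x.2 - y) * q x.2

/-- the comparison law -/
private noncomputable def hconfR (p q : G → ℝ) (y : G) (x : G × G) : ℝ :=
  p (x.1 - x.2) * q x.2 * (tau y (cv p q) x.1 / cv p q x.1)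

private theorem hconfP_law {p q : G → ℝ} (hp : IsLaw p) (hq : IsLaw q) (y : G) :
    IsLaw (hconfP p q y) := by
  refine ⟨fun x => mul_nonneg (hp.1 _) (hq.1 _), ?_⟩
  rw [Fintype.sum_prod_type]
  unfold hconfP
  have h : ∀ z, ∑ w, p (z - w - y) * q w = tau y (cv p q) z := hconf_cv_tau p q y
  rw [sum_congr rfl (fun z _ => h z), sum_tau, sum_cv, hp.2, hq.2, one_mul]

private theorem hconfR_law {p q : G → ℝ} (hp : IsLaw p) (hq : IsLaw q)
    (hQ : ∀ z, 0 < cv p q z) (y : G) : IsLaw (hconfR p q y) := by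
  refine ⟨fun x => mul_nonneg (mul_nonneg (hp.1 _) (hq.1 _))
    (div_nonneg (hQ _).le (hQ _).le), ?_⟩
  rw [Fintype.sum_prod_type]
  unfold hconfR
  have h : ∀ z, ∑ w, p (z - w) * q w * (tau y (cv p q) z / cv p q z) = tau y (cv p q) z := by
    intro z
    rw [← sum_mul, hconf_cv]
    have := (hQ z).ne'
    field_simp
  rw [sum_congr rfl (fun z _ => h z), sum_tau, sum_cv, hp.2, hq.2, one_mul]

private theorem hconf_KL {p q : G → ℝ} (hq : IsLaw q) (hpos : ∀ z, 0 < p z)
    (hQ : ∀ z, 0 < cv p q z) (y : G) :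
    KL (hconfP p q y) (hconfR p q y) = KL (tau y p) p - KL (tau y (cv p q)) (cv p q) := by
  have h1 : ∀ x : G × G, hconfP p q y x * Real.log (hconfP p q y x / hconfR p q y x) =
      p (x.1 - x.2 - y) * q x.2 * Real.log (p (x.1 - x.2 - y) / p (x.1 - x.2)) -
        p (x.1 - x.2 - y) * q x.2 * Real.log (tau y (cv p q) x.1 / cv p q x.1) := by
    intro x
    rcases (hq.1 x.2).eq_or_lt with h0 | h0
    · unfold hconfP
      rw [← h0]
      simp
    · have e1 : hconfP p q y x / hconfR p q y x =
          (p (x.1 - x.2 - y) / p (x.1 - x.2)) / (tau y (cv p q) x.1 / cv p q x.1) := by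
        unfold hconfP hconfR
        have a1 := (hpos (x.1 - x.2)).ne'
        have a2 := (hQ x.1).ne'
        have a3 : tau y (cv p q) x.1 ≠ 0 := (hQ _).ne'
        have a4 := h0.ne'
        field_simp
      have b1 : p (x.1 - x.2 - y) / p (x.1 - x.2) ≠ 0 := (div_pos (hpos _) (hpos _)).ne'
      have b2 : tau y (cv p q) x.1 / cv p q x.1 ≠ 0 := (div_pos (hQ _) (hQ _)).ne'
      rw [e1, Real.log_div b1 b2, mul_sub]
      rfl
  unfold KL
  rw [sum_congr rfl (fun x _ => h1 x), sum_sub_distrib]
  congr 1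
  · rw [Fintype.sum_prod_type_right]
    have h2 : ∀ w, ∑ z, p (z - w - y) * q w * Real.log (p (z - w - y) / p (z - w)) =
        q w * ∑ s, tau y p s * Real.log (tau y p s / p s) := by
      intro w
      rw [mul_sum]
      refine Fintype.sum_equiv (Equiv.subRight w) _ _ fun z => ?_
      rw [Equiv.subRight_apply, tau_apply]
      ring
    rw [sum_congr rfl (fun w _ => h2 w), ← sum_mul, hq.2, one_mul]
  · rw [Fintype.sum_prod_type]
    refine sum_congr rfl fun z _ => ?_
    show ∑ w, p (z - w - y) * q w * Real.log (tau y (cv p q) z / cv p q z) = _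
    rw [← sum_mul, hconf_cv_tau]

private theorem hconf_BC {p q : G → ℝ} (hp : IsLaw p) (hq : IsLaw q)
    (hQ : ∀ z, 0 < cv p q z) (y a : G) :
    BC (hconfR p q y) (hconfR p q a) = BC (tau y (cv p q)) (tau a (cv p q)) := by
  unfold BC
  rw [Fintype.sum_prod_type]
  refine sum_congr rfl fun z _ => ?_
  have h1 : ∀ w, √(hconfR p q y (z, w) * hconfR p q a (z, w)) =
      p (z - w) * q w * (√(tau y (cv p q) z * tau a (cv p q) z) / cv p q z) := by
    intro w
    have e1 : hconfR p q y (z, w) * hconfR p q a (z, w) =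
        (p (z - w) * q w / cv p q z) ^ 2 * (tau y (cv p q) z * tau a (cv p q) z) := by
      unfold hconfR
      have := (hQ z).ne'
      field_simp
    rw [e1, Real.sqrt_mul (sq_nonneg _), Real.sqrt_sq (div_nonneg
      (mul_nonneg (hp.1 _) (hq.1 _)) (hQ z).le)]
    ring
  rw [sum_congr rfl (fun w _ => h1 w), ← sum_mul, hconf_cv]
  have := (hQ z).ne'
  field_simp

open Classical in
private theorem hconf_map {p q : G → ℝ} (hq : IsLaw q) (y : G) :
    (fun s : G => ∑ x ∈ univ.filter (fun x : G × G => x.1 - x.2 = s), hconfP p q y x) = tau y p := by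
  funext s
  rw [sum_filter, Fintype.sum_prod_type_right, tau_apply]
  have h1 : ∀ w : G, ∑ z : G, (if z - w = s then hconfP p q y (z, w) else 0) = p (s - y) * q w := by
    intro w
    rw [sum_eq_single (s + w)]
    · rw [if_pos (by abel)]
      unfold hconfP
      simp
    · intro z _ hz
      rw [if_neg]
      intro h
      exact hz (by rw [← h]; abel)
    · intro h
      exact absurd (mem_univ _) h
  rw [sum_congr rfl (fun w _ => h1 w), ← mul_sum, hq.2, mul_one]

theorem hel_conf {p q : G → ℝ} (hp : IsLaw p) (hq : IsLaw q) (hpos : ∀ z, 0 < p z) (a y : G) :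
    hel (tau y p) (tau a p) ≤
      √((KL (tau y p) p - KL (tau y (cv p q)) (cv p q)) / 2) +
        hel (tau y (cv p q)) (tau a (cv p q)) +
      √((KL (tau a p) p - KL (tau a (cv p q)) (cv p q)) / 2) := by
  classical
  have hQ : ∀ z, 0 < cv p q z := by
    intro z
    rw [cv_comm]
    exact cv_pos hq hpos z
  have key : ∀ b : G, hel (hconfP p q b) (hconfR p q b) ≤
      √((KL (tau b p) p - KL (tau b (cv p q)) (cv p q)) / 2) := by
    intro b
    have h1 := kl_ge_bc (hconfP_law hp hq b) (hconfR_law hp hq hQ b) (by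
      intro x hx
      unfold hconfR at hx
      unfold hconfP
      have h2 : p (x.1 - x.2) * q x.2 = 0 := by
        rcases mul_eq_zero.mp hx with h | h
        · exact h
        · exact absurd h (div_pos (hQ _) (hQ _)).ne'
      have h3 : q x.2 = 0 := by
        rcases mul_eq_zero.mp h2 with h | h
        · exact absurd h (hpos _).ne'
        · exact h
      rw [h3, mul_zero])
    rw [hconf_KL hq hpos hQ b] at h1
    unfold hel
    exact Real.sqrt_le_sqrt (by linarith)
  have hRR : hel (hconfR p q y) (hconfR p q a) = hel (tau y (cv p q)) (tau a (cv p q)) := by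
    unfold hel
    rw [hconf_BC hp hq hQ y a]
  have hm := hel_map (hconfP_law hp hq y) (hconfP_law hp hq a) (fun x : G × G => x.1 - x.2)
  rw [hconf_map hq y, hconf_map hq a] at hm
  have t1 := hel_triangle (hconfP_law hp hq y) (hconfR_law hp hq hQ y) (hconfP_law hp hq a)
  have t2 := hel_triangle (hconfR_law hp hq hQ y) (hconfR_law hp hq hQ a) (hconfP_law hp hq a)
  rw [hel_comm (hconfR p q a) (hconfP p q a), hRR] at t2
  have k1 := key y
  have k2 := key a
  linarith

end Pool.MPbe0380
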