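import Pool.Agent.Lib.MP_be0380_co.S.Basic
import Pool.Agent.Lib.MP_be0380_co.S.HConf
import Pool.Agent.Lib.MP_be0380_co.S.Cut

/-!
# be0380 S.Conf: confinement (6.6)

PROOF. `a = y + g + d`, `e = s^40`, `T = s^(-20)`, `e' = exp (-(s⁻¹)^5) ≤ s^40` (as `s ≤ 1/3`: `9 (1 + l) s^2 ≤ 1`), `Q_t = cv (P t) q`.
For `t ∈ [0,1]`: `hel (tau y Q_t) (tau a Q_t) = hel Q_t (tau (g+d) Q_t) ≤ hh t g + e'` (`hel_tau_tau`, `hel_shift_add`,
`hel_cv` with `tau_cv`). `f = cut T (log (tau y Q_t / Q_t))`: `Dq t a + e^(-T) ≥ ∑ tau a Q_t f` (`cut_dv`)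
`≥ ∑ tau y Q_t f - 3 T (hh t g + e')` (`hel_tv`) `≥ Dq t y - 64 (1+l)^2 / T - 3 T (hh t g + e')` (`cut_exc`, `exc_P1`; `y ∈ A`).
Average: `av (Dq a) ≥ av (Dq y) - 64 (1+l)^2 s^20 - 3 s^(-20) (dist g + e') - e^(-T)`, `av (Dq y) = l - kap q y ≥ l - s^40`,
`e^(-T) ≤ 1/T = s^20`; `av (Dd a) ≤ l`: `kap q a ≤ s^40 + 64 (1+l)^2 s^20 + 6 s^20 + s^20 ≤ 72 (1+l)^2 s^20`.
`hel_conf`: `hh t (a - y) ≤ √(k_t(y)/2) + (hh t g + e') + √(k_t(a)/2)`, `k_t(x) = Dd t x - Dq t x ≥ 0`. By `av_mink` (twice more)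
`dist (a - y) ≤ √(kap y / 2) + √(kap a / 2) + dist g + e' ≤ s^20 + 6 (1+l) s^10 + 2 s^40 ≤ 9 (1+l) s^10 ≤ s^8`.
-/

set_option autoImplicit false

open Finset

namespace Pool.MPbe0380

namespace SD

variable {p : ℕ} [Fact p.Prime] (S : SD p)

/-- `hh t (g + d) ≤ hh t g + hel q (tau d q)` for the convolved law -/
private theorem conf_hel {q : ZMod p → ℝ} (hq : IsLaw q) {t : ℝ} (ht : 0 ≤ t) (y g d : ZMod p) :
    hel (tau y (cv (S.P t) q)) (tau (y + g + d) (cv (S.P t) q)) ≤ S.hh t g + hel q (tau d q) := by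
  have hP := S.P_law ht
  have hQ : IsLaw (cv (S.P t) q) := hP.cv hq
  rw [hel_tau_tau]
  have h1 : y + g + d - y = g + d := by abel
  rw [h1]
  refine (hel_shift_add hQ g d).trans (add_le_add ?_ ?_)
  · have h2 : tau g (cv (S.P t) q) = cv (tau g (S.P t)) q := tau_cv' g (S.P t) q
    rw [h2]
    exact hel_cv hP (hP.tau g) hq
  · have h2 : tau d (cv (S.P t) q) = cv (tau d q) (S.P t) := by
      rw [tau_cv d (S.P t) q, cv_comm]
    rw [h2, cv_comm (S.P t) q]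
    exact hel_cv hq (hq.tau d) hP

/-- the pointwise lower bound for `D_t^q(a)` -/
private theorem conf_pointwise {q : ZMod p → ℝ} (hq : IsLaw q) {t : ℝ} (ht : 0 ≤ t) {y g d : ZMod p}
    (hy : y ∈ S.A) {T e : ℝ} (hT : 4 ≤ T) (he : hel q (tau d q) ≤ e) :
    S.Dq q t y - 64 * (1 + S.l) ^ 2 / T - 3 * T * (S.hh t g + e) - Real.exp (-T) ≤
      S.Dq q t (y + g + d) := by
  have hT0 : 0 ≤ T := by linarith
  have hP := S.P_law ht
  have hP0 := S.P_pos ht
  have hQ : IsLaw (cv (S.P t) q) := hP.cv hq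
  have hQ0 : ∀ z, 0 < cv (S.P t) q z := by
    intro z
    rw [cv_comm]
    exact cv_pos hq hP0 z
  have h1 := cut_dv (hQ.tau (y + g + d)) (hQ.tau y) hQ (fun z => hQ0 _) hQ0 T hT0
  have h2 := cut_exc (Q := cv (S.P t) q) (hQ.tau y) T
  have h3 := hel_tv (hQ.tau y) (hQ.tau (y + g + d))
    (f := fun z => cut T (Real.log (tau y (cv (S.P t) q) z / cv (S.P t) q z))) (T := T)
    (fun z => cut_abs hT0 _)
  have h4 := S.conf_hel hq ht y g d
  have h5 := S.exc_P1 hq ht hy hT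
  unfold exc at h5
  have h6 := (abs_le.mp h3).2
  have h7 : 3 * T * hel (tau y (cv (S.P t) q)) (tau (y + g + d) (cv (S.P t) q)) ≤
      3 * T * (S.hh t g + e) := by
    refine mul_le_mul_of_nonneg_left ?_ (by linarith)
    linarith
  unfold Dq
  linarith

/-- the loss at `a` -/
private theorem conf_loss {q : ZMod p → ℝ} (hq : IsLaw q) {y g d : ZMod p}
    (hy : 0 < S.J y) (hA : y + g + d ∈ S.A) {T e : ℝ} (hT : 4 ≤ T) (he : hel q (tau d q) ≤ e) :
    S.kap q (y + g + d) ≤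
      S.kap q y + 64 * (1 + S.l) ^ 2 / T + 3 * T * (S.dist g + e) + Real.exp (-T) := by
  have hyA := S.mem_A hy
  have hT0 : 0 ≤ T := by linarith
  have hm : av (fun t => S.Dq q t y - (64 * (1 + S.l) ^ 2 / T + 3 * T * e + Real.exp (-T)) -
      3 * T * S.hh t g) ≤ av (fun t => S.Dq q t (y + g + d)) := by
    refine av_mono ?_ (S.cont_Dq hq _) ?_
    · exact ((S.cont_Dq hq y).sub continuousOn_const).sub
        (continuousOn_const.mul (S.cont_hh g))
    · intro t ht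
      have := S.conf_pointwise hq ht.1 hyA (g := g) (d := d) hT he
      linarith
  rw [av_sub (f := fun t => S.Dq q t y - (64 * (1 + S.l) ^ 2 / T + 3 * T * e + Real.exp (-T)))
      (g := fun t => 3 * T * S.hh t g) ((S.cont_Dq hq y).sub continuousOn_const)
      (continuousOn_const.mul (S.cont_hh g)),
    av_sub (f := fun t => S.Dq q t y)
      (g := fun _ => 64 * (1 + S.l) ^ 2 / T + 3 * T * e + Real.exp (-T))
      (S.cont_Dq hq y) continuousOn_const, av_const, av_const_mul] at hm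
  have k1 : S.kap q y = av (fun t => S.Dd t y) - av (fun t => S.Dq q t y) :=
    av_sub (S.cont_Dd y) (S.cont_Dq hq y)
  have k2 : S.kap q (y + g + d) = av (fun t => S.Dd t (y + g + d)) -
      av (fun t => S.Dq q t (y + g + d)) :=
    av_sub (S.cont_Dd _) (S.cont_Dq hq _)
  have k3 := S.av_Dd_eq hy
  have k4 := S.av_Dd_le hA
  have k5 : 3 * T * av (fun t => S.hh t g) ≤ 3 * T * S.dist g :=
    mul_le_mul_of_nonneg_left (S.av_hh_le g) (by linarith)
  rw [k2, k1, k3]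
  linarith

/-- the distance in terms of the losses -/
private theorem conf_dist {q : ZMod p → ℝ} (hq : IsLaw q) {y g d : ZMod p} {e : ℝ}
    (he : hel q (tau d q) ≤ e) :
    S.dist (g + d) ≤ √(S.kap q y / 2) + (S.dist g + e) + √(S.kap q (y + g + d) / 2) := by
  have he0 : 0 ≤ e := (hel_nonneg _ _).trans he
  have hk : ∀ x : ZMod p, ContinuousOn (fun t => √((S.Dd t x - S.Dq q t x) / 2)) (Set.Icc 0 1) := by
    intro x
    exact (((S.cont_Dd x).sub (S.cont_Dq hq x)).div_const 2).sqrt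
  have hg : ContinuousOn (fun t => S.hh t g + e) (Set.Icc 0 1) :=
    (S.cont_hh g).add continuousOn_const
  -- pointwise
  have hpt : ∀ t ∈ Set.Icc (0 : ℝ) 1, S.hh t (g + d) ≤
      (√((S.Dd t y - S.Dq q t y) / 2) + (S.hh t g + e)) +
        √((S.Dd t (y + g + d) - S.Dq q t (y + g + d)) / 2) := by
    intro t ht
    have hP := S.P_law ht.1
    have h1 := hel_conf hP hq (S.P_pos ht.1) (y + g + d) y
    have h2 := S.conf_hel hq ht.1 y g d
    have h3 : hel (tau y (S.P t)) (tau (y + g + d) (S.P t)) = S.hh t (g + d) := by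
      rw [hel_tau_tau]
      unfold hh
      congr 2
      abel
    rw [h3] at h1
    unfold Dd Dq
    linarith
  have hsq : av (fun t => S.hh t (g + d) ^ 2) ≤ av (fun t =>
      ((√((S.Dd t y - S.Dq q t y) / 2) + (S.hh t g + e)) +
        √((S.Dd t (y + g + d) - S.Dq q t (y + g + d)) / 2)) ^ 2) := by
    refine av_mono ((S.cont_hh _).pow 2) ((((hk y).add hg).add (hk _)).pow 2) ?_
    intro t ht
    exact pow_le_pow_left₀ (hel_nonneg _ _) (hpt t ht) 2
  have hkk : ∀ x : ZMod p, √(av (fun t => √((S.Dd t x - S.Dq q t x) / 2) ^ 2)) = √(S.kap q x / 2) := by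
    intro x
    congr 1
    have h1 : av (fun t => √((S.Dd t x - S.Dq q t x) / 2) ^ 2) =
        av (fun t => 1 / 2 * (S.Dd t x - S.Dq q t x)) := by
      refine av_congr ?_
      intro t ht
      rw [Real.sq_sqrt]
      · ring
      · have := S.Dq_le hq ht.1 x
        linarith
    rw [h1, av_const_mul]
    unfold kap
    ring
  have hge : √(av (fun t => (S.hh t g + e) ^ 2)) ≤ S.dist g + e := by
    refine (av_mink (S.cont_hh g) continuousOn_const).trans ?_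
    rw [av_const, Real.sqrt_sq he0]
    rfl
  calc S.dist (g + d) ≤ √(av (fun t =>
      ((√((S.Dd t y - S.Dq q t y) / 2) + (S.hh t g + e)) +
        √((S.Dd t (y + g + d) - S.Dq q t (y + g + d)) / 2)) ^ 2)) := Real.sqrt_le_sqrt hsq
    _ ≤ √(av (fun t => (√((S.Dd t y - S.Dq q t y) / 2) + (S.hh t g + e)) ^ 2)) +
        √(av (fun t => √((S.Dd t (y + g + d) - S.Dq q t (y + g + d)) / 2) ^ 2)) :=
          av_mink ((hk y).add hg) (hk _)
    _ ≤ (√(av (fun t => √((S.Dd t y - S.Dq q t y) / 2) ^ 2)) +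
        √(av (fun t => (S.hh t g + e) ^ 2))) +
        √(av (fun t => √((S.Dd t (y + g + d) - S.Dq q t (y + g + d)) / 2) ^ 2)) := by
          have := av_mink (hk y) hg
          linarith
    _ ≤ √(S.kap q y / 2) + (S.dist g + e) + √(S.kap q (y + g + d) / 2) := by
          rw [hkk, hkk]
          linarith

theorem conf {q : ZMod p → ℝ} (hq : IsLaw q) {y : ZMod p} (hy : 0 < S.J y) {s : ℝ} (hs0 : 0 < s)
    (hs : 9 * (1 + S.l) * s ^ 2 ≤ 1) (hk : S.kap q y ≤ s ^ 40) {g d : ZMod p}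
    (hA : y + g + d ∈ S.A) (hg : S.dist g ≤ s ^ 40)
    (hd : hel q (tau d q) ≤ Real.exp (-(s⁻¹) ^ 5)) : S.dist (g + d) ≤ s ^ 8 := by
  have hl := S.l_pos
  have hs2 : s ^ 2 ≤ 1 / 9 := by nlinarith [sq_nonneg s]
  have hs1 : s ≤ 1 / 3 := by
    nlinarith
  -- exp (-(1/s)^5) ≤ s^40
  have hexp : Real.exp (-(s⁻¹) ^ 5) ≤ s ^ 40 := by
    have h1 : 3 ≤ s⁻¹ := by
      rw [le_inv_comm₀ (by norm_num) hs0]
      linarith
    set r := s⁻¹ with hr
    have h2 : (128 : ℝ) ≤ r ^ 5 := by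
      calc (128 : ℝ) ≤ 3 ^ 5 := by norm_num
        _ ≤ r ^ 5 := pow_le_pow_left₀ (by norm_num) h1 5
    have h3 : r ^ 5 ≤ Real.exp (r ^ 5 / 8) := by
      have h4 := Real.quadratic_le_exp_of_nonneg (x := r ^ 5 / 8) (by positivity)
      nlinarith
    have h5 : r ^ 40 ≤ Real.exp (r ^ 5) := by
      calc r ^ 40 = (r ^ 5) ^ 8 := by ring
        _ ≤ (Real.exp (r ^ 5 / 8)) ^ 8 := pow_le_pow_left₀ (by positivity) h3 8
        _ = Real.exp (r ^ 5) := by
          rw [← Real.exp_nat_mul]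
          congr 1
          push_cast
          ring
    have h6 : s ^ 40 = (r ^ 40)⁻¹ := by
      rw [hr, inv_pow, inv_inv]
    rw [h6, Real.exp_neg]
    exact inv_anti₀ (by positivity) h5
  have he := hd.trans hexp
  set L := 1 + S.l with hL
  have hL1 : 1 ≤ L := by linarith
  -- T = s^(-20)
  have hT4 : 4 ≤ (s⁻¹) ^ 20 := by
    have h1 : 3 ≤ s⁻¹ := by
      rw [le_inv_comm₀ (by norm_num) hs0]
      linarith
    calc (4 : ℝ) ≤ 3 ^ 20 := by norm_num
      _ ≤ (s⁻¹) ^ 20 := pow_le_pow_left₀ (by norm_num) h1 20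
  have hloss := S.conf_loss hq hy hA hT4 he
  have e1 : 64 * L ^ 2 / (s⁻¹) ^ 20 = 64 * L ^ 2 * s ^ 20 := by
    rw [inv_pow, div_inv_eq_mul]
  have e2 : Real.exp (-(s⁻¹) ^ 20) ≤ s ^ 20 := by
    rw [Real.exp_neg, inv_pow]
    have h1 := Real.add_one_le_exp ((s ^ 20)⁻¹)
    have h2 : 0 < s ^ 20 := by positivity
    rw [inv_le_comm₀ (Real.exp_pos _) h2]
    linarith
  have e3 : 3 * (s⁻¹) ^ 20 * (S.dist g + s ^ 40) ≤ 6 * s ^ 20 := by
    have h1 : (s⁻¹) ^ 20 * s ^ 40 = s ^ 20 := by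
      field_simp
    calc 3 * (s⁻¹) ^ 20 * (S.dist g + s ^ 40) ≤ 3 * (s⁻¹) ^ 20 * (s ^ 40 + s ^ 40) :=
          mul_le_mul_of_nonneg_left (by linarith) (by positivity)
      _ = 6 * ((s⁻¹) ^ 20 * s ^ 40) := by ring
      _ = 6 * s ^ 20 := by rw [h1]
  have h20 : 0 < s ^ 20 := by positivity
  have h40 : s ^ 40 ≤ s ^ 20 := pow_le_pow_of_le_one hs0.le (by linarith) (by norm_num)
  have hkapa : S.kap q (y + g + d) ≤ 72 * (L ^ 2 * s ^ 20) := by
    rw [e1] at hloss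
    have h1 : s ^ 20 ≤ L ^ 2 * s ^ 20 := le_mul_of_one_le_left h20.le (one_le_pow₀ hL1)
    linarith
  have hdist := S.conf_dist hq (y := y) (g := g) (d := d) he
  have f1 : √(S.kap q y / 2) ≤ s ^ 20 := by
    refine Real.sqrt_le_iff.mpr ⟨h20.le, ?_⟩
    have : (s ^ 20) ^ 2 = s ^ 40 := by ring
    rw [this]
    have h3 : 0 < s ^ 40 := by positivity
    linarith
  have f2 : √(S.kap q (y + g + d) / 2) ≤ 6 * (L * s ^ 10) := by
    refine Real.sqrt_le_iff.mpr ⟨by positivity, ?_⟩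
    have : (6 * (L * s ^ 10)) ^ 2 = 36 * (L ^ 2 * s ^ 20) := by ring
    rw [this]
    linarith
  have f3 : s ^ 20 ≤ L * s ^ 10 := by
    have h1 : s ^ 20 ≤ s ^ 10 := pow_le_pow_of_le_one hs0.le (by linarith) (by norm_num)
    have h2 : 0 < s ^ 10 := by positivity
    nlinarith
  have f4 : 9 * (L * s ^ 10) ≤ s ^ 8 := by
    have h1 : 9 * (L * s ^ 10) = (9 * L * s ^ 2) * s ^ 8 := by ring
    rw [h1]
    have h2 : 0 < s ^ 8 := by positivity
    nlinarith
  linarith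

end SD

end Pool.MPbe0380
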