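import Pool.Agent.Lib.MP_be0380_co.Law

/-!
# be0380, Section 6 (the Shannon chain): definitions

`po I`: the law of `∑ N_a a`, `N_a` independent Poisson variables with means `I a`
(`exp` of the convolution operator, applied to the point mass at `0`).
`pt I0 J t = po (I0 + t J)`. `av f = ∫_0^1 2 t f(t) dt`. `exc a Q T`: mean excess over `T` of
`log (tau a Q / Q)` under `tau a Q`. `tl a Q T`: the probability of the event `tau a Q ≥ e^T Q` under
`tau a Q`. `cut T x`: `x` cut to `[-T, T]`. `phi l = min (l^2) 1 * e^(l/2)`.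
`SD p`: the data of a bad level, see BE0380_FULL.md (6.3); here `I2 = I^(k-2)`, `I1 = 2 I2 + J1 = I^(k-1)`,
`I0 = 2 I1`, `J = J_k`, `P t = p_t`, `Dd t a = D_t(a)`, `Dq q t a = D_t^q(a)`, `hh t g = h_t(g)`.
-/

set_option autoImplicit false

open Finset

namespace Pool.MPbe0380

section

variable {G : Type} [AddCommGroup G] [Fintype G]

/-- convolution by `I` as a continuous linear operator -/
noncomputable def opT (I : G → ℝ) : (G → ℝ) →L[ℝ] (G → ℝ) :=
  LinearMap.toContinuousLinearMap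
    { toFun := fun f => cv I f
      map_add' := by
        intro f g
        funext x
        show ∑ y, I y * (f (x - y) + g (x - y)) = ∑ y, I y * f (x - y) + ∑ y, I y * g (x - y)
        rw [← sum_add_distrib]
        exact sum_congr rfl fun y _ => by ring
      map_smul' := by
        intro r f
        funext x
        show ∑ y, I y * (r * f (x - y)) = r * ∑ y, I y * f (x - y)
        rw [mul_sum]
        exact sum_congr rfl fun y _ => by ring }

theorem opT_apply (I f : G → ℝ) : opT I f = cv I f := rfl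

/-- the excess of the log likelihood ratio -/
noncomputable def exc (a : G) (Q : G → ℝ) (T : ℝ) : ℝ :=
  ∑ z, tau a Q z * max (Real.log (tau a Q z / Q z) - T) 0

open Classical in
/-- the tail of the log likelihood ratio -/
noncomputable def tl (a : G) (Q : G → ℝ) (T : ℝ) : ℝ :=
  ∑ z ∈ univ.filter (fun z => Real.exp T * Q z ≤ tau a Q z), tau a Q z

variable [DecidableEq G]

/-- Poisson law with intensity `I` -/
noncomputable def po (I : G → ℝ) : G → ℝ := fun z =>
  Real.exp (-∑ a, I a) * (NormedSpace.exp (opT I)) dl z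

/-- the segment of laws -/
noncomputable def pt (I0 J : G → ℝ) (t : ℝ) : G → ℝ := po (fun a => I0 a + t * J a)

/-- the law of `j • E`, `j` uniform in `0, ..., M - 1` -/
noncomputable def un (E : G) (M : ℕ) : G → ℝ := fun z =>
  (((range M).filter (fun j => j • E = z)).card : ℝ) / M

/-- `A` has no unique sum -/
def NUS (A : Finset G) : Prop :=
  ∀ a ∈ A, ∀ b ∈ A, ∃ c ∈ A, ∃ d ∈ A, c + d = a + b ∧ ¬ ((c = a ∧ d = b) ∨ (c = b ∧ d = a))

end

/-- average over `[0, 1]` with density `2 t` -/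
noncomputable def av (f : ℝ → ℝ) : ℝ := ∫ t in (0 : ℝ)..1, 2 * t * f t

/-- `x` cut to `[-T, T]` -/
noncomputable def cut (T x : ℝ) : ℝ := max (-T) (min x T)

/-- `phi l = min (l^2) 1 * e^(l/2)` -/
noncomputable def phi (l : ℝ) : ℝ := min (l ^ 2) 1 * Real.exp (l / 2)

/-- The data of a level. -/
structure SD (p : ℕ) [Fact p.Prime] where
  A : Finset (ZMod p)
  I2 : ZMod p → ℝ
  J1 : ZMod p → ℝ
  J : ZMod p → ℝ
  l : ℝ
  I2_nonneg : ∀ a, 0 ≤ I2 a
  J1_nonneg : ∀ a, 0 ≤ J1 a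
  J_nonneg : ∀ a, 0 ≤ J a
  I2_pos : ∃ a, a ≠ 0 ∧ 0 < I2 a
  J_supp : ∀ a, a ∉ A → J a = 0
  J_pos : ∃ a, 0 < J a
  l_pos : 0 < l
  kkt_le : ∀ a ∈ A, av (fun t => KL (tau a (pt (fun b => 2 * (2 * I2 b + J1 b)) J t))
    (pt (fun b => 2 * (2 * I2 b + J1 b)) J t)) ≤ l
  kkt_eq : ∀ a, 0 < J a → av (fun t => KL (tau a (pt (fun b => 2 * (2 * I2 b + J1 b)) J t))
    (pt (fun b => 2 * (2 * I2 b + J1 b)) J t)) = l
  d1 : ∀ a ∈ A, KL (tau a (po (fun b => 2 * I2 b + J1 b))) (po (fun b => 2 * I2 b + J1 b)) ≤ 2 * l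
  d2 : ∀ a ∈ A, KL (tau a (po I2)) (po I2) ≤ 2 * l

namespace SD

variable {p : ℕ} [Fact p.Prime] (S : SD p)

/-- `I^(k-1)` -/
def I1 : ZMod p → ℝ := fun b => 2 * S.I2 b + S.J1 b

/-- `I_0 = 2 I^(k-1)` -/
def I0 : ZMod p → ℝ := fun b => 2 * S.I1 b

/-- `p_t` -/
noncomputable def P (t : ℝ) : ZMod p → ℝ := pt S.I0 S.J t

/-- `D_t(a)` -/
noncomputable def Dd (t : ℝ) (a : ZMod p) : ℝ := KL (tau a (S.P t)) (S.P t)

/-- `D_t^q(a)` -/
noncomputable def Dq (q : ZMod p → ℝ) (t : ℝ) (a : ZMod p) : ℝ :=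
  KL (tau a (cv (S.P t) q)) (cv (S.P t) q)

/-- `h_t(g)` -/
noncomputable def hh (t : ℝ) (g : ZMod p) : ℝ := hel (S.P t) (tau g (S.P t))

/-- the distance -/
noncomputable def dist (g : ZMod p) : ℝ := √(av (fun t => S.hh t g ^ 2))

/-- the loss `kap_q(x)` -/
noncomputable def kap (q : ZMod p → ℝ) (x : ZMod p) : ℝ := av (fun t => S.Dd t x - S.Dq q t x)

/-- the mass of `J` -/
def m : ℝ := ∑ a, S.J a

/-- `D = m l` -/
def D : ℝ := S.m * S.l

/-- `(x, y)` is a pair of the level with a large value of `D(x + y)` -/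
def GP (B : ℕ) (x y : ZMod p) : Prop :=
  0 < S.J x ∧ 0 < S.J y ∧ 2 * S.l - ((B : ℝ) ^ 15)⁻¹ ≤ av (fun t => S.Dd t (x + y))

/-- `p` is near `x` -/
def Nr (B : ℕ) (u x : ZMod p) : Prop := S.dist (u - x) * (B : ℝ) ^ 240 ≤ 1

end SD

end Pool.MPbe0380
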