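import Pool.Agent.Lib.MP_be0380_co.G0

/-!
# be0380, Section 6: facts on laws on a finite set

Donsker-Varadhan, data processing for `KL` and `hel`, triangle inequality for `hel`,
total variation, tails of the log-likelihood ratio.
-/

set_option autoImplicit false

open Finset

namespace Pool.MPbe0380

/-! ## relative entropy -/

section

variable {Ω : Type*} [Fintype Ω]

theorem KL_eq {P Q : Ω → ℝ} (hP : ∀ x, 0 ≤ P x) (hQ : ∀ x, 0 < Q x) :
    KL P Q = - ent P - ∑ x, P x * Real.log (Q x) := by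
  unfold KL ent
  rw [← sum_neg_distrib, ← sum_sub_distrib]
  refine sum_congr rfl fun x _ => ?_
  rcases (hP x).eq_or_lt with h | h
  · rw [← h]; simp
  · rw [Real.log_div h.ne' (hQ x).ne', Real.negMulLog]; ring

theorem KL_nonneg {P Q : Ω → ℝ} (hP : IsLaw P) (hQ : ∀ x, 0 < Q x) (hQ1 : ∑ x, Q x ≤ 1) :
    0 ≤ KL P Q := by
  rw [KL_eq hP.1 hQ]
  have := Gb.ent_le hP hQ hQ1
  linarith

/-- Donsker-Varadhan -/
theorem dv {P Q : Ω → ℝ} (hP : IsLaw P) (hQ : ∀ x, 0 < Q x) (f : Ω → ℝ) :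
    ∑ x, P x * f x ≤ KL P Q + Real.log (∑ x, Q x * Real.exp (f x)) := by
  obtain ⟨x₀, _⟩ := hP.exists_pos
  set W : ℝ := ∑ x, Q x * Real.exp (f x) with hW
  have hW0 : 0 < W := sum_pos (fun x _ => mul_pos (hQ x) (Real.exp_pos _)) ⟨x₀, mem_univ _⟩
  have hQ' : ∀ x, 0 < Q x * Real.exp (f x) / W := fun x =>
    div_pos (mul_pos (hQ x) (Real.exp_pos _)) hW0
  have h1 := Gb.ent_le hP hQ' (by rw [← sum_div, ← hW, div_self hW0.ne'])
  have h2 : ∀ x, Real.log (Q x * Real.exp (f x) / W) = Real.log (Q x) + f x - Real.log W := by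
    intro x
    rw [Real.log_div (mul_pos (hQ x) (Real.exp_pos _)).ne' hW0.ne',
      Real.log_mul (hQ x).ne' (Real.exp_pos _).ne', Real.log_exp]
  simp only [h2, mul_sub, mul_add, sum_sub_distrib, sum_add_distrib] at h1
  rw [← sum_mul, hP.2, one_mul] at h1
  rw [KL_eq hP.1 hQ]
  linarith

/-- one term of the log-sum inequality -/
theorem mul_log_div_ge {a b r : ℝ} (ha : 0 ≤ a) (hb : 0 ≤ b) (hab : b = 0 → a = 0) (hr : 0 < r) :
    a * Real.log r + a - r * b ≤ a * Real.log (a / b) := by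
  rcases ha.eq_or_lt with h | h
  · rw [← h]; nlinarith
  · have hb' : 0 < b := lt_of_le_of_ne hb fun h0 => by rw [hab h0.symm] at h; exact lt_irrefl 0 h
    have h1 : Real.log (r * b / a) ≤ r * b / a - 1 := Real.log_le_sub_one_of_pos (by positivity)
    rw [Real.log_div (by positivity) h.ne', Real.log_mul hr.ne' hb'.ne'] at h1
    rw [Real.log_div h.ne' hb'.ne']
    have h2 := mul_le_mul_of_nonneg_left h1 h.le
    have h3 : a * (r * b / a - 1) = r * b - a := by field_simp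
    rw [h3] at h2
    linarith

/-- log-sum inequality -/
theorem log_sum {ι : Type*} (S : Finset ι) {a b : ι → ℝ} (ha : ∀ i ∈ S, 0 ≤ a i)
    (hb : ∀ i ∈ S, 0 ≤ b i) (hab : ∀ i ∈ S, b i = 0 → a i = 0) :
    (∑ i ∈ S, a i) * Real.log ((∑ i ∈ S, a i) / ∑ i ∈ S, b i) ≤
      ∑ i ∈ S, a i * Real.log (a i / b i) := by
  rcases (sum_nonneg ha).eq_or_lt with h | h
  · rw [← h, zero_mul]
    have h0 := (sum_eq_zero_iff_of_nonneg ha).mp h.symm
    refine le_of_eq (sum_eq_zero fun i hi => ?_).symm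
    rw [h0 i hi, zero_mul]
  · have hB : 0 < ∑ i ∈ S, b i := by
      rcases (sum_nonneg hb).eq_or_lt with h' | h'
      · have h0 := (sum_eq_zero_iff_of_nonneg hb).mp h'.symm
        have : ∑ i ∈ S, a i = 0 := sum_eq_zero fun i hi => hab i hi (h0 i hi)
        linarith
      · exact h'
    set r : ℝ := (∑ i ∈ S, a i) / ∑ i ∈ S, b i with hr
    have hr0 : 0 < r := div_pos h hB
    have h1 : ∑ i ∈ S, (a i * Real.log r + a i - r * b i) ≤ ∑ i ∈ S, a i * Real.log (a i / b i) :=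
      sum_le_sum fun i hi => mul_log_div_ge (ha i hi) (hb i hi) (hab i hi) hr0
    rw [sum_sub_distrib, sum_add_distrib, ← sum_mul, ← mul_sum] at h1
    have h2 : r * ∑ i ∈ S, b i = ∑ i ∈ S, a i := by rw [hr]; field_simp
    linarith

/-- data processing for relative entropy under a Markov kernel -/
theorem KL_kernel {Ω' : Type*} [Fintype Ω'] {K : Ω' → Ω → ℝ} (hK : ∀ x y, 0 ≤ K x y)
    (hK1 : ∀ y, ∑ x, K x y = 1) {P Q : Ω → ℝ} (hP : ∀ x, 0 ≤ P x) (hQ : ∀ x, 0 < Q x) :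
    KL (fun x => ∑ y, K x y * P y) (fun x => ∑ y, K x y * Q y) ≤ KL P Q := by
  unfold KL
  have h1 : ∀ x, (∑ y, K x y * P y) * Real.log ((∑ y, K x y * P y) / ∑ y, K x y * Q y) ≤
      ∑ y, K x y * (P y * Real.log (P y / Q y)) := by
    intro x
    refine (log_sum univ (fun y _ => mul_nonneg (hK x y) (hP y))
      (fun y _ => mul_nonneg (hK x y) (hQ y).le) fun y _ h => ?_).trans (le_of_eq ?_)
    · rcases mul_eq_zero.mp h with h | h
      · rw [h, zero_mul]
      · exact absurd h (hQ y).ne'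
    · refine sum_congr rfl fun y _ => ?_
      rcases (hK x y).eq_or_lt with h | h
      · rw [← h]; simp
      · rw [mul_div_mul_left _ _ h.ne', mul_assoc]
  refine (sum_le_sum fun x _ => h1 x).trans (le_of_eq ?_)
  rw [sum_comm]
  refine sum_congr rfl fun y _ => ?_
  rw [← sum_mul, hK1, one_mul]

/-! ## affinity -/

/-- `1 - BC` as a sum of squares -/
theorem one_sub_BC {P Q : Ω → ℝ} (hP : IsLaw P) (hQ : IsLaw Q) :
    1 - BC P Q = ∑ x, (√(P x) - √(Q x)) ^ 2 / 2 := by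
  have h1 : ∀ x, (√(P x) - √(Q x)) ^ 2 / 2 = (P x + Q x) / 2 - √(P x * Q x) := by
    intro x
    rw [sub_sq, Real.sq_sqrt (hP.1 x), Real.sq_sqrt (hQ.1 x), Real.sqrt_mul (hP.1 x)]
    ring
  simp only [h1]
  rw [sum_sub_distrib, ← sum_div, sum_add_distrib, hP.2, hQ.2]
  unfold BC
  norm_num

theorem BC_nonneg (P Q : Ω → ℝ) : 0 ≤ BC P Q := sum_nonneg fun _ _ => Real.sqrt_nonneg _

theorem BC_le_one {P Q : Ω → ℝ} (hP : IsLaw P) (hQ : IsLaw Q) : BC P Q ≤ 1 := by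
  have h := one_sub_BC hP hQ
  have h2 : 0 ≤ ∑ x, (√(P x) - √(Q x)) ^ 2 / 2 := sum_nonneg fun x _ => by positivity
  linarith

theorem hel_sq {P Q : Ω → ℝ} (hP : IsLaw P) (hQ : IsLaw Q) : hel P Q ^ 2 = 1 - BC P Q := by
  unfold hel
  exact Real.sq_sqrt (by linarith [BC_le_one hP hQ])

theorem hel_le_one {P Q : Ω → ℝ} (hP : IsLaw P) (hQ : IsLaw Q) : hel P Q ≤ 1 := by
  have h := hel_sq hP hQ
  have h2 := BC_nonneg P Q
  nlinarith [hel_nonneg P Q]

theorem sqrt_sum_add_sq (f g : Ω → ℝ) :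
    √(∑ x, (f x + g x) ^ 2) ≤ √(∑ x, f x ^ 2) + √(∑ x, g x ^ 2) := by
  rw [Real.sqrt_le_iff]
  refine ⟨by positivity, ?_⟩
  have h1 := Real.sum_mul_le_sqrt_mul_sqrt univ f g
  have h2 : ∑ x, (f x + g x) ^ 2 = ∑ x, f x ^ 2 + 2 * ∑ x, f x * g x + ∑ x, g x ^ 2 := by
    rw [mul_sum, ← sum_add_distrib, ← sum_add_distrib]
    exact sum_congr rfl fun x _ => by ring
  have h3 : √(∑ x, f x ^ 2) ^ 2 = ∑ x, f x ^ 2 := Real.sq_sqrt (sum_nonneg fun x _ => sq_nonneg _)
  have h4 : √(∑ x, g x ^ 2) ^ 2 = ∑ x, g x ^ 2 := Real.sq_sqrt (sum_nonneg fun x _ => sq_nonneg _)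
  nlinarith

theorem hel_eq {P Q : Ω → ℝ} (hP : IsLaw P) (hQ : IsLaw Q) :
    hel P Q = √(∑ x, (√(P x) - √(Q x)) ^ 2) / √2 := by
  unfold hel
  rw [one_sub_BC hP hQ, ← sum_div, Real.sqrt_div (sum_nonneg fun x _ => sq_nonneg _)]

theorem hel_triangle {P Q R : Ω → ℝ} (hP : IsLaw P) (hQ : IsLaw Q) (hR : IsLaw R) :
    hel P R ≤ hel P Q + hel Q R := by
  rw [hel_eq hP hR, hel_eq hP hQ, hel_eq hQ hR, ← add_div]
  refine div_le_div_of_nonneg_right ?_ (Real.sqrt_nonneg _)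
  have h := sqrt_sum_add_sq (fun x => √(P x) - √(Q x)) (fun x => √(Q x) - √(R x))
  simp only [sub_add_sub_cancel] at h
  exact h

theorem hel_sq_le_KL {P Q : Ω → ℝ} (hP : IsLaw P) (hQ : IsLaw Q) (hQ0 : ∀ x, 0 < Q x) :
    hel P Q ^ 2 ≤ KL P Q / 2 := by
  rw [hel_sq hP hQ]
  exact Gb.one_sub_BC_le hP hQ0

/-- total variation: `|E_P f - E_Q f| ≤ 2 √2 T hel(P, Q)` for `|f| ≤ T` -/
theorem abs_sub_le_hel {P Q : Ω → ℝ} (hP : IsLaw P) (hQ : IsLaw Q) {f : Ω → ℝ} {T : ℝ}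
    (hf : ∀ x, |f x| ≤ T) : |∑ x, P x * f x - ∑ x, Q x * f x| ≤ 2 * √2 * T * hel P Q := by
  obtain ⟨x₀, _⟩ := hP.exists_pos
  have hT : 0 ≤ T := (abs_nonneg _).trans (hf x₀)
  have h1 : |∑ x, P x * f x - ∑ x, Q x * f x| ≤ T * ∑ x, |√(P x) - √(Q x)| * (√(P x) + √(Q x)) := by
    rw [← sum_sub_distrib, mul_sum]
    refine (abs_sum_le_sum_abs _ _).trans (sum_le_sum fun x _ => ?_)
    have h2 : P x * f x - Q x * f x = f x * ((√(P x) - √(Q x)) * (√(P x) + √(Q x))) := by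
      have h3 := Real.sq_sqrt (hP.1 x)
      have h4 := Real.sq_sqrt (hQ.1 x)
      rw [show (√(P x) - √(Q x)) * (√(P x) + √(Q x)) = √(P x) ^ 2 - √(Q x) ^ 2 by ring, h3, h4]
      ring
    rw [h2, abs_mul, abs_mul, abs_of_nonneg (by positivity : 0 ≤ √(P x) + √(Q x))]
    exact mul_le_mul_of_nonneg_right (hf x) (by positivity)
  have h2 := Real.sum_mul_le_sqrt_mul_sqrt univ (fun x => |√(P x) - √(Q x)|)
    (fun x => √(P x) + √(Q x))
  simp only [sq_abs] at h2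
  have h3 : √(∑ x, (√(P x) - √(Q x)) ^ 2) = √2 * hel P Q := by
    rw [hel_eq hP hQ]; field_simp
  have h4 : √(∑ x, (√(P x) + √(Q x)) ^ 2) ≤ 2 := by
    rw [Real.sqrt_le_iff]
    refine ⟨by norm_num, ?_⟩
    have h5 : ∀ x, (√(P x) + √(Q x)) ^ 2 ≤ 2 * P x + 2 * Q x := by
      intro x
      have h3 := Real.sq_sqrt (hP.1 x)
      have h4 := Real.sq_sqrt (hQ.1 x)
      nlinarith [sq_nonneg (√(P x) - √(Q x))]
    calc ∑ x, (√(P x) + √(Q x)) ^ 2 ≤ ∑ x, (2 * P x + 2 * Q x) := sum_le_sum fun x _ => h5 x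
      _ = 2 ^ 2 := by rw [sum_add_distrib, ← mul_sum, ← mul_sum, hP.2, hQ.2]; norm_num
  rw [h3] at h2
  have h6 : 0 ≤ √2 * hel P Q := mul_nonneg (Real.sqrt_nonneg _) (hel_nonneg _ _)
  calc _ ≤ T * ∑ x, |√(P x) - √(Q x)| * (√(P x) + √(Q x)) := h1
    _ ≤ T * (√2 * hel P Q * √(∑ x, (√(P x) + √(Q x)) ^ 2)) := mul_le_mul_of_nonneg_left h2 hT
    _ ≤ T * (√2 * hel P Q * 2) :=
        mul_le_mul_of_nonneg_left (mul_le_mul_of_nonneg_left h4 h6) hT
    _ = _ := by ring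

/-- data processing for the affinity under a Markov kernel -/
theorem BC_kernel {Ω' : Type*} [Fintype Ω'] {K : Ω' → Ω → ℝ} (hK : ∀ x y, 0 ≤ K x y)
    (hK1 : ∀ y, ∑ x, K x y = 1) {P Q : Ω → ℝ} (hP : ∀ x, 0 ≤ P x) (hQ : ∀ x, 0 ≤ Q x) :
    BC P Q ≤ BC (fun x => ∑ y, K x y * P y) (fun x => ∑ y, K x y * Q y) := by
  unfold BC
  have h1 : ∀ x, ∑ y, K x y * √(P y * Q y) ≤ √((∑ y, K x y * P y) * ∑ y, K x y * Q y) := by
    intro x
    have h2 := Real.sum_mul_le_sqrt_mul_sqrt univ (fun y => √(K x y * P y)) (fun y => √(K x y * Q y))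
    have h3 : ∀ (R : Ω → ℝ), (∀ y, 0 ≤ R y) → ∑ y, √(K x y * R y) ^ 2 = ∑ y, K x y * R y :=
      fun R hR => sum_congr rfl fun y _ => Real.sq_sqrt (mul_nonneg (hK x y) (hR y))
    rw [h3 P hP, h3 Q hQ, ← Real.sqrt_mul (sum_nonneg fun y _ => mul_nonneg (hK x y) (hP y))] at h2
    refine le_trans (le_of_eq ?_) h2
    refine sum_congr rfl fun y _ => ?_
    rw [← Real.sqrt_mul (mul_nonneg (hK x y) (hP y))]
    have h4 : K x y * P y * (K x y * Q y) = K x y ^ 2 * (P y * Q y) := by ring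
    rw [h4, Real.sqrt_mul (sq_nonneg _), Real.sqrt_sq (hK x y)]
  calc ∑ y, √(P y * Q y) = ∑ y, (∑ x, K x y) * √(P y * Q y) := by simp only [hK1, one_mul]
    _ = ∑ x, ∑ y, K x y * √(P y * Q y) := by simp only [sum_mul]; rw [sum_comm]
    _ ≤ _ := sum_le_sum fun x _ => h1 x

theorem hel_kernel {Ω' : Type*} [Fintype Ω'] {K : Ω' → Ω → ℝ} (hK : ∀ x y, 0 ≤ K x y)
    (hK1 : ∀ y, ∑ x, K x y = 1) {P Q : Ω → ℝ} (hP : ∀ x, 0 ≤ P x) (hQ : ∀ x, 0 ≤ Q x) :
    hel (fun x => ∑ y, K x y * P y) (fun x => ∑ y, K x y * Q y) ≤ hel P Q :=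
  Real.sqrt_le_sqrt (by linarith [BC_kernel hK hK1 hP hQ])

/-- pushforward of a law under a map -/
noncomputable def mapl {Ω' : Type*} [DecidableEq Ω'] (φ : Ω → Ω') (P : Ω → ℝ) : Ω' → ℝ :=
  fun x => ∑ y, (if φ y = x then 1 else 0) * P y

theorem hel_mapl {Ω' : Type*} [Fintype Ω'] [DecidableEq Ω'] (φ : Ω → Ω') {P Q : Ω → ℝ}
    (hP : ∀ x, 0 ≤ P x) (hQ : ∀ x, 0 ≤ Q x) : hel (mapl φ P) (mapl φ Q) ≤ hel P Q := by
  refine hel_kernel (K := fun x y => if φ y = x then 1 else 0) (fun x y => ?_) (fun y => ?_) hP hQ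
  · split_ifs <;> norm_num
  · simp

/-- laws whose ratio is bounded are close -/
theorem hel_le_of_ratio {P Q : Ω → ℝ} (hP : IsLaw P) (hQ : IsLaw Q) {N : ℝ}
    (h : ∀ x, Q x * Real.exp (-N) ≤ P x) : hel P Q ^ 2 ≤ N / 2 := by
  rw [hel_sq hP hQ]
  have h1 : Real.exp (-N / 2) ≤ BC P Q := by
    unfold BC
    calc Real.exp (-N / 2) = ∑ x, Q x * Real.exp (-N / 2) := by rw [← sum_mul, hQ.2, one_mul]
      _ ≤ ∑ x, √(P x * Q x) := by
        refine sum_le_sum fun x _ => ?_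
        refine Real.le_sqrt_of_sq_le ?_
        have h2 : (Q x * Real.exp (-N / 2)) ^ 2 = (Q x * Real.exp (-N)) * Q x := by
          rw [mul_pow, ← Real.exp_nat_mul]
          have h3 : ((2 : ℕ) : ℝ) * (-N / 2) = -N := by push_cast; ring
          rw [h3]; ring
        rw [h2]
        exact mul_le_mul_of_nonneg_right (h x) (hQ.1 x)
  have h2 := Real.add_one_le_exp (-N / 2)
  linarith

/-! ## tails of the log-likelihood ratio -/

theorem sum_log_pos_le {P Q : Ω → ℝ} (hP : IsLaw P) (hQ : IsLaw Q) (hQ0 : ∀ x, 0 < Q x) :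
    ∑ x, P x * max (Real.log (P x / Q x)) 0 ≤ KL P Q + 1 := by
  unfold KL
  rw [← hQ.2, ← sum_add_distrib]
  refine sum_le_sum fun x _ => ?_
  rcases (hP.1 x).eq_or_lt with h | h
  · rw [← h]; simp [(hQ0 x).le]
  · rcases le_total 0 (Real.log (P x / Q x)) with h1 | h1
    · rw [max_eq_left h1]; linarith [(hQ0 x).le]
    · rw [max_eq_right h1]
      have h2 := mul_log_div_ge (a := P x) (b := Q x) (r := 1) h.le (hQ0 x).le
        (fun h0 => absurd h0 (hQ0 x).ne') one_pos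
      rw [Real.log_one] at h2
      linarith

open Classical in
/-- Markov: `P(log (P/Q) ≥ t) ≤ (KL + 1) / t` -/
theorem tail_le {P Q : Ω → ℝ} (hP : IsLaw P) (hQ : IsLaw Q) (hQ0 : ∀ x, 0 < Q x) {t : ℝ}
    (ht : 0 < t) : ∑ x ∈ univ.filter (fun x => Q x * Real.exp t ≤ P x), P x ≤ (KL P Q + 1) / t := by
  rw [le_div_iff₀ ht]
  refine le_trans ?_ (sum_log_pos_le hP hQ hQ0)
  rw [sum_mul]
  refine (sum_le_sum fun x hx => ?_).trans
    (sum_le_sum_of_subset_of_nonneg (subset_univ (univ.filter (fun x => Q x * Real.exp t ≤ P x)))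
      fun x _ _ => mul_nonneg (hP.1 x) (le_max_right _ _))
  refine mul_le_mul_of_nonneg_left (le_trans ?_ (le_max_left _ _)) (hP.1 x)
  have h1 := (mem_filter.mp hx).2
  have h2 : 0 < Q x * Real.exp t := mul_pos (hQ0 x) (Real.exp_pos _)
  rw [← Real.log_exp t]
  refine Real.log_le_log (Real.exp_pos _) ?_
  rw [le_div_iff₀ (hQ0 x)]
  linarith

/-- (6.4c): the negative part of the log-likelihood ratio -/
theorem neg_tail_le {P Q : Ω → ℝ} (hP : IsLaw P) (hQ : IsLaw Q) (hQ0 : ∀ x, 0 < Q x) (T : ℝ) :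
    ∑ x, P x * max (- Real.log (P x / Q x) - T) 0 ≤ Real.exp (-T) := by
  rw [← mul_one (Real.exp (-T)), ← hQ.2, mul_sum]
  refine sum_le_sum fun x _ => ?_
  rcases (hP.1 x).eq_or_lt with h | h
  · rw [← h, zero_mul]; exact mul_nonneg (Real.exp_pos _).le (hQ0 x).le
  · rcases le_total 0 (- Real.log (P x / Q x) - T) with h1 | h1
    · rw [max_eq_left h1]
      have h2 := mul_log_div_ge (a := P x) (b := Q x) (r := Real.exp (-T)) h.le (hQ0 x).le
        (fun h0 => absurd h0 (hQ0 x).ne') (Real.exp_pos _)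
      rw [Real.log_exp] at h2
      nlinarith
    · rw [max_eq_right h1, mul_zero]; exact mul_nonneg (Real.exp_pos _).le (hQ0 x).le

open Classical in
/-- from quadratic tails to the mean excess -/
theorem excess_le {w X : Ω → ℝ} (hw : ∀ x, 0 ≤ w x) {T c : ℝ} (hT : 0 < T)
    (h : ∀ t, T ≤ t → ∑ x ∈ univ.filter (fun x => t ≤ X x), w x ≤ c / t ^ 2) :
    ∑ x, w x * max (X x - T) 0 ≤ 2 * c / T := by
  -- a bound for `X`
  obtain ⟨N, hN⟩ : ∃ N : ℕ, ∀ x, X x < 2 ^ N * T := by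
    obtain ⟨M, hM⟩ : ∃ M : ℝ, ∀ x, X x < M := by
      refine ⟨∑ x, |X x| + 1, fun x => ?_⟩
      have h1 : |X x| ≤ ∑ x, |X x| :=
        single_le_sum (f := fun x => |X x|) (fun y _ => abs_nonneg _) (mem_univ x)
      have h2 := le_abs_self (X x)
      linarith
    obtain ⟨N, hN⟩ := pow_unbounded_of_one_lt (M / T) one_lt_two
    refine ⟨N, fun x => (hM x).trans ?_⟩
    rwa [div_lt_iff₀ hT] at hN
  have key : ∀ (N : ℕ) (y : ℝ), y < 2 ^ N * T →
      max (y - T) 0 ≤ ∑ k ∈ range N, (if 2 ^ k * T ≤ y then 2 ^ k * T else 0) := by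
    intro N y
    induction N with
    | zero =>
      intro hy
      rw [pow_zero, one_mul] at hy
      rw [range_zero, sum_empty, max_eq_right (by linarith)]
    | succ N ih =>
      intro hy
      rw [sum_range_succ]
      by_cases h1 : 2 ^ N * T ≤ y
      · rw [if_pos h1]
        have h2 : ∑ k ∈ range N, (if 2 ^ k * T ≤ y then 2 ^ k * T else 0) = (2 ^ N - 1) * T := by
          have h3 : ∀ k ∈ range N, (if 2 ^ k * T ≤ y then 2 ^ k * T else 0) = 2 ^ k * T := by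
            intro k hk
            rw [if_pos]
            refine le_trans (mul_le_mul_of_nonneg_right ?_ hT.le) h1
            exact pow_le_pow_right₀ one_le_two (mem_range.mp hk).le
          rw [sum_congr rfl h3, ← sum_mul]
          congr 1
          have := geom_sum_eq (x := (2 : ℝ)) (by norm_num) N
          rw [this]; norm_num
        rw [h2]
        rw [pow_succ] at hy
        refine max_le (by linarith) ?_
        have : (1 : ℝ) ≤ 2 ^ N := one_le_pow₀ one_le_two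
        nlinarith
      · rw [if_neg h1, add_zero]
        exact ih (lt_of_not_ge h1)
  calc ∑ x, w x * max (X x - T) 0
      ≤ ∑ x, w x * ∑ k ∈ range N, (if 2 ^ k * T ≤ X x then 2 ^ k * T else 0) :=
        sum_le_sum fun x _ => mul_le_mul_of_nonneg_left (key N (X x) (hN x)) (hw x)
    _ = ∑ k ∈ range N, 2 ^ k * T * ∑ x ∈ univ.filter (fun x => 2 ^ k * T ≤ X x), w x := by
        simp only [mul_sum]
        rw [sum_comm]
        refine sum_congr rfl fun k _ => ?_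
        rw [sum_filter]
        refine sum_congr rfl fun x _ => ?_
        split_ifs <;> ring
    _ ≤ ∑ k ∈ range N, 2 ^ k * T * (c / (2 ^ k * T) ^ 2) := by
        refine sum_le_sum fun k _ => mul_le_mul_of_nonneg_left (h _ ?_) (by positivity)
        have : (1 : ℝ) ≤ 2 ^ k := one_le_pow₀ one_le_two
        nlinarith
    _ = c / T * ∑ k ∈ range N, (1 / 2 : ℝ) ^ k := by
        rw [mul_sum]
        refine sum_congr rfl fun k _ => ?_
        rw [one_div, inv_pow]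
        field_simp
    _ ≤ c / T * 2 := by
        have hc : 0 ≤ c := by
          have h1 := h T le_rfl
          have h2 : 0 ≤ ∑ x ∈ univ.filter (fun x => T ≤ X x), w x := sum_nonneg fun x _ => hw x
          have h3 := h2.trans h1
          by_contra hneg
          push Not at hneg
          have := div_neg_of_neg_of_pos hneg (by positivity : (0 : ℝ) < T ^ 2)
          linarith
        refine mul_le_mul_of_nonneg_left ?_ (by positivity)
        have := geom_sum_eq (x := (1 / 2 : ℝ)) (by norm_num) N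
        rw [this]
        have h1 : (0 : ℝ) ≤ (1 / 2) ^ N := by positivity
        norm_num
        linarith
    _ = 2 * c / T := by ring

end

/-! ## convolutions -/

section

variable {G : Type*} [AddCommGroup G] [Fintype G]

theorem cv_eq_kernel (P R : G → ℝ) : cv P R = fun x => ∑ y, R (x - y) * P y := by
  funext x
  unfold cv
  exact sum_congr rfl fun y _ => mul_comm _ _

theorem KL_cv {P Q R : G → ℝ} (hP : ∀ x, 0 ≤ P x) (hQ : ∀ x, 0 < Q x) (hR : IsLaw R) :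
    KL (cv P R) (cv Q R) ≤ KL P Q := by
  rw [cv_eq_kernel, cv_eq_kernel]
  refine KL_kernel (fun x y => hR.1 _) (fun y => ?_) hP hQ
  rw [← hR.2]
  exact Fintype.sum_equiv (Equiv.subRight y) _ _ fun _ => rfl

theorem hel_cv {P Q R : G → ℝ} (hP : ∀ x, 0 ≤ P x) (hQ : ∀ x, 0 ≤ Q x) (hR : IsLaw R) :
    hel (cv P R) (cv Q R) ≤ hel P Q := by
  rw [cv_eq_kernel, cv_eq_kernel]
  refine hel_kernel (fun x y => hR.1 _) (fun y => ?_) hP hQ
  rw [← hR.2]
  exact Fintype.sum_equiv (Equiv.subRight y) _ _ fun _ => rfl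

end

end Pool.MPbe0380
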