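import Pool.Agent.Lib.MP_be0380_co.S.PoPos

/-!
# be0380 S.Gram: the Gram inequality

PROOF. `P = cv (po I) q`. For small `|ε|` put `I' = I (1 + ε c) ≥ 0`, `P_ε = cv (po I') q`, a law.
`∑ (P_ε - P)^2 / P = ∑ P_ε^2 / P - 1 ≤ e^(ε^2 Λ) - 1`, `Λ = ∑ I c^2` (`chi_po`; `(I' - I)^2 / I = ε^2 I c^2`). Divide by
`ε^2`, `ε → 0`: `(P_ε z - P z)/ε → g z = ∑_x I x c x (P (z - x) - P z)` (`hasDerivAt_pt` with `I0 = I`,
`J = I c` at `t = 0`, convolved with `q`), `(e^(ε^2 Λ) - 1)/ε^2 → Λ`. So `∑ g^2 / P ≤ Λ`. With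
`h z = ∑_x I x c x P (z - x) = g z + s P z`, `s = ∑ I c`, `∑ g = 0`: `∑ h^2/P = ∑ g^2/P + s^2`.
-/

set_option autoImplicit false

open Finset

namespace Pool.MPbe0380

variable {G : Type} [AddCommGroup G] [Fintype G] [DecidableEq G]

omit [DecidableEq G] in
private theorem gram_shift (P q : G → ℝ) (x z : G) :
    ∑ y, P (y - x) * q (z - y) = cv P q (z - x) := by
  have h := congrFun (tau_cv' x P q) z
  rw [tau_apply] at h
  rw [h]
  rfl

private theorem gram_deriv (I J q : G → ℝ) (z : G) :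
    HasDerivAt (fun s : ℝ => cv (pt I J s) q z)
      (∑ x, J x * (cv (po I) q (z - x) - cv (po I) q z)) 0 := by
  have h0 : pt I J 0 = po I := by
    unfold pt
    congr 1
    funext a
    rw [zero_mul, add_zero]
  have h1 := hasDerivAt_pt I J 0
  rw [h0] at h1
  rw [hasDerivAt_pi] at h1
  have h2 : HasDerivAt (fun s : ℝ => ∑ y, pt I J s y * q (z - y))
      (∑ y, (∑ x, J x * (po I (y - x) - po I y)) * q (z - y)) 0 :=
    HasDerivAt.fun_sum fun y _ => (h1 y).mul_const _
  refine h2.congr_deriv ?_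
  simp only [sum_mul]
  rw [sum_comm]
  refine sum_congr rfl fun x _ => ?_
  rw [← gram_shift, show cv (po I) q z = ∑ y, po I y * q (z - y) from rfl, ← sum_sub_distrib,
    mul_sum]
  exact sum_congr rfl fun y _ => by ring

private theorem gram_exp (u : ℝ) : Real.exp u - 1 ≤ u * Real.exp u := by
  have h := Real.add_one_le_exp (-u)
  have h1 : Real.exp (-u) * Real.exp u = 1 := by rw [← Real.exp_add]; simp
  have h2 := Real.exp_pos u
  nlinarith

theorem gram {I : G → ℝ} (hI : ∀ a, 0 ≤ I a) {q : G → ℝ} (hq : IsLaw q)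
    (hpos : ∀ z, 0 < cv (po I) q z) (c : G → ℝ) :
    ∑ z, (∑ x, I x * c x * cv (po I) q (z - x)) ^ 2 / cv (po I) q z ≤
      (∑ x, I x * c x) ^ 2 + ∑ x, I x * c x ^ 2 := by
  set P := cv (po I) q with hP
  set J : G → ℝ := fun x => I x * c x with hJ
  set L : ℝ := ∑ x, I x * c x ^ 2 with hL
  set F : ℝ → G → ℝ := fun s z => cv (pt I J s) q z with hF
  set g : G → ℝ := fun z => ∑ x, J x * (P (z - x) - P z) with hg
  have hPsum : ∑ z, P z = 1 := by rw [hP, sum_cv, po_sum, hq.2, one_mul]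
  have hFsum : ∀ s, ∑ z, F s z = 1 := by
    intro s
    rw [hF]
    show ∑ z, cv (pt I J s) q z = 1
    rw [sum_cv, pt, po_sum, hq.2, one_mul]
  have hF0 : F 0 = P := by
    funext z
    show cv (pt I J 0) q z = P z
    rw [hP]
    congr 1
    unfold pt
    congr 1
    funext a
    rw [zero_mul, add_zero]
  -- the key inequality
  have key : ∀ᶠ s : ℝ in nhdsWithin 0 {0}ᶜ,
      ∑ z, (slope (fun s => F s z) 0 s) ^ 2 / P z ≤ L * Real.exp (s ^ 2 * L) := by
    have hev : ∀ᶠ s : ℝ in nhdsWithin 0 {0}ᶜ, ∀ x, 0 ≤ 1 + s * c x := by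
      rw [Filter.eventually_all]
      intro x
      have hc : Filter.Tendsto (fun s : ℝ => 1 + s * c x) (nhdsWithin 0 {0}ᶜ) (nhds 1) := by
        have : ContinuousAt (fun s : ℝ => 1 + s * c x) 0 := by fun_prop
        have h2 := this.tendsto
        simp only [zero_mul, add_zero] at h2
        exact h2.mono_left nhdsWithin_le_nhds
      filter_upwards [hc.eventually (lt_mem_nhds (zero_lt_one))] with s hs
      exact hs.le
    filter_upwards [hev, self_mem_nhdsWithin] with s hs hs0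
    have hs0' : s ≠ 0 := hs0
    have h1 := chi_po (I := I) (I' := fun a => I a + s * J a) hI
      (fun a => by
        have := mul_nonneg (hI a) (hs a)
        show 0 ≤ I a + s * (I a * c a)
        nlinarith)
      (fun a ha => by show I a + s * (I a * c a) = 0; rw [ha]; ring) hq hpos
    have h2 : ∑ a, ((I a + s * J a) - I a) ^ 2 / I a = s ^ 2 * L := by
      rw [hL, mul_sum]
      refine sum_congr rfl fun a _ => ?_
      by_cases ha : I a = 0
      · rw [ha]; simp
      · show ((I a + s * (I a * c a)) - I a) ^ 2 / I a = _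
        field_simp
        ring
    have h3 : ∑ z, F s z ^ 2 / P z ≤ Real.exp (s ^ 2 * L) := by
      rw [← h2]
      exact h1
    have h4 : ∑ z, (F s z - P z) ^ 2 / P z = ∑ z, F s z ^ 2 / P z - 1 := by
      have h5 : ∀ z, (F s z - P z) ^ 2 / P z = F s z ^ 2 / P z - 2 * F s z + P z := by
        intro z
        have := (hpos z).ne'
        field_simp
        ring
      rw [sum_congr rfl fun z _ => h5 z, sum_add_distrib, sum_sub_distrib, ← mul_sum, hFsum s,
        hPsum]
      ring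
    have h6 : ∑ z, (slope (fun s => F s z) 0 s) ^ 2 / P z =
        (∑ z, (F s z - P z) ^ 2 / P z) / s ^ 2 := by
      rw [sum_div]
      refine sum_congr rfl fun z _ => ?_
      rw [slope_def_field, hF0, sub_zero]
      have := (hpos z).ne'
      field_simp
    rw [h6, h4, div_le_iff₀ (by positivity)]
    have h7 := gram_exp (s ^ 2 * L)
    calc ∑ z, F s z ^ 2 / P z - 1 ≤ Real.exp (s ^ 2 * L) - 1 := by linarith
      _ ≤ s ^ 2 * L * Real.exp (s ^ 2 * L) := h7
      _ = L * Real.exp (s ^ 2 * L) * s ^ 2 := by ring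
  have lim1 : Filter.Tendsto (fun s => ∑ z, (slope (fun s => F s z) 0 s) ^ 2 / P z)
      (nhdsWithin 0 {0}ᶜ) (nhds (∑ z, g z ^ 2 / P z)) := by
    refine tendsto_finsetSum _ fun z _ => ?_
    have h := hasDerivAt_iff_tendsto_slope.1 (gram_deriv I J q z)
    exact (h.pow 2).div_const _
  have lim2 : Filter.Tendsto (fun s : ℝ => L * Real.exp (s ^ 2 * L))
      (nhdsWithin 0 {0}ᶜ) (nhds L) := by
    have : ContinuousAt (fun s : ℝ => L * Real.exp (s ^ 2 * L)) 0 := by fun_prop
    have h2 := this.tendsto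
    simp only [ne_eq, OfNat.ofNat_ne_zero, not_false_eq_true, zero_pow, zero_mul, Real.exp_zero,
      mul_one] at h2
    exact h2.mono_left nhdsWithin_le_nhds
  have hmain : ∑ z, g z ^ 2 / P z ≤ L := le_of_tendsto_of_tendsto lim1 lim2 key
  -- from g to h
  set t : ℝ := ∑ x, J x with ht
  have hgs : ∑ z, g z = 0 := by
    rw [hg]
    show ∑ z, ∑ x, J x * (P (z - x) - P z) = 0
    rw [sum_comm]
    refine sum_eq_zero fun x _ => ?_
    rw [← mul_sum, sum_sub_distrib]
    have : ∑ z, P (z - x) = ∑ z, P z := sum_tau x P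
    rw [this, sub_self, mul_zero]
  have hh : ∀ z, ∑ x, I x * c x * P (z - x) = g z + t * P z := by
    intro z
    rw [ht, sum_mul, hg, ← sum_add_distrib]
    exact sum_congr rfl fun x _ => by show I x * c x * P (z - x) = _; rw [hJ]; ring
  have h8 : ∀ z, (∑ x, I x * c x * P (z - x)) ^ 2 / P z =
      g z ^ 2 / P z + 2 * t * g z + t ^ 2 * P z := by
    intro z
    rw [hh z]
    have := (hpos z).ne'
    field_simp
    ring
  rw [sum_congr rfl fun z _ => h8 z, sum_add_distrib, sum_add_distrib, ← mul_sum, ← mul_sum, hgs,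
    hPsum]
  linarith

end Pool.MPbe0380
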