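import Pool.Agent.Lib.MP_be0380_co.S.Basic
import Pool.Agent.Lib.MP_be0380_co.S.Chaos
import Pool.Agent.Lib.MP_be0380_co.S.Cut

/-!
# be0380 S.Hub: (6.8)

PROOF. `K` = the set of the sum, `v = J(K)`. If `K` is empty, the sum is `0`. Let `x0 ∈ K`, `T = B^20`,
`mu_t = ∑_(x ∈ K) (J x / v) tau x (P t)`, `f_t = cut T (log (tau x0 P_t / P_t))`. For `t ∈ (0,1]` by `chaos_b` (`I = t J`,
`q = po I0`, `P_eq`): `KL mu_t P_t ≤ log (1 + 1/(t v))`. For `t ∈ [0,1]`: `KL mu_t P_t + e^(-T) ≥ ∑ mu_t f_t` (`cut_dv`)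
`= ∑_K (J x/v) ∑ tau x P_t f_t ≥ ∑ tau x0 P_t f_t - 3 T ∑_K (J x/v) hh t (x - x0) ≥ Dd t x0 - 64 (1+l)^2/T - 3 T ∑ ..`
(`hel_tv`, `hel_tau_tau`, `cut_exc`, `exc_P1'`). Average: `dist (x - x0) ≤ 2 B^(-40)`, so
`l - B^(-10) ≤ av (log bound)`. `av_le_log` (`log (1 + 1/(t v)) ≤ log (1 + 1/v) - log t`): `l - 1/100 ≤ log (1 + 1/v) + 1/2`;
`av_le_inv` (`log (1+y) ≤ y`): `l/2 ≤ 2/v`. If `l ≥ 8`: `1/v ≥ e^(l-1) - 1 ≥ e^(l/2)`, `v phi l ≤ 1`. If `l < 8`:
`v ≤ 4/l`, `v phi l ≤ 4 e^4 min(l^2,1)/l ≤ 4 e^4 ≤ 220`. (Apply av_le_* to the continuous function `t ↦ Dd t x0 - ...`.)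
-/

set_option autoImplicit false

open Finset

namespace Pool.MPbe0380

section mix

variable {G : Type} [AddCommGroup G] [Fintype G] {ι : Type}

/-- a mixture of translates of a law is a law -/
theorem mix_law {P : G → ℝ} (hP : IsLaw P) (Q : Finset ι) (w : ι → ℝ) (s : ι → G)
    (hw : ∀ e ∈ Q, 0 ≤ w e) (hs : ∑ e ∈ Q, w e = 1) :
    IsLaw (fun z => ∑ e ∈ Q, w e * P (z - s e)) := by
  refine ⟨fun z => sum_nonneg fun e he => mul_nonneg (hw e he) (hP.1 _), ?_⟩
  rw [sum_comm, ← hs]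
  refine sum_congr rfl fun e _ => ?_
  rw [← mul_sum]
  have h := (hP.tau (s e)).2
  simp only [tau_apply] at h
  rw [h, mul_one]

/-- the mean of a cut log likelihood ratio under a mixture of translates -/
theorem mix_dv {P : G → ℝ} (hP : IsLaw P) (hP0 : ∀ z, 0 < P z) (Q : Finset ι) (w : ι → ℝ)
    (s : ι → G) (hw : ∀ e ∈ Q, 0 ≤ w e) (hs : ∑ e ∈ Q, w e = 1) (a : G) {T : ℝ} (hT : 0 ≤ T) :
    ∑ e ∈ Q, w e * ∑ z, tau (s e) P z * cut T (Real.log (tau a P z / P z)) ≤
      KL (fun z => ∑ e ∈ Q, w e * P (z - s e)) P + Real.exp (-T) := by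
  have h := cut_dv (mix_law hP Q w s hw hs) (hP.tau a) hP (fun z => hP0 (z - a)) hP0 T hT
  refine le_trans (le_of_eq ?_) h
  simp only [sum_mul, mul_sum]
  rw [sum_comm]
  refine sum_congr rfl fun z _ => sum_congr rfl fun e _ => ?_
  rw [tau_apply (s e) P z]
  ring

/-- change of the translate in the mean of a cut log likelihood ratio -/
theorem shift_cut {P : G → ℝ} (hP : IsLaw P) (x a b : G) {T : ℝ} (hT : 0 ≤ T) :
    ∑ z, tau a P z * cut T (Real.log (tau b P z / P z)) ≤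
      ∑ z, tau x P z * cut T (Real.log (tau b P z / P z)) + 3 * T * hel P (tau (a - x) P) := by
  have h := hel_tv (hP.tau x) (hP.tau a) (f := fun z => cut T (Real.log (tau b P z / P z)))
    (T := T) (fun z => cut_abs hT _)
  rw [hel_tau_tau] at h
  have h2 := (abs_le.mp h).1
  linarith

end mix

theorem exp_four_le : Real.exp 4 ≤ 54.6 := by
  have h := Real.exp_one_lt_d9
  have h1 : Real.exp 4 = Real.exp 1 ^ 4 := by rw [← Real.exp_nat_mul]; norm_num
  rw [h1]
  have h2 : Real.exp 1 ^ 4 ≤ 2.7182818286 ^ 4 :=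
    pow_le_pow_left₀ (Real.exp_pos 1).le h.le 4
  refine h2.trans ?_
  norm_num

theorem phi_le_exp (l : ℝ) : phi l ≤ Real.exp (l / 2) := by
  unfold phi
  have h1 : min (l ^ 2) 1 ≤ 1 := min_le_right _ _
  have h2 := Real.exp_pos (l / 2)
  nlinarith

theorem phi_nonneg (l : ℝ) : 0 ≤ phi l := by
  unfold phi
  exact mul_nonneg (le_min (sq_nonneg l) zero_le_one) (Real.exp_pos _).le

theorem phi_small {l : ℝ} (h : l < 8) : phi l ≤ l ^ 2 * 54.6 := by
  unfold phi
  have h1 : min (l ^ 2) 1 ≤ l ^ 2 := min_le_left _ _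
  have h2 : Real.exp (l / 2) ≤ 54.6 := (Real.exp_le_exp.mpr (by linarith)).trans exp_four_le
  exact mul_le_mul h1 h2 (Real.exp_pos _).le (sq_nonneg l)

theorem phi_small' {l : ℝ} (h0 : 0 < l) (h : l < 8) : phi l ≤ l * 54.6 := by
  unfold phi
  have h1 : min (l ^ 2) 1 ≤ l := by
    rcases le_total l 1 with h1 | h1
    · exact (min_le_left _ _).trans (by nlinarith)
    · exact (min_le_right _ _).trans h1
  have h2 : Real.exp (l / 2) ≤ 54.6 := (Real.exp_le_exp.mpr (by linarith)).trans exp_four_le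
  exact mul_le_mul h1 h2 (Real.exp_pos _).le h0.le

theorem av_lin {f h : ℝ → ℝ} (hf : ContinuousOn f (Set.Icc 0 1))
    (hh : ContinuousOn h (Set.Icc 0 1)) (a k d : ℝ) :
    av (fun t => f t - a - k * h t - d) = av f - a - k * av h - d := by
  have c1 : ContinuousOn (fun _ : ℝ => a) (Set.Icc 0 1) := continuousOn_const
  have c2 : ContinuousOn (fun _ : ℝ => d) (Set.Icc 0 1) := continuousOn_const
  have c3 : ContinuousOn (fun t : ℝ => k * h t) (Set.Icc 0 1) := continuousOn_const.mul hh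
  have c4 : ContinuousOn (fun t : ℝ => f t - a) (Set.Icc 0 1) := hf.sub c1
  have c5 : ContinuousOn (fun t : ℝ => f t - a - k * h t) (Set.Icc 0 1) := c4.sub c3
  rw [av_sub c5 c2, av_sub c4 c3, av_sub hf c1, av_const, av_const, av_const_mul]

/-- the last step of `hub` -/
private theorem hub_end {l v : ℝ} (hl : 0 < l) (hv : 0 < v)
    (h1 : l - 1 / 100 ≤ Real.log (1 + 1 / v) + 1 / 2) (h2 : l / 2 ≤ 2 * (1 / v)) :
    v * phi l ≤ 220 := by
  rcases le_or_gt 8 l with h8 | h8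
  · have hp : (0 : ℝ) < 1 + 1 / v := by positivity
    have h3 : Real.exp (l - 1) ≤ 1 + 1 / v := by
      rw [← Real.le_log_iff_exp_le hp]
      linarith
    have h4 : Real.exp (l - 1) = Real.exp (l / 2) * Real.exp (l / 2 - 1) := by
      rw [← Real.exp_add]; congr 1; ring
    have h5 : l / 2 ≤ Real.exp (l / 2 - 1) := by
      have := Real.add_one_le_exp (l / 2 - 1)
      linarith
    have h6 : (1 : ℝ) ≤ Real.exp (l / 2) := Real.one_le_exp (by linarith)
    have h7 : Real.exp (l / 2) ≤ 1 / v := by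
      have : Real.exp (l / 2) * 4 ≤ Real.exp (l / 2) * Real.exp (l / 2 - 1) :=
        mul_le_mul_of_nonneg_left (by linarith) (Real.exp_pos _).le
      linarith
    calc v * phi l ≤ v * (1 / v) := mul_le_mul_of_nonneg_left ((phi_le_exp l).trans h7) hv.le
      _ = 1 := by field_simp
      _ ≤ 220 := by norm_num
  · have h3 : v * l ≤ 4 := by
      have h4 : v * (l / 2) ≤ v * (2 * (1 / v)) := mul_le_mul_of_nonneg_left h2 hv.le
      have h5 : v * (2 * (1 / v)) = 2 := by field_simp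
      linarith
    calc v * phi l ≤ v * (l * 54.6) := mul_le_mul_of_nonneg_left (phi_small' hl h8) hv.le
      _ = (v * l) * 54.6 := by ring
      _ ≤ 4 * 54.6 := by linarith
      _ ≤ 220 := by norm_num

/-- the numbers of `hub` -/
private theorem hub_num {b l : ℝ} (hl : 0 < l) (hb : 1000 * (1 + l) ≤ b) :
    64 * (1 + l) ^ 2 / b ^ 20 + 3 * b ^ 20 * (2 / b ^ 40) + Real.exp (-b ^ 20) ≤ 1 / b := by
  have hb0 : (1000 : ℝ) ≤ b := by linarith
  have hbp : (0 : ℝ) < b := by linarith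
  have hr : (1 + l) ^ 2 ≤ b ^ 2 / 1000000 := by
    have : (1 + l) ≤ b / 1000 := by linarith
    calc (1 + l) ^ 2 ≤ (b / 1000) ^ 2 := pow_le_pow_left₀ (by linarith) this 2
      _ = _ := by ring
  have hb17 : (1000 : ℝ) ≤ b ^ 17 := hb0.trans (le_self_pow₀ (by linarith) (by norm_num))
  have hb19 : (1000 : ℝ) ≤ b ^ 19 := hb0.trans (le_self_pow₀ (by linarith) (by norm_num))
  have e1 : 64 * (1 + l) ^ 2 / b ^ 20 ≤ 1 / 10 / b := by
    rw [div_le_div_iff₀ (by positivity) hbp]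
    have : b ^ 20 = b ^ 17 * b ^ 3 := by ring
    rw [this]
    have h1 : 64 * (1 + l) ^ 2 * b ≤ 64 * (b ^ 2 / 1000000) * b := by
      have := mul_le_mul_of_nonneg_right hr hbp.le
      nlinarith
    refine h1.trans ?_
    have h2 : (0 : ℝ) ≤ b ^ 3 := by positivity
    nlinarith
  have e0 : 1 / b ^ 20 ≤ 1 / 1000 / b := by
    rw [div_le_div_iff₀ (by positivity) hbp]
    have : b ^ 20 = b ^ 19 * b := by ring
    rw [this]
    nlinarith
  have e2 : 3 * b ^ 20 * (2 / b ^ 40) = 6 * (1 / b ^ 20) := by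
    have : b ^ 40 = b ^ 20 * b ^ 20 := by ring
    rw [this]; field_simp; norm_num
  have e3 : Real.exp (-b ^ 20) ≤ 1 / b ^ 20 := by
    rw [Real.exp_neg, inv_eq_one_div]
    refine one_div_le_one_div_of_le (by positivity) ?_
    have := Real.add_one_le_exp (b ^ 20)
    linarith
  have e4 : 1 / b = 1 / 10 / b + 6 * (1 / 1000 / b) + 1 / 1000 / b + (893 / 1000) / b := by
    field_simp; norm_num
  have e5 : 0 ≤ (893 / 1000 : ℝ) / b := by positivity
  rw [e2, e4]
  linarith

namespace SD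

variable {p : ℕ} [Fact p.Prime] (S : SD p)

open Classical in
theorem hub {B : ℕ} (hB1 : 1000 * (1 + S.l) ≤ B) (hB2 : 2 ≤ B * S.l) (c : ZMod p) :
    (∑ x ∈ univ.filter (fun x => 0 < S.J x ∧ S.dist (c - x) * (B : ℝ) ^ 40 ≤ 1), S.J x) * phi S.l ≤
      220 := by
  set K := univ.filter (fun x => 0 < S.J x ∧ S.dist (c - x) * (B : ℝ) ^ 40 ≤ 1) with hK
  set v := ∑ x ∈ K, S.J x with hv
  have hl := S.l_pos
  set b : ℝ := (B : ℝ) with hb
  have hb0 : (1000 : ℝ) ≤ b := by linarith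
  have hbp : (0 : ℝ) < b := by linarith
  rcases K.eq_empty_or_nonempty with h0 | ⟨x0, hx0⟩
  · rw [hv, h0, sum_empty, zero_mul]; norm_num
  have hJ : ∀ x ∈ K, 0 < S.J x := fun x hx => ((mem_filter.mp hx).2).1
  have hd : ∀ x ∈ K, S.dist (c - x) ≤ 1 / b ^ 40 := fun x hx => by
    rw [le_div_iff₀ (by positivity)]
    exact ((mem_filter.mp hx).2).2
  have hv0 : 0 < v := sum_pos hJ ⟨x0, hx0⟩
  set T : ℝ := b ^ 20 with hT
  have hT4 : (4 : ℝ) ≤ T := by
    have : b ≤ b ^ 20 := le_self_pow₀ (by linarith) (by norm_num)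
    linarith
  have hT0 : (0 : ℝ) ≤ T := by linarith
  have hw0 : ∀ x ∈ K, 0 ≤ S.J x / v := fun x hx => div_nonneg (hJ x hx).le hv0.le
  have hw1 : ∑ x ∈ K, S.J x / v = 1 := by
    rw [← sum_div, ← hv, div_self hv0.ne']
  have hx0A : x0 ∈ S.A := S.mem_A (hJ x0 hx0)
  -- the pointwise inequality
  have hpt : ∀ t : ℝ, 0 ≤ t →
      S.Dd t x0 - 64 * (1 + S.l) ^ 2 / T - 3 * T * ∑ x ∈ K, S.J x / v * S.hh t (x0 - x) -
        Real.exp (-T) ≤ KL (fun z => ∑ x ∈ K, S.J x / v * S.P t (z - x)) (S.P t) := by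
    intro t ht
    have hP := S.P_law ht
    have a1 := mix_dv hP (S.P_pos ht) K (fun x => S.J x / v) (fun x => x) hw0 hw1 x0 hT0
    have a2 := cut_exc (mu := tau x0 (S.P t)) (Q := S.P t) (hP.tau x0) T
    have a3 := S.exc_P1' ht hx0A hT4
    have a4 : ∑ z, tau x0 (S.P t) z * cut T (Real.log (tau x0 (S.P t) z / S.P t z)) ≤
        ∑ x ∈ K, S.J x / v * ∑ z, tau x (S.P t) z * cut T (Real.log (tau x0 (S.P t) z / S.P t z)) +
          3 * T * ∑ x ∈ K, S.J x / v * S.hh t (x0 - x) := by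
      have h1 : ∀ x ∈ K, S.J x / v *
          ∑ z, tau x0 (S.P t) z * cut T (Real.log (tau x0 (S.P t) z / S.P t z)) ≤
          S.J x / v * ∑ z, tau x (S.P t) z * cut T (Real.log (tau x0 (S.P t) z / S.P t z)) +
          3 * T * (S.J x / v * S.hh t (x0 - x)) := by
        intro x hx
        have h2 := mul_le_mul_of_nonneg_left (shift_cut hP x x0 x0 hT0) (hw0 x hx)
        refine h2.trans (le_of_eq ?_)
        unfold SD.hh
        ring
      have h3 := sum_le_sum h1
      rw [← sum_mul, hw1, one_mul, sum_add_distrib, ← mul_sum] at h3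
      exact h3
    have a5 : KL (tau x0 (S.P t)) (S.P t) = S.Dd t x0 := rfl
    have a6 : exc x0 (S.P t) T =
      ∑ z, tau x0 (S.P t) z * max (Real.log (tau x0 (S.P t) z / S.P t z) - T) 0 := rfl
    rw [a6] at a3
    rw [a5] at a2
    linarith
  set g : ℝ → ℝ := fun t =>
    S.Dd t x0 - 64 * (1 + S.l) ^ 2 / T - 3 * T * ∑ x ∈ K, S.J x / v * S.hh t (x0 - x) -
        Real.exp (-T) with hg
  have hsc : ContinuousOn (fun t => ∑ x ∈ K, S.J x / v * S.hh t (x0 - x)) (Set.Icc 0 1) :=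
    continuousOn_finsetSum _ fun x _ => continuousOn_const.mul (S.cont_hh (x0 - x))
  have hgc : ContinuousOn g (Set.Icc 0 1) :=
    (((S.cont_Dd x0).sub continuousOn_const).sub (continuousOn_const.mul hsc)).sub
      continuousOn_const
  have hchi : ∀ t ∈ Set.Ioc (0 : ℝ) 1, g t ≤ Real.log (1 + 1 / (t * v)) := by
    intro t ht
    refine (hpt t ht.1.le).trans ?_
    have hI : ∀ a, 0 ≤ (fun a => t * S.J a) a := fun a => mul_nonneg ht.1.le (S.J_nonneg a)
    have hI0 : ∀ a, 0 ≤ S.I0 a := fun a => by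
      have h1 := S.I2_nonneg a
      have h2 := S.J1_nonneg a
      show 0 ≤ 2 * (2 * S.I2 a + S.J1 a)
      linarith
    have hs : ∑ x ∈ K, (fun a => t * S.J a) x = t * v := by rw [hv, mul_sum]
    have h := chaos_b (I := fun a => t * S.J a) hI (q := po S.I0) (po_law hI0)
      (fun z => by rw [← S.P_eq t]; exact S.P_pos ht.1.le z) K (by rw [hs]; exact mul_pos ht.1 hv0)
    rw [hs, ← S.P_eq t] at h
    refine le_trans (le_of_eq ?_) h
    congr 1
    funext z
    refine sum_congr rfl fun x _ => ?_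
    have h1 : (fun a => t * S.J a) x / (t * v) = S.J x / v := by
      show t * S.J x / (t * v) = S.J x / v
      rw [mul_div_mul_left _ _ ht.1.ne']
    rw [h1]
  -- the average of g
  have hav : S.l - 1 / b ≤ av g := by
    have h1 : av g = av (fun t => S.Dd t x0) - 64 * (1 + S.l) ^ 2 / T -
        3 * T * (∑ x ∈ K, S.J x / v * av (fun t => S.hh t (x0 - x))) - Real.exp (-T) := by
      have h0 := av_sum K (fun x t => S.J x / v * S.hh t (x0 - x))
        (fun x _ => continuousOn_const.mul (S.cont_hh (x0 - x)))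
      simp only [av_const_mul] at h0
      rw [hg, av_lin (S.cont_Dd x0) hsc, h0]
    rw [h1, S.av_Dd_eq (hJ x0 hx0)]
    have h2 : ∑ x ∈ K, S.J x / v * av (fun t => S.hh t (x0 - x)) ≤ 2 / b ^ 40 := by
      calc ∑ x ∈ K, S.J x / v * av (fun t => S.hh t (x0 - x))
          ≤ ∑ x ∈ K, S.J x / v * (2 / b ^ 40) := by
            refine sum_le_sum fun x hx => mul_le_mul_of_nonneg_left ?_ (hw0 x hx)
            refine (S.av_hh_le _).trans ?_
            have h3 : x0 - x = (c - x) + -(c - x0) := by abel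
            rw [h3]
            refine (S.dist_add _ _).trans ?_
            rw [S.dist_neg]
            have := hd x hx
            have := hd x0 hx0
            have h4 : 2 / b ^ 40 = 1 / b ^ 40 + 1 / b ^ 40 := by ring
            linarith
        _ = 2 / b ^ 40 := by rw [← sum_mul, hw1, one_mul]
    have h3 := hub_num hl hB1
    have h4 := mul_le_mul_of_nonneg_left h2 (show (0 : ℝ) ≤ 3 * T by linarith)
    rw [hT] at h4 ⊢
    linarith
  have hbl : 1 / b ≤ S.l / 2 := by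
    rw [div_le_div_iff₀ hbp (by norm_num)]
    linarith
  have hb100 : 1 / b ≤ 1 / 100 := by
    refine one_div_le_one_div_of_le (by norm_num) (by linarith)
  refine hub_end hl hv0 ?_ ?_
  · have h1 := av_le_log (f := g) hgc (c := Real.log (1 + 1 / v)) (b := 1) zero_le_one ?_
    · linarith
    · intro t ht
      refine (hchi t ht).trans ?_
      have h2 : 1 + 1 / (t * v) ≤ (1 + 1 / v) / t := by
        rw [le_div_iff₀ ht.1]
        have h3 : (1 + 1 / (t * v)) * t = t + 1 / v := by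
          have := ht.1.ne'
          field_simp
        rw [h3]
        linarith [ht.2]
      have h4 := Real.log_le_log (by have := ht.1; positivity) h2
      rw [Real.log_div (by positivity) ht.1.ne'] at h4
      linarith
  · have h1 := av_le_inv (f := g) hgc (c := 1 / v) ?_
    · linarith
    · intro t ht
      refine (hchi t ht).trans ?_
      have h2 := Real.log_le_sub_one_of_pos (x := 1 + 1 / (t * v)) (by have := ht.1; positivity)
      refine h2.trans (le_of_eq ?_)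
      have := ht.1.ne'
      field_simp
      ring

end SD

end Pool.MPbe0380
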