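import Pool.Agent.Lib.MP_be0380_co.S.Near
import Pool.Agent.Lib.MP_be0380_co.S.Chaos2
import Pool.Agent.Lib.MP_be0380_co.S.Hub

/-!
# be0380 S.Light: (6.11)

PROOF. `W = ∑_Q J J`; if `W = 0` trivial. For `e = (x,y) ∈ Q` choose `u, w, d = u + w - c ∈ A`. `T = B^120`,
`f_t = cut T (log (tau c P_t / P_t))`. For every `e`: `Dd t (u+w) = Dd t d + ∑ tau (u+w) P_t log (tau c P_t/P_t)` (`kl_shift`,
`u + w = c + d`), so by `near` and `av_Dd_le`: `l - B^(-10) ≤ av (∑ tau (u+w) P_t log r_c)`. `log r_c ≤ f_t + max (log r_c - T) 0`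
(`le_cut_add`) and `log r_c z = log r_(c+d) z - log r_d (z - c)`, `max (A - B' - T) 0 ≤ max (A - T/2) 0 + max (-B' - T/2) 0`:
`∑ tau (c+d) P max (log r_c - T) 0 ≤ exc (u+w) P (T/2) + e^(-T/2) ≤ 3200 (1+l)^2/T + e^(-T/2)` (`exc_P2`, `low_exc` after the
shift by `c`). `∑ tau (u+w) P f ≤ ∑ tau (x+y) P f + 3 T hh t ((u-x)+(w-y))`, `av` of the last `≤ 6 B^(-120)`. With
`mu_t = ∑_Q (J J/W) tau (x+y) P_t`: `∑ mu_t f ≤ KL mu_t P_t + e^(-T)` (`cut_dv`) and for `t ∈ (0,1]`
`KL mu_t P_t ≤ log (1 + 8 M1/(t^2 W))` (`chaos_c` with `I = t/2 J`, `q = po I1`, `P_half`: `M_I = t M1/2`, `W_I = t^2 W/4`,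
`(2 M_I + 1)/W_I = 4 (t M1 + 1)/(t^2 W)`). Averaging over `Q` and `t`, with `v = 8 M1/W`:
`l - B^(-9) ≤ av (log (1 + v/t^2))` bounds: `log (1 + y^2) ≤ y` gives `≤ √v/t` (`av_le_inv`: `2 √v`), and
`log (1 + v/t^2) ≤ log (1+v) - 2 log t` (`av_le_log`: `log (1+v) + 1`). `l ≥ 8`: `v ≥ e^(l-2) - 1 ≥ e^(l/2) ≥ phi l`. `l < 8`:
`2 √v ≥ l/2`, `v ≥ l^2/16 ≥ phi l/(16 e^4)`. So `W phi l ≤ 8 * 16 e^4 M1 ≤ 7000 M1`.
-/

set_option autoImplicit false

open Finset

namespace Pool.MPbe0380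

private theorem log_one_add_sq_le {y : ℝ} (hy : 0 ≤ y) : Real.log (1 + y ^ 2) ≤ y := by
  rw [Real.log_le_iff_le_exp (by positivity)]
  have h1 := Real.quadratic_le_exp_of_nonneg (x := y / 2) (by positivity)
  have h2 : Real.exp y = Real.exp (y / 2) * Real.exp (y / 2) := by
    rw [← Real.exp_add]; congr 1; ring
  rw [h2]
  have h3 : (1 + y / 2 + (y / 2) ^ 2 / 2) * (1 + y / 2 + (y / 2) ^ 2 / 2) ≤
      Real.exp (y / 2) * Real.exp (y / 2) :=
    mul_le_mul h1 h1 (by positivity) (Real.exp_pos _).le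
  refine le_trans ?_ h3
  have h4 : 0 ≤ y * ((y / 4 - 1) ^ 2 + y ^ 2 / 16 + y ^ 3 / 64) := by positivity
  nlinarith [mul_nonneg hy (sq_nonneg (y / 2 - 1)), pow_nonneg hy 3, pow_nonneg hy 4]

/-- the last step of `light` -/
private theorem light_end {l v W M1 : ℝ} (hl : 0 < l) (hW : 0 < W) (hM : 1 ≤ M1)
    (hv : v = 8 * M1 / W) (h1 : l - 1 / 100 ≤ Real.log (1 + v) + 1) (h2 : l / 2 ≤ 2 * √v) :
    W * phi l ≤ 7000 * M1 := by
  have hM0 : 0 < M1 := by linarith
  have hv0 : 0 < v := by rw [hv]; positivity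
  have hWv : W * v = 8 * M1 := by rw [hv]; field_simp
  rcases le_or_gt 8 l with h8 | h8
  · have hp : (0 : ℝ) < 1 + v := by positivity
    have h3 : Real.exp (l - 2) ≤ 1 + v := by
      rw [← Real.le_log_iff_exp_le hp]
      linarith
    have h4 : Real.exp (l - 2) = Real.exp (l / 2) * Real.exp (l / 2 - 2) := by
      rw [← Real.exp_add]; congr 1; ring
    have h5 : l / 2 - 1 ≤ Real.exp (l / 2 - 2) := by
      have := Real.add_one_le_exp (l / 2 - 2)
      linarith
    have h6 : (1 : ℝ) ≤ Real.exp (l / 2) := Real.one_le_exp (by linarith)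
    have h7 : Real.exp (l / 2) ≤ v := by
      have : Real.exp (l / 2) * 3 ≤ Real.exp (l / 2) * Real.exp (l / 2 - 2) :=
        mul_le_mul_of_nonneg_left (by linarith) (Real.exp_pos _).le
      linarith
    calc W * phi l ≤ W * v := mul_le_mul_of_nonneg_left ((phi_le_exp l).trans h7) hW.le
      _ = 8 * M1 := hWv
      _ ≤ 7000 * M1 := by linarith
  · have h3 : l ^ 2 ≤ 16 * v := by
      have h4 : (l / 2) ^ 2 ≤ (2 * √v) ^ 2 := pow_le_pow_left₀ (by positivity) h2 2
      rw [mul_pow, Real.sq_sqrt hv0.le] at h4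
      linarith
    calc W * phi l ≤ W * (l ^ 2 * 54.6) := mul_le_mul_of_nonneg_left (phi_small h8) hW.le
      _ ≤ W * (16 * v * 54.6) := by
          refine mul_le_mul_of_nonneg_left ?_ hW.le
          linarith
      _ = (W * v) * (16 * 54.6) := by ring
      _ = (8 * M1) * (16 * 54.6) := by rw [hWv]
      _ ≤ 7000 * M1 := by linarith

/-- the numbers of `light` -/
private theorem light_num {b l : ℝ} (hl : 0 < l) (hb : 1000 * (1 + l) ≤ b) :
    3200 * (1 + l) ^ 2 / b ^ 120 + (b ^ 10)⁻¹ + 3 * b ^ 120 * (2 / b ^ 240) +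
      Real.exp (-(b ^ 120 / 2)) + Real.exp (-b ^ 120) ≤ 1 / b := by
  have hb0 : (1000 : ℝ) ≤ b := by linarith
  have hbp : (0 : ℝ) < b := by linarith
  have hr : (1 + l) ^ 2 ≤ b ^ 2 / 1000000 := by
    have : (1 + l) ≤ b / 1000 := by linarith
    calc (1 + l) ^ 2 ≤ (b / 1000) ^ 2 := pow_le_pow_left₀ (by linarith) this 2
      _ = _ := by ring
  have hb117 : (1000 : ℝ) ≤ b ^ 117 := hb0.trans (le_self_pow₀ (by linarith) (by norm_num))
  have hb119 : (1000 : ℝ) ≤ b ^ 119 := hb0.trans (le_self_pow₀ (by linarith) (by norm_num))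
  have hb9 : (1000 : ℝ) ≤ b ^ 9 := hb0.trans (le_self_pow₀ (by linarith) (by norm_num))
  have e1 : 3200 * (1 + l) ^ 2 / b ^ 120 ≤ 1 / 10 / b := by
    rw [div_le_div_iff₀ (by positivity) hbp]
    have : b ^ 120 = b ^ 117 * b ^ 3 := by ring
    rw [this]
    have h1 : 3200 * (1 + l) ^ 2 * b ≤ 3200 * (b ^ 2 / 1000000) * b := by
      have := mul_le_mul_of_nonneg_right hr hbp.le
      nlinarith
    refine h1.trans ?_
    have h2 : (0 : ℝ) ≤ b ^ 3 := by positivity
    nlinarith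
  have e0 : 1 / b ^ 120 ≤ 1 / 1000 / b := by
    rw [div_le_div_iff₀ (by positivity) hbp]
    have : b ^ 120 = b ^ 119 * b := by ring
    rw [this]
    nlinarith
  have e00 : (b ^ 10)⁻¹ ≤ 1 / 1000 / b := by
    rw [inv_eq_one_div, div_le_div_iff₀ (by positivity) hbp]
    have : b ^ 10 = b ^ 9 * b := by ring
    rw [this]
    nlinarith
  have e2 : 3 * b ^ 120 * (2 / b ^ 240) = 6 * (1 / b ^ 120) := by
    have : b ^ 240 = b ^ 120 * b ^ 120 := by ring
    rw [this]; field_simp; norm_num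
  have e3 : Real.exp (-b ^ 120) ≤ 1 / b ^ 120 := by
    rw [Real.exp_neg, inv_eq_one_div]
    refine one_div_le_one_div_of_le (by positivity) ?_
    have := Real.add_one_le_exp (b ^ 120)
    linarith
  have e6 : Real.exp (-(b ^ 120 / 2)) ≤ 2 * (1 / b ^ 120) := by
    rw [Real.exp_neg, inv_eq_one_div, show 2 * (1 / b ^ 120) = 1 / (b ^ 120 / 2) by field_simp]
    refine one_div_le_one_div_of_le (by positivity) ?_
    have := Real.add_one_le_exp (b ^ 120 / 2)
    linarith
  have e4 : 1 / b = 1 / 10 / b + 1 / 1000 / b + 9 * (1 / 1000 / b) + (890 / 1000) / b := by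
    field_simp; norm_num
  have e5 : 0 ≤ (890 / 1000 : ℝ) / b := by positivity
  rw [e2, e4]
  linarith

/-- the mean excess of the first factor under the law of a sum -/
private theorem exc_shift {G : Type} [AddCommGroup G] [Fintype G] {P : G → ℝ} (hP : IsLaw P)
    (hP0 : ∀ z, 0 < P z) (c d : G) (T : ℝ) :
    ∑ z, tau (c + d) P z * max (Real.log (tau c P z / P z) - T) 0 ≤
      exc (c + d) P (T / 2) + Real.exp (-(T / 2)) := by
  have h1 := low_exc hP hP0 d (T / 2)
  have h2 : ∑ z, tau (c + d) P z * max (-Real.log (tau d P (z - c) / P (z - c)) - T / 2) 0 =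
      ∑ z, tau d P z * max (-Real.log (tau d P z / P z) - T / 2) 0 := by
    refine Fintype.sum_equiv (Equiv.subRight c) _ _ fun z => ?_
    simp only [Equiv.subRight_apply, tau_apply]
    rw [show z - (c + d) = z - c - d by abel]
  rw [← h2] at h1
  have h3 : ∑ z, tau (c + d) P z * max (Real.log (tau c P z / P z) - T) 0 ≤
      exc (c + d) P (T / 2) +
        ∑ z, tau (c + d) P z * max (-Real.log (tau d P (z - c) / P (z - c)) - T / 2) 0 := by
    unfold exc
    rw [← sum_add_distrib]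
    refine sum_le_sum fun z _ => ?_
    rw [← mul_add]
    refine mul_le_mul_of_nonneg_left ?_ (hP0 _).le
    simp only [tau_apply]
    have e1 : Real.log (P (z - c) / P z) = Real.log (P (z - (c + d)) / P z) -
        Real.log (P (z - c - d) / P (z - c)) := by
      rw [show z - c - d = z - (c + d) by abel, Real.log_div (hP0 _).ne' (hP0 _).ne',
        Real.log_div (hP0 _).ne' (hP0 _).ne', Real.log_div (hP0 _).ne' (hP0 _).ne']
      ring
    rw [e1]
    refine max_le ?_ ?_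
    · have m1 := le_max_left (Real.log (P (z - (c + d)) / P z) - T / 2) 0
      have m2 := le_max_left (-Real.log (P (z - c - d) / P (z - c)) - T / 2) 0
      linarith
    · exact add_nonneg (le_max_right _ _) (le_max_right _ _)
  linarith

namespace SD

variable {p : ℕ} [Fact p.Prime] (S : SD p)

/-- the pointwise inequality for one pair -/
private theorem light_pt {t : ℝ} (ht : 0 ≤ t) {c u w : ZMod p} (hc : c ∈ S.A) (hu : u ∈ S.A)
    (hw : w ∈ S.A) (hd : u + w - c ∈ S.A) (s : ZMod p) {T : ℝ} (hT : 12 ≤ T) :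
    S.Dd t (u + w) - S.Dd t (u + w - c) - 3 * T * S.hh t (u + w - s) ≤
      ∑ z, tau s (S.P t) z * cut T (Real.log (tau c (S.P t) z / S.P t z)) +
        3200 * (1 + S.l) ^ 2 / T + Real.exp (-(T / 2)) := by
  have hP := S.P_law ht
  have hP0 := S.P_pos ht
  have h1 := kl_shift hP0 c (u + w - c)
  have h2 := exc_shift hP hP0 c (u + w - c) T
  have e : c + (u + w - c) = u + w := by abel
  rw [e] at h1 h2
  have h3 := S.exc_P2 ht hu hw (T := T / 2) (by linarith)
  have h4 := shift_cut hP s (u + w) c (T := T) (by linarith)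
  have h5 : ∑ z, tau (u + w) (S.P t) z * Real.log (tau c (S.P t) z / S.P t z) ≤
      ∑ z, tau (u + w) (S.P t) z * cut T (Real.log (tau c (S.P t) z / S.P t z)) +
      ∑ z, tau (u + w) (S.P t) z * max (Real.log (tau c (S.P t) z / S.P t z) - T) 0 := by
    rw [← sum_add_distrib]
    refine sum_le_sum fun z _ => ?_
    rw [← mul_add]
    exact mul_le_mul_of_nonneg_left (le_cut_add _) (hP0 _).le
  have h6 : 1600 * (1 + S.l) ^ 2 / (T / 2) = 3200 * (1 + S.l) ^ 2 / T := by
    have : T ≠ 0 := by linarith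
    field_simp
    ring
  rw [h6] at h3
  have e1 : KL (tau (u + w) (S.P t)) (S.P t) = S.Dd t (u + w) := rfl
  have e2 : KL (tau (u + w - c) (S.P t)) (S.P t) = S.Dd t (u + w - c) := rfl
  have e3 : hel (S.P t) (tau (u + w - s) (S.P t)) = S.hh t (u + w - s) := rfl
  rw [e1, e2] at h1
  rw [e3] at h4
  linarith

theorem light {B : ℕ} (hB1 : 1000 * (1 + S.l) ≤ B) (hB2 : 2 ≤ B * S.l) {c : ZMod p} (hc : c ∈ S.A)
    (Q : Finset (ZMod p × ZMod p))
    (hQ : ∀ e ∈ Q, S.GP B e.1 e.2 ∧ ∃ u ∈ S.A, ∃ w ∈ S.A, S.Nr B u e.1 ∧ S.Nr B w e.2 ∧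
      u + w - c ∈ S.A)
    {M1 : ℝ} (hM1 : 1 ≤ M1)
    (hd1 : ∀ x, ∑ e ∈ Q.filter (fun e => e.1 = x), S.J e.2 ≤ M1)
    (hd2 : ∀ y, ∑ e ∈ Q.filter (fun e => e.2 = y), S.J e.1 ≤ M1) :
    (∑ e ∈ Q, S.J e.1 * S.J e.2) * phi S.l ≤ 7000 * M1 := by
  classical
  set W := ∑ e ∈ Q, S.J e.1 * S.J e.2 with hW
  have hl := S.l_pos
  set b : ℝ := (B : ℝ) with hb
  have hb0 : (1000 : ℝ) ≤ b := by linarith
  have hbp : (0 : ℝ) < b := by linarith
  rcases Q.eq_empty_or_nonempty with h0 | hne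
  · rw [hW, h0, sum_empty, zero_mul]; linarith
  have hJJ : ∀ e ∈ Q, 0 < S.J e.1 * S.J e.2 := fun e he => mul_pos (hQ e he).1.1 (hQ e he).1.2.1
  have hW0 : 0 < W := sum_pos hJJ hne
  -- choice of the near elements
  have hch : ∀ e : ZMod p × ZMod p, ∃ uw : ZMod p × ZMod p, e ∈ Q → uw.1 ∈ S.A ∧ uw.2 ∈ S.A ∧
      S.Nr B uw.1 e.1 ∧ S.Nr B uw.2 e.2 ∧ uw.1 + uw.2 - c ∈ S.A := by
    intro e
    by_cases he : e ∈ Q
    · obtain ⟨_, u, hu, w, hw, h1, h2, h3⟩ := hQ e he
      exact ⟨(u, w), fun _ => ⟨hu, hw, h1, h2, h3⟩⟩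
    · exact ⟨(0, 0), fun h => absurd h he⟩
  choose uw huw using hch
  set T : ℝ := b ^ 120 with hT
  have hT12 : (12 : ℝ) ≤ T := by
    have : b ≤ b ^ 120 := le_self_pow₀ (by linarith) (by norm_num)
    linarith
  have hT0 : (0 : ℝ) ≤ T := by linarith
  have hw0 : ∀ e ∈ Q, 0 ≤ S.J e.1 * S.J e.2 / W := fun e he => div_nonneg (hJJ e he).le hW0.le
  have hw1 : ∑ e ∈ Q, S.J e.1 * S.J e.2 / W = 1 := by
    rw [← sum_div, ← hW, div_self hW0.ne']
  set F : ZMod p × ZMod p → ℝ → ℝ := fun e t =>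
    S.Dd t ((uw e).1 + (uw e).2) - S.Dd t ((uw e).1 + (uw e).2 - c) -
      3 * T * S.hh t ((uw e).1 + (uw e).2 - (e.1 + e.2)) with hF
  have hFc : ∀ e, ContinuousOn (F e) (Set.Icc 0 1) := fun e =>
    ((S.cont_Dd _).sub (S.cont_Dd _)).sub (continuousOn_const.mul (S.cont_hh _))
  -- the pointwise inequality
  have hpt : ∀ t : ℝ, 0 ≤ t →
      ∑ e ∈ Q, S.J e.1 * S.J e.2 / W * F e t - 3200 * (1 + S.l) ^ 2 / T - Real.exp (-(T / 2)) -
        Real.exp (-T) ≤
      KL (fun z => ∑ e ∈ Q, S.J e.1 * S.J e.2 / W * S.P t (z - (e.1 + e.2))) (S.P t) := by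
    intro t ht
    have hP := S.P_law ht
    have a1 := mix_dv hP (S.P_pos ht) Q (fun e => S.J e.1 * S.J e.2 / W) (fun e => e.1 + e.2)
      hw0 hw1 c hT0
    have a2 : ∑ e ∈ Q, S.J e.1 * S.J e.2 / W * F e t ≤
        ∑ e ∈ Q, S.J e.1 * S.J e.2 / W * (∑ z, tau (e.1 + e.2) (S.P t) z *
          cut T (Real.log (tau c (S.P t) z / S.P t z)) +
          (3200 * (1 + S.l) ^ 2 / T + Real.exp (-(T / 2)))) := by
      refine sum_le_sum fun e he => mul_le_mul_of_nonneg_left ?_ (hw0 e he)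
      obtain ⟨g1, g2, _, _, g5⟩ := huw e he
      have := S.light_pt ht hc g1 g2 g5 (e.1 + e.2) hT12
      simp only [hF]
      linarith
    have a3 : ∑ e ∈ Q, S.J e.1 * S.J e.2 / W * (∑ z, tau (e.1 + e.2) (S.P t) z *
          cut T (Real.log (tau c (S.P t) z / S.P t z)) +
          (3200 * (1 + S.l) ^ 2 / T + Real.exp (-(T / 2)))) =
        ∑ e ∈ Q, S.J e.1 * S.J e.2 / W * ∑ z, tau (e.1 + e.2) (S.P t) z *
          cut T (Real.log (tau c (S.P t) z / S.P t z)) +
          (3200 * (1 + S.l) ^ 2 / T + Real.exp (-(T / 2))) := by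
      simp only [mul_add]
      rw [sum_add_distrib, sum_add_distrib, ← sum_mul, ← sum_mul, hw1]
      ring
    linarith
  set h : ℝ → ℝ := fun t => ∑ e ∈ Q, S.J e.1 * S.J e.2 / W * F e t with hh
  have hhc : ContinuousOn h (Set.Icc 0 1) :=
    continuousOn_finsetSum _ fun e _ => continuousOn_const.mul (hFc e)
  set k : ℝ := 3200 * (1 + S.l) ^ 2 / T + Real.exp (-(T / 2)) + Real.exp (-T) with hk
  set g : ℝ → ℝ := fun t => h t - k with hg
  have hgc : ContinuousOn g (Set.Icc 0 1) := hhc.sub continuousOn_const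
  set v : ℝ := 8 * M1 / W with hv
  have hM0 : 0 < M1 := by linarith
  have hv0 : 0 < v := by rw [hv]; positivity
  have hchi : ∀ t ∈ Set.Ioc (0 : ℝ) 1, g t ≤ Real.log (1 + v / t ^ 2) := by
    intro t ht
    have ht0 := ht.1
    have h1 : g t ≤ KL (fun z => ∑ e ∈ Q, S.J e.1 * S.J e.2 / W * S.P t (z - (e.1 + e.2)))
        (S.P t) := by
      have := hpt t ht.1.le
      simp only [hg, hh, hk]
      linarith
    refine h1.trans ?_
    have hI : ∀ a, 0 ≤ (fun a => t / 2 * S.J a) a := fun a =>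
      mul_nonneg (by linarith) (S.J_nonneg a)
    have hWt : t ^ 2 / 4 * W = ∑ e ∈ Q, (fun a => t / 2 * S.J a) e.1 *
        (fun a => t / 2 * S.J a) e.2 := by
      rw [hW, mul_sum]
      refine sum_congr rfl fun e _ => ?_
      show t ^ 2 / 4 * (S.J e.1 * S.J e.2) = t / 2 * S.J e.1 * (t / 2 * S.J e.2)
      ring
    have hD1 : ∀ x, ∑ e ∈ Q.filter (fun e => e.1 = x), (fun a => t / 2 * S.J a) e.2 ≤
        t / 2 * M1 := fun x => by
      show ∑ e ∈ Q.filter (fun e => e.1 = x), t / 2 * S.J e.2 ≤ t / 2 * M1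
      rw [← mul_sum]
      exact mul_le_mul_of_nonneg_left (hd1 x) (by linarith)
    have hD2 : ∀ y, ∑ e ∈ Q.filter (fun e => e.2 = y), (fun a => t / 2 * S.J a) e.1 ≤
        t / 2 * M1 := fun y => by
      show ∑ e ∈ Q.filter (fun e => e.2 = y), t / 2 * S.J e.1 ≤ t / 2 * M1
      rw [← mul_sum]
      exact mul_le_mul_of_nonneg_left (hd2 y) (by linarith)
    have h2 := chaos_c (I := fun a => t / 2 * S.J a) hI (q := po S.I1) S.po_I1_law
      (fun z => S.half_pos ht0.le z) Q (t / 2 * M1) (t ^ 2 / 4 * W)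
      (by convert hD1) (by convert hD2) hWt (by positivity)
    rw [← S.P_half t] at h2
    have h3 : (fun z => ∑ e ∈ Q, (fun a => t / 2 * S.J a) e.1 * (fun a => t / 2 * S.J a) e.2 /
        (t ^ 2 / 4 * W) * S.P t (z - (e.1 + e.2))) =
        fun z => ∑ e ∈ Q, S.J e.1 * S.J e.2 / W * S.P t (z - (e.1 + e.2)) := by
      funext z
      refine sum_congr rfl fun e _ => ?_
      have : (fun a => t / 2 * S.J a) e.1 * (fun a => t / 2 * S.J a) e.2 / (t ^ 2 / 4 * W) =
          S.J e.1 * S.J e.2 / W := by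
        show t / 2 * S.J e.1 * (t / 2 * S.J e.2) / (t ^ 2 / 4 * W) = S.J e.1 * S.J e.2 / W
        have := ht0.ne'
        have := hW0.ne'
        field_simp
        ring
      rw [this]
    rw [h3] at h2
    refine h2.trans (Real.log_le_log (by positivity) ?_)
    have h4 : (2 * (t / 2 * M1) + 1) / (t ^ 2 / 4 * W) ≤ v / t ^ 2 := by
      rw [hv, div_div, div_le_div_iff₀ (by positivity) (by positivity)]
      have h5 : t * M1 + 1 ≤ 2 * M1 := by nlinarith [ht.2]
      have h6 : 0 ≤ W * t ^ 2 := by positivity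
      calc (2 * (t / 2 * M1) + 1) * (W * t ^ 2) = (t * M1 + 1) * (W * t ^ 2) := by ring
        _ ≤ (2 * M1) * (W * t ^ 2) := mul_le_mul_of_nonneg_right h5 h6
        _ = 8 * M1 * (t ^ 2 / 4 * W) := by ring
    linarith
  -- the average of g
  have hav : S.l - 1 / b ≤ av g := by
    have h1 : av g = ∑ e ∈ Q, S.J e.1 * S.J e.2 / W * av (F e) - k := by
      have h0 := av_sum Q (fun e t => S.J e.1 * S.J e.2 / W * F e t)
        (fun e _ => continuousOn_const.mul (hFc e))
      simp only [av_const_mul] at h0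
      rw [hg, av_sub hhc continuousOn_const, av_const, hh, h0]
    have h2 : S.l - (b ^ 10)⁻¹ - 3 * T * (2 / b ^ 240) ≤
        ∑ e ∈ Q, S.J e.1 * S.J e.2 / W * av (F e) := by
      have h3 : ∑ e ∈ Q, S.J e.1 * S.J e.2 / W * (S.l - (b ^ 10)⁻¹ - 3 * T * (2 / b ^ 240)) ≤
          ∑ e ∈ Q, S.J e.1 * S.J e.2 / W * av (F e) := by
        refine sum_le_sum fun e he => mul_le_mul_of_nonneg_left ?_ (hw0 e he)
        obtain ⟨g1, g2, g3, g4, g5⟩ := huw e he
        have c1 := S.cont_Dd ((uw e).1 + (uw e).2)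
        have c2 := S.cont_Dd ((uw e).1 + (uw e).2 - c)
        have c3 := S.cont_hh ((uw e).1 + (uw e).2 - (e.1 + e.2))
        have h4 : av (F e) = av (fun t => S.Dd t ((uw e).1 + (uw e).2)) -
            av (fun t => S.Dd t ((uw e).1 + (uw e).2 - c)) -
            3 * T * av (fun t => S.hh t ((uw e).1 + (uw e).2 - (e.1 + e.2))) := by
          have c4 : ContinuousOn (fun t => 3 * T * S.hh t ((uw e).1 + (uw e).2 - (e.1 + e.2)))
            (Set.Icc 0 1) := continuousOn_const.mul c3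
          have c5 : ContinuousOn (fun t => S.Dd t ((uw e).1 + (uw e).2) -
            S.Dd t ((uw e).1 + (uw e).2 - c)) (Set.Icc 0 1) := c1.sub c2
          simp only [hF]
          rw [av_sub c5 c4, av_sub c1 c2, av_const_mul]
        rw [h4]
        have h5 := S.near hB1 (hQ e he).1 g3 g4
        have h6 := S.av_Dd_le g5
        have h7 : av (fun t => S.hh t ((uw e).1 + (uw e).2 - (e.1 + e.2))) ≤ 2 / b ^ 240 := by
          refine (S.av_hh_le _).trans ?_
          rw [show (uw e).1 + (uw e).2 - (e.1 + e.2) = ((uw e).1 - e.1) + ((uw e).2 - e.2) by abel]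
          refine (S.dist_add _ _).trans ?_
          have h8 : S.dist ((uw e).1 - e.1) ≤ 1 / b ^ 240 := by
            rw [le_div_iff₀ (by positivity)]
            exact g3
          have h9 : S.dist ((uw e).2 - e.2) ≤ 1 / b ^ 240 := by
            rw [le_div_iff₀ (by positivity)]
            exact g4
          have h10 : 2 / b ^ 240 = 1 / b ^ 240 + 1 / b ^ 240 := by ring
          linarith
        have h11 := mul_le_mul_of_nonneg_left h7 (show (0 : ℝ) ≤ 3 * T by linarith)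
        linarith
      rw [← sum_mul, hw1, one_mul] at h3
      exact h3
    rw [h1]
    have h3 := light_num hl hB1
    rw [hT] at h2
    rw [hk, hT]
    linarith
  have hbl : 1 / b ≤ S.l / 2 := by
    rw [div_le_div_iff₀ hbp (by norm_num)]
    linarith
  have hb100 : 1 / b ≤ 1 / 100 := one_div_le_one_div_of_le (by norm_num) (by linarith)
  refine light_end hl hW0 hM1 hv ?_ ?_
  · have h1 := av_le_log (f := g) hgc (c := Real.log (1 + v)) (b := 2) zero_le_two ?_
    · linarith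
    · intro t ht
      refine (hchi t ht).trans ?_
      have ht0 := ht.1
      have h2 : 1 + v / t ^ 2 ≤ (1 + v) / t ^ 2 := by
        rw [le_div_iff₀ (by positivity)]
        have h3 : (1 + v / t ^ 2) * t ^ 2 = t ^ 2 + v := by
          have := ht.1.ne'
          field_simp
        rw [h3]
        nlinarith [ht.2]
      have h4 := Real.log_le_log (by positivity) h2
      rw [Real.log_div (by positivity) (by positivity), Real.log_pow] at h4
      push_cast at h4
      linarith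
  · have h1 := av_le_inv (f := g) hgc (c := √v) ?_
    · linarith
    · intro t ht
      refine (hchi t ht).trans ?_
      have ht0 := ht.1
      have h2 := log_one_add_sq_le (y := √v / t) (by positivity)
      rwa [div_pow, Real.sq_sqrt hv0.le] at h2

end SD

end Pool.MPbe0380
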