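import Pool.Agent.Lib.MP_be0380_co.S.Basic
import Pool.Agent.Lib.MP_be0380_co.S.Cut

/-!
# be0380 S.Near: (6.10)

PROOF. `T = B^120`, `f_t = cut T (log (tau (x+y) P_t / P_t))`: `Dd t (u+w) + e^(-T) ≥ ∑ tau (u+w) P_t f_t` (`cut_dv`)
`≥ ∑ tau (x+y) P_t f_t - 3 T hh t ((u-x)+(w-y))` (`hel_tv`, `hel_tau_tau`) `≥ Dd t (x+y) - 1600 (1+l)^2/T - 3 T hh t (..)`
(`cut_exc`, `exc_P2`, `x, y ∈ A`). Average, `dist ((u-x)+(w-y)) ≤ 2 B^(-240)`: error
`≤ 1600 (1+l)^2 B^(-120) + 6 B^(-120) + e^(-T)`, plus `B^(-15)`: total `≤ B^(-10)`.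
-/

set_option autoImplicit false

open Finset

namespace Pool.MPbe0380

namespace SD

variable {p : ℕ} [Fact p.Prime] (S : SD p)

/-- the pointwise inequality of (6.10) -/
private theorem near_pointwise {t : ℝ} (ht : 0 ≤ t) {x y u w : ZMod p} (hx : x ∈ S.A) (hy : y ∈ S.A)
    {T : ℝ} (hT : 6 ≤ T) :
    S.Dd t (x + y) - 1600 * (1 + S.l) ^ 2 / T - 3 * T * S.hh t ((u - x) + (w - y)) - Real.exp (-T) ≤
      S.Dd t (u + w) := by
  have hT0 : 0 ≤ T := by linarith
  have hP := S.P_law ht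
  have hP0 := S.P_pos ht
  have h1 := cut_dv (hP.tau (u + w)) (hP.tau (x + y)) hP (fun z => hP0 _) hP0 T hT0
  have h2 := cut_exc (Q := S.P t) (hP.tau (x + y)) T
  have h3 := hel_tv (hP.tau (x + y)) (hP.tau (u + w))
    (f := fun z => cut T (Real.log (tau (x + y) (S.P t) z / S.P t z))) (T := T)
    (fun z => cut_abs hT0 _)
  have h4 : hel (tau (x + y) (S.P t)) (tau (u + w) (S.P t)) = S.hh t ((u - x) + (w - y)) := by
    rw [hel_tau_tau]
    unfold hh
    congr 2
    abel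
  have h5 := S.exc_P2 ht hx hy hT
  unfold exc at h5
  rw [h4] at h3
  have h6 := (abs_le.mp h3).2
  unfold Dd
  linarith

theorem near {B : ℕ} (hB1 : 1000 * (1 + S.l) ≤ B) {x y : ZMod p} (hxy : S.GP B x y) {u w : ZMod p}
    (hu : S.Nr B u x) (hw : S.Nr B w y) :
    2 * S.l - ((B : ℝ) ^ 10)⁻¹ ≤ av (fun t => S.Dd t (u + w)) := by
  have hl := S.l_pos
  set b : ℝ := (B : ℝ) with hb
  have hb1000 : 1000 ≤ b := by linarith
  have hb0 : 0 < b := by linarith
  have hb1 : 1 ≤ b := by linarith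
  have hx := S.mem_A hxy.1
  have hy := S.mem_A hxy.2.1
  have hTb : b ≤ b ^ 120 := by
    calc b = b ^ 1 := (pow_one b).symm
      _ ≤ b ^ 120 := pow_le_pow_right₀ hb1 (by norm_num)
  have hT6 : 6 ≤ b ^ 120 := by linarith
  set g := (u - x) + (w - y) with hg
  -- the distance
  have hd : S.dist g * b ^ 240 ≤ 2 := by
    have h1 := S.dist_add (u - x) (w - y)
    have h2 : S.dist (u - x) * b ^ 240 ≤ 1 := hu
    have h3 : S.dist (w - y) * b ^ 240 ≤ 1 := hw
    have h4 : 0 ≤ b ^ 240 := by positivity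
    calc S.dist g * b ^ 240 ≤ (S.dist (u - x) + S.dist (w - y)) * b ^ 240 :=
          mul_le_mul_of_nonneg_right h1 h4
      _ ≤ 2 := by linarith
  have hav : b ^ 120 * av (fun t => S.hh t g) ≤ 2 / b ^ 120 := by
    have h1 := S.av_hh_le g
    rw [le_div_iff₀ (by positivity)]
    have h2 : b ^ 120 * av (fun t => S.hh t g) * b ^ 120 = av (fun t => S.hh t g) * b ^ 240 := by ring
    rw [h2]
    exact (mul_le_mul_of_nonneg_right h1 (by positivity)).trans hd
  -- average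
  have hm : av (fun t => S.Dd t (x + y) - (1600 * (1 + S.l) ^ 2 / b ^ 120 + Real.exp (-b ^ 120)) -
      3 * b ^ 120 * S.hh t g) ≤ av (fun t => S.Dd t (u + w)) := by
    refine av_mono ?_ (S.cont_Dd (u + w)) ?_
    · exact ((S.cont_Dd (x + y)).sub continuousOn_const).sub
        (continuousOn_const.mul (S.cont_hh g))
    · intro t ht
      have := S.near_pointwise ht.1 hx hy (u := u) (w := w) hT6
      linarith
  rw [av_sub (f := fun t => S.Dd t (x + y) - (1600 * (1 + S.l) ^ 2 / b ^ 120 + Real.exp (-b ^ 120)))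
      (g := fun t => 3 * b ^ 120 * S.hh t g) ((S.cont_Dd (x + y)).sub continuousOn_const)
      (continuousOn_const.mul (S.cont_hh g)),
    av_sub (f := fun t => S.Dd t (x + y))
      (g := fun _ => 1600 * (1 + S.l) ^ 2 / b ^ 120 + Real.exp (-b ^ 120))
      (S.cont_Dd (x + y)) continuousOn_const, av_const, av_const_mul] at hm
  have hGP : 2 * S.l - (b ^ 15)⁻¹ ≤ av (fun t => S.Dd t (x + y)) := hxy.2.2
  -- numbers
  have e1 : (b ^ 15)⁻¹ ≤ (b ^ 10)⁻¹ / 4 := by
    rw [← one_div, ← one_div, div_div, div_le_div_iff₀ (by positivity) (by positivity)]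
    have : b ^ 15 = b ^ 10 * b ^ 5 := by ring
    have h5 : 4 ≤ b ^ 5 := by
      calc (4 : ℝ) ≤ b := by linarith
        _ = b ^ 1 := (pow_one b).symm
        _ ≤ b ^ 5 := pow_le_pow_right₀ hb1 (by norm_num)
    rw [this, one_mul, one_mul]
    exact mul_le_mul_of_nonneg_left h5 (by positivity)
  have e2 : 1600 * (1 + S.l) ^ 2 / b ^ 120 ≤ (b ^ 10)⁻¹ / 4 := by
    have h1 : 1600 * (1 + S.l) ^ 2 ≤ b ^ 2 := by nlinarith
    rw [← one_div, div_div, div_le_div_iff₀ (by positivity) (by positivity), one_mul]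
    have h2 : (4 : ℝ) ≤ b ^ 108 := by
      calc (4 : ℝ) ≤ b := by linarith
        _ = b ^ 1 := (pow_one b).symm
        _ ≤ b ^ 108 := pow_le_pow_right₀ hb1 (by norm_num)
    calc 1600 * (1 + S.l) ^ 2 * (b ^ 10 * 4) ≤ b ^ 2 * (b ^ 10 * 4) :=
          mul_le_mul_of_nonneg_right h1 (by positivity)
      _ ≤ b ^ 2 * (b ^ 10 * b ^ 108) := by
          refine mul_le_mul_of_nonneg_left ?_ (by positivity)
          exact mul_le_mul_of_nonneg_left h2 (by positivity)
      _ = b ^ 120 := by ring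
  have e3 : 1 / b ^ 120 ≤ (b ^ 10)⁻¹ / 100 := by
    rw [← one_div, div_div, div_le_div_iff₀ (by positivity) (by positivity), one_mul, one_mul]
    have h2 : (100 : ℝ) ≤ b ^ 110 := by
      calc (100 : ℝ) ≤ b := by linarith
        _ = b ^ 1 := (pow_one b).symm
        _ ≤ b ^ 110 := pow_le_pow_right₀ hb1 (by norm_num)
    calc b ^ 10 * 100 ≤ b ^ 10 * b ^ 110 := mul_le_mul_of_nonneg_left h2 (by positivity)
      _ = b ^ 120 := by ring
  have e4 : Real.exp (-b ^ 120) ≤ 1 / b ^ 120 := by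
    rw [Real.exp_neg, ← one_div]
    refine one_div_le_one_div_of_le (by positivity) ?_
    have := Real.add_one_le_exp (b ^ 120)
    linarith
  have e5 : 2 / b ^ 120 = 2 * (1 / b ^ 120) := by ring
  have e6 : 0 < (b ^ 10)⁻¹ := by positivity
  rw [e5] at hav
  have e7 : 3 * b ^ 120 * av (fun t => S.hh t g) = 3 * (b ^ 120 * av (fun t => S.hh t g)) := by ring
  rw [e7] at hm
  linarith

end SD

end Pool.MPbe0380
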