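import Pool.Agent.Lib.MP_be0380_co.S.Basic
import Pool.Agent.Lib.MP_be0380_co.S.Chaos
import Pool.Agent.Lib.MP_be0380_co.S.Cut

/-!
# be0380 S.Pairs: (6.9)

PROOF. Fix `y`, `T = B^20`, `η = e^(-2T)`. For `x` with `J x > 0`, `t ∈ [0,1]`, `mu = tau (x+y) P`, `nu = (1-η) tau y P + η P`
(`P = P t`): `Dd t (x+y) = KL mu nu + ∑ mu log (nu / P)`. `f z = cut T (log (tau x P (z - y) / P (z - y)))`
`= cut T (log (mu z / tau y P z))`: `e^f ≤ mu/tau y P + e^(-T)`, `e^f ≤ e^T`, so `∑ nu e^f ≤ 1 + e^(-T) + η e^T = 1 + 2 e^(-T)`,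
`KL mu nu ≥ ∑ mu f - 2 e^(-T)` (`dv`), `∑ mu f ≥ Dd t x - 64 (1+l)^2/T` (`cut_exc`, `exc_P1'`).
`F s = min (log ((1-η) r (s+y) + η)) T`, `r = tau y P / P`; `|F| ≤ 2T`; `log (nu/P) (s + x + y) ≥ F (s + x)`:
`∑ mu log (nu/P) ≥ ∑_s P s F (s + x) = E F + Δ_t(x)`, `E F = ∑ P s F s ≥ Dd t y - 64 (1+l)^2/T - 2 η`
(`log ((1-η) r + η) ≥ log r - 2 η`; `min (log r - 2η) T ≥ log r - 2η - max (log r - T) 0`, under `tau y P`). By `chaos_a` with `I = t J`:
`∑_x t J x Δ_t(x)^2 ≤ 4 T^2`, so `∑_x J x av (Δ^2) ≤ 8 T^2` (`av_sum`), `(av |Δ|)^2 ≤ av Δ^2`. The `x` with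
`av |Δ(x)| > B^(-20)` have weight `≤ 8 T^2 B^40 = 8 B^80`; for the others
`av (Dd (x+y)) ≥ 2 l - 128 (1+l)^2 B^(-20) - 4 e^(-T) - B^(-20) ≥ 2 l - B^(-15)`.
-/

set_option autoImplicit false

open Finset

namespace Pool.MPbe0380

section core

variable {G : Type} [AddCommGroup G] [Fintype G]

/-- the test function `F` -/
private noncomputable def pairsF (P : G → ℝ) (y : G) (T : ℝ) (s : G) : ℝ :=
  min (Real.log ((1 - Real.exp (-(2 * T))) * (P s / P (s + y)) + Real.exp (-(2 * T)))) T

omit [Fintype G] in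
private theorem pairsF_abs {P : G → ℝ} (hP0 : ∀ z, 0 < P z) (y : G) {T : ℝ} (hT : 1 ≤ T) (s : G) :
    |pairsF P y T s| ≤ 2 * T := by
  have hη : 0 < Real.exp (-(2 * T)) := Real.exp_pos _
  have hη1 : Real.exp (-(2 * T)) ≤ 1 := Real.exp_le_one_iff.mpr (by linarith)
  have hr : 0 < P s / P (s + y) := div_pos (hP0 _) (hP0 _)
  unfold pairsF
  rw [abs_le]
  constructor
  · apply le_min
    · have h1 : Real.exp (-(2 * T)) ≤
          (1 - Real.exp (-(2 * T))) * (P s / P (s + y)) + Real.exp (-(2 * T)) := by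
        have : 0 ≤ (1 - Real.exp (-(2 * T))) * (P s / P (s + y)) :=
          mul_nonneg (by linarith) hr.le
        linarith
      have h2 := Real.log_le_log hη h1
      rw [Real.log_exp] at h2
      linarith
    · linarith
  · exact (min_le_right _ _).trans (by linarith)

private theorem pairs_cut_sum (P : G → ℝ) (x y : G) (T : ℝ) :
    ∑ z, tau (x + y) P z * cut T (Real.log (tau (x + y) P z / tau y P z)) =
      ∑ z, tau x P z * cut T (Real.log (tau x P z / P z)) := by
  refine Fintype.sum_equiv (Equiv.subRight y) _ _ fun z => ?_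
  rw [Equiv.subRight_apply]
  have h1 : tau (x + y) P z = tau x P (z - y) := by
    rw [tau_apply, tau_apply]
    congr 1
    abel
  rw [h1]
  rfl

/-- `KL mu nu ≥ D(x) - exc - 2 e^(-T)` -/
private theorem pairs_first {P : G → ℝ} (hP : IsLaw P) (hP0 : ∀ z, 0 < P z) (x y : G) {T : ℝ}
    (hT : 1 ≤ T) :
    KL (tau x P) P - exc x P T - 2 * Real.exp (-T) ≤
      KL (tau (x + y) P) (fun z => (1 - Real.exp (-(2 * T))) * tau y P z +
        Real.exp (-(2 * T)) * P z) := by
  have hη : 0 < Real.exp (-(2 * T)) := Real.exp_pos _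
  have hη1 : Real.exp (-(2 * T)) ≤ 1 := Real.exp_le_one_iff.mpr (by linarith)
  set η := Real.exp (-(2 * T)) with hηdef
  set nu : G → ℝ := fun z => (1 - η) * tau y P z + η * P z with hnu
  have hnu0 : ∀ z, 0 < nu z := by
    intro z
    have h1 : 0 ≤ (1 - η) * tau y P z := mul_nonneg (by linarith) (hP0 _).le
    have h2 : 0 < η * P z := mul_pos hη (hP0 z)
    show 0 < (1 - η) * tau y P z + η * P z
    linarith
  have hnuL : IsLaw nu := by
    refine ⟨fun z => (hnu0 z).le, ?_⟩
    rw [hnu, sum_add_distrib, ← mul_sum, ← mul_sum, sum_tau, hP.2]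
    ring
  set f : G → ℝ := fun z => cut T (Real.log (tau (x + y) P z / tau y P z)) with hf
  have h1 := dv (hP.tau (x + y)) hnuL (fun z hz => absurd hz (hnu0 z).ne') f
  have h2 : ∑ z, nu z * Real.exp (f z) ≤ 1 + 2 * Real.exp (-T) := by
    have h3 : ∀ z, nu z * Real.exp (f z) ≤
        tau (x + y) P z + Real.exp (-T) * tau y P z + Real.exp (-T) * P z := by
      intro z
      have hm : 0 < tau (x + y) P z := hP0 _
      have hy : 0 < tau y P z := hP0 _
      have h4 : Real.exp (f z) ≤ tau (x + y) P z / tau y P z + Real.exp (-T) := by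
        have hq : 0 < tau (x + y) P z / tau y P z := div_pos hm hy
        show Real.exp (cut T (Real.log (tau (x + y) P z / tau y P z))) ≤ _
        unfold cut
        rcases le_total (-T) (min (Real.log (tau (x + y) P z / tau y P z)) T) with h5 | h5
        · rw [max_eq_right h5]
          have h6 : Real.exp (min (Real.log (tau (x + y) P z / tau y P z)) T) ≤
              Real.exp (Real.log (tau (x + y) P z / tau y P z)) :=
            Real.exp_le_exp.mpr (min_le_left _ _)
          rw [Real.exp_log hq] at h6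
          have := Real.exp_pos (-T)
          linarith
        · rw [max_eq_left h5]
          linarith
      have h7 : Real.exp (f z) ≤ Real.exp T := by
        apply Real.exp_le_exp.mpr
        show cut T (Real.log (tau (x + y) P z / tau y P z)) ≤ T
        unfold cut
        exact max_le (by linarith) (min_le_right _ _)
      have h8 : (1 - η) * tau y P z * Real.exp (f z) ≤ tau (x + y) P z + Real.exp (-T) * tau y P z := by
        have h9 : (1 - η) * tau y P z * Real.exp (f z) ≤ tau y P z * Real.exp (f z) := by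
          refine mul_le_mul_of_nonneg_right ?_ (Real.exp_pos _).le
          have : (1 - η) * tau y P z ≤ 1 * tau y P z := mul_le_mul_of_nonneg_right (by linarith) hy.le
          linarith
        have h10 : tau y P z * Real.exp (f z) ≤
            tau y P z * (tau (x + y) P z / tau y P z + Real.exp (-T)) :=
          mul_le_mul_of_nonneg_left h4 hy.le
        have h11 : tau y P z * (tau (x + y) P z / tau y P z + Real.exp (-T)) =
            tau (x + y) P z + Real.exp (-T) * tau y P z := by
          field_simp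
        linarith
      have h12 : η * P z * Real.exp (f z) ≤ Real.exp (-T) * P z := by
        have h13 : η * P z * Real.exp (f z) ≤ η * P z * Real.exp T :=
          mul_le_mul_of_nonneg_left h7 (mul_pos hη (hP0 z)).le
        have h14 : η * Real.exp T = Real.exp (-T) := by
          rw [hηdef, ← Real.exp_add]
          congr 1
          ring
        calc η * P z * Real.exp (f z) ≤ η * P z * Real.exp T := h13
          _ = (η * Real.exp T) * P z := by ring
          _ = Real.exp (-T) * P z := by rw [h14]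
      have h15 : nu z * Real.exp (f z) = (1 - η) * tau y P z * Real.exp (f z) +
          η * P z * Real.exp (f z) := by
        show ((1 - η) * tau y P z + η * P z) * Real.exp (f z) = _
        ring
      rw [h15]
      linarith
    refine (sum_le_sum fun z _ => h3 z).trans (le_of_eq ?_)
    rw [sum_add_distrib, sum_add_distrib, ← mul_sum, ← mul_sum, sum_tau, sum_tau, hP.2]
    ring
  have h3 : Real.log (∑ z, nu z * Real.exp (f z)) ≤ 2 * Real.exp (-T) := by
    have h4 : 0 < ∑ z, nu z * Real.exp (f z) :=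
      sum_pos (fun z _ => mul_pos (hnu0 z) (Real.exp_pos _)) ⟨0, mem_univ _⟩
    have h5 := Real.log_le_sub_one_of_pos h4
    linarith
  have h4 : ∑ z, tau (x + y) P z * f z = ∑ z, tau x P z * cut T (Real.log (tau x P z / P z)) :=
    pairs_cut_sum P x y T
  have h5 := cut_exc (Q := P) (hP.tau x) T
  unfold exc
  linarith

/-- `KL (tau y P) P - exc - 2 e^(-T) ≤ E F` -/
private theorem pairs_second {P : G → ℝ} (hP : IsLaw P) (hP0 : ∀ z, 0 < P z) (y : G) {T : ℝ}
    (hT : 1 ≤ T) :
    KL (tau y P) P - exc y P T - 2 * Real.exp (-T) ≤ ∑ s, P s * pairsF P y T s := by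
  have hη : 0 < Real.exp (-(2 * T)) := Real.exp_pos _
  have hηT : Real.exp (-(2 * T)) ≤ Real.exp (-T) := Real.exp_le_exp.mpr (by linarith)
  have hη2 : Real.exp (-(2 * T)) ≤ 1 / 2 := by
    have h1 : Real.exp (-(2 * T)) ≤ Real.exp (-1) := Real.exp_le_exp.mpr (by linarith)
    have h2 : Real.exp (-1) ≤ 1 / 2 := by
      rw [Real.exp_neg, ← one_div]
      refine one_div_le_one_div_of_le (by norm_num) ?_
      have := Real.add_one_le_exp (1 : ℝ)
      linarith
    linarith
  have h1 : ∑ s, P s * pairsF P y T s = ∑ z, tau y P z *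
      min (Real.log ((1 - Real.exp (-(2 * T))) * (tau y P z / P z) + Real.exp (-(2 * T)))) T := by
    refine Fintype.sum_equiv (Equiv.addRight y) _ _ fun s => ?_
    rw [Equiv.coe_addRight, tau_apply, add_sub_cancel_right]
    rfl
  rw [h1]
  set η := Real.exp (-(2 * T)) with hηdef
  have hlog : -(2 * η) ≤ Real.log (1 - η) := by
    have h2 : Real.log ((1 - η)⁻¹) ≤ (1 - η)⁻¹ - 1 :=
      Real.log_le_sub_one_of_pos (inv_pos.mpr (by linarith))
    rw [Real.log_inv] at h2
    have h3 : (1 - η)⁻¹ ≤ 1 + 2 * η := by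
      rw [inv_le_iff_one_le_mul₀ (by linarith)]
      nlinarith
    linarith
  have h2 : ∀ z, tau y P z * Real.log (tau y P z / P z) -
      tau y P z * max (Real.log (tau y P z / P z) - T) 0 - tau y P z * (2 * η) ≤
      tau y P z * min (Real.log ((1 - η) * (tau y P z / P z) + η)) T := by
    intro z
    have ht : 0 < tau y P z := hP0 _
    have hr : 0 < tau y P z / P z := div_pos ht (hP0 z)
    have h3 : Real.log (tau y P z / P z) - 2 * η ≤ Real.log ((1 - η) * (tau y P z / P z) + η) := by
      have h4 : Real.log ((1 - η) * (tau y P z / P z)) ≤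
          Real.log ((1 - η) * (tau y P z / P z) + η) :=
        Real.log_le_log (mul_pos (by linarith) hr) (by linarith)
      have h5 : (1 - η) ≠ 0 := by linarith
      rw [Real.log_mul h5 hr.ne'] at h4
      linarith
    have h4 : Real.log (tau y P z / P z) - max (Real.log (tau y P z / P z) - T) 0 - 2 * η ≤
        min (Real.log ((1 - η) * (tau y P z / P z) + η)) T := by
      have h5 := le_max_left (Real.log (tau y P z / P z) - T) 0
      have h6 := le_max_right (Real.log (tau y P z / P z) - T) 0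
      apply le_min
      · linarith
      · linarith
    have h5 := mul_le_mul_of_nonneg_left h4 ht.le
    linarith
  have h3 := sum_le_sum (s := univ) fun z _ => h2 z
  rw [sum_sub_distrib, sum_sub_distrib, ← sum_mul, sum_tau, hP.2] at h3
  unfold exc KL
  linarith

/-- the core inequality of (6.9) -/
private theorem pairs_core {P : G → ℝ} (hP : IsLaw P) (hP0 : ∀ z, 0 < P z) (x y : G) {T : ℝ}
    (hT : 1 ≤ T) :
    (KL (tau x P) P - exc x P T) + (KL (tau y P) P - exc y P T) +
      (∑ z, P z * pairsF P y T (z + x) - ∑ z, P z * pairsF P y T z) - 4 * Real.exp (-T) ≤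
      KL (tau (x + y) P) P := by
  have hη : 0 < Real.exp (-(2 * T)) := Real.exp_pos _
  have hη1 : Real.exp (-(2 * T)) ≤ 1 := Real.exp_le_one_iff.mpr (by linarith)
  have a1 := pairs_first hP hP0 x y hT
  have a2 := pairs_second hP hP0 y hT
  set η := Real.exp (-(2 * T)) with hηdef
  set nu : G → ℝ := fun z => (1 - η) * tau y P z + η * P z with hnu
  have hnu0 : ∀ z, 0 < nu z := by
    intro z
    have h1 : 0 ≤ (1 - η) * tau y P z := mul_nonneg (by linarith) (hP0 _).le
    have h2 : 0 < η * P z := mul_pos hη (hP0 z)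
    show 0 < (1 - η) * tau y P z + η * P z
    linarith
  -- split of the relative entropy
  have h1 : KL (tau (x + y) P) P = KL (tau (x + y) P) nu +
      ∑ z, tau (x + y) P z * Real.log (nu z / P z) := by
    unfold KL
    rw [← sum_add_distrib]
    refine sum_congr rfl fun z _ => ?_
    have hm : 0 < tau (x + y) P z := hP0 _
    rw [← mul_add, ← Real.log_mul (div_pos hm (hnu0 z)).ne' (div_pos (hnu0 z) (hP0 z)).ne']
    congr 2
    have b1 := (hnu0 z).ne'
    have b2 := (hP0 z).ne'
    field_simp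
  -- the second part
  have h2 : ∑ z, P z * pairsF P y T (z + x) ≤ ∑ z, tau (x + y) P z * Real.log (nu z / P z) := by
    have h3 : ∑ z, tau (x + y) P z * Real.log (nu z / P z) =
        ∑ s, P s * Real.log (nu (s + (x + y)) / P (s + (x + y))) := by
      refine Fintype.sum_equiv (Equiv.subRight (x + y)) _ _ fun z => ?_
      rw [Equiv.subRight_apply, tau_apply, sub_add_cancel]
    rw [h3]
    refine sum_le_sum fun s _ => mul_le_mul_of_nonneg_left ?_ (hP0 s).le
    have h4 : nu (s + (x + y)) / P (s + (x + y)) =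
        (1 - η) * (P (s + x) / P (s + x + y)) + η := by
      have h5 : s + (x + y) = s + x + y := by abel
      have h6 : nu (s + x + y) = (1 - η) * P (s + x) + η * P (s + x + y) := by
        show (1 - η) * tau y P (s + x + y) + η * P (s + x + y) = _
        rw [tau_apply, add_sub_cancel_right]
      rw [h5, h6]
      have := (hP0 (s + x + y)).ne'
      field_simp
    rw [h4]
    exact min_le_left _ _
  linarith

end core

namespace SD

variable {p : ℕ} [Fact p.Prime] (S : SD p)

/-- the error term `Δ_t(x)` -/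
private noncomputable def pairsD (y : ZMod p) (T t : ℝ) (x : ZMod p) : ℝ :=
  ∑ z, S.P t z * pairsF (S.P t) y T (z + x) - ∑ z, S.P t z * pairsF (S.P t) y T z

private theorem pairs_contF {y : ZMod p} {T : ℝ} (hT : 1 ≤ T) (s : ZMod p) :
    ContinuousOn (fun t => pairsF (S.P t) y T s) (Set.Icc 0 1) := by
  have hη1 : Real.exp (-(2 * T)) ≤ 1 := Real.exp_le_one_iff.mpr (by linarith)
  unfold pairsF
  have h1 : ContinuousOn (fun t => S.P t s / S.P t (s + y)) (Set.Icc 0 1) :=
    (S.cont_P s).continuousOn.div (S.cont_P (s + y)).continuousOn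
      (fun t ht => (S.P_pos ht.1 _).ne')
  have h2 : ContinuousOn (fun t => (1 - Real.exp (-(2 * T))) * (S.P t s / S.P t (s + y)) +
      Real.exp (-(2 * T))) (Set.Icc 0 1) := (continuousOn_const.mul h1).add continuousOn_const
  refine ContinuousOn.inf (h2.log ?_) continuousOn_const
  intro t ht
  have h3 : 0 < S.P t s / S.P t (s + y) := div_pos (S.P_pos ht.1 _) (S.P_pos ht.1 _)
  have h4 : 0 ≤ (1 - Real.exp (-(2 * T))) * (S.P t s / S.P t (s + y)) :=
    mul_nonneg (by linarith) h3.le
  have h5 := Real.exp_pos (-(2 * T))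
  exact ne_of_gt (by linarith)

private theorem pairs_contD {y : ZMod p} {T : ℝ} (hT : 1 ≤ T) (x : ZMod p) :
    ContinuousOn (fun t => S.pairsD y T t x) (Set.Icc 0 1) := by
  unfold pairsD
  refine ContinuousOn.sub ?_ ?_
  · exact continuousOn_finset_sum _ fun z _ =>
      (S.cont_P z).continuousOn.mul (S.pairs_contF hT (z + x))
  · exact continuousOn_finset_sum _ fun z _ =>
      (S.cont_P z).continuousOn.mul (S.pairs_contF hT z)

private theorem pairs_chaos {y : ZMod p} {T : ℝ} (hT : 1 ≤ T) {t : ℝ} (ht : 0 < t) :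
    ∑ x, S.J x * S.pairsD y T t x ^ 2 ≤ 4 * T ^ 2 / t := by
  have hP := S.P_law ht.le
  have hP0 := S.P_pos ht.le
  have hI : ∀ a, 0 ≤ t * S.J a := fun a => mul_nonneg ht.le (S.J_nonneg a)
  have hq : IsLaw (po S.I0) := by
    refine po_law fun a => ?_
    have h1 := S.I2_nonneg a
    have h2 := S.J1_nonneg a
    show 0 ≤ 2 * (2 * S.I2 a + S.J1 a)
    linarith
  have hpos : ∀ z, 0 < cv (po (fun a => t * S.J a)) (po S.I0) z := by
    intro z
    rw [← S.P_eq]
    exact hP0 z
  have h1 := chaos_a hI hq hpos (pairsF (S.P t) y T)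
  rw [← S.P_eq] at h1
  have h2 : ∑ z, S.P t z * pairsF (S.P t) y T z ^ 2 ≤ 4 * T ^ 2 := by
    have h3 : ∀ z, S.P t z * pairsF (S.P t) y T z ^ 2 ≤ S.P t z * (4 * T ^ 2) := by
      intro z
      refine mul_le_mul_of_nonneg_left ?_ (hP0 z).le
      have h4 := pairsF_abs hP0 y hT z
      have h5 : pairsF (S.P t) y T z ^ 2 ≤ (2 * T) ^ 2 := sq_le_sq' (abs_le.mp h4).1 (abs_le.mp h4).2
      calc pairsF (S.P t) y T z ^ 2 ≤ (2 * T) ^ 2 := h5
        _ = 4 * T ^ 2 := by ring
    refine (sum_le_sum fun z _ => h3 z).trans (le_of_eq ?_)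
    rw [← sum_mul, hP.2, one_mul]
  rw [le_div_iff₀ ht, sum_mul]
  refine le_trans (le_of_eq ?_) (h1.trans h2)
  refine sum_congr rfl fun x _ => ?_
  unfold pairsD
  ring

open Classical in
theorem pairs {B : ℕ} (hB1 : 1000 * (1 + S.l) ≤ B) {y : ZMod p} (hy : 0 < S.J y) :
    ∑ x ∈ univ.filter (fun x => 0 < S.J x ∧ ¬ S.GP B x y), S.J x ≤ 8 * (B : ℝ) ^ 80 := by
  have hl := S.l_pos
  set b : ℝ := (B : ℝ) with hb
  have hb1000 : 1000 ≤ b := by linarith
  have hb0 : 0 < b := by linarith
  have hb1 : 1 ≤ b := by linarith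
  have hyA := S.mem_A hy
  set T : ℝ := b ^ 20 with hTdef
  have hTb : b ≤ T := by
    calc b = b ^ 1 := (pow_one b).symm
      _ ≤ b ^ 20 := pow_le_pow_right₀ hb1 (by norm_num)
  have hT1 : 1 ≤ T := by linarith
  have hT4 : 4 ≤ T := by linarith
  have hT0 : 0 < T := by linarith
  -- total of the squares
  have htot : ∑ x, S.J x * av (fun t => S.pairsD y T t x ^ 2) ≤ 8 * T ^ 2 := by
    have hc : ∀ x ∈ (univ : Finset (ZMod p)),
        ContinuousOn (fun t => S.J x * S.pairsD y T t x ^ 2) (Set.Icc 0 1) :=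
      fun x _ => continuousOn_const.mul ((S.pairs_contD hT1 x).pow 2)
    have h1 : ∑ x, S.J x * av (fun t => S.pairsD y T t x ^ 2) =
        av (fun t => ∑ x, S.J x * S.pairsD y T t x ^ 2) := by
      rw [av_sum univ (fun x t => S.J x * S.pairsD y T t x ^ 2) hc]
      refine sum_congr rfl fun x _ => ?_
      rw [av_const_mul]
    rw [h1]
    have h2 := av_le_inv (f := fun t => ∑ x, S.J x * S.pairsD y T t x ^ 2) (c := 4 * T ^ 2)
      (continuousOn_finset_sum _ hc) (fun t ht => S.pairs_chaos hT1 ht.1)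
    linarith
  -- a bad x has a large square
  have hbad : ∀ x ∈ univ.filter (fun x => 0 < S.J x ∧ ¬ S.GP B x y),
      1 ≤ b ^ 40 * av (fun t => S.pairsD y T t x ^ 2) := by
    intro x hx
    obtain ⟨hxJ, hxG⟩ := (mem_filter.mp hx).2
    by_contra hcon
    push Not at hcon
    apply hxG
    refine ⟨hxJ, hy, ?_⟩
    have hxA := S.mem_A hxJ
    -- average of Δ
    have h1 : -(b ^ 20)⁻¹ ≤ av (fun t => S.pairsD y T t x) := by
      have h2 := av_sq (S.pairs_contD hT1 x (y := y))
      have h3 : av (fun t => S.pairsD y T t x) ^ 2 ≤ ((b ^ 20)⁻¹) ^ 2 := by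
        refine h2.trans ?_
        have h4 : ((b ^ 20)⁻¹) ^ 2 = (b ^ 40)⁻¹ := by
          rw [inv_pow, ← pow_mul]
        rw [h4, ← one_div, le_div_iff₀ (by positivity), mul_comm]
        exact hcon.le
      exact (abs_le_of_sq_le_sq' h3 (by positivity)).1
    have hm : av (fun t => (S.Dd t x + S.Dd t y + S.pairsD y T t x) -
        (128 * (1 + S.l) ^ 2 / T + 4 * Real.exp (-T))) ≤ av (fun t => S.Dd t (x + y)) := by
      refine av_mono ?_ (S.cont_Dd _) ?_
      · exact (((S.cont_Dd x).add (S.cont_Dd y)).add (S.pairs_contD hT1 x)).sub continuousOn_const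
      · intro t ht
        have h2 := pairs_core (S.P_law ht.1) (S.P_pos ht.1) x y hT1
        have h3 := S.exc_P1' ht.1 hxA hT4
        have h4 := S.exc_P1' ht.1 hyA hT4
        have h5 : 128 * (1 + S.l) ^ 2 / T = 64 * (1 + S.l) ^ 2 / T + 64 * (1 + S.l) ^ 2 / T := by
          ring
        rw [h5]
        unfold pairsD Dd
        linarith
    rw [av_sub (f := fun t => S.Dd t x + S.Dd t y + S.pairsD y T t x)
        (g := fun _ => 128 * (1 + S.l) ^ 2 / T + 4 * Real.exp (-T))
        (((S.cont_Dd x).add (S.cont_Dd y)).add (S.pairs_contD hT1 x)) continuousOn_const,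
      av_add (f := fun t => S.Dd t x + S.Dd t y) (g := fun t => S.pairsD y T t x)
        ((S.cont_Dd x).add (S.cont_Dd y)) (S.pairs_contD hT1 x),
      av_add (f := fun t => S.Dd t x) (g := fun t => S.Dd t y) (S.cont_Dd x) (S.cont_Dd y),
      av_const, S.av_Dd_eq hxJ, S.av_Dd_eq hy] at hm
    -- numbers
    have e2 : 128 * (1 + S.l) ^ 2 / T ≤ (b ^ 15)⁻¹ / 4 := by
      have h1 : 128 * (1 + S.l) ^ 2 ≤ b ^ 2 := by nlinarith
      rw [← one_div, div_div, div_le_div_iff₀ hT0 (by positivity), one_mul, hTdef]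
      have h2 : (4 : ℝ) ≤ b ^ 3 := by
        calc (4 : ℝ) ≤ b := by linarith
          _ = b ^ 1 := (pow_one b).symm
          _ ≤ b ^ 3 := pow_le_pow_right₀ hb1 (by norm_num)
      calc 128 * (1 + S.l) ^ 2 * (b ^ 15 * 4) ≤ b ^ 2 * (b ^ 15 * 4) :=
            mul_le_mul_of_nonneg_right h1 (by positivity)
        _ ≤ b ^ 2 * (b ^ 15 * b ^ 3) := by
            refine mul_le_mul_of_nonneg_left ?_ (by positivity)
            exact mul_le_mul_of_nonneg_left h2 (by positivity)
        _ = b ^ 20 := by ring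
    have e3 : (b ^ 20)⁻¹ ≤ (b ^ 15)⁻¹ / 100 := by
      rw [← one_div, ← one_div, div_div, div_le_div_iff₀ (by positivity) (by positivity), one_mul,
        one_mul]
      have h2 : (100 : ℝ) ≤ b ^ 5 := by
        calc (100 : ℝ) ≤ b := by linarith
          _ = b ^ 1 := (pow_one b).symm
          _ ≤ b ^ 5 := pow_le_pow_right₀ hb1 (by norm_num)
      calc b ^ 15 * 100 ≤ b ^ 15 * b ^ 5 := mul_le_mul_of_nonneg_left h2 (by positivity)
        _ = b ^ 20 := by ring
    have e4 : Real.exp (-T) ≤ (b ^ 20)⁻¹ := by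
      rw [Real.exp_neg]
      refine inv_anti₀ (by positivity) ?_
      have := Real.add_one_le_exp T
      rw [← hTdef]
      linarith
    have e6 : 0 < (b ^ 15)⁻¹ := by positivity
    linarith
  calc ∑ x ∈ univ.filter (fun x => 0 < S.J x ∧ ¬ S.GP B x y), S.J x
      ≤ ∑ x ∈ univ.filter (fun x => 0 < S.J x ∧ ¬ S.GP B x y),
        b ^ 40 * (S.J x * av (fun t => S.pairsD y T t x ^ 2)) := by
        refine sum_le_sum fun x hx => ?_
        have h1 := mul_le_mul_of_nonneg_left (hbad x hx) (S.J_nonneg x)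
        calc S.J x = S.J x * 1 := (mul_one _).symm
          _ ≤ S.J x * (b ^ 40 * av (fun t => S.pairsD y T t x ^ 2)) := h1
          _ = _ := by ring
    _ ≤ ∑ x, b ^ 40 * (S.J x * av (fun t => S.pairsD y T t x ^ 2)) := by
        refine sum_le_sum_of_subset_of_nonneg (filter_subset _ _) ?_
        intro x _ _
        exact mul_nonneg (by positivity) (mul_nonneg (S.J_nonneg x)
          (av_nonneg fun t _ => sq_nonneg _))
    _ = b ^ 40 * ∑ x, S.J x * av (fun t => S.pairsD y T t x ^ 2) := (mul_sum _ _ _).symm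
    _ ≤ b ^ 40 * (8 * T ^ 2) := mul_le_mul_of_nonneg_left htot (by positivity)
    _ = 8 * b ^ 80 := by rw [hTdef]; ring

end SD

end Pool.MPbe0380
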