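import Pool.Agent.Lib.MP_be0380_co.S.Defs

/-!
# be0380 S.PoAlg: algebra and analysis of `po`

PROOFS. The operators `opT I` commute (`cv_comm`, `cv_assoc`), `opT (I + I') = opT I + opT I'`,
`opT (r • I) = r • opT I`; `NormedSpace.exp_add_of_commute`. `exp (opT I) f = cv (exp (opT I) dl) f` because
`exp (opT I)` commutes with `opT f` and `f = opT f dl`. So `po_add`. `po_sum`: the functional
`Λ f = ∑ f` satisfies `Λ (opT I f) = (∑ I) Λ f`, hence `Λ (exp (opT I) f) = e^(∑ I) Λ f` (series, or
`NormedSpace.exp` of a commuting/intertwined operator). `continuous_po`: `opT` is linear in `I` on a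
finite dimensional space, `NormedSpace.exp_continuous`. `hasDerivAt_pt`: `exp (opT I0 + t opT J) =
exp (opT I0) * exp (t • opT J)`, `hasDerivAt_exp_smul_const`, product with `e^(-∑ I0 - t ∑ J)`.
`po_pow`-type expansions are in PoPos.
-/

set_option autoImplicit false

open Finset

namespace Pool.MPbe0380

variable {G : Type} [AddCommGroup G] [Fintype G] [DecidableEq G]

omit [DecidableEq G] in
theorem poAlg_opT_add (I I' : G → ℝ) : opT (fun a => I a + I' a) = opT I + opT I' := by
  ext f z
  show cv (fun a => I a + I' a) f z = cv I f z + cv I' f z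
  unfold cv
  rw [← sum_add_distrib]
  exact sum_congr rfl fun y _ => by ring

omit [DecidableEq G] in
theorem poAlg_opT_smul (r : ℝ) (I : G → ℝ) : opT (fun a => r * I a) = r • opT I := by
  ext f z
  show cv (fun a => r * I a) f z = r * cv I f z
  unfold cv
  rw [mul_sum]
  exact sum_congr rfl fun y _ => by ring

omit [DecidableEq G] in
theorem poAlg_commute (I I' : G → ℝ) : Commute (opT I) (opT I') := by
  show opT I * opT I' = opT I' * opT I
  ext f z
  show cv I (cv I' f) z = cv I' (cv I f) z
  rw [← cv_assoc, ← cv_assoc, cv_comm I I']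

omit [DecidableEq G] in
theorem poAlg_exp_cv (I f g : G → ℝ) :
    NormedSpace.exp (opT I) (cv f g) = cv f (NormedSpace.exp (opT I) g) := by
  have h : Commute (opT f) (NormedSpace.exp (opT I)) := (poAlg_commute f I).exp_right
  have h2 := congrArg (fun T : (G → ℝ) →L[ℝ] (G → ℝ) => T g) h.eq
  exact h2.symm

omit [AddCommGroup G] [DecidableEq G] in
theorem poAlg_exp_add {S T : (G → ℝ) →L[ℝ] (G → ℝ)} (h : Commute S T) :
    NormedSpace.exp (S + T) = NormedSpace.exp S * NormedSpace.exp T := by
  letI : NormedAlgebra ℚ ((G → ℝ) →L[ℝ] (G → ℝ)) := NormedAlgebra.restrictScalars ℚ ℝ _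
  exact NormedSpace.exp_add_of_commute h

omit [AddCommGroup G] [DecidableEq G] in
theorem poAlg_exp_continuous :
    Continuous (NormedSpace.exp : ((G → ℝ) →L[ℝ] (G → ℝ)) → ((G → ℝ) →L[ℝ] (G → ℝ))) := by
  letI : NormedAlgebra ℚ ((G → ℝ) →L[ℝ] (G → ℝ)) := NormedAlgebra.restrictScalars ℚ ℝ _
  exact NormedSpace.exp_continuous

theorem poAlg_exp_apply (I f : G → ℝ) :
    NormedSpace.exp (opT I) f = cv (NormedSpace.exp (opT I) dl) f := by
  conv_lhs => rw [← cv_dl f]
  rw [poAlg_exp_cv, cv_comm]

theorem po_zero : po (fun _ : G => 0) = dl := by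
  have h : opT (fun _ : G => (0 : ℝ)) = 0 := by
    ext f z
    show cv (fun _ : G => (0 : ℝ)) f z = 0
    unfold cv
    simp
  funext z
  unfold po
  rw [h, NormedSpace.exp_zero]
  simp

theorem po_add (I I' : G → ℝ) : po (fun a => I a + I' a) = cv (po I) (po I') := by
  funext z
  unfold po
  rw [poAlg_opT_add, poAlg_exp_add (poAlg_commute I I')]
  rw [ContinuousLinearMap.mul_apply, poAlg_exp_apply I]
  unfold cv
  rw [sum_add_distrib, neg_add, Real.exp_add, mul_sum]
  exact sum_congr rfl fun y _ => by ring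

omit [DecidableEq G] in
theorem poAlg_sum_exp (I f : G → ℝ) :
    ∑ z, NormedSpace.exp (opT I) f z = Real.exp (∑ a, I a) * ∑ z, f z := by
  let L : ((G → ℝ) →L[ℝ] (G → ℝ)) →L[ℝ] ℝ :=
    LinearMap.toContinuousLinearMap
      { toFun := fun T => ∑ z, T f z
        map_add' := by
          intro S T
          show ∑ z, (S f z + T f z) = _
          rw [sum_add_distrib]
        map_smul' := by
          intro r T
          show ∑ z, (r * T f z) = r * ∑ z, T f z
          rw [mul_sum] }
  have hL : ∀ T, L T = ∑ z, T f z := fun _ => rfl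
  have hp : ∀ n : ℕ, L (opT I ^ n) = (∑ a, I a) ^ n * ∑ z, f z := by
    intro n
    induction n with
    | zero =>
      rw [hL, pow_zero, pow_zero, one_mul]
      rfl
    | succ n ih =>
      rw [hL] at ih ⊢
      rw [pow_succ', pow_succ']
      have h1 : ∑ z, (opT I * opT I ^ n) f z = ∑ z, cv I ((opT I ^ n) f) z := rfl
      rw [h1, sum_cv, ih, mul_assoc]
  have h1 : HasSum (fun n : ℕ => ((n.factorial : ℝ)⁻¹) • (opT I) ^ n) (NormedSpace.exp (opT I)) :=
    NormedSpace.exp_series_hasSum_exp' (𝕂 := ℝ) (opT I)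
  have h2 := L.hasSum h1
  have h3 : HasSum (fun n : ℕ => ((n.factorial : ℝ)⁻¹) • (∑ a, I a) ^ n)
      (NormedSpace.exp (∑ a, I a)) :=
    NormedSpace.exp_series_hasSum_exp' (𝕂 := ℝ) (∑ a, I a)
  have h4 := h3.mul_right (∑ z, f z)
  have h5 : (fun n : ℕ => L (((n.factorial : ℝ)⁻¹) • (opT I) ^ n)) =
      fun n : ℕ => ((n.factorial : ℝ)⁻¹) • (∑ a, I a) ^ n * ∑ z, f z := by
    funext n
    rw [map_smul, hp, smul_eq_mul, smul_eq_mul, mul_assoc]
  have h6 : HasSum (fun n : ℕ => ((n.factorial : ℝ)⁻¹) • (∑ a, I a) ^ n * ∑ z, f z)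
      (L (NormedSpace.exp (opT I))) := by
    rw [← h5]
    exact h2
  have h7 := h6.unique h4
  rw [hL] at h7
  rw [h7, ← Real.exp_eq_exp_ℝ]

theorem po_sum (I : G → ℝ) : ∑ z, po I z = 1 := by
  unfold po
  rw [← mul_sum, poAlg_sum_exp]
  have h : ∑ z : G, (dl z : ℝ) = 1 := isLaw_dl.2
  rw [h, mul_one, ← Real.exp_add]
  simp

theorem continuous_po : Continuous (fun I : G → ℝ => po I) := by
  let L : (G → ℝ) →ₗ[ℝ] ((G → ℝ) →L[ℝ] (G → ℝ)) :=
    { toFun := fun I => opT I
      map_add' := fun I I' => poAlg_opT_add I I'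
      map_smul' := fun r I => poAlg_opT_smul r I }
  have hL : Continuous (fun I : G → ℝ => opT I) := L.continuous_of_finiteDimensional
  have h1 : Continuous (fun I : G → ℝ => NormedSpace.exp (opT I)) :=
    poAlg_exp_continuous.comp hL
  refine continuous_pi fun z => ?_
  unfold po
  refine Continuous.mul ?_ ?_
  · refine Real.continuous_exp.comp (Continuous.neg ?_)
    exact continuous_finsetSum _ fun a _ => continuous_apply a
  · have h2 : Continuous (fun I : G → ℝ => NormedSpace.exp (opT I) (dl : G → ℝ)) :=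
      h1.clm_apply continuous_const
    exact (continuous_apply z).comp h2

theorem hasDerivAt_pt (I0 J : G → ℝ) (t : ℝ) :
    HasDerivAt (fun s => pt I0 J s)
      (fun z => ∑ x, J x * (pt I0 J t (z - x) - pt I0 J t z)) t := by
  set v : G → ℝ := NormedSpace.exp (opT I0) dl with hv
  have hexp : ∀ s : ℝ, NormedSpace.exp (opT (fun a => I0 a + s * J a)) dl =
      NormedSpace.exp (s • opT J) v := by
    intro s
    rw [poAlg_opT_add, poAlg_opT_smul]
    have hc : Commute (opT I0) (s • opT J) := (poAlg_commute I0 J).smul_right s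
    rw [add_comm, poAlg_exp_add hc.symm]
    rfl
  have hfun : (fun s => pt I0 J s) = fun s z =>
      Real.exp (-∑ a, (I0 a + s * J a)) * (NormedSpace.exp (s • opT J) v) z := by
    funext s z
    show Real.exp (-∑ a, (I0 a + s * J a)) *
      (NormedSpace.exp (opT (fun a => I0 a + s * J a))) dl z = _
    rw [hexp]
  have hd : HasDerivAt (fun s : ℝ => NormedSpace.exp (s • opT J))
      (NormedSpace.exp (t • opT J) * opT J) t := hasDerivAt_exp_smul_const (opT J) t
  have hcm : ∀ s : ℝ, NormedSpace.exp (s • opT J) (cv J v) = cv J (NormedSpace.exp (s • opT J) v) := by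
    intro s
    rw [← poAlg_opT_smul]
    exact poAlg_exp_cv _ J v
  rw [hasDerivAt_pi]
  intro z
  have hfz : (fun s => pt I0 J s z) = fun s =>
      Real.exp (-∑ a, (I0 a + s * J a)) * (NormedSpace.exp (s • opT J) v) z := by
    funext s
    exact congrFun (congrFun hfun s) z
  rw [hfz]
  have h1 : HasDerivAt (fun s : ℝ => (NormedSpace.exp (s • opT J) v) z)
      (cv J (NormedSpace.exp (t • opT J) v) z) t := by
    let E : ((G → ℝ) →L[ℝ] (G → ℝ)) →L[ℝ] ℝ :=
      LinearMap.toContinuousLinearMap
        { toFun := fun T => T v z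
          map_add' := by
            intro S T
            rfl
          map_smul' := by
            intro r T
            rfl }
    have h2 := E.hasFDerivAt.comp_hasDerivAt t hd
    have h3 : E (NormedSpace.exp (t • opT J) * opT J) =
        cv J (NormedSpace.exp (t • opT J) v) z := by
      show NormedSpace.exp (t • opT J) (cv J v) z = _
      rw [hcm]
    rw [h3] at h2
    exact h2
  have h4 : HasDerivAt (fun s : ℝ => Real.exp (-∑ a, (I0 a + s * J a)))
      (Real.exp (-∑ a, (I0 a + t * J a)) * (-∑ a, J a)) t := by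
    have h5 : HasDerivAt (fun s : ℝ => -∑ a, (I0 a + s * J a)) (-∑ a, J a) t := by
      refine HasDerivAt.neg ?_
      refine HasDerivAt.fun_sum fun a _ => ?_
      have h6 : HasDerivAt (fun s : ℝ => s * J a) (1 * J a) t := (hasDerivAt_id t).mul_const (J a)
      rw [one_mul] at h6
      exact h6.const_add (I0 a)
    exact h5.exp
  have h7 := h4.mul h1
  have h8 : (Real.exp (-∑ a, (I0 a + t * J a)) * (-∑ a, J a)) *
      (NormedSpace.exp (t • opT J) v) z +
      Real.exp (-∑ a, (I0 a + t * J a)) * cv J (NormedSpace.exp (t • opT J) v) z =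
      ∑ x, J x * (pt I0 J t (z - x) - pt I0 J t z) := by
    have h9 : ∀ w, pt I0 J t w = Real.exp (-∑ a, (I0 a + t * J a)) *
        (NormedSpace.exp (t • opT J) v) w := fun w => congrFun (congrFun hfun t) w
    simp only [h9]
    unfold cv
    rw [mul_sum]
    have h10 : (Real.exp (-∑ a, (I0 a + t * J a)) * (-∑ a, J a)) *
        (NormedSpace.exp (t • opT J) v) z =
        ∑ a, -(Real.exp (-∑ a, (I0 a + t * J a)) * J a * (NormedSpace.exp (t • opT J) v) z) := by
      rw [sum_neg_distrib, ← sum_mul, ← mul_sum]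
      ring
    rw [h10, ← sum_add_distrib]
    exact sum_congr rfl fun x _ => by ring
  rw [h8] at h7
  exact h7

end Pool.MPbe0380
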