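import Pool.Agent.Lib.MP_be0380_co.S.Facts

/-!
# be0380, (6.4): splitting inequalities for the tails of `log (τ_a P / P)`
-/

set_option autoImplicit false

open Finset

namespace Pool.MPbe0380

variable {G : Type*} [AddCommGroup G] [Fintype G]

theorem cv_assoc_sum (P₁ P₂ P₃ : G → ℝ) (w : G) :
    cv (cv P₁ P₂) P₃ w = ∑ x, ∑ y, P₁ x * P₂ y * P₃ (w - x - y) := by
  rw [cv_assoc]
  unfold cv
  refine sum_congr rfl fun x _ => ?_
  rw [mul_sum]
  exact sum_congr rfl fun y _ => by ring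

theorem cv_four_sum (P₁ P₂ P₃ P₄ : G → ℝ) (w : G) :
    cv (cv (cv P₁ P₂) P₃) P₄ w = ∑ x, ∑ y, ∑ v, P₁ x * P₂ y * P₃ v * P₄ (w - x - y - v) := by
  rw [cv_assoc, cv_assoc_sum]
  refine sum_congr rfl fun x _ => sum_congr rfl fun y _ => ?_
  unfold cv
  rw [mul_sum]
  exact sum_congr rfl fun v _ => by ring

theorem cv_pos' {P Q : G → ℝ} (hP : ∀ x, 0 < P x) (hQ : IsLaw Q) (x : G) : 0 < cv P Q x := by
  rw [cv_comm]; exact cv_pos hQ hP x

section two

open Classical in
/-- the set where `p₁` is much larger than its translate has small `p₁`-mass -/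
theorem big_le {P : G → ℝ} (hP : IsLaw P) (hP0 : ∀ x, 0 < P x) (a : G) {D t : ℝ} (ht : 0 < t)
    (hD : KL (tau a P) P ≤ D) :
    ∑ x ∈ univ.filter (fun x => P (x + a) * Real.exp t ≤ P x), P x ≤ (D + 1) / t := by
  have h := tail_le (hP.tau a) hP hP0 ht
  have h1 : ∑ x ∈ univ.filter (fun x => P (x + a) * Real.exp t ≤ P x), P x =
      ∑ x ∈ univ.filter (fun x => P x * Real.exp t ≤ tau a P x), tau a P x := by
    rw [sum_filter, sum_filter]
    refine Fintype.sum_equiv (Equiv.addRight a) _ _ fun x => ?_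
    simp only [Equiv.coe_addRight, tau_apply, add_sub_cancel_right]
  rw [h1]
  refine h.trans (div_le_div_of_nonneg_right (by linarith) ht.le)

open Classical in
/-- (6.4a), tail -/
theorem split_two {p₁ p₂ p' : G → ℝ} (h₁ : IsLaw p₁) (h₂ : IsLaw p₂) (h' : IsLaw p')
    (h₁0 : ∀ x, 0 < p₁ x) (h₂0 : ∀ x, 0 < p₂ x) (a : G) {T D : ℝ} (hT : 2 < T)
    (hD₁ : KL (tau a p₁) p₁ ≤ D) (hD₂ : KL (tau a p₂) p₂ ≤ D) :
    ∑ z ∈ univ.filter (fun z => cv (cv p₁ p₂) p' z * Real.exp T ≤ tau a (cv (cv p₁ p₂) p') z),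
      tau a (cv (cv p₁ p₂) p') z ≤ 2 * ((D + 1) / (T - 2)) ^ 2 := by
  set P := cv (cv p₁ p₂) p' with hP
  set S₁ : G → Prop := fun x => p₁ (x + a) * Real.exp (T - 2) ≤ p₁ x with hS₁
  set S₂ : G → Prop := fun x => p₂ (x + a) * Real.exp (T - 2) ≤ p₂ x with hS₂
  set F : G → G → G → ℝ := fun z x y => p₁ x * p₂ y * p' (z - a - x - y) with hF
  have hF0 : ∀ z x y, 0 ≤ F z x y := fun z x y =>
    mul_nonneg (mul_nonneg (h₁0 x).le (h₂0 y).le) (h'.1 _)
  have hτ : ∀ z, tau a P z = ∑ x, ∑ y, F z x y := fun z => by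
    rw [tau_apply, hP, cv_assoc_sum]
  have hP1 : ∀ z, P z = ∑ x, ∑ y, p₁ (x + a) * p₂ y * p' (z - a - x - y) := fun z => by
    rw [hP, cv_assoc_sum]
    refine (Fintype.sum_equiv (Equiv.addRight a) _ _ fun x => ?_).symm
    rw [Equiv.coe_addRight]
    refine sum_congr rfl fun y _ => ?_
    rw [show z - a - x - y = z - (x + a) - y by abel]
  have hP2 : ∀ z, P z = ∑ x, ∑ y, p₁ x * p₂ (y + a) * p' (z - a - x - y) := fun z => by
    rw [hP, cv_assoc_sum]
    refine sum_congr rfl fun x _ => ?_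
    refine (Fintype.sum_equiv (Equiv.addRight a) _ _ fun y => ?_).symm
    rw [Equiv.coe_addRight, show z - a - x - y = z - x - (y + a) by abel]
  have hexp : Real.exp (T - 2) = Real.exp T * Real.exp (-2) := by
    rw [← Real.exp_add]; congr 1
  have hexp2 : Real.exp (-2) ≤ 1 / 4 := by
    rw [Real.exp_neg, inv_eq_one_div]
    refine one_div_le_one_div_of_le (by norm_num) ?_
    have h1 := Real.add_one_le_exp (1 : ℝ)
    have h2 : Real.exp 2 = Real.exp 1 * Real.exp 1 := by rw [← Real.exp_add]; norm_num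
    nlinarith
  -- pointwise
  have key : ∀ z, P z * Real.exp T ≤ tau a P z →
      tau a P z ≤ 2 * ∑ x, ∑ y, (if S₁ x ∧ S₂ y then F z x y else 0) := by
    intro z hz
    have h1 : ∀ x y, F z x y ≤ (if S₁ x ∧ S₂ y then F z x y else 0) +
        (Real.exp (T - 2) * (p₁ (x + a) * p₂ y * p' (z - a - x - y)) +
          Real.exp (T - 2) * (p₁ x * p₂ (y + a) * p' (z - a - x - y))) := by
      intro x y
      have n1 : 0 ≤ Real.exp (T - 2) * (p₁ (x + a) * p₂ y * p' (z - a - x - y)) :=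
        mul_nonneg (Real.exp_pos _).le (mul_nonneg (mul_nonneg (h₁0 _).le (h₂0 y).le) (h'.1 _))
      have n2 : 0 ≤ Real.exp (T - 2) * (p₁ x * p₂ (y + a) * p' (z - a - x - y)) :=
        mul_nonneg (Real.exp_pos _).le (mul_nonneg (mul_nonneg (h₁0 _).le (h₂0 _).le) (h'.1 _))
      by_cases c1 : S₁ x
      · by_cases c2 : S₂ y
        · rw [if_pos ⟨c1, c2⟩]; linarith
        · rw [if_neg (fun h => c2 h.2)]
          have c3 : p₂ y < p₂ (y + a) * Real.exp (T - 2) := lt_of_not_ge c2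
          have c4 : F z x y ≤ Real.exp (T - 2) * (p₁ x * p₂ (y + a) * p' (z - a - x - y)) := by
            simp only [hF]
            have := mul_le_mul_of_nonneg_left c3.le (mul_nonneg (h₁0 x).le (h'.1 (z - a - x - y)))
            nlinarith
          linarith
      · rw [if_neg (fun h => c1 h.1)]
        have c3 : p₁ x < p₁ (x + a) * Real.exp (T - 2) := lt_of_not_ge c1
        have c4 : F z x y ≤ Real.exp (T - 2) * (p₁ (x + a) * p₂ y * p' (z - a - x - y)) := by
          simp only [hF]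
          have := mul_le_mul_of_nonneg_left c3.le (mul_nonneg (h₂0 y).le (h'.1 (z - a - x - y)))
          nlinarith
        linarith
    have h2 : tau a P z ≤ ∑ x, ∑ y, (if S₁ x ∧ S₂ y then F z x y else 0) +
        2 * Real.exp (T - 2) * P z := by
      rw [hτ]
      refine (sum_le_sum fun x _ => sum_le_sum fun y _ => h1 x y).trans (le_of_eq ?_)
      simp only [sum_add_distrib, ← mul_sum]
      rw [← hP1, ← hP2]; ring
    have h3 : 2 * Real.exp (T - 2) * P z ≤ 1 / 2 * tau a P z := by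
      rw [hexp]
      have hτ0 : 0 ≤ P z * Real.exp T :=
        mul_nonneg ((h₁.cv h₂).cv h' |>.1 z) (Real.exp_pos _).le
      calc 2 * (Real.exp T * Real.exp (-2)) * P z = 2 * (P z * Real.exp T) * Real.exp (-2) := by ring
        _ ≤ 2 * (P z * Real.exp T) * (1 / 4) := mul_le_mul_of_nonneg_left hexp2 (by positivity)
        _ ≤ 1 / 2 * tau a P z := by linarith
    linarith
  calc ∑ z ∈ univ.filter (fun z => P z * Real.exp T ≤ tau a P z), tau a P z
      ≤ ∑ z ∈ univ.filter (fun z => P z * Real.exp T ≤ tau a P z),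
          2 * ∑ x, ∑ y, (if S₁ x ∧ S₂ y then F z x y else 0) :=
        sum_le_sum fun z hz => key z (mem_filter.mp hz).2
    _ ≤ ∑ z, 2 * ∑ x, ∑ y, (if S₁ x ∧ S₂ y then F z x y else 0) := by
        refine sum_le_sum_of_subset_of_nonneg (subset_univ _) fun z _ _ => ?_
        refine mul_nonneg zero_le_two (sum_nonneg fun x _ => sum_nonneg fun y _ => ?_)
        split_ifs
        exacts [hF0 z x y, le_rfl]
    _ = 2 * ((∑ x ∈ univ.filter S₁, p₁ x) * ∑ y ∈ univ.filter S₂, p₂ y) := by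
        rw [← mul_sum]
        congr 1
        rw [sum_comm]
        rw [sum_filter, sum_filter, sum_mul_sum]
        refine sum_congr rfl fun x _ => ?_
        rw [sum_comm]
        refine sum_congr rfl fun y _ => ?_
        by_cases c : S₁ x ∧ S₂ y
        · have c1 : p₁ (x + a) * Real.exp (T - 2) ≤ p₁ x := c.1
          have c2 : p₂ (y + a) * Real.exp (T - 2) ≤ p₂ y := c.2
          rw [if_pos c1, if_pos c2]
          simp only [if_pos c]
          simp only [hF]
          rw [← mul_sum]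
          have : ∑ z, p' (z - a - x - y) = 1 := by
            rw [← h'.2]
            refine Fintype.sum_equiv (Equiv.subRight (a + x + y)) _ _ fun z => ?_
            rw [Equiv.subRight_apply]
            congr 1; abel
          rw [this, mul_one]
        · simp only [if_neg c, sum_const_zero]
          by_cases c1 : S₁ x
          · have c2 : ¬ (p₂ (y + a) * Real.exp (T - 2) ≤ p₂ y) := fun h => c ⟨c1, h⟩
            rw [if_neg c2, mul_zero]
          · have c2 : ¬ (p₁ (x + a) * Real.exp (T - 2) ≤ p₁ x) := c1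
            rw [if_neg c2, zero_mul]
    _ ≤ 2 * ((D + 1) / (T - 2)) ^ 2 := by
        have hb1 := big_le h₁ h₁0 a (by linarith : (0 : ℝ) < T - 2) hD₁
        have hb2 := big_le h₂ h₂0 a (by linarith : (0 : ℝ) < T - 2) hD₂
        have n1 : 0 ≤ ∑ x ∈ univ.filter S₁, p₁ x := sum_nonneg fun x _ => (h₁0 x).le
        have n2 : 0 ≤ ∑ x ∈ univ.filter S₂, p₂ x := sum_nonneg fun x _ => (h₂0 x).le
        have := mul_le_mul hb1 hb2 n2 (n1.trans hb1)
        nlinarith

open Classical in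
/-- (6.4a), mean excess: `E_{τ_a P} (log (τ_a P / P) - T)_+ ≤ 16 (D+1)² / T` for `T ≥ 4` -/
theorem excess_two {p₁ p₂ p' : G → ℝ} (h₁ : IsLaw p₁) (h₂ : IsLaw p₂) (h' : IsLaw p')
    (h₁0 : ∀ x, 0 < p₁ x) (h₂0 : ∀ x, 0 < p₂ x) (a : G) {T D : ℝ} (hT : 4 ≤ T) (hD : 0 ≤ D)
    (hD₁ : KL (tau a p₁) p₁ ≤ D) (hD₂ : KL (tau a p₂) p₂ ≤ D) :
    ∑ z, tau a (cv (cv p₁ p₂) p') z * max (Real.log (tau a (cv (cv p₁ p₂) p') z /
      cv (cv p₁ p₂) p' z) - T) 0 ≤ 16 * (D + 1) ^ 2 / T := by
  set P := cv (cv p₁ p₂) p' with hP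
  have hPl : IsLaw P := (h₁.cv h₂).cv h'
  have hP0 : ∀ z, 0 < P z := fun z => cv_pos' (fun x => cv_pos h₁ h₂0 x) h' z
  have h := excess_le (w := tau a P) (X := fun z => Real.log (tau a P z / P z)) (T := T)
    (c := 8 * (D + 1) ^ 2) (fun z => (hPl.tau a).1 z) (by linarith) ?_
  · refine h.trans (le_of_eq (by ring))
  · intro t ht
    have h2 := split_two h₁ h₂ h' h₁0 h₂0 a (by linarith : (2 : ℝ) < t) hD₁ hD₂
    rw [← hP] at h2
    refine le_trans (le_of_eq ?_) (h2.trans ?_)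
    · refine sum_congr (filter_congr fun z _ => ?_) fun _ _ => rfl
      have hτ : 0 < tau a P z := hP0 _
      rw [Real.le_log_iff_exp_le (div_pos hτ (hP0 z)), le_div_iff₀ (hP0 z), mul_comm]
    · have ht0 : 0 < t := by linarith
      have h3 : (D + 1) / (t - 2) ≤ 2 * (D + 1) / t := by
        rw [div_le_div_iff₀ (by linarith) ht0]
        nlinarith
      have h4 : 0 ≤ (D + 1) / (t - 2) := div_nonneg (by linarith) (by linarith)
      calc 2 * ((D + 1) / (t - 2)) ^ 2 ≤ 2 * (2 * (D + 1) / t) ^ 2 := by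
            have := pow_le_pow_left₀ h4 h3 2
            linarith
        _ = 8 * (D + 1) ^ 2 / t ^ 2 := by field_simp; ring

end two

section three

theorem exp_neg_five_half : 6 * Real.exp (-(5 / 2)) ≤ 1 / 2 := by
  have h1 : (12 : ℝ) ≤ Real.exp (5 / 2) := by
    have h2 : Real.exp (5 / 2) ^ 2 = Real.exp 1 ^ 5 := by
      rw [← Real.exp_nat_mul, ← Real.exp_nat_mul]; norm_num
    have h3 := Real.exp_one_gt_d9
    have h4 : (2.7182818283 : ℝ) ^ 5 < Real.exp 1 ^ 5 := pow_lt_pow_left₀ h3 (by norm_num) (by norm_num)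
    by_contra hcon
    push Not at hcon
    have h5 : Real.exp (5 / 2) ^ 2 < 12 ^ 2 := pow_lt_pow_left₀ hcon (Real.exp_pos _).le (by norm_num)
    rw [h2] at h5
    norm_num at h4 h5
    linarith
  rw [Real.exp_neg]
  have h2 : (Real.exp (5 / 2))⁻¹ ≤ 12⁻¹ := inv_anti₀ (by norm_num) h1
  linarith

theorem four_shift {p₀ p' : G → ℝ} (c₁ c₂ c₃ : G) (z : G) :
    ∑ x, ∑ y, ∑ v, p₀ (x + c₁) * p₀ (y + c₂) * p₀ (v + c₃) *
      p' (z - (c₁ + c₂ + c₃) - x - y - v) = cv (cv (cv p₀ p₀) p₀) p' z := by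
  rw [cv_four_sum]
  refine Fintype.sum_equiv (Equiv.addRight c₁) _ _ fun x => ?_
  refine Fintype.sum_equiv (Equiv.addRight c₂) _ _ fun y => ?_
  refine Fintype.sum_equiv (Equiv.addRight c₃) _ _ fun v => ?_
  simp only [Equiv.coe_addRight]
  rw [show z - (c₁ + c₂ + c₃) - x - y - v = z - (x + c₁) - (y + c₂) - (v + c₃) by abel]

open Classical in
/-- (6.4b), tail, with three copies -/
theorem split_three {p₀ p' : G → ℝ} (h₀ : IsLaw p₀) (h' : IsLaw p') (h₀0 : ∀ x, 0 < p₀ x)
    (a b : G) {T D : ℝ} (hT : 5 ≤ T) (hDa : KL (tau a p₀) p₀ ≤ D) (hDb : KL (tau b p₀) p₀ ≤ D)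
    (hD : 0 ≤ D) :
    ∑ z ∈ univ.filter (fun z => cv (cv (cv p₀ p₀) p₀) p' z * Real.exp T ≤
      tau (a + b) (cv (cv (cv p₀ p₀) p₀) p') z),
      tau (a + b) (cv (cv (cv p₀ p₀) p₀) p') z ≤ 128 * (D + 1) ^ 2 / T ^ 2 := by
  set P := cv (cv (cv p₀ p₀) p₀) p' with hP
  set r : ℝ := Real.exp ((T - 5 / 2) / 2) with hr
  have hr0 : 0 < r := Real.exp_pos _
  have hrr : r * r = Real.exp T * Real.exp (-(5 / 2)) := by
    rw [hr, ← Real.exp_add, ← Real.exp_add]; congr 1; ring
  set A : G → Prop := fun x => p₀ (x + a) * r ≤ p₀ x with hA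
  set B : G → Prop := fun x => p₀ (x + b) * r ≤ p₀ x with hB
  set F : G → G → G → G → ℝ := fun z x y v =>
    p₀ x * p₀ y * p₀ v * p' (z - (a + b) - x - y - v) with hF
  have hF0 : ∀ z x y v, 0 ≤ F z x y v := fun z x y v =>
    mul_nonneg (mul_nonneg (mul_nonneg (h₀0 x).le (h₀0 y).le) (h₀0 v).le) (h'.1 _)
  set Q : G → G → G → G → G → G → G → ℝ := fun c₁ c₂ c₃ z x y v =>
    p₀ (x + c₁) * p₀ (y + c₂) * p₀ (v + c₃) * p' (z - (a + b) - x - y - v) with hQ
  have hQ0 : ∀ c₁ c₂ c₃ z x y v, 0 ≤ Q c₁ c₂ c₃ z x y v := fun c₁ c₂ c₃ z x y v =>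
    mul_nonneg (mul_nonneg (mul_nonneg (h₀0 _).le (h₀0 _).le) (h₀0 _).le) (h'.1 _)
  have hQs : ∀ c₁ c₂ c₃, c₁ + c₂ + c₃ = a + b → ∀ z, ∑ x, ∑ y, ∑ v, Q c₁ c₂ c₃ z x y v = P z := by
    intro c₁ c₂ c₃ h z
    rw [hP, ← four_shift c₁ c₂ c₃ z, h]
  have hτ : ∀ z, tau (a + b) P z = ∑ x, ∑ y, ∑ v, F z x y v := fun z => by
    rw [tau_apply, hP, cv_four_sum]
  set good : G → G → G → Prop := fun x y v =>
    (A x ∧ A y) ∨ (A x ∧ A v) ∨ (A y ∧ A v) ∨ (B x ∧ B y ∧ B v) with hgood
  -- two small factors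
  have hsm : ∀ x y, ¬ A x → ¬ B y → p₀ x * p₀ y ≤ (r * r) * (p₀ (x + a) * p₀ (y + b)) := by
    intro x y h1 h2
    have h3 : p₀ x ≤ p₀ (x + a) * r := (lt_of_not_ge h1).le
    have h4 : p₀ y ≤ p₀ (y + b) * r := (lt_of_not_ge h2).le
    have h5 := mul_le_mul h3 h4 (h₀0 y).le (mul_nonneg (h₀0 _).le hr0.le)
    nlinarith
  have hpt : ∀ z x y v, F z x y v ≤ (if good x y v then F z x y v else 0) +
      (r * r) * (Q a b 0 z x y v + Q a 0 b z x y v + Q b a 0 z x y v + Q 0 a b z x y v +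
        Q b 0 a z x y v + Q 0 b a z x y v) := by
    intro z x y v
    have n1 := hQ0 a b 0 z x y v
    have n2 := hQ0 a 0 b z x y v
    have n3 := hQ0 b a 0 z x y v
    have n4 := hQ0 0 a b z x y v
    have n5 := hQ0 b 0 a z x y v
    have n6 := hQ0 0 b a z x y v
    have hrr0 : 0 ≤ r * r := mul_nonneg hr0.le hr0.le
    by_cases hg : good x y v
    · rw [if_pos hg]
      have : 0 ≤ (r * r) * (Q a b 0 z x y v + Q a 0 b z x y v + Q b a 0 z x y v + Q 0 a b z x y v +
        Q b 0 a z x y v + Q 0 b a z x y v) := mul_nonneg hrr0 (by linarith)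
      linarith
    · rw [if_neg hg, zero_add]
      have hw := h'.1 (z - (a + b) - x - y - v)
      have step : ∀ q s : ℝ, 0 ≤ s → q ≤ (r * r) * s → ∀ X, s ≤ X → q ≤ (r * r) * X := by
        intro q s _ h1 X h2
        exact h1.trans (mul_le_mul_of_nonneg_left h2 hrr0)
      -- find a pair `(i, j)` with `¬ A i`, `¬ B j`
      have c12 : ¬ A x → ¬ B y → F z x y v ≤ (r * r) * Q a b 0 z x y v := by
        intro h1 h2
        have h3 := mul_le_mul_of_nonneg_right (hsm x y h1 h2) (mul_nonneg (h₀0 v).le hw)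
        simp only [hF, hQ, add_zero]
        nlinarith
      have c13 : ¬ A x → ¬ B v → F z x y v ≤ (r * r) * Q a 0 b z x y v := by
        intro h1 h2
        have h3 := mul_le_mul_of_nonneg_right (hsm x v h1 h2) (mul_nonneg (h₀0 y).le hw)
        simp only [hF, hQ, add_zero]
        nlinarith
      have c21 : ¬ A y → ¬ B x → F z x y v ≤ (r * r) * Q b a 0 z x y v := by
        intro h1 h2
        have h3 := mul_le_mul_of_nonneg_right (hsm y x h1 h2) (mul_nonneg (h₀0 v).le hw)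
        simp only [hF, hQ, add_zero]
        nlinarith
      have c23 : ¬ A y → ¬ B v → F z x y v ≤ (r * r) * Q 0 a b z x y v := by
        intro h1 h2
        have h3 := mul_le_mul_of_nonneg_right (hsm y v h1 h2) (mul_nonneg (h₀0 x).le hw)
        simp only [hF, hQ, add_zero]
        nlinarith
      have c31 : ¬ A v → ¬ B x → F z x y v ≤ (r * r) * Q b 0 a z x y v := by
        intro h1 h2
        have h3 := mul_le_mul_of_nonneg_right (hsm v x h1 h2) (mul_nonneg (h₀0 y).le hw)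
        simp only [hF, hQ, add_zero]
        nlinarith
      have c32 : ¬ A v → ¬ B y → F z x y v ≤ (r * r) * Q 0 b a z x y v := by
        intro h1 h2
        have h3 := mul_le_mul_of_nonneg_right (hsm v y h1 h2) (mul_nonneg (h₀0 x).le hw)
        simp only [hF, hQ, add_zero]
        nlinarith
      have hg' : ¬ ((A x ∧ A y) ∨ (A x ∧ A v) ∨ (A y ∧ A v) ∨ (B x ∧ B y ∧ B v)) := hg
      by_cases bx : B x
      · by_cases by' : B y
        · have bv : ¬ B v := fun h => hg' (Or.inr (Or.inr (Or.inr ⟨bx, by', h⟩)))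
          by_cases ax : A x
          · have ay : ¬ A y := fun h => hg' (Or.inl ⟨ax, h⟩)
            exact step _ _ n4 (c23 ay bv) _ (by linarith)
          · exact step _ _ n2 (c13 ax bv) _ (by linarith)
        · by_cases ax : A x
          · have av : ¬ A v := fun h => hg' (Or.inr (Or.inl ⟨ax, h⟩))
            exact step _ _ n6 (c32 av by') _ (by linarith)
          · exact step _ _ n1 (c12 ax by') _ (by linarith)
      · by_cases ay : A y
        · have av : ¬ A v := fun h => hg' (Or.inr (Or.inr (Or.inl ⟨ay, h⟩)))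
          exact step _ _ n5 (c31 av bx) _ (by linarith)
        · exact step _ _ n3 (c21 ay bx) _ (by linarith)
  -- pointwise in `z`
  have key : ∀ z, P z * Real.exp T ≤ tau (a + b) P z →
      tau (a + b) P z ≤ 2 * ∑ x, ∑ y, ∑ v, (if good x y v then F z x y v else 0) := by
    intro z hz
    have h2 : tau (a + b) P z ≤ ∑ x, ∑ y, ∑ v, (if good x y v then F z x y v else 0) +
        (r * r) * (6 * P z) := by
      rw [hτ]
      refine (sum_le_sum fun x _ => sum_le_sum fun y _ => sum_le_sum fun v _ =>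
        hpt z x y v).trans (le_of_eq ?_)
      simp only [sum_add_distrib, ← mul_sum]
      rw [hQs a b 0 (by abel), hQs a 0 b (by abel), hQs b a 0 (by abel), hQs 0 a b (by abel),
        hQs b 0 a (by abel), hQs 0 b a (by abel)]
      ring
    have h3 : (r * r) * (6 * P z) ≤ 1 / 2 * tau (a + b) P z := by
      rw [hrr]
      have hτ0 : 0 ≤ P z * Real.exp T :=
        mul_nonneg ((((h₀.cv h₀).cv h₀).cv h').1 z) (Real.exp_pos _).le
      have he := exp_neg_five_half
      calc Real.exp T * Real.exp (-(5 / 2)) * (6 * P z)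
          = (P z * Real.exp T) * (6 * Real.exp (-(5 / 2))) := by ring
        _ ≤ (P z * Real.exp T) * (1 / 2) := mul_le_mul_of_nonneg_left he hτ0
        _ ≤ 1 / 2 * tau (a + b) P z := by linarith
    linarith
  have hT' : 0 < (T - 5 / 2) / 2 := by linarith
  set α : ℝ := ∑ x, (if A x then p₀ x else 0) with hα
  set β : ℝ := ∑ x, (if B x then p₀ x else 0) with hβ
  have hα0 : 0 ≤ α := sum_nonneg fun x _ => by split_ifs; exacts [(h₀0 x).le, le_rfl]
  have hβ0 : 0 ≤ β := sum_nonneg fun x _ => by split_ifs; exacts [(h₀0 x).le, le_rfl]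
  have hα1 : α ≤ (D + 1) / ((T - 5 / 2) / 2) := by
    have := big_le h₀ h₀0 a hT' hDa
    rw [sum_filter] at this
    exact this
  have hβ1 : β ≤ (D + 1) / ((T - 5 / 2) / 2) := by
    have := big_le h₀ h₀0 b hT' hDb
    rw [sum_filter] at this
    exact this
  calc ∑ z ∈ univ.filter (fun z => P z * Real.exp T ≤ tau (a + b) P z), tau (a + b) P z
      ≤ ∑ z ∈ univ.filter (fun z => P z * Real.exp T ≤ tau (a + b) P z),
          2 * ∑ x, ∑ y, ∑ v, (if good x y v then F z x y v else 0) :=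
        sum_le_sum fun z hz => key z (mem_filter.mp hz).2
    _ ≤ ∑ z, 2 * ∑ x, ∑ y, ∑ v, (if good x y v then F z x y v else 0) := by
        refine sum_le_sum_of_subset_of_nonneg (subset_univ _) fun z _ _ => ?_
        refine mul_nonneg zero_le_two (sum_nonneg fun x _ => sum_nonneg fun y _ =>
          sum_nonneg fun v _ => ?_)
        split_ifs
        exacts [hF0 z x y v, le_rfl]
    _ = 2 * ∑ x, ∑ y, ∑ v, (if good x y v then p₀ x * p₀ y * p₀ v else 0) := by
        rw [← mul_sum]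
        congr 1
        rw [sum_comm]
        refine sum_congr rfl fun x _ => ?_
        rw [sum_comm]
        refine sum_congr rfl fun y _ => ?_
        rw [sum_comm]
        refine sum_congr rfl fun v _ => ?_
        by_cases c : good x y v
        · simp only [if_pos c]
          simp only [hF]
          rw [← mul_sum]
          have : ∑ z, p' (z - (a + b) - x - y - v) = 1 := by
            rw [← h'.2]
            refine Fintype.sum_equiv (Equiv.subRight (a + b + x + y + v)) _ _ fun z => ?_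
            rw [Equiv.subRight_apply]
            congr 1; abel
          rw [this, mul_one]
        · simp only [if_neg c, sum_const_zero]
    _ ≤ 2 * ∑ x, ∑ y, ∑ v, ((if A x then p₀ x else 0) * (if A y then p₀ y else 0) * p₀ v +
          (if A x then p₀ x else 0) * p₀ y * (if A v then p₀ v else 0) +
          p₀ x * (if A y then p₀ y else 0) * (if A v then p₀ v else 0) +
          (if B x then p₀ x else 0) * (if B y then p₀ y else 0) * p₀ v) := by
        refine mul_le_mul_of_nonneg_left ?_ zero_le_two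
        refine sum_le_sum fun x _ => sum_le_sum fun y _ => sum_le_sum fun v _ => ?_
        have q1 : ∀ (S : G → Prop) (x : G), 0 ≤ (if S x then p₀ x else 0) := fun S x => by
          split_ifs; exacts [(h₀0 x).le, le_rfl]
        have m1 : 0 ≤ (if A x then p₀ x else 0) * (if A y then p₀ y else 0) * p₀ v :=
          mul_nonneg (mul_nonneg (q1 A x) (q1 A y)) (h₀0 v).le
        have m2 : 0 ≤ (if A x then p₀ x else 0) * p₀ y * (if A v then p₀ v else 0) :=
          mul_nonneg (mul_nonneg (q1 A x) (h₀0 y).le) (q1 A v)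
        have m3 : 0 ≤ p₀ x * (if A y then p₀ y else 0) * (if A v then p₀ v else 0) :=
          mul_nonneg (mul_nonneg (h₀0 x).le (q1 A y)) (q1 A v)
        have m4 : 0 ≤ (if B x then p₀ x else 0) * (if B y then p₀ y else 0) * p₀ v :=
          mul_nonneg (mul_nonneg (q1 B x) (q1 B y)) (h₀0 v).le
        by_cases c : good x y v
        · rw [if_pos c]
          have c' : (A x ∧ A y) ∨ (A x ∧ A v) ∨ (A y ∧ A v) ∨ (B x ∧ B y ∧ B v) := c
          rcases c' with ⟨h1, h2⟩ | ⟨h1, h2⟩ | ⟨h1, h2⟩ | ⟨h1, h2, _⟩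
          · rw [if_pos h1, if_pos h2] at m1 ⊢
            linarith [m2, m3, m4, mul_nonneg (mul_nonneg (h₀0 x).le (h₀0 y).le) (q1 A v)]
          · rw [if_pos h1, if_pos h2] at m2 ⊢
            linarith [m1, m3, m4, mul_nonneg (mul_nonneg (h₀0 x).le (q1 A y)) (h₀0 v).le]
          · rw [if_pos h1, if_pos h2] at m3 ⊢
            linarith [m1, m2, m4, mul_nonneg (mul_nonneg (q1 A x) (h₀0 y).le) (h₀0 v).le]
          · rw [if_pos h1, if_pos h2] at m4 ⊢
            linarith
        · rw [if_neg c]; linarith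
    _ = 2 * (3 * (α * α) + β * β) := by
        congr 1
        simp only [sum_add_distrib]
        simp only [← mul_sum, ← sum_mul]
        rw [h₀.2]
        ring
    _ ≤ 128 * (D + 1) ^ 2 / T ^ 2 := by
        have hX : (D + 1) / ((T - 5 / 2) / 2) ≤ 4 * (D + 1) / T := by
          rw [div_le_div_iff₀ hT' (by linarith)]
          nlinarith
        have h1 : α * α ≤ (4 * (D + 1) / T) * (4 * (D + 1) / T) :=
          mul_le_mul (hα1.trans hX) (hα1.trans hX) hα0 (hα0.trans (hα1.trans hX))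
        have h2 : β * β ≤ (4 * (D + 1) / T) * (4 * (D + 1) / T) :=
          mul_le_mul (hβ1.trans hX) (hβ1.trans hX) hβ0 (hβ0.trans (hβ1.trans hX))
        calc 2 * (3 * (α * α) + β * β) ≤ 8 * ((4 * (D + 1) / T) * (4 * (D + 1) / T)) := by linarith
          _ = 128 * (D + 1) ^ 2 / T ^ 2 := by ring

open Classical in
/-- (6.4b), mean excess, with three copies -/
theorem excess_three {p₀ p' : G → ℝ} (h₀ : IsLaw p₀) (h' : IsLaw p') (h₀0 : ∀ x, 0 < p₀ x)
    (a b : G) {T D : ℝ} (hT : 5 ≤ T) (hDa : KL (tau a p₀) p₀ ≤ D) (hDb : KL (tau b p₀) p₀ ≤ D)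
    (hD : 0 ≤ D) :
    ∑ z, tau (a + b) (cv (cv (cv p₀ p₀) p₀) p') z * max (Real.log
      (tau (a + b) (cv (cv (cv p₀ p₀) p₀) p') z / cv (cv (cv p₀ p₀) p₀) p' z) - T) 0 ≤
      256 * (D + 1) ^ 2 / T := by
  set P := cv (cv (cv p₀ p₀) p₀) p' with hP
  have hPl : IsLaw P := ((h₀.cv h₀).cv h₀).cv h'
  have hP0 : ∀ z, 0 < P z := fun z => cv_pos' (fun x => cv_pos (h₀.cv h₀) h₀0 x) h' z
  have h := excess_le (w := tau (a + b) P) (X := fun z => Real.log (tau (a + b) P z / P z)) (T := T)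
    (c := 128 * (D + 1) ^ 2) (fun z => (hPl.tau _).1 z) (by linarith) ?_
  · refine h.trans (le_of_eq (by ring))
  · intro t ht
    have h2 := split_three h₀ h' h₀0 a b (by linarith : (5 : ℝ) ≤ t) hDa hDb hD
    rw [← hP] at h2
    refine le_trans (le_of_eq ?_) h2
    refine sum_congr (filter_congr fun z _ => ?_) fun _ _ => rfl
    have hτ : 0 < tau (a + b) P z := hP0 _
    rw [Real.le_log_iff_exp_le (div_pos hτ (hP0 z)), le_div_iff₀ (hP0 z), mul_comm]

end three

end Pool.MPbe0380
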