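import Pool.Agent.Lib.MP_be0380_co.S.Hel
import Pool.Agent.Lib.MP_be0380_co.S.Ent

/-!
# be0380 S.Un: knowledge of a list

PROOFS. `un_law`: the fibres of `j ↦ j • E` partition `range M`. `un_ent`: `ent_support` with `S = image`,
card `≤ M`. `un_hel`: `un E M ≥ r`, `tau E (un E M) ≥ r`, `r z = #{1 ≤ j < M : j • E = z}/M`, `∑ r = (M-1)/M`, so
`BC ≥ 1 - 1/M`, `hel ≤ √(1/M)`. `lst_exists`: induction on the finset (insert): `q = cv (un e.1 (4^e.2)) q'`,
`ent ≤ e.2 log 4 + ..`, `log 4 ≤ 2`; `hel q (tau e q) ≤ ..` by `hel_cv` (`tau_cv'`, `cv_comm`).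
-/

set_option autoImplicit false

open Finset

namespace Pool.MPbe0380

variable {G : Type} [AddCommGroup G] [Fintype G] [DecidableEq G]

private theorem un_sum_fib (E : G) (T : Finset ℕ) :
    ∑ z : G, ((T.filter (fun j => j • E = z)).card : ℝ) = T.card := by
  have h := card_eq_sum_card_fiberwise (f := fun j : ℕ => j • E) (s := T) (t := (univ : Finset G))
    (fun _ _ => mem_coe.mpr (mem_univ _))
  rw [h]
  push_cast
  rfl

theorem un_law (E : G) {M : ℕ} (hM : 0 < M) : IsLaw (un E M) := by
  have hM' : (0 : ℝ) < M := by exact_mod_cast hM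
  refine ⟨fun z => div_nonneg (Nat.cast_nonneg _) hM'.le, ?_⟩
  unfold un
  rw [← sum_div, un_sum_fib, card_range, div_self hM'.ne']

theorem un_ent (E : G) {M : ℕ} (hM : 0 < M) : ent (un E M) ≤ Real.log M := by
  have h := ent_support (un_law E hM) ((range M).image (fun j : ℕ => j • E)) ?_
  · refine h.trans (Real.log_le_log ?_ ?_)
    · have h1 : ((range M).image (fun j : ℕ => j • E)).Nonempty :=
        ⟨(0 : ℕ) • E, mem_image_of_mem _ (mem_range.mpr hM)⟩
      exact_mod_cast card_pos.mpr h1
    · have h2 := card_image_le (s := range M) (f := fun j : ℕ => j • E)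
      rw [card_range] at h2
      exact_mod_cast h2
  · intro x hx
    unfold un
    have h1 : (range M).filter (fun j => j • E = x) = ∅ := by
      rw [filter_eq_empty_iff]
      intro j hj hjx
      exact hx (mem_image.mpr ⟨j, hj, hjx⟩)
    rw [h1, card_empty, Nat.cast_zero, zero_div]

theorem un_hel (E : G) {M : ℕ} (hM : 0 < M) : hel (un E M) (tau E (un E M)) ≤ √(1 / M) := by
  have hM' : (0 : ℝ) < M := by exact_mod_cast hM
  unfold hel
  refine Real.sqrt_le_sqrt ?_
  have h1 : ∀ z, (((Ico 1 M).filter (fun j => j • E = z)).card : ℝ) / M ≤ un E M z := by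
    intro z
    unfold un
    refine div_le_div_of_nonneg_right ?_ hM'.le
    have h2 : (Ico 1 M).filter (fun j => j • E = z) ⊆ (range M).filter (fun j => j • E = z) := by
      refine filter_subset_filter _ fun j hj => ?_
      exact mem_range.mpr (mem_Ico.mp hj).2
    exact_mod_cast card_le_card h2
  have h2 : ∀ z, (((Ico 1 M).filter (fun j => j • E = z)).card : ℝ) / M ≤ tau E (un E M) z := by
    intro z
    unfold un
    rw [tau_apply]
    refine div_le_div_of_nonneg_right ?_ hM'.le
    have h3 : ((Ico 1 M).filter (fun j => j • E = z)).card ≤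
        ((range M).filter (fun j => j • E = z - E)).card := by
      refine card_le_card_of_injOn (fun j => j - 1) ?_ ?_
      · intro j hj
        have hj' := mem_filter.mp (mem_coe.mp hj)
        have hj1 := mem_Ico.mp hj'.1
        have hj2 : j - 1 < M := by omega
        refine mem_coe.mpr (mem_filter.mpr ⟨mem_range.mpr hj2, ?_⟩)
        have h4 : j = (j - 1) + 1 := by omega
        have h5 := hj'.2
        rw [h4, succ_nsmul] at h5
        rw [← h5, add_sub_cancel_right]
      · intro a ha b hb hab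
        have ha1 := mem_Ico.mp (mem_filter.mp (mem_coe.mp ha)).1
        have hb1 := mem_Ico.mp (mem_filter.mp (mem_coe.mp hb)).1
        have hab' : a - 1 = b - 1 := hab
        omega
    exact_mod_cast h3
  have h3 : ∑ z : G, (((Ico 1 M).filter (fun j => j • E = z)).card : ℝ) / M ≤
      BC (un E M) (tau E (un E M)) := by
    unfold BC
    refine sum_le_sum fun z _ => ?_
    refine Real.le_sqrt_of_sq_le ?_
    rw [pow_two]
    exact mul_le_mul (h1 z) (h2 z) (div_nonneg (Nat.cast_nonneg _) hM'.le)
      (le_trans (div_nonneg (Nat.cast_nonneg _) hM'.le) (h1 z))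
  rw [← sum_div, un_sum_fib, Nat.card_Ico, Nat.cast_sub hM, Nat.cast_one] at h3
  have h4 : ((M : ℝ) - 1) / M = 1 - 1 / M := by field_simp
  rw [h4] at h3
  linarith

theorem lst_exists (E : Finset (G × ℕ)) :
    ∃ q : G → ℝ, IsLaw q ∧ ent q ≤ 2 * ∑ e ∈ E, ((e.2 : ℝ) + 2) ∧
      ∀ e ∈ E, hel q (tau e.1 q) ≤ (1 / 2 : ℝ) ^ e.2 := by
  induction E using Finset.induction_on with
  | empty =>
    refine ⟨dl, isLaw_dl, ?_, fun e he => absurd he (notMem_empty e)⟩
    rw [sum_empty, mul_zero]
    unfold ent
    refine le_of_eq (sum_eq_zero fun x _ => ?_)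
    unfold dl
    split_ifs
    · exact Real.negMulLog_one
    · exact Real.negMulLog_zero
  | insert e E he ih =>
    obtain ⟨q, hq, hent, hhel⟩ := ih
    have hM : 0 < 4 ^ e.2 := by positivity
    have hU := un_law e.1 hM
    refine ⟨cv (un e.1 (4 ^ e.2)) q, hU.cv hq, ?_, ?_⟩
    · rw [sum_insert he]
      have h1 := ent_cv_le hU hq
      have h2 := un_ent e.1 hM
      have h3 : Real.log ((4 ^ e.2 : ℕ) : ℝ) ≤ 2 * ((e.2 : ℝ) + 2) := by
        push_cast
        rw [Real.log_pow]
        have h4 : Real.log 4 ≤ 2 := by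
          have h5 : Real.log 4 = 2 * Real.log 2 := by
            rw [show (4 : ℝ) = 2 ^ 2 by norm_num, Real.log_pow]
            norm_num
          have h6 := Real.log_two_lt_d9
          rw [h5]
          linarith
        have h5 : (0 : ℝ) ≤ (e.2 : ℝ) := Nat.cast_nonneg _
        nlinarith
      linarith
    · intro e' he'
      rcases mem_insert.mp he' with h | h
      · rw [h, tau_cv' e.1]
        have h1 := hel_cv hU (hU.tau e.1) hq
        have h2 := un_hel e.1 hM
        have h3 : √(1 / ((4 ^ e.2 : ℕ) : ℝ)) = (1 / 2 : ℝ) ^ e.2 := by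
          rw [show (1 / ((4 ^ e.2 : ℕ) : ℝ)) = ((1 / 2 : ℝ) ^ e.2) ^ 2 by
            push_cast
            rw [← pow_mul, mul_comm e.2 2, pow_mul, one_div, ← inv_pow]
            norm_num]
          exact Real.sqrt_sq (by positivity)
        rw [h3] at h2
        exact h1.trans h2
      · rw [cv_comm, tau_cv' e'.1]
        have h1 := hel_cv hq (hq.tau e'.1) hU
        exact h1.trans (hhel e' h)

end Pool.MPbe0380
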