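import Pool.Agent.Lib.MP_be0380_co.S.Wt
import Pool.Agent.Lib.MP_be0380_co.S.Conf
import Pool.Agent.Lib.MP_be0380_co.S.Budget
import Pool.Agent.Lib.MP_be0380_co.S.Un

/-!
# be0380 S.Twin: (TP), (6.12)

PROOF. `c, d ∈ A`, `c + d = u + w`, `{c,d} ≠ {u,w}` from `NUS`. `(x,y) ∈ Pc c` (`u + w - c = d`), so it is not light: one of the two
degrees is `> B^1000`. CASE 1: `∑_(y' : Pc c x y') J y' > B^1000`. `q` from `lst_exists {(c - x, B^30)}`: `ent q ≤ 2 (B^30 + 2)`,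
`hel q (tau (c-x) q) ≤ (1/2)^(B^30)`. By `budget` `∑ J y' kap q y' ≤ 4 (B^30 + 2)`, so some `y'` with `Pc c x y'` has
`kap q y' ≤ 4 (B^30+2)/B^1000 ≤ B^(-240)`. It has `u', w' ∈ A` near `x`, `y'` with `d' = u' + w' - c ∈ A`. With
`g = (u' - x) + (w' - y')`: `d' = y' + g + (-(c - x))`, `dist g ≤ 2 B^(-240)`. `conf` with `s = 2 B^(-6)`:
`s^40 = 2^40 B^(-240)`; `9 (1+l) s^2 = 36 (1+l) B^(-12) ≤ 1`; `(s⁻¹)^5 = B^30/32`, `(1/2)^(B^30) ≤ exp (-B^30/32)`; `hel q (tau (-v) q) =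
hel q (tau v q)`. So `dist (g - (c - x)) ≤ 2^8 B^(-48)`, `dist (c - x) ≤ 2^8 B^(-48) + 2 B^(-240)`,
`dist (d - y) ≤ dist (u - x) + dist (w - y) + dist (c - x) ≤ 2^8 B^(-48) + 4 B^(-240) ≤ B^(-40)`. `z = u - c ≠ 0`: `u - z = c ∈ X0 x`,
`w + z = d ∈ X0 y`. CASE 2 symmetric (`x` and `y` exchanged, `z = u - d ≠ 0`).
-/

set_option autoImplicit false

open Finset

namespace Pool.MPbe0380

namespace SD

variable {p : ℕ} [Fact p.Prime] (S : SD p)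

private theorem tw_core {B : ℕ} (hB1 : 1000 * (1 + S.l) ≤ B) {x0 c : ZMod p} (F : Finset (ZMod p))
    (hF : (B : ℝ) ^ 1000 < ∑ y' ∈ F, S.J y')
    (h : ∀ y' ∈ F, 0 < S.J y' ∧ ∃ u' ∈ S.A, ∃ w' ∈ S.A, S.Nr B u' x0 ∧ S.Nr B w' y' ∧
      u' + w' - c ∈ S.A) :
    S.dist (c - x0) ≤ 2 * ((B : ℝ) ^ 240)⁻¹ + 256 * ((B : ℝ) ^ 48)⁻¹ := by
  have hl := S.l_pos
  have hB : (1000 : ℝ) ≤ B := by nlinarith
  have hB0 : (0 : ℝ) < B := by linarith
  have hB1' : (1 : ℝ) ≤ B := by linarith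
  obtain ⟨q, hq, hent, hhel⟩ := lst_exists ({(c - x0, B ^ 30)} : Finset (ZMod p × ℕ))
  have hent' : ent q ≤ 2 * ((B : ℝ) ^ 30 + 2) := by
    rw [sum_singleton] at hent
    push_cast at hent
    exact hent
  have hhel' : hel q (tau (c - x0) q) ≤ (1 / 2 : ℝ) ^ (B ^ 30) := hhel _ (mem_singleton_self _)
  have hbud := S.budget hq
  -- a point with a small loss
  obtain ⟨y', hy', hk⟩ : ∃ y' ∈ F, S.kap q y' ≤ ((B : ℝ) ^ 240)⁻¹ := by
    by_contra hcon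
    push Not at hcon
    have h1 : ((B : ℝ) ^ 240)⁻¹ * ∑ y' ∈ F, S.J y' ≤ ∑ x, S.J x * S.kap q x := by
      rw [mul_sum]
      refine le_trans (sum_le_sum fun y' hy' => ?_)
        (sum_le_univ_sum_of_nonneg (s := F) fun x => mul_nonneg (S.J_nonneg x) (S.kap_nonneg hq x))
      rw [mul_comm]
      exact mul_le_mul_of_nonneg_left (hcon y' hy').le (S.J_nonneg y')
    have h2 : ((B : ℝ) ^ 240)⁻¹ * (B : ℝ) ^ 1000 ≤ ((B : ℝ) ^ 240)⁻¹ * ∑ y' ∈ F, S.J y' :=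
      mul_le_mul_of_nonneg_left hF.le (by positivity)
    have h3 : ((B : ℝ) ^ 240)⁻¹ * (B : ℝ) ^ 1000 = (B : ℝ) ^ 760 := by
      rw [show (1000 : ℕ) = 240 + 760 from rfl, pow_add, ← mul_assoc,
        inv_mul_cancel₀ (by positivity), one_mul]
    have h4 : (B : ℝ) ^ 31 ≤ (B : ℝ) ^ 760 := pow_le_pow_right₀ hB1' (by norm_num)
    have h5 : (B : ℝ) ^ 31 = (B : ℝ) ^ 30 * B := pow_succ _ _
    have h6 : (1 : ℝ) ≤ (B : ℝ) ^ 30 := one_le_pow₀ hB1'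
    have h7 : (1000 : ℝ) * (B : ℝ) ^ 30 ≤ (B : ℝ) ^ 30 * B := by nlinarith
    have h8 : (B : ℝ) ^ 760 ≤ 4 * ((B : ℝ) ^ 30 + 2) := by linarith
    have h9 : (1000 : ℝ) * (B : ℝ) ^ 30 ≤ 4 * ((B : ℝ) ^ 30 + 2) := by linarith
    linarith
  obtain ⟨hJy, u', hu', w', hw', hnu, hnw, hA'⟩ := h y' hy'
  have hnu' : S.dist (u' - x0) ≤ ((B : ℝ) ^ 240)⁻¹ := by
    unfold Nr at hnu
    rw [← one_div, le_div_iff₀ (by positivity)]
    exact hnu
  have hnw' : S.dist (w' - y') ≤ ((B : ℝ) ^ 240)⁻¹ := by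
    unfold Nr at hnw
    rw [← one_div, le_div_iff₀ (by positivity)]
    exact hnw
  set g : ZMod p := (u' - x0) + (w' - y') with hg
  have hdg : S.dist g ≤ 2 * ((B : ℝ) ^ 240)⁻¹ := by
    have := S.dist_add (u' - x0) (w' - y')
    rw [← hg] at this
    linarith
  set s : ℝ := 2 * ((B : ℝ) ^ 6)⁻¹ with hs
  have hs0 : 0 < s := by positivity
  have hs40 : s ^ 40 = 2 ^ 40 * ((B : ℝ) ^ 240)⁻¹ := by
    rw [hs, mul_pow, ← inv_pow, ← pow_mul, inv_pow]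
  have hs8 : s ^ 8 = 256 * ((B : ℝ) ^ 48)⁻¹ := by
    rw [hs, mul_pow, ← inv_pow, ← pow_mul, inv_pow]
    norm_num
  have hi0 : 0 < ((B : ℝ) ^ 240)⁻¹ := by positivity
  have hconf := S.conf hq hJy hs0 (g := g) (d := -(c - x0)) ?_ ?_ ?_ ?_ ?_
  · have h1 : c - x0 = g + -(g + -(c - x0)) := by abel
    rw [h1]
    have h2 := S.dist_add g (-(g + -(c - x0)))
    rw [S.dist_neg] at h2
    rw [hs8] at hconf
    linarith
  · have h1 : s ^ 2 = 4 * ((B : ℝ) ^ 12)⁻¹ := by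
      rw [hs, mul_pow, ← inv_pow, ← pow_mul, inv_pow]
      norm_num
    rw [h1]
    have h2 : ((B : ℝ) ^ 12)⁻¹ ≤ (B : ℝ)⁻¹ :=
      inv_anti₀ hB0 (le_self_pow₀ hB1' (by norm_num))
    have h3 : (1 + S.l) * (B : ℝ)⁻¹ ≤ 1 / 1000 := by
      rw [← div_eq_mul_inv, div_le_iff₀ hB0]
      linarith
    have h4 : (1 + S.l) * ((B : ℝ) ^ 12)⁻¹ ≤ (1 + S.l) * (B : ℝ)⁻¹ :=
      mul_le_mul_of_nonneg_left h2 (by linarith)
    nlinarith
  · rw [hs40]
    nlinarith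
  · have h1 : y' + g + -(c - x0) = u' + w' - c := by
      rw [hg]; abel
    rw [h1]
    exact hA'
  · rw [hs40]
    nlinarith
  · rw [hel_shift_neg]
    refine hhel'.trans ?_
    have h1 : (s⁻¹) ^ 5 = (B : ℝ) ^ 30 / 32 := by
      rw [hs, mul_inv, inv_inv, mul_pow, ← pow_mul]
      norm_num
      ring
    rw [h1]
    have h2 : ((1 : ℝ) / 2) ^ (B ^ 30) = Real.exp (-(((B : ℝ) ^ 30) * Real.log 2)) := by
      rw [one_div, inv_pow, Real.exp_neg, mul_comm, Real.exp_mul, Real.exp_log (by norm_num)]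
      congr 1
      rw [← Real.rpow_natCast 2 (B ^ 30)]
      push_cast
      rfl
    rw [h2]
    refine Real.exp_le_exp.mpr ?_
    have h3 : (1 : ℝ) / 32 ≤ Real.log 2 := by
      have := Real.log_two_gt_d9
      linarith
    have h4 : 0 ≤ (B : ℝ) ^ 30 := by positivity
    nlinarith

private theorem tw_end {B : ℕ} (hB1 : 1000 * (1 + S.l) ≤ B) {r : ℝ}
    (hr : r ≤ 4 * ((B : ℝ) ^ 240)⁻¹ + 256 * ((B : ℝ) ^ 48)⁻¹) : r * (B : ℝ) ^ 40 ≤ 1 := by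
  have hl := S.l_pos
  have hB : (1000 : ℝ) ≤ B := by nlinarith
  have hB0 : (0 : ℝ) < B := by linarith
  have hB1' : (1 : ℝ) ≤ B := by linarith
  have h1 : ((B : ℝ) ^ 240)⁻¹ ≤ ((B : ℝ) ^ 48)⁻¹ :=
    inv_anti₀ (by positivity) (pow_le_pow_right₀ hB1' (by norm_num))
  have h2 : r ≤ 260 * ((B : ℝ) ^ 48)⁻¹ := by linarith
  have h3 : r * (B : ℝ) ^ 40 ≤ 260 * ((B : ℝ) ^ 48)⁻¹ * (B : ℝ) ^ 40 :=
    mul_le_mul_of_nonneg_right h2 (by positivity)
  have h4 : ((B : ℝ) ^ 48)⁻¹ * (B : ℝ) ^ 40 = ((B : ℝ) ^ 8)⁻¹ := by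
    rw [show (48 : ℕ) = 8 + 40 from rfl, pow_add, mul_inv, mul_assoc,
      inv_mul_cancel₀ (by positivity), mul_one]
  have h5 : ((B : ℝ) ^ 8)⁻¹ ≤ (B : ℝ)⁻¹ := inv_anti₀ hB0 (le_self_pow₀ hB1' (by norm_num))
  have h6 : (B : ℝ)⁻¹ ≤ 1 / 1000 := by
    rw [← one_div]
    exact one_div_le_one_div_of_le (by norm_num) hB
  rw [mul_assoc, h4] at h3
  linarith

theorem twin (hA : NUS S.A) {B : ℕ} (hB1 : 1000 * (1 + S.l) ≤ B) {x y : ZMod p}
    (hxy : S.Ty B x y) {u w : ZMod p} (hu : u ∈ S.A) (hw : w ∈ S.A) (hux : S.Nr B u x)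
    (hwy : S.Nr B w y) : ∃ z : ZMod p, z ≠ 0 ∧ u - z ∈ S.X0 B x ∧ w + z ∈ S.X0 B y := by
  classical
  have hl := S.l_pos
  have hB : (1000 : ℝ) ≤ B := by nlinarith
  have hB0 : (0 : ℝ) < B := by linarith
  have hi0 : 0 < ((B : ℝ) ^ 240)⁻¹ := by positivity
  obtain ⟨c, hc, d, hd, hcd, hne⟩ := hA u hu w hw
  have hdd : d = u + w - c := by rw [← hcd]; abel
  obtain ⟨hxG, hyG, hGP, hLt⟩ := hxy
  have hPc : S.Pc B c x y := ⟨hGP, u, hu, w, hw, hux, hwy, by rw [← hdd]; exact hd⟩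
  have hnl := hLt c hc
  have hux' : S.dist (u - x) ≤ ((B : ℝ) ^ 240)⁻¹ := by
    unfold Nr at hux
    rw [← one_div, le_div_iff₀ (by positivity)]
    exact hux
  have hwy' : S.dist (w - y) ≤ ((B : ℝ) ^ 240)⁻¹ := by
    unfold Nr at hwy
    rw [← one_div, le_div_iff₀ (by positivity)]
    exact hwy
  have hor : (B : ℝ) ^ 1000 < ∑ y' ∈ univ.filter (fun y' => S.Pc B c x y'), S.J y' ∨
      (B : ℝ) ^ 1000 < ∑ x' ∈ univ.filter (fun x' => S.Pc B c x' y), S.J x' := by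
    by_contra hcon
    push Not at hcon
    apply hnl
    refine ⟨hPc, ?_, ?_⟩
    · refine le_of_eq_of_le ?_ hcon.1
      refine sum_congr ?_ fun _ _ => rfl
      ext y'
      simp
    · refine le_of_eq_of_le ?_ hcon.2
      refine sum_congr ?_ fun _ _ => rfl
      ext y'
      simp
  rcases hor with h1 | h2
  · have hcore := S.tw_core hB1 (x0 := x) (c := c) _ h1 (by
      intro y' hy'
      obtain ⟨hgp, u', hu', w', hw', hn1, hn2, hm⟩ := (mem_filter.mp hy').2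
      exact ⟨hgp.2.1, u', hu', w', hw', hn1, hn2, hm⟩)
    have hdy : S.dist (d - y) ≤ 4 * ((B : ℝ) ^ 240)⁻¹ + 256 * ((B : ℝ) ^ 48)⁻¹ := by
      have e1 : d - y = ((u - x) + (w - y)) + -(c - x) := by rw [hdd]; abel
      have e2 := S.dist_add ((u - x) + (w - y)) (-(c - x))
      have e3 := S.dist_add (u - x) (w - y)
      rw [S.dist_neg] at e2
      rw [e1]
      linarith
    refine ⟨u - c, ?_, ?_, ?_⟩
    · intro h0
      apply hne
      left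
      have : c = u := (sub_eq_zero.mp h0).symm
      exact ⟨this, by rw [hdd, this]; abel⟩
    · rw [sub_sub_cancel]
      unfold X0
      rw [mem_filter]
      exact ⟨hc, S.tw_end hB1 (by linarith)⟩
    · have e1 : w + (u - c) = d := by rw [hdd]; abel
      rw [e1]
      unfold X0
      rw [mem_filter]
      exact ⟨hd, S.tw_end hB1 hdy⟩
  · have hcore := S.tw_core hB1 (x0 := y) (c := c) _ h2 (by
      intro x' hx'
      obtain ⟨hgp, u', hu', w', hw', hn1, hn2, hm⟩ := (mem_filter.mp hx').2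
      exact ⟨hgp.1, w', hw', u', hu', hn2, hn1, by rw [add_comm w' u']; exact hm⟩)
    have hdx : S.dist (d - x) ≤ 4 * ((B : ℝ) ^ 240)⁻¹ + 256 * ((B : ℝ) ^ 48)⁻¹ := by
      have e1 : d - x = ((u - x) + (w - y)) + -(c - y) := by rw [hdd]; abel
      have e2 := S.dist_add ((u - x) + (w - y)) (-(c - y))
      have e3 := S.dist_add (u - x) (w - y)
      rw [S.dist_neg] at e2
      rw [e1]
      linarith
    refine ⟨u - d, ?_, ?_, ?_⟩
    · intro h0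
      apply hne
      right
      have : d = u := (sub_eq_zero.mp h0).symm
      refine ⟨?_, this⟩
      have : c = u + w - d := by rw [← hcd]; abel
      rw [this, ‹d = u›]
      abel
    · rw [sub_sub_cancel]
      unfold X0
      rw [mem_filter]
      exact ⟨hd, S.tw_end hB1 hdx⟩
    · have e1 : w + (u - d) = c := by rw [hdd]; abel
      rw [e1]
      unfold X0
      rw [mem_filter]
      exact ⟨hc, S.tw_end hB1 (by linarith)⟩

end SD

end Pool.MPbe0380
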