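import Pool.Agent.Lib.MP_be0380_co.S.Hub
import Pool.Agent.Lib.MP_be0380_co.S.Pairs
import Pool.Agent.Lib.MP_be0380_co.S.Light

/-!
# be0380 S.Wt: weights

`X0 B x = {c ∈ A : dist (c - x) B^40 ≤ 1}`, `G0 B = {x : J x > 0, |X0 x| B^24010 ≤ m l}`, `Pc B c x y`: `(x,y)` is a good pair and
`u + w - c ∈ A` for some `u, w ∈ A` near `x`, `y`. `Lt B c x y`: `Pc B c x y` and both degrees are `≤ B^1000`. `Ty B x y`: `x, y ∈ G0`,
`GP x y`, no `Lt`.
PROOFS. `G0_weight`: `∑ J x |X0 x| = ∑_(c ∈ A) J{x : dist (c - x) ≤ B^(-40)} ≤ |A| 220/phi` (`hub`); the `x` outside `G0` have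
weight `≤ (220 |A|/phi) B^24010/(m l) ≤ 220 m B^(-990)/l ≤ m/100` (`hTh`, `hB2`: `1/l ≤ B/2`). `Ty_weight`: the pairs of
`G0 × G0` not in `Ty` are not good (weight `≤ m 8 B^80 ≤ m^2/200` by `pairs`, `hm`; `GP` is symmetric) or in some `Lt B c`,
`c ∈ A` (weight `≤ |A| 7000 B^1000/phi ≤ 7000 B^(-24000) m^2` by `light` with `Q` = the set of the pairs with `Lt B c`, `M1 = B^1000`).
`(99/100)^2 - 1/200 - 1/1000 ≥ 9/10`.
-/

set_option autoImplicit false

open Finset

namespace Pool.MPbe0380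

namespace SD

variable {p : ℕ} [Fact p.Prime] (S : SD p)

open Classical in
/-- `X_0(x)` -/
noncomputable def X0 (B : ℕ) (x : ZMod p) : Finset (ZMod p) :=
  S.A.filter (fun c => S.dist (c - x) * (B : ℝ) ^ 40 ≤ 1)

open Classical in
/-- the points with a small hub -/
noncomputable def G0 (B : ℕ) : Finset (ZMod p) :=
  univ.filter (fun x => 0 < S.J x ∧ ((S.X0 B x).card : ℝ) * (B : ℝ) ^ 24010 ≤ S.m * S.l)

/-- `(x, y)` lies in `P_c` -/
def Pc (B : ℕ) (c x y : ZMod p) : Prop :=
  S.GP B x y ∧ ∃ u ∈ S.A, ∃ w ∈ S.A, S.Nr B u x ∧ S.Nr B w y ∧ u + w - c ∈ S.A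

open Classical in
/-- `(x, y)` is light in `P_c` -/
def Lt (B : ℕ) (c x y : ZMod p) : Prop :=
  S.Pc B c x y ∧ ∑ y' ∈ univ.filter (fun y' => S.Pc B c x y'), S.J y' ≤ (B : ℝ) ^ 1000 ∧
    ∑ x' ∈ univ.filter (fun x' => S.Pc B c x' y), S.J x' ≤ (B : ℝ) ^ 1000

/-- typical pairs -/
def Ty (B : ℕ) (x y : ZMod p) : Prop :=
  x ∈ S.G0 B ∧ y ∈ S.G0 B ∧ S.GP B x y ∧ ∀ c ∈ S.A, ¬ S.Lt B c x y

theorem GP_symm {B : ℕ} {x y : ZMod p} (h : S.GP B x y) : S.GP B y x := by
  unfold GP at h ⊢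
  rw [add_comm y x]
  exact ⟨h.2.1, h.1, h.2.2⟩

private theorem Wt_Pc_symm {B : ℕ} {c x y : ZMod p} (h : S.Pc B c x y) : S.Pc B c y x := by
  obtain ⟨h1, u, hu, w, hw, h2, h3, h4⟩ := h
  exact ⟨S.GP_symm h1, w, hw, u, hu, h3, h2, by rwa [add_comm w u]⟩

private theorem Wt_Pc_iff {B : ℕ} {c x y : ZMod p} : S.Pc B c x y ↔ S.Pc B c y x :=
  ⟨S.Wt_Pc_symm, S.Wt_Pc_symm⟩

private theorem Wt_Lt_symm {B : ℕ} {c x y : ZMod p} (h : S.Lt B c x y) : S.Lt B c y x := by
  classical
  obtain ⟨h1, h2, h3⟩ := h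
  refine ⟨S.Wt_Pc_symm h1, ?_, ?_⟩
  · refine le_trans (le_of_eq (sum_congr ?_ fun _ _ => rfl)) h3
    ext z
    simp only [mem_filter, mem_univ, true_and]
    exact S.Wt_Pc_iff
  · refine le_trans (le_of_eq (sum_congr ?_ fun _ _ => rfl)) h2
    ext z
    simp only [mem_filter, mem_univ, true_and]
    exact S.Wt_Pc_iff

private theorem Wt_m_pos : 0 < S.m := by
  obtain ⟨a, ha⟩ := S.J_pos
  exact sum_pos' (fun b _ => S.J_nonneg b) ⟨a, mem_univ a, ha⟩

private theorem Wt_phi_pos : 0 < phi S.l := by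
  have := S.l_pos
  unfold phi
  positivity

private theorem Wt_B {B : ℕ} (hB1 : 1000 * (1 + S.l) ≤ B) : (1000 : ℝ) ≤ B := by
  have := S.l_pos
  linarith

theorem Ty_symm {B : ℕ} {x y : ZMod p} (h : S.Ty B x y) : S.Ty B y x := by
  obtain ⟨h1, h2, h3, h4⟩ := h
  exact ⟨h2, h1, S.GP_symm h3, fun c hc h5 => h4 c hc (S.Wt_Lt_symm h5)⟩

theorem G0_weight {B : ℕ} (hB1 : 1000 * (1 + S.l) ≤ B) (hB2 : 2 ≤ B * S.l)
    (hTh : (S.A.card : ℝ) * (B : ℝ) ^ 25000 ≤ phi S.l * S.m ^ 2) :
    99 / 100 * S.m ≤ ∑ x ∈ S.G0 B, S.J x := by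
  classical
  have hm := S.Wt_m_pos
  have hl := S.l_pos
  have hphi := S.Wt_phi_pos
  have hb := S.Wt_B hB1
  generalize hbdef : (B : ℝ) = b at hB1 hB2 hTh hb
  have hb0 : 0 < b := by linarith
  -- the weighted size of the hubs
  have h1 : (∑ x ∈ univ.filter (fun x => 0 < S.J x), S.J x * (S.X0 B x).card) * phi S.l ≤
      220 * S.A.card := by
    have h2 : ∑ x ∈ univ.filter (fun x => 0 < S.J x), S.J x * ((S.X0 B x).card : ℝ) =
        ∑ c ∈ S.A, ∑ x ∈ univ.filter (fun x => 0 < S.J x ∧ S.dist (c - x) * (B : ℝ) ^ 40 ≤ 1),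
          S.J x := by
      have h3 : ∀ x, S.J x * ((S.X0 B x).card : ℝ) =
          ∑ c ∈ S.A, if S.dist (c - x) * (B : ℝ) ^ 40 ≤ 1 then S.J x else 0 := by
        intro x
        rw [← sum_filter, sum_const, nsmul_eq_mul, mul_comm]
        rfl
      simp only [h3]
      rw [sum_comm]
      refine sum_congr rfl fun c _ => ?_
      rw [← sum_filter, filter_filter]
    rw [h2, sum_mul]
    calc ∑ c ∈ S.A, (∑ x ∈ univ.filter
          (fun x => 0 < S.J x ∧ S.dist (c - x) * (B : ℝ) ^ 40 ≤ 1), S.J x) * phi S.l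
        ≤ ∑ c ∈ S.A, (220 : ℝ) := by
          refine sum_le_sum fun c _ => ?_
          have := S.hub (B := B) (by rw [hbdef]; exact hB1) (by rw [hbdef]; exact hB2) c
          exact this
      _ = 220 * S.A.card := by rw [sum_const, nsmul_eq_mul, mul_comm]
  have h4 : ∑ x ∈ univ.filter (fun x => ¬ (x ∈ S.G0 B)), S.J x ≤ S.m / 100 := by
    have h5 : (∑ x ∈ univ.filter (fun x => ¬ (x ∈ S.G0 B)), S.J x) * (S.m * S.l) ≤
        (∑ x ∈ univ.filter (fun x => 0 < S.J x), S.J x * (S.X0 B x).card) * b ^ 24010 := by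
      rw [sum_mul, sum_mul]
      have h6 : ∑ x ∈ univ.filter (fun x => ¬ (x ∈ S.G0 B)), S.J x * (S.m * S.l) =
          ∑ x ∈ univ.filter (fun x => 0 < S.J x ∧ ¬ (x ∈ S.G0 B)), S.J x * (S.m * S.l) := by
        refine (sum_subset ?_ ?_).symm
        · intro x hx
          simp only [mem_filter, mem_univ, true_and] at hx ⊢
          exact hx.2
        · intro x hx hx2
          simp only [mem_filter, mem_univ, true_and] at hx hx2
          have : S.J x = 0 := by
            by_contra hne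
            exact hx2 ⟨lt_of_le_of_ne (S.J_nonneg x) (Ne.symm hne), hx⟩
          rw [this, zero_mul]
      rw [h6]
      refine (sum_le_sum (g := fun x => S.J x * (S.X0 B x).card * b ^ 24010) ?_).trans
        (sum_le_sum_of_subset_of_nonneg ?_ ?_)
      · intro x hx
        simp only [mem_filter, mem_univ, true_and] at hx
        have h7 : ¬ (((S.X0 B x).card : ℝ) * b ^ 24010 ≤ S.m * S.l) := by
          intro hc
          apply hx.2
          unfold G0
          simp only [mem_filter, mem_univ, true_and]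
          rw [hbdef]
          exact ⟨hx.1, hc⟩
        push Not at h7
        rw [mul_assoc]
        exact mul_le_mul_of_nonneg_left h7.le hx.1.le
      · intro x hx
        simp only [mem_filter, mem_univ, true_and] at hx ⊢
        exact hx.1
      · intro x hx _
        have := S.J_nonneg x
        positivity
    -- numbers
    set W := ∑ x ∈ univ.filter (fun x => ¬ (x ∈ S.G0 B)), S.J x with hW
    set V := ∑ x ∈ univ.filter (fun x => 0 < S.J x), S.J x * ((S.X0 B x).card : ℝ) with hV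
    have hW0 : 0 ≤ W := sum_nonneg fun x _ => S.J_nonneg x
    have e1 : b ^ 25000 = b ^ 24010 * (b * b ^ 989) := by
      rw [← pow_succ', ← pow_add]
    have hp1 : 0 < b ^ 24010 := by positivity
    have hp2 : (22000 : ℝ) ≤ b ^ 989 := by
      calc (22000 : ℝ) ≤ 1000 ^ 2 := by norm_num
        _ ≤ b ^ 2 := pow_le_pow_left₀ (by norm_num) hb 2
        _ ≤ b ^ 989 := pow_le_pow_right₀ (by linarith) (by norm_num)
    have e2 : V * phi S.l * b ^ 25000 ≤ 220 * (phi S.l * S.m ^ 2) := by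
      calc V * phi S.l * b ^ 25000 ≤ 220 * S.A.card * b ^ 25000 :=
            mul_le_mul_of_nonneg_right h1 (by positivity)
        _ = 220 * (S.A.card * b ^ 25000) := by ring
        _ ≤ 220 * (phi S.l * S.m ^ 2) := mul_le_mul_of_nonneg_left hTh (by norm_num)
    have e3 : V * b ^ 25000 ≤ 220 * S.m ^ 2 := by
      have : phi S.l * (V * b ^ 25000) ≤ phi S.l * (220 * S.m ^ 2) := by linarith
      exact le_of_mul_le_mul_left this hphi
    have e4 : W * (S.m * S.l) * (b * b ^ 989) ≤ 220 * S.m ^ 2 := by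
      calc W * (S.m * S.l) * (b * b ^ 989) ≤ V * b ^ 24010 * (b * b ^ 989) :=
            mul_le_mul_of_nonneg_right h5 (by positivity)
        _ = V * b ^ 25000 := by rw [e1]; ring
        _ ≤ _ := e3
    have e5 : W * (b * S.l * b ^ 989) ≤ 220 * S.m := by
      have : S.m * (W * (b * S.l * b ^ 989)) ≤ S.m * (220 * S.m) := by linarith
      exact le_of_mul_le_mul_left this hm
    have e6 : (44000 : ℝ) ≤ b * S.l * b ^ 989 := by
      calc (44000 : ℝ) = 2 * 22000 := by norm_num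
        _ ≤ b * S.l * b ^ 989 := mul_le_mul hB2 hp2 (by norm_num) (by positivity)
    have e7 : W * 44000 ≤ W * (b * S.l * b ^ 989) := mul_le_mul_of_nonneg_left e6 hW0
    linarith
  have h8 : ∑ x, S.J x = ∑ x ∈ S.G0 B, S.J x +
      ∑ x ∈ univ.filter (fun x => ¬ (x ∈ S.G0 B)), S.J x := by
    rw [← sum_filter_add_sum_filter_not univ (fun x => x ∈ S.G0 B)]
    congr 1
    refine sum_congr ?_ fun _ _ => rfl
    ext x
    simp
  have h9 : S.m = ∑ x, S.J x := rfl
  linarith

open Classical in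
theorem Ty_weight {B : ℕ} (hB1 : 1000 * (1 + S.l) ≤ B) (hB2 : 2 ≤ B * S.l)
    (hTh : (S.A.card : ℝ) * (B : ℝ) ^ 25000 ≤ phi S.l * S.m ^ 2) (hm : (B : ℝ) ^ 1000 ≤ S.m) :
    9 / 10 * (∑ x ∈ S.G0 B, S.J x) ^ 2 ≤
      ∑ e ∈ univ.filter (fun e : ZMod p × ZMod p => S.Ty B e.1 e.2), S.J e.1 * S.J e.2 := by
  have hG := S.G0_weight hB1 hB2 hTh
  have hm0 := S.Wt_m_pos
  have hphi := S.Wt_phi_pos
  have hb := S.Wt_B hB1
  have hJ := S.J_nonneg
  have hG0J : ∀ x ∈ S.G0 B, 0 < S.J x := by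
    intro x hx
    unfold G0 at hx
    exact (mem_filter.mp hx).2.1
  -- pairs that are not good
  have hbad1 : ∑ e ∈ (S.G0 B ×ˢ S.G0 B).filter (fun e => ¬ S.GP B e.1 e.2), S.J e.1 * S.J e.2 ≤
      8 * (B : ℝ) ^ 80 * S.m := by
    rw [sum_filter, sum_product_right]
    calc ∑ y ∈ S.G0 B, ∑ x ∈ S.G0 B, (if ¬ S.GP B x y then S.J x * S.J y else 0)
        ≤ ∑ y ∈ S.G0 B, 8 * (B : ℝ) ^ 80 * S.J y := by
          refine sum_le_sum fun y hy => ?_
          have h1 := S.pairs (B := B) hB1 (hG0J y hy)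
          rw [← sum_filter]
          calc ∑ x ∈ (S.G0 B).filter (fun x => ¬ S.GP B x y), S.J x * S.J y
              = (∑ x ∈ (S.G0 B).filter (fun x => ¬ S.GP B x y), S.J x) * S.J y := by
                rw [sum_mul]
            _ ≤ (∑ x ∈ univ.filter (fun x => 0 < S.J x ∧ ¬ S.GP B x y), S.J x) * S.J y := by
                refine mul_le_mul_of_nonneg_right ?_ (hJ y)
                refine sum_le_sum_of_subset_of_nonneg ?_ fun _ _ _ => hJ _
                intro x hx
                simp only [mem_filter, mem_univ, true_and] at hx ⊢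
                exact ⟨hG0J x hx.1, hx.2⟩
            _ ≤ 8 * (B : ℝ) ^ 80 * S.J y := mul_le_mul_of_nonneg_right h1 (hJ y)
      _ = 8 * (B : ℝ) ^ 80 * ∑ y ∈ S.G0 B, S.J y := by rw [mul_sum]
      _ ≤ 8 * (B : ℝ) ^ 80 * S.m := by
          refine mul_le_mul_of_nonneg_left ?_ (by positivity)
          exact sum_le_sum_of_subset_of_nonneg (subset_univ _) fun _ _ _ => hJ _
  -- light pairs
  have hlight : ∀ c ∈ S.A, (∑ e ∈ univ.filter (fun e : ZMod p × ZMod p => S.Lt B c e.1 e.2),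
      S.J e.1 * S.J e.2) * phi S.l ≤ 7000 * (B : ℝ) ^ 1000 := by
    intro c hc
    refine S.light hB1 hB2 hc _ ?_ (one_le_pow₀ (by linarith)) ?_ ?_
    · intro e he
      have h1 := (mem_filter.mp he).2
      exact h1.1
    · intro x
      by_cases hne : ((univ.filter (fun e : ZMod p × ZMod p => S.Lt B c e.1 e.2)).filter
          (fun e => e.1 = x)).Nonempty
      · obtain ⟨e0, he0⟩ := hne
        simp only [mem_filter, mem_univ, true_and] at he0
        obtain ⟨h1, h2⟩ := he0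
        subst h2
        refine le_trans ?_ h1.2.1
        rw [← sum_image (s := (univ.filter (fun e : ZMod p × ZMod p => S.Lt B c e.1 e.2)).filter
          (fun e => e.1 = e0.1)) (g := Prod.snd) (f := S.J)]
        · refine sum_le_sum_of_subset_of_nonneg ?_ fun _ _ _ => hJ _
          intro y hy
          simp only [mem_image, mem_filter, mem_univ, true_and] at hy ⊢
          obtain ⟨e, ⟨h3, h4⟩, h5⟩ := hy
          rw [← h5, ← h4]
          exact h3.1
        · intro e he e' he' hee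
          simp only [coe_filter, mem_filter, mem_univ, true_and, Set.mem_setOf_eq] at he he'
          exact Prod.ext (he.2.trans he'.2.symm) hee
      · rw [not_nonempty_iff_eq_empty] at hne
        rw [hne, sum_empty]
        positivity
    · intro y
      by_cases hne : ((univ.filter (fun e : ZMod p × ZMod p => S.Lt B c e.1 e.2)).filter
          (fun e => e.2 = y)).Nonempty
      · obtain ⟨e0, he0⟩ := hne
        simp only [mem_filter, mem_univ, true_and] at he0
        obtain ⟨h1, h2⟩ := he0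
        subst h2
        refine le_trans ?_ h1.2.2
        rw [← sum_image (s := (univ.filter (fun e : ZMod p × ZMod p => S.Lt B c e.1 e.2)).filter
          (fun e => e.2 = e0.2)) (g := Prod.fst) (f := S.J)]
        · refine sum_le_sum_of_subset_of_nonneg ?_ fun _ _ _ => hJ _
          intro x hx
          simp only [mem_image, mem_filter, mem_univ, true_and] at hx ⊢
          obtain ⟨e, ⟨h3, h4⟩, h5⟩ := hx
          rw [← h5, ← h4]
          exact h3.1
        · intro e he e' he' hee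
          simp only [coe_filter, mem_filter, mem_univ, true_and, Set.mem_setOf_eq] at he he'
          exact Prod.ext hee (he.2.trans he'.2.symm)
      · rw [not_nonempty_iff_eq_empty] at hne
        rw [hne, sum_empty]
        positivity
  have hbad2 : (∑ c ∈ S.A, ∑ e ∈ univ.filter (fun e : ZMod p × ZMod p => S.Lt B c e.1 e.2),
      S.J e.1 * S.J e.2) * phi S.l ≤ S.A.card * (7000 * (B : ℝ) ^ 1000) := by
    rw [sum_mul]
    refine (sum_le_sum hlight).trans ?_
    rw [sum_const, nsmul_eq_mul]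
  -- splitting of the square
  have hsplit : (∑ x ∈ S.G0 B, S.J x) ^ 2 ≤
      ∑ e ∈ univ.filter (fun e : ZMod p × ZMod p => S.Ty B e.1 e.2), S.J e.1 * S.J e.2 +
      ∑ e ∈ (S.G0 B ×ˢ S.G0 B).filter (fun e => ¬ S.GP B e.1 e.2), S.J e.1 * S.J e.2 +
      ∑ c ∈ S.A, ∑ e ∈ univ.filter (fun e : ZMod p × ZMod p => S.Lt B c e.1 e.2),
        S.J e.1 * S.J e.2 := by
    rw [sq, sum_mul_sum, ← sum_product']
    have h1 : ∀ e ∈ S.G0 B ×ˢ S.G0 B, S.J e.1 * S.J e.2 ≤
        (if S.Ty B e.1 e.2 then S.J e.1 * S.J e.2 else 0) +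
        (if ¬ S.GP B e.1 e.2 then S.J e.1 * S.J e.2 else 0) +
        ∑ c ∈ S.A, (if S.Lt B c e.1 e.2 then S.J e.1 * S.J e.2 else 0) := by
      intro e he
      have hn : 0 ≤ S.J e.1 * S.J e.2 := mul_nonneg (hJ _) (hJ _)
      have hs : 0 ≤ ∑ c ∈ S.A, (if S.Lt B c e.1 e.2 then S.J e.1 * S.J e.2 else 0) :=
        sum_nonneg fun c _ => by split_ifs <;> [exact hn; exact le_rfl]
      by_cases hT : S.Ty B e.1 e.2
      · rw [if_pos hT]
        have : 0 ≤ (if ¬ S.GP B e.1 e.2 then S.J e.1 * S.J e.2 else 0) := by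
          split_ifs <;> [exact le_rfl; exact hn]
        linarith
      · rw [if_neg hT]
        by_cases hP : S.GP B e.1 e.2
        · have h2 : ∃ c ∈ S.A, S.Lt B c e.1 e.2 := by
            by_contra hc
            push Not at hc
            exact hT ⟨(mem_product.mp he).1, (mem_product.mp he).2, hP, hc⟩
          obtain ⟨c, hc, h3⟩ := h2
          have h4 : S.J e.1 * S.J e.2 ≤
              ∑ c ∈ S.A, (if S.Lt B c e.1 e.2 then S.J e.1 * S.J e.2 else 0) := by
            refine le_trans (le_of_eq ?_) (single_le_sum (f := fun c =>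
              if S.Lt B c e.1 e.2 then S.J e.1 * S.J e.2 else 0)
              (fun c _ => by split_ifs <;> [exact hn; exact le_rfl]) hc)
            rw [if_pos h3]
          rw [if_neg (not_not.mpr hP)]
          linarith
        · rw [if_pos hP]
          linarith
    refine (sum_le_sum h1).trans ?_
    rw [sum_add_distrib, sum_add_distrib]
    refine add_le_add (add_le_add ?_ ?_) ?_
    · rw [← sum_filter]
      refine sum_le_sum_of_subset_of_nonneg ?_ fun _ _ _ => mul_nonneg (hJ _) (hJ _)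
      intro e he
      simp only [mem_filter, mem_univ, true_and] at he ⊢
      exact he.2
    · rw [← sum_filter]
    · rw [sum_comm]
      refine sum_le_sum fun c _ => ?_
      rw [← sum_filter]
      refine sum_le_sum_of_subset_of_nonneg ?_ fun _ _ _ => mul_nonneg (hJ _) (hJ _)
      intro e he
      simp only [mem_filter, mem_univ, true_and] at he ⊢
      exact he.2
  set T := ∑ e ∈ univ.filter (fun e : ZMod p × ZMod p => S.Ty B e.1 e.2), S.J e.1 * S.J e.2
    with hTdef
  set U1 := ∑ e ∈ (S.G0 B ×ˢ S.G0 B).filter (fun e => ¬ S.GP B e.1 e.2), S.J e.1 * S.J e.2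
    with hU1
  set U2 := ∑ c ∈ S.A, ∑ e ∈ univ.filter (fun e : ZMod p × ZMod p => S.Lt B c e.1 e.2),
        S.J e.1 * S.J e.2 with hU2
  set g := ∑ x ∈ S.G0 B, S.J x with hg
  clear_value T U1 U2 g
  generalize (B : ℝ) = b at hB1 hB2 hTh hb hbad1 hbad2 hm
  generalize phi S.l = f at hphi hTh hbad2
  generalize S.m = m at hG hm0 hTh hm hbad1
  have hb0 : 0 < b := by linarith
  have n1 : 8 * b ^ 80 * m ≤ m ^ 2 / 200 := by
    have e1 : 1600 * b ^ 80 ≤ m := by
      calc 1600 * b ^ 80 ≤ b ^ 2 * b ^ 80 := by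
            refine mul_le_mul_of_nonneg_right ?_ (by positivity)
            nlinarith
        _ = b ^ 82 := by rw [← pow_add]
        _ ≤ b ^ 1000 := pow_le_pow_right₀ (by linarith) (by norm_num)
        _ ≤ m := hm
    have e2 : 1600 * b ^ 80 * m ≤ m * m := mul_le_mul_of_nonneg_right e1 hm0.le
    nlinarith
  have n2 : U2 ≤ m ^ 2 / 1000 := by
    have e1 : b ^ 25000 = b ^ 1000 * b ^ 24000 := by rw [← pow_add]
    have e2 : (7000000 : ℝ) ≤ b ^ 24000 := by
      calc (7000000 : ℝ) ≤ 1000 ^ 3 := by norm_num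
        _ ≤ b ^ 3 := pow_le_pow_left₀ (by norm_num) hb 3
        _ ≤ b ^ 24000 := pow_le_pow_right₀ (by linarith) (by norm_num)
    have hp : 0 < b ^ 24000 := by positivity
    have e3 : U2 * f * b ^ 24000 ≤ 7000 * (f * m ^ 2) := by
      calc U2 * f * b ^ 24000 ≤ (S.A.card * (7000 * b ^ 1000)) * b ^ 24000 :=
            mul_le_mul_of_nonneg_right hbad2 hp.le
        _ = 7000 * (S.A.card * b ^ 25000) := by rw [e1]; ring
        _ ≤ _ := mul_le_mul_of_nonneg_left hTh (by norm_num)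
    have e4 : U2 * b ^ 24000 ≤ 7000 * m ^ 2 := by
      have : f * (U2 * b ^ 24000) ≤ f * (7000 * m ^ 2) := by linarith
      exact le_of_mul_le_mul_left this hphi
    by_cases hU : 0 ≤ U2
    · have : U2 * 7000000 ≤ U2 * b ^ 24000 := mul_le_mul_of_nonneg_left e2 hU
      linarith
    · push Not at hU
      have : 0 ≤ m ^ 2 / 1000 := by positivity
      linarith
  have n3 : (99 / 100 * m) ^ 2 ≤ g ^ 2 := pow_le_pow_left₀ (by positivity) hG 2
  nlinarith

end SD

end Pool.MPbe0380
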